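import Pool.Agent.Lib.MP_4eed4e_an_R.Base

/-!
MP_4eed4e_an, project R, block E, module EArc: two areas in the plane of the momenta.

PROOFS.
* `strip_vol`. Fix `y = ξ.2 - κ ξ.1`, `|y| ≤ η ≤ 1 / 8`, and let `f x = x² + (κ x + y)²`. If `|f x
  - 1| ≤ a ≤ 1 / 8` then `|x| ≥ 1 / 2` (otherwise `f x ≤ 1 / 4 + (5 / 8)² < 7 / 8`). For `x, x'`
  of the same sign in this set `f x - f x' = (x - x') ((1 + κ²) (x + x') + 2 κ y)` and the last
  factor is at least `3 / 4` in absolute value, so `|x - x'| ≤ 3 a`; the set of these `x` has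
  measure at most `6 a` (two sets of diameter at most `3 a`; `Real.volume_le_diam`,
  `ENNReal.ofReal`). The shear `(x, y) ↦ (x, κ x + y)` preserves the volume, so the volume is at
  most `2 η * 6 a` (`Measure.prod_apply` after the shear; or apply `Measure.prod_apply` for each
  `x` ... use `MeasureTheory.measurePreserving_add_prod`-like maps, or
  `Measure.addHaar_preimage_linearMap` with determinant `1`).
* `arc_vol`. If `|u₀.2| ≤ |u₀.1|` put `κ = u₀.2 / u₀.1` (`|κ| ≤ 1`, `u₀.2 = κ u₀.1`, also if `u₀ =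
  0`). From `|σ ξ.1 - u₀.1| < b`, `|σ ξ.2 - u₀.2| < b`: `σ |ξ.2 - κ ξ.1| < 2 b`, so `|ξ.2 - κ ξ.1|
  ≤ 2 b / t₁ ≤ 1 / 8`; `strip_vol` with `η = 2 b / t₁`. Otherwise exchange the coordinates.
* `ann_vol`. The set is the union of the parts `|ξ.2| ≤ |ξ.1|` and `|ξ.1| ≤ |ξ.2|`; in the first
  one `|ξ.1| ≥ 1 / 2`, `|ξ.2| ≤ 2` and for fixed `ξ.2` the set of the `ξ.1` of one sign has
  diameter at most `2 a` (`|x² - x'²| ≤ 2 a`, `|x + x'| ≥ 1`). So the area is at most `2 * 4 * 4 a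
  = 32 a`.
-/

namespace Pool.Agent.MP4eed4eR.E

open MeasureTheory Set Filter Topology Metric
open scoped ComplexConjugate ContDiff

noncomputable section

private theorem EArc_sec {T : Set P} (hT : MeasurableSet T) {η c : ℝ} (hη : 0 ≤ η)
    (hc : 0 ≤ c) (h0 : ∀ p ∈ T, |p.2| ≤ η)
    (h1 : ∀ y, |y| ≤ η → volume {x : ℝ | ((x, y) : P) ∈ T} ≤ ENNReal.ofReal c) :
    volume T ≤ ENNReal.ofReal (c * (2 * η)) := by
  rw [Measure.volume_eq_prod, Measure.prod_apply_symm hT]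
  calc ∫⁻ y, volume ((fun x => (x, y)) ⁻¹' T) ≤
      ∫⁻ y, (Icc (-η) η).indicator (fun _ => ENNReal.ofReal c) y := by
        refine lintegral_mono fun y => ?_
        by_cases hy : |y| ≤ η
        · rw [indicator_of_mem (show y ∈ Icc (-η) η from abs_le.1 hy)]
          exact h1 y hy
        · have h2 : (fun x => (x, y)) ⁻¹' T = ∅ := by
            rw [eq_empty_iff_forall_notMem]
            exact fun x hx => hy (h0 _ hx)
          rw [h2, measure_empty]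
          exact bot_le
    _ = ENNReal.ofReal c * volume (Icc (-η) η) := lintegral_indicator_const measurableSet_Icc _
    _ = ENNReal.ofReal (c * (2 * η)) := by
        rw [Real.volume_Icc, ← ENNReal.ofReal_mul hc]
        congr 1
        ring

private theorem EArc_diam {S : Set ℝ} {c : ℝ} (h : ∀ x ∈ S, ∀ x' ∈ S, |x - x'| ≤ c) :
    volume S ≤ ENNReal.ofReal c := by
  refine (Real.volume_le_diam S).trans (Metric.ediam_le fun x hx y hy => ?_)
  rw [edist_dist, Real.dist_eq]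
  exact ENNReal.ofReal_le_ofReal (h x hx y hy)

private theorem EArc_two {S : Set ℝ} {c : ℝ} (h0 : ∀ x ∈ S, 1 / 2 ≤ |x|)
    (h1 : ∀ x ∈ S, ∀ x' ∈ S, 0 < x → 0 < x' → |x - x'| ≤ c)
    (h2 : ∀ x ∈ S, ∀ x' ∈ S, x < 0 → x' < 0 → |x - x'| ≤ c) :
    volume S ≤ ENNReal.ofReal (2 * c) := by
  have h3 : S ⊆ (S ∩ Ioi 0) ∪ (S ∩ Iio 0) := by
    intro x hx
    have h4 := h0 x hx
    rcases lt_trichotomy x 0 with h5 | h5 | h5
    · exact Or.inr ⟨hx, h5⟩
    · rw [h5, abs_zero] at h4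
      norm_num at h4
    · exact Or.inl ⟨hx, h5⟩
  have h6 : volume (S ∩ Ioi 0) ≤ ENNReal.ofReal c :=
    EArc_diam fun x hx x' hx' => h1 x hx.1 x' hx'.1 hx.2 hx'.2
  have h7 : volume (S ∩ Iio 0) ≤ ENNReal.ofReal c :=
    EArc_diam fun x hx x' hx' => h2 x hx.1 x' hx'.1 hx.2 hx'.2
  refine (measure_mono h3).trans ((measure_union_le _ _).trans ((add_le_add h6 h7).trans ?_))
  rw [two_mul]
  by_cases hc : 0 ≤ c
  · rw [ENNReal.ofReal_add hc hc]
  · rw [ENNReal.ofReal_of_nonpos (not_le.1 hc).le, add_zero]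
    exact bot_le

private theorem EArc_kap {u₀ : P} (h : |u₀.2| ≤ |u₀.1|) : |u₀.2 / u₀.1| ≤ 1 := by
  rw [abs_div]
  exact div_le_one_of_le₀ h (abs_nonneg _)

private theorem EArc_kap2 {u₀ ξ : P} {t₁ b σ : ℝ} (h : |u₀.2| ≤ |u₀.1|) (ht₁ : 0 < t₁)
    (hσ : t₁ ≤ σ) (h1 : |(σ • ξ).1 - u₀.1| ≤ b) (h2 : |(σ • ξ).2 - u₀.2| ≤ b) :
    |ξ.2 - u₀.2 / u₀.1 * ξ.1| ≤ 2 * b / t₁ := by
  have hσ0 : 0 < σ := ht₁.trans_le hσ
  have hb : 0 ≤ b := (abs_nonneg _).trans h1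
  have h3 : u₀.2 / u₀.1 * u₀.1 = u₀.2 := by
    by_cases h4 : u₀.1 = 0
    · rw [h4, abs_zero] at h
      have h5 : u₀.2 = 0 := abs_eq_zero.1 (le_antisymm h (abs_nonneg _))
      rw [h4, h5]
      simp
    · exact div_mul_cancel₀ _ h4
  have h6 : σ * (ξ.2 - u₀.2 / u₀.1 * ξ.1) =
      ((σ • ξ).2 - u₀.2) - u₀.2 / u₀.1 * ((σ • ξ).1 - u₀.1) := by
    rw [mul_sub (u₀.2 / u₀.1), h3]
    simp only [Prod.smul_fst, Prod.smul_snd, smul_eq_mul]
    ring
  have h7 : σ * |ξ.2 - u₀.2 / u₀.1 * ξ.1| ≤ 2 * b := by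
    have h9 : σ * |ξ.2 - u₀.2 / u₀.1 * ξ.1| = |σ * (ξ.2 - u₀.2 / u₀.1 * ξ.1)| := by
      rw [abs_mul, abs_of_pos hσ0]
    rw [h9, h6]
    refine (abs_sub _ _).trans ?_
    rw [abs_mul]
    have h8 : |u₀.2 / u₀.1| * |(σ • ξ).1 - u₀.1| ≤ 1 * b :=
      mul_le_mul (EArc_kap h) h1 (abs_nonneg _) zero_le_one
    linarith
  rw [le_div_iff₀ ht₁, mul_comm]
  exact (mul_le_mul_of_nonneg_right hσ (abs_nonneg _)).trans h7

private theorem EArc_swap (κ η a : ℝ) :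
    volume {ξ : P | |ξ.1 - κ * ξ.2| ≤ η ∧ |sq ξ - 1| ≤ a} =
      volume {ξ : P | |ξ.2 - κ * ξ.1| ≤ η ∧ |sq ξ - 1| ≤ a} := by
  have hm : MeasurableSet {ξ : P | |ξ.2 - κ * ξ.1| ≤ η ∧ |sq ξ - 1| ≤ a} := by
    have h1 : IsClosed {ξ : P | |ξ.2 - κ * ξ.1| ≤ η} := isClosed_le (by fun_prop) (by fun_prop)
    have h2 : IsClosed {ξ : P | |sq ξ - 1| ≤ a} :=
      isClosed_le (by unfold sq; fun_prop) (by fun_prop)
    exact (h1.inter h2).measurableSet
  have h1 : {ξ : P | |ξ.1 - κ * ξ.2| ≤ η ∧ |sq ξ - 1| ≤ a} =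
      Prod.swap ⁻¹' {ξ : P | |ξ.2 - κ * ξ.1| ≤ η ∧ |sq ξ - 1| ≤ a} := by
    ext ξ
    simp only [mem_preimage, mem_ofPred_eq, Prod.fst_swap, Prod.snd_swap, sq]
    rw [add_comm (ξ.2 ^ 2)]
  rw [h1]
  exact (Measure.measurePreserving_swap (μ := (volume : Measure ℝ))
    (ν := (volume : Measure ℝ))).measure_preimage hm.nullMeasurableSet

theorem strip_vol {κ η a : ℝ} (hκ : |κ| ≤ 1) (hη : 0 < η) (hη' : η ≤ 1 / 8) (ha : 0 < a)
    (ha' : a ≤ 1 / 8) :
    volume {ξ : P | |ξ.2 - κ * ξ.1| ≤ η ∧ |sq ξ - 1| ≤ a} ≤ ENNReal.ofReal (12 * a * η) := by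
  have hmp : MeasurePreserving (fun p : ℝ × ℝ => (p.1, κ * p.1 + p.2)) volume volume := by
    refine (MeasurePreserving.id (volume : Measure ℝ)).skew_product (μd := volume)
      (μb := volume) (g := fun x y => κ * x + y) ?_ ?_
    · exact (measurable_fst.const_mul κ).add measurable_snd
    · exact Eventually.of_forall fun x => (measurePreserving_add_left volume (κ * x)).map_eq
  have hm : MeasurableSet {ξ : P | |ξ.2 - κ * ξ.1| ≤ η ∧ |sq ξ - 1| ≤ a} := by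
    have h1 : IsClosed {ξ : P | |ξ.2 - κ * ξ.1| ≤ η} := isClosed_le (by fun_prop) (by fun_prop)
    have h2 : IsClosed {ξ : P | |sq ξ - 1| ≤ a} :=
      isClosed_le (by unfold sq; fun_prop) (by fun_prop)
    exact (h1.inter h2).measurableSet
  rw [← hmp.measure_preimage hm.nullMeasurableSet]
  refine (EArc_sec (hmp.measurable hm) hη.le (c := 6 * a) (by linarith) ?_ ?_).trans
    (ENNReal.ofReal_le_ofReal (le_of_eq (by ring)))
  · rintro ⟨x, y⟩ ⟨h1, -⟩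
    have h2 : κ * x + y - κ * x = y := by ring
    simpa only [h2] using h1
  · intro y hy
    have key : ∀ x : ℝ, ((x, y) : P) ∈ (fun p : ℝ × ℝ => (p.1, κ * p.1 + p.2)) ⁻¹'
        {ξ : P | |ξ.2 - κ * ξ.1| ≤ η ∧ |sq ξ - 1| ≤ a} → |x ^ 2 + (κ * x + y) ^ 2 - 1| ≤ a :=
      fun x hx => hx.2
    have hκy : |κ * y| ≤ 1 / 8 := by
      rw [abs_mul]
      calc |κ| * |y| ≤ 1 * (1 / 8) := mul_le_mul hκ (hy.trans hη') (abs_nonneg _) (by norm_num)
        _ = 1 / 8 := by ring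
    have hκy' := abs_le.1 hκy
    have hhalf : ∀ x : ℝ, |x ^ 2 + (κ * x + y) ^ 2 - 1| ≤ a → 1 / 2 ≤ |x| := by
      intro x hx
      by_contra hcon
      have h3 := not_le.1 hcon
      have h4 : |κ * x + y| ≤ 5 / 8 := by
        refine (abs_add_le _ _).trans ?_
        rw [abs_mul]
        have h5 : |κ| * |x| ≤ 1 * (1 / 2) := mul_le_mul hκ h3.le (abs_nonneg _) (by norm_num)
        linarith [hy.trans hη']
      have h6 : x ^ 2 ≤ (1 / 2) ^ 2 := sq_le_sq' (by linarith [(abs_lt.1 h3).1])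
        (by linarith [(abs_lt.1 h3).2])
      have h7 : (κ * x + y) ^ 2 ≤ (5 / 8) ^ 2 := sq_le_sq' (abs_le.1 h4).1 (abs_le.1 h4).2
      have h8 := (abs_le.1 hx).1
      norm_num at h6 h7
      linarith
    have hdiff : ∀ x x' : ℝ, |x ^ 2 + (κ * x + y) ^ 2 - 1| ≤ a →
        |x' ^ 2 + (κ * x' + y) ^ 2 - 1| ≤ a → 1 ≤ |x + x'| → |x - x'| ≤ 3 * a := by
      intro x x' h1 h2 h3
      have h4 : |(x - x') * ((1 + κ ^ 2) * (x + x') + 2 * (κ * y))| ≤ 2 * a := by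
        have h5 : (x - x') * ((1 + κ ^ 2) * (x + x') + 2 * (κ * y)) =
            (x ^ 2 + (κ * x + y) ^ 2 - 1) - (x' ^ 2 + (κ * x' + y) ^ 2 - 1) := by ring
        rw [h5]
        exact (abs_sub _ _).trans (by linarith)
      rw [abs_mul] at h4
      have h6 : 3 / 4 ≤ |(1 + κ ^ 2) * (x + x') + 2 * (κ * y)| := by
        have h7 : |(1 + κ ^ 2) * (x + x')| - |2 * (κ * y)| ≤
            |(1 + κ ^ 2) * (x + x') + 2 * (κ * y)| := by
          have h8 := abs_sub_abs_le_abs_sub ((1 + κ ^ 2) * (x + x')) (-(2 * (κ * y)))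
          rwa [abs_neg, sub_neg_eq_add] at h8
        have h9 : 1 ≤ |(1 + κ ^ 2) * (x + x')| := by
          rw [abs_mul, abs_of_nonneg (by positivity : (0 : ℝ) ≤ 1 + κ ^ 2)]
          nlinarith [sq_nonneg κ, abs_nonneg (x + x')]
        have h10 : |2 * (κ * y)| ≤ 1 / 4 := by
          rw [abs_mul, abs_of_pos (by norm_num : (0 : ℝ) < 2)]
          linarith
        linarith
      have h11 : |x - x'| * (3 / 4) ≤ 2 * a :=
        (mul_le_mul_of_nonneg_left h6 (abs_nonneg _)).trans h4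
      linarith
    refine (EArc_two (c := 3 * a) ?_ ?_ ?_).trans
      (ENNReal.ofReal_le_ofReal (le_of_eq (by ring)))
    · exact fun x hx => hhalf x (key x hx)
    · intro x hx x' hx' h1 h2
      have e1 := hhalf x (key x hx)
      have e2 := hhalf x' (key x' hx')
      rw [abs_of_pos h1] at e1
      rw [abs_of_pos h2] at e2
      exact hdiff x x' (key x hx) (key x' hx') (by rw [abs_of_pos (by linarith)]; linarith)
    · intro x hx x' hx' h1 h2
      have e1 := hhalf x (key x hx)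
      have e2 := hhalf x' (key x' hx')
      rw [abs_of_neg h1] at e1
      rw [abs_of_neg h2] at e2
      exact hdiff x x' (key x hx) (key x' hx') (by rw [abs_of_neg (by linarith)]; linarith)

theorem arc_vol {t₁ a b : ℝ} (ht₁ : 0 < t₁) (ha : 0 < a) (ha' : a ≤ 1 / 8) (hb : 0 < b)
    (hb' : b ≤ t₁ / 16) (u₀ : P) :
    volume {ξ : P | |sq ξ - 1| ≤ a ∧ ∃ σ : ℝ, t₁ ≤ σ ∧ dist (σ • ξ) u₀ < b} ≤
      ENNReal.ofReal (24 * a * b / t₁) := by
  have hη : 0 < 2 * b / t₁ := by positivity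
  have hη' : 2 * b / t₁ ≤ 1 / 8 := by
    rw [div_le_iff₀ ht₁]
    linarith
  have heq : 12 * a * (2 * b / t₁) = 24 * a * b / t₁ := by ring
  by_cases h : |u₀.2| ≤ |u₀.1|
  · have h1 := strip_vol (EArc_kap h) hη hη' ha ha'
    rw [heq] at h1
    refine (measure_mono ?_).trans h1
    rintro ξ ⟨h2, σ, hσ, h3⟩
    rw [Prod.dist_eq, max_lt_iff, Real.dist_eq, Real.dist_eq] at h3
    exact ⟨EArc_kap2 h ht₁ hσ h3.1.le h3.2.le, h2⟩
  · have h' : |u₀.1| ≤ |u₀.2| := (not_le.1 h).le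
    have h1 := strip_vol (EArc_kap (u₀ := (u₀.2, u₀.1)) h') hη hη' ha ha'
    rw [heq] at h1
    rw [← EArc_swap] at h1
    refine (measure_mono ?_).trans h1
    rintro ξ ⟨h2, σ, hσ, h3⟩
    rw [Prod.dist_eq, max_lt_iff, Real.dist_eq, Real.dist_eq] at h3
    exact ⟨EArc_kap2 (u₀ := (u₀.2, u₀.1)) (ξ := (ξ.2, ξ.1)) h' ht₁ hσ h3.2.le h3.1.le, h2⟩

theorem ann_vol {a : ℝ} (ha : 0 < a) (ha' : a ≤ 1 / 8) :
    volume {ξ : P | |sq ξ - 1| ≤ a} ≤ ENNReal.ofReal (32 * a) := by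
  have hm : MeasurableSet {ξ : P | |ξ.2| ≤ |ξ.1| ∧ |sq ξ - 1| ≤ a} := by
    have h1 : IsClosed {ξ : P | |ξ.2| ≤ |ξ.1|} := isClosed_le (by fun_prop) (by fun_prop)
    have h2 : IsClosed {ξ : P | |sq ξ - 1| ≤ a} :=
      isClosed_le (by unfold sq; fun_prop) (by fun_prop)
    exact (h1.inter h2).measurableSet
  have hA : volume {ξ : P | |ξ.2| ≤ |ξ.1| ∧ |sq ξ - 1| ≤ a} ≤ ENNReal.ofReal (16 * a) := by
    refine (EArc_sec hm (η := 2) (by norm_num) (c := 4 * a) (by linarith) ?_ ?_).trans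
      (ENNReal.ofReal_le_ofReal (le_of_eq (by ring)))
    · rintro ξ ⟨-, h2⟩
      have h3 := (abs_le.1 h2).2
      unfold sq at h3
      exact abs_le_of_sq_le_sq (by nlinarith [sq_nonneg ξ.1]) (by norm_num)
    · intro y _
      have hhalf : ∀ x : ℝ, |y| ≤ |x| → |x ^ 2 + y ^ 2 - 1| ≤ a → 1 / 2 ≤ |x| := by
        intro x h1 h2
        have h3 := (abs_le.1 h2).1
        have h4 : y ^ 2 ≤ x ^ 2 := sq_le_sq.2 h1
        by_contra h5
        have h6 : |x| ^ 2 ≤ (1 / 2) ^ 2 := pow_le_pow_left₀ (abs_nonneg _) (not_le.1 h5).le 2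
        rw [sq_abs] at h6
        norm_num at h6
        linarith
      have hdiff : ∀ x x' : ℝ, |x ^ 2 + y ^ 2 - 1| ≤ a → |x' ^ 2 + y ^ 2 - 1| ≤ a →
          1 ≤ |x + x'| → |x - x'| ≤ 2 * a := by
        intro x x' h1 h2 h3
        have h4 : |(x - x') * (x + x')| ≤ 2 * a := by
          have h5 : (x - x') * (x + x') = (x ^ 2 + y ^ 2 - 1) - (x' ^ 2 + y ^ 2 - 1) := by ring
          rw [h5]
          exact (abs_sub _ _).trans (by linarith)
        rw [abs_mul] at h4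
        exact (le_mul_of_one_le_right (abs_nonneg _) h3).trans h4
      refine (EArc_two (c := 2 * a) ?_ ?_ ?_).trans
        (ENNReal.ofReal_le_ofReal (le_of_eq (by ring)))
      · exact fun x hx => hhalf x hx.1 hx.2
      · intro x hx x' hx' h1 h2
        have e1 := hhalf x hx.1 hx.2
        have e2 := hhalf x' hx'.1 hx'.2
        rw [abs_of_pos h1] at e1
        rw [abs_of_pos h2] at e2
        exact hdiff x x' hx.2 hx'.2 (by rw [abs_of_pos (by linarith)]; linarith)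
      · intro x hx x' hx' h1 h2
        have e1 := hhalf x hx.1 hx.2
        have e2 := hhalf x' hx'.1 hx'.2
        rw [abs_of_neg h1] at e1
        rw [abs_of_neg h2] at e2
        exact hdiff x x' hx.2 hx'.2 (by rw [abs_of_neg (by linarith)]; linarith)
  have hB : volume {ξ : P | |ξ.1| ≤ |ξ.2| ∧ |sq ξ - 1| ≤ a} ≤ ENNReal.ofReal (16 * a) := by
    have h1 : {ξ : P | |ξ.1| ≤ |ξ.2| ∧ |sq ξ - 1| ≤ a} =
        Prod.swap ⁻¹' {ξ : P | |ξ.2| ≤ |ξ.1| ∧ |sq ξ - 1| ≤ a} := by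
      ext ξ
      simp only [mem_preimage, mem_ofPred_eq, Prod.fst_swap, Prod.snd_swap, sq]
      rw [add_comm (ξ.2 ^ 2)]
    rw [h1]
    exact ((Measure.measurePreserving_swap (μ := (volume : Measure ℝ))
      (ν := (volume : Measure ℝ))).measure_preimage hm.nullMeasurableSet).le.trans hA
  have hU : {ξ : P | |sq ξ - 1| ≤ a} ⊆ {ξ : P | |ξ.2| ≤ |ξ.1| ∧ |sq ξ - 1| ≤ a} ∪
      {ξ : P | |ξ.1| ≤ |ξ.2| ∧ |sq ξ - 1| ≤ a} := by
    intro ξ hξ
    rcases le_total |ξ.2| |ξ.1| with h | h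
    · exact Or.inl ⟨h, hξ⟩
    · exact Or.inr ⟨h, hξ⟩
  refine (measure_mono hU).trans ((measure_union_le _ _).trans ((add_le_add hA hB).trans ?_))
  rw [← ENNReal.ofReal_add (by linarith) (by linarith)]
  exact ENNReal.ofReal_le_ofReal (le_of_eq (by ring))

end

end Pool.Agent.MP4eed4eR.E
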