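import Pool.Agent.Lib.MP_4eed4e_an_R.F07
import Pool.Agent.Lib.MP_4eed4e_an_RE.EArc

/-!
MP_4eed4e_an, project R, block E, module EBad: the packets which come near a vertex again (E6).

PROOFS.
* `gam_lin`: the elements of `Rf A n` have first component `1` or `-1` (induction), `Geo.Gam` is a
  filtered image.
* `app_inv`: `app γ` is an isometry with inverse `y ↦ (γ.1.1 (y.1 - γ.2.1), γ.1.2 (y.2 - γ.2.2))`.
* `tube_vol`: by Fubini (`Measure.prod_apply_symm` for a measurable set `A' ⊇ A` with the same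
  measure, `toMeasurable`); the section over `ξ` is a closed square of side `2 a`.
* `bad_vol`: for `p = (x, ξ)` in the set, with `σ`, `γ`, `V'`: `dist (x + σ • ξ) u' < rho1` for
  `u' = γ⁻¹ V'`, and `dist x (V + t₁ • ξ) ≤ a1 ≤ rho1`, so `dist ((t₁ + σ) • ξ) (u' - V) < 2
  rho1`. The set is contained in the finite union over `γ ∈ G.Gam T`, `V' ∈ G.V` of the sets of
  `tube_vol` with `A` the set of `arc_vol` (`a = a1`, `b = 2 rho1`, `u₀ = u' - V`).
* `N_vol`: the square `{dist x V < θ}` has area `4 θ²`, and `ann_vol`.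
-/

namespace Pool.Agent.MP4eed4eR.E

open MeasureTheory Set Filter Topology Metric
open scoped ComplexConjugate ContDiff

noncomputable section

variable {D : Set P}

/-- The points of phase space near the outgoing wave front of `V` which come near a vertex. -/
def bad (G : Geo D) (t₁ T δ : ℝ) (V : P) : Set (P × P) :=
  {p | dist p.1 (V + t₁ • p.2) ≤ a1 δ ∧ |sq p.2 - 1| ≤ a1 δ ∧ ∃ σ : ℝ, 0 ≤ σ ∧ σ ≤ T ∧
    ∃ γ ∈ G.Gam T, ∃ V' ∈ G.V, dist (app γ (p.1 + σ • p.2)) V' < rho1 δ}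

private theorem EBad_rf (A : Finset ℝ) (n : ℕ) : ∀ p ∈ Rf A n, p.1 = 1 ∨ p.1 = -1 := by
  induction n with
  | zero =>
    intro p hp
    rw [Rf, Finset.mem_singleton] at hp
    left
    rw [hp]
  | succ n ih =>
    intro p hp
    rw [Rf, Finset.mem_union] at hp
    rcases hp with hp | hp
    · exact ih p hp
    · rw [Finset.mem_image] at hp
      obtain ⟨q, hq, rfl⟩ := hp
      rw [Finset.mem_product] at hq
      rcases ih _ hq.1 with h | h
      · right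
        simp [h]
      · left
        simp [h]

private theorem EBad_cb (p : P) {r : ℝ} (hr : 0 ≤ r) :
    volume (closedBall p r) = ENNReal.ofReal (4 * r ^ 2) := by
  rw [← closedBall_prod_same p.1 p.2 r, Measure.volume_eq_prod, Measure.prod_prod,
    Real.volume_closedBall, Real.volume_closedBall, ← ENNReal.ofReal_mul (by linarith)]
  congr 1
  ring

private theorem EBad_small {n : ℕ} (hn : n ≠ 0) {d : ℝ} (hd : 0 < d) :
    ∀ᶠ δ in 𝓝[>] (0 : ℝ), δ ^ n < d := by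
  have h1 : Tendsto (fun δ : ℝ => δ ^ n) (𝓝[>] 0) (𝓝 0) := by
    have h3 := (continuous_pow n).tendsto (0 : ℝ)
    rw [zero_pow hn] at h3
    exact h3.mono_left nhdsWithin_le_nhds
  exact h1.eventually (gt_mem_nhds hd)

private theorem EBad_ev {t₁ : ℝ} (ht₁ : 0 < t₁) : ∀ᶠ δ in 𝓝[>] (0 : ℝ),
    0 < a1 δ ∧ 0 < rho1 δ ∧ a1 δ ≤ rho1 δ ∧ a1 δ ≤ 1 / 8 ∧ 2 * rho1 δ ≤ t₁ / 16 := by
  filter_upwards [Ioo_mem_nhdsGT (one_pos (α := ℝ)),
    EBad_small (n := 32) (by norm_num) (d := 1 / 8) (by norm_num),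
    EBad_small (n := 30) (by norm_num) (d := t₁ / 32) (by positivity)] with δ h1 h2 h3
  have h4 : rho1 δ < t₁ / 32 := h3
  refine ⟨pow_pos h1.1 _, pow_pos h1.1 _,
    pow_le_pow_of_le_one h1.1.le h1.2.le (by norm_num), h2.le, by linarith⟩

private theorem EBad_evth : ∀ᶠ δ in 𝓝[>] (0 : ℝ), 0 < th δ ∧ th δ ≤ 1 / 8 := by
  filter_upwards [Ioo_mem_nhdsGT (one_pos (α := ℝ)),
    EBad_small (n := 38) (by norm_num) (d := 1 / 8) (by norm_num)] with δ h1 h2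
  exact ⟨pow_pos h1.1 _, h2.le⟩

private theorem EBad_tri {x ξ V u : P} {t₁ σ a r : ℝ} (h1 : dist x (V + t₁ • ξ) ≤ a)
    (h2 : dist (x + σ • ξ) u < r) (h3 : a ≤ r) : dist ((t₁ + σ) • ξ) (u - V) < 2 * r := by
  rw [dist_eq_norm] at h1 h2 ⊢
  have h4 : (t₁ + σ) • ξ - (u - V) = (x + σ • ξ - u) - (x - (V + t₁ • ξ)) := by
    rw [add_smul]
    abel
  rw [h4]
  exact (norm_sub_le _ _).trans_lt (by linarith)

theorem gam_lin (G : Geo D) {T : ℝ} {γ : P × P} (h : γ ∈ G.Gam T) :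
    (γ.1.1 = 1 ∨ γ.1.1 = -1) ∧ (γ.1.2 = 1 ∨ γ.1.2 = -1) := by
  rw [Geo.Gam, Finset.mem_filter, Finset.mem_image] at h
  obtain ⟨⟨p, hp, rfl⟩, -⟩ := h
  rw [Finset.mem_product] at hp
  have h2 := EBad_rf _ _ _ hp.1
  have h3 := EBad_rf _ _ _ hp.2
  exact ⟨h2, h3⟩

theorem app_inv {γ : P × P} (h : (γ.1.1 = 1 ∨ γ.1.1 = -1) ∧ (γ.1.2 = 1 ∨ γ.1.2 = -1)) (y v : P) :
    dist (app γ y) v = dist y (γ.1.1 * (v.1 - γ.2.1), γ.1.2 * (v.2 - γ.2.2)) := by
  have key : ∀ {g x c z : ℝ}, (g = 1 ∨ g = -1) → |g * x + c - z| = |x - g * (z - c)| := by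
    intro g x c z hg
    rcases hg with rfl | rfl
    · congr 1
      ring
    · rw [← abs_neg]
      congr 1
      ring
  rw [Prod.dist_eq, Prod.dist_eq, Real.dist_eq, Real.dist_eq, Real.dist_eq, Real.dist_eq]
  simp only [app]
  rw [key h.1, key h.2]

theorem tube_vol (A : Set P) (V : P) (t₁ : ℝ) {a : ℝ} (ha : 0 ≤ a) :
    volume {p : P × P | dist p.1 (V + t₁ • p.2) ≤ a ∧ p.2 ∈ A} ≤
      ENNReal.ofReal (4 * a ^ 2) * volume A := by
  set A' := toMeasurable (volume : Measure P) A with hA'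
  have hAm : MeasurableSet A' := measurableSet_toMeasurable _ _
  have hm1 : MeasurableSet {p : P × P | dist p.1 (V + t₁ • p.2) ≤ a} :=
    (isClosed_le (by fun_prop) (by fun_prop)).measurableSet
  have hm : MeasurableSet ({p : P × P | dist p.1 (V + t₁ • p.2) ≤ a} ∩ Prod.snd ⁻¹' A') :=
    hm1.inter (measurable_snd hAm)
  have hsub : {p : P × P | dist p.1 (V + t₁ • p.2) ≤ a ∧ p.2 ∈ A} ⊆
      {p : P × P | dist p.1 (V + t₁ • p.2) ≤ a} ∩ Prod.snd ⁻¹' A' :=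
    fun p hp => ⟨hp.1, subset_toMeasurable _ _ hp.2⟩
  refine (measure_mono hsub).trans ?_
  rw [Measure.volume_eq_prod, Measure.prod_apply_symm hm]
  calc ∫⁻ ξ : P, volume ((fun x => (x, ξ)) ⁻¹'
        ({p : P × P | dist p.1 (V + t₁ • p.2) ≤ a} ∩ Prod.snd ⁻¹' A')) ≤
      ∫⁻ ξ : P, A'.indicator (fun _ => ENNReal.ofReal (4 * a ^ 2)) ξ := by
        refine lintegral_mono fun ξ => ?_
        by_cases hξ : ξ ∈ A'
        · rw [indicator_of_mem hξ, ← EBad_cb (V + t₁ • ξ) ha]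
          exact measure_mono fun x hx => hx.1
        · have h2 : (fun x => (x, ξ)) ⁻¹'
              ({p : P × P | dist p.1 (V + t₁ • p.2) ≤ a} ∩ Prod.snd ⁻¹' A') = ∅ := by
            rw [eq_empty_iff_forall_notMem]
            exact fun x hx => hξ hx.2
          rw [h2, measure_empty]
          exact bot_le
    _ = ENNReal.ofReal (4 * a ^ 2) * volume A' := lintegral_indicator_const hAm _
    _ = ENNReal.ofReal (4 * a ^ 2) * volume A := by rw [hA', measure_toMeasurable]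

theorem bad_vol (G : Geo D) {t₁ : ℝ} (ht₁ : 0 < t₁) (T : ℝ) : ∃ C : ℝ, 0 ≤ C ∧
    ∀ᶠ δ in 𝓝[>] (0 : ℝ), ∀ V : P,
      volume (bad G t₁ T δ V) ≤ ENNReal.ofReal (C * (a1 δ ^ 3 * rho1 δ)) := by
  refine ⟨((G.Gam T).card : ℝ) * ((G.V.card : ℝ) * (192 / t₁)), by positivity, ?_⟩
  filter_upwards [EBad_ev ht₁] with δ hδ V
  obtain ⟨ha0, hr0, har, ha8, hr16⟩ := hδ
  set A : P × P → P → Set P := fun γ V' => {ξ : P | |sq ξ - 1| ≤ a1 δ ∧ ∃ σ : ℝ, t₁ ≤ σ ∧
    dist (σ • ξ) ((γ.1.1 * (V'.1 - γ.2.1), γ.1.2 * (V'.2 - γ.2.2)) - V) < 2 * rho1 δ} with hA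
  have hsub : bad G t₁ T δ V ⊆ ⋃ γ ∈ G.Gam T, ⋃ V' ∈ G.V,
      {p : P × P | dist p.1 (V + t₁ • p.2) ≤ a1 δ ∧ p.2 ∈ A γ V'} := by
    rintro ⟨x, ξ⟩ ⟨h1, h2, σ, hσ0, -, γ, hγ, V', hV', h3⟩
    refine mem_biUnion (Finset.mem_coe.2 hγ) (mem_biUnion (Finset.mem_coe.2 hV')
      ⟨h1, h2, t₁ + σ, by linarith, ?_⟩)
    rw [app_inv (gam_lin G hγ)] at h3
    exact EBad_tri h1 h3 har
  refine (measure_mono hsub).trans ((measure_biUnion_finset_le _ _).trans ?_)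
  have h1 : ∀ γ ∈ G.Gam T, volume (⋃ V' ∈ G.V,
      {p : P × P | dist p.1 (V + t₁ • p.2) ≤ a1 δ ∧ p.2 ∈ A γ V'}) ≤
      ENNReal.ofReal ((G.V.card : ℝ) * (192 / t₁ * (a1 δ ^ 3 * rho1 δ))) := by
    intro γ _
    refine (measure_biUnion_finset_le _ _).trans ?_
    have h2 : ∀ V' ∈ G.V, volume {p : P × P | dist p.1 (V + t₁ • p.2) ≤ a1 δ ∧ p.2 ∈ A γ V'} ≤
        ENNReal.ofReal (192 / t₁ * (a1 δ ^ 3 * rho1 δ)) := by
      intro V' _
      refine (tube_vol _ V t₁ ha0.le).trans ?_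
      have h3 := arc_vol (b := 2 * rho1 δ) ht₁ ha0 ha8 (by positivity) hr16
        ((γ.1.1 * (V'.1 - γ.2.1), γ.1.2 * (V'.2 - γ.2.2)) - V)
      refine (mul_le_mul_right h3 _).trans ?_
      rw [← ENNReal.ofReal_mul (by positivity)]
      refine ENNReal.ofReal_le_ofReal (le_of_eq ?_)
      field_simp
      ring
    refine (Finset.sum_le_card_nsmul _ _ _ h2).trans ?_
    rw [nsmul_eq_mul, ← ENNReal.ofReal_natCast, ← ENNReal.ofReal_mul (Nat.cast_nonneg _)]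
  refine (Finset.sum_le_card_nsmul _ _ _ h1).trans ?_
  rw [nsmul_eq_mul, ← ENNReal.ofReal_natCast, ← ENNReal.ofReal_mul (Nat.cast_nonneg _)]
  exact ENNReal.ofReal_le_ofReal (le_of_eq (by ring))

theorem meas_bad (G : Geo D) (t₁ T δ : ℝ) (V : P) : MeasurableSet (bad G t₁ T δ V) := by
  have h1 : MeasurableSet {p : P × P | dist p.1 (V + t₁ • p.2) ≤ a1 δ} :=
    (isClosed_le (by fun_prop) (by fun_prop)).measurableSet
  have h2 : MeasurableSet {p : P × P | |sq p.2 - 1| ≤ a1 δ} :=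
    (isClosed_le (by unfold sq; fun_prop) (by fun_prop)).measurableSet
  have h3 : IsOpen {p : P × P | ∃ σ : ℝ, 0 ≤ σ ∧ σ ≤ T ∧
      ∃ γ ∈ G.Gam T, ∃ V' ∈ G.V, dist (app γ (p.1 + σ • p.2)) V' < rho1 δ} := by
    have h4 : {p : P × P | ∃ σ : ℝ, 0 ≤ σ ∧ σ ≤ T ∧
        ∃ γ ∈ G.Gam T, ∃ V' ∈ G.V, dist (app γ (p.1 + σ • p.2)) V' < rho1 δ} =
        ⋃ σ ∈ Icc 0 T, ⋃ γ ∈ G.Gam T, ⋃ V' ∈ G.V,
          {p : P × P | dist (app γ (p.1 + σ • p.2)) V' < rho1 δ} := by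
      ext p
      simp only [mem_ofPred_eq, mem_iUnion, mem_Icc, exists_prop, and_assoc]
    rw [h4]
    refine isOpen_biUnion fun σ _ => isOpen_biUnion fun γ _ => isOpen_biUnion fun V' _ => ?_
    exact isOpen_lt (by unfold app; fun_prop) (by fun_prop)
  exact h1.inter (h2.inter h3.measurableSet)

theorem N_vol (G : Geo D) : ∀ᶠ δ in 𝓝[>] (0 : ℝ), ∀ V : P,
    volume (G.N δ V) ≤ ENNReal.ofReal (128 * th δ ^ 3) := by
  filter_upwards [EBad_evth] with δ hδ V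
  have h1 : G.N δ V ⊆ closedBall V (th δ) ×ˢ {ξ : P | |sq ξ - 1| ≤ th δ} :=
    fun y hy => ⟨hy.2.1.le, hy.2.2⟩
  refine (measure_mono h1).trans ?_
  rw [Measure.volume_eq_prod, Measure.prod_prod, EBad_cb V hδ.1.le]
  refine (mul_le_mul_right (ann_vol hδ.1 hδ.2) _).trans ?_
  rw [← ENNReal.ofReal_mul (by positivity)]
  exact ENNReal.ofReal_le_ofReal (le_of_eq (by ring))

theorem meas_N (G : Geo D) (δ : ℝ) (V : P) : MeasurableSet (G.N δ V) := by
  have h0 : MeasurableSet {p : P × P | p.1 ∈ G.Y δ} := by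
    have h1 : {p : P × P | p.1 ∈ G.Y δ} = (Prod.fst ⁻¹' closure D) ∩
        ⋂ v ∈ G.V, {p : P × P | th δ / 2 ≤ dist p.1 v} := by
      ext p
      simp only [Geo.Y, Geo.Far, mem_ofPred_eq, mem_inter_iff, mem_preimage, mem_iInter]
    rw [h1]
    refine (isClosed_closure.preimage continuous_fst).measurableSet.inter ?_
    exact Finset.measurableSet_biInter _ fun v _ =>
      (isClosed_le (by fun_prop) (by fun_prop)).measurableSet
  have h1 : MeasurableSet {p : P × P | dist p.1 V < th δ} :=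
    (isOpen_lt (by fun_prop) (by fun_prop)).measurableSet
  have h2 : MeasurableSet {p : P × P | |sq p.2 - 1| ≤ th δ} :=
    (isClosed_le (by unfold sq; fun_prop) (by fun_prop)).measurableSet
  exact h0.inter (h1.inter h2)

end

end Pool.Agent.MP4eed4eR.E
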