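import Pool.Agent.Lib.MP_4eed4e_an_R.C20
import Pool.Agent.Lib.MP_4eed4e_an_R.OutA3

/-!
MP_4eed4e_an, project R, block E, module EGood: the packets which stay away from the vertices (E7).

PROOFS. `θ = th δ`, `τ = tau δ`, `p = (x, ξ)`; `|ξ_i| ≤ 2` because `|sq ξ - 1| ≤ 1`.
* `orbit_far`: strong induction on `k`: if `G.Far (θ / 2)` holds for the orbit points with smaller
  index, then `tracking` (with the given `T`) gives `x_k = app γ (x + (k τ) • ξ)`, `γ ∈ G.Gam T`,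
  so `dist x_k V' ≥ rho1 δ ≥ θ / 2`. The orbit points are in `closure D` by `stp_mem` (`2 (τ * 2)
  < θ / 4`; `stp_sq` for the momenta). For the flow at the time `t` let `k = ⌊t / τ⌋₊`, so `0 ≤ t
  - k τ ≤ τ`; use the second part of `tracking` and `stp_mem`.
* `good_neg`: `iter` gives `‖U(t) v_p - κ v_y‖ ≤ δ ^ 1900` with `|κ| = 1`, `y = flow W τ t p`,
  `dist y.1 V ≥ rho1 δ > 2 θ + θ / 32`; by `mass_v` the packet `v_y` vanishes a.e. on `ball V (2
  θ)`. So the mass of `U(t) v_p` there is at most `‖U(t) v_p - κ v_y‖² ≤ δ ^ 3800 ≤ δ ^ 3000`.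
-/

namespace Pool.Agent.MP4eed4eR.E

open MeasureTheory Set Filter Topology Metric
open scoped ComplexConjugate ContDiff

noncomputable section

variable {D : Set P}

private theorem EGood_mom {ξ : P} (h : |sq ξ - 1| ≤ 1) : |ξ.1| ≤ 2 ∧ |ξ.2| ≤ 2 := by
  have h1 := (abs_le.1 h).2
  unfold sq at h1
  constructor
  · rw [abs_le]
    constructor <;> nlinarith [sq_nonneg ξ.1, sq_nonneg ξ.2]
  · rw [abs_le]
    constructor <;> nlinarith [sq_nonneg ξ.1, sq_nonneg ξ.2]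

/-- comparison of the scales -/
private theorem EGood_sc {δ : ℝ} (h0 : 0 < δ) (h1 : δ ≤ 1 / 2) :
    (2 + 1 / 16) * th δ ≤ rho1 δ := by
  have e : th δ = rho1 δ * δ ^ 8 := by
    unfold th rho1
    rw [← pow_add]
  have h2 : δ ^ 8 ≤ (1 / 2) ^ 8 := pow_le_pow_left₀ h0.le h1 8
  have h3 : 0 < rho1 δ := by
    unfold rho1
    positivity
  rw [e]
  nlinarith [mul_le_mul_of_nonneg_left h2 h3.le]

private theorem EGood_mul {δ : ℝ} (h0 : 0 < δ) {t : ℝ} (ht : |t| ≤ tau δ) {ξ : P}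
    (h1 : |ξ.1| ≤ 2) (h2 : |ξ.2| ≤ 2) : 2 * (|t| * max |ξ.1| |ξ.2|) < th δ / 4 := by
  have hth := C.th_pos h0
  have h3 : |t| * max |ξ.1| |ξ.2| ≤ tau δ * 2 :=
    mul_le_mul ht (max_le h1 h2) (le_trans (abs_nonneg _) (le_max_left _ _))
      (C.tau_pos h0).le
  unfold tau at h3
  linarith

theorem orbit_far (G : Geo D) (T : ℝ) : ∀ᶠ δ in 𝓝[>] (0 : ℝ),
    ∀ W : Walls G (th δ / 4), ∀ p : P × P, p.1 ∈ G.X δ → |sq p.2 - 1| ≤ 1 →
      (∀ σ : ℝ, 0 ≤ σ → σ ≤ T → ∀ γ ∈ G.Gam T, ∀ V' ∈ G.V,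
        rho1 δ ≤ dist (app γ (p.1 + σ • p.2)) V') →
      ∀ t, 0 ≤ t → t ≤ T → GoodUpTo W (tau δ) (th δ / 2) t p ∧
        (flow W (tau δ) t p).1 ∈ G.Y δ ∧ G.Far (rho1 δ) (flow W (tau δ) t p).1 := by
  filter_upwards [C.ev_geo G, tracking G T] with δ hδ htr
  intro W p hp hsq hfar t ht0 htT
  obtain ⟨h0, h12, -, -⟩ := hδ
  have hth := C.th_pos h0
  have htau := C.tau_pos h0
  have hsc := EGood_sc h0 h12
  obtain ⟨x, ξ⟩ := p
  obtain ⟨hx1, hx2⟩ := hp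
  obtain ⟨m1, m2⟩ := EGood_mom hsq
  simp only at hx1 hx2 m1 m2 hfar
  have hxc : x ∈ closure D := subset_closure hx1
  -- the orbit points are far
  have k1 : ∀ k : ℕ, (k : ℝ) * tau δ ≤ T →
      G.Far (rho1 δ) ((stp W (tau δ))^[k] (x, ξ)).1 := by
    intro k
    induction k using Nat.strong_induction_on with
    | _ k ih =>
      intro hk
      obtain ⟨γ, hγ, he⟩ := (htr W x hxc ξ m1 m2 k hk (fun j hj V' hV' => by
        have hj' : (j : ℝ) * tau δ ≤ T := le_trans (mul_le_mul_of_nonneg_right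
          (by exact_mod_cast hj.le) htau.le) hk
        have := ih j hj hj' V' hV'
        linarith)).1
      intro V' hV'
      rw [he]
      exact hfar _ (by positivity) hk γ hγ V' hV'
  have k1' : ∀ k : ℕ, (k : ℝ) * tau δ ≤ T →
      G.Far (th δ / 2) ((stp W (tau δ))^[k] (x, ξ)).1 := fun k hk V' hV' => by
    have := k1 k hk V' hV'
    linarith
  -- the orbit points are in the closure
  have k2 : ∀ k : ℕ, (k : ℝ) * tau δ ≤ T → ((stp W (tau δ))^[k] (x, ξ)).1 ∈ closure D ∧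
      |((stp W (tau δ))^[k] (x, ξ)).2.1| ≤ 2 ∧ |((stp W (tau δ))^[k] (x, ξ)).2.2| ≤ 2 := by
    intro k
    induction k with
    | zero => exact fun _ => ⟨hxc, m1, m2⟩
    | succ k ih =>
      intro hk
      have hk' : (k : ℝ) * tau δ ≤ T := by
        push_cast at hk
        nlinarith
      obtain ⟨a1, a2, a3⟩ := ih hk'
      rw [Function.iterate_succ_apply']
      have hF : G.Far (th δ / 4) ((stp W (tau δ))^[k] (x, ξ)).1 := fun V' hV' => by
        have := k1' k hk' V' hV'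
        linarith
      generalize (stp W (tau δ))^[k] (x, ξ) = z at a1 a2 a3 hF ⊢
      obtain ⟨z1, z2⟩ := z
      have b1 := stp_mem G W a1 hF (t := tau δ) (EGood_mul h0 (abs_of_pos htau).le a2 a3)
      have b2 := stp_sq W (tau δ) (z1, z2)
      exact ⟨b1.1, b2.1 ▸ a2, b2.2 ▸ a3⟩
  -- the time t
  have hfl : (⌊t / tau δ⌋₊ : ℝ) * tau δ ≤ t := by
    have := Nat.floor_le (div_nonneg ht0 htau.le)
    rwa [le_div_iff₀ htau] at this
  have hfl2 : t < (⌊t / tau δ⌋₊ : ℝ) * tau δ + tau δ := by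
    have := Nat.lt_floor_add_one (t / tau δ)
    rw [div_lt_iff₀ htau] at this
    linarith
  have hkT : (⌊t / tau δ⌋₊ : ℝ) * tau δ ≤ T := hfl.trans htT
  have hab : |t - (⌊t / tau δ⌋₊ : ℝ) * tau δ| ≤ tau δ := by
    rw [abs_le]
    constructor <;> linarith
  obtain ⟨γ, hγ, he⟩ := (htr W x hxc ξ m1 m2 _ hkT (fun j hj V' hV' => k1' j
    (le_trans (mul_le_mul_of_nonneg_right (by exact_mod_cast hj.le) htau.le) hkT) V' hV')).2
    (k1' _ hkT) (t - (⌊t / tau δ⌋₊ : ℝ) * tau δ) hab (by linarith)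
  have hfar2 : G.Far (rho1 δ) (flow W (tau δ) t (x, ξ)).1 := by
    intro V' hV'
    unfold flow
    rw [he]
    have e : (⌊t / tau δ⌋₊ : ℝ) * tau δ + (t - (⌊t / tau δ⌋₊ : ℝ) * tau δ) = t := by ring
    rw [e]
    exact hfar t ht0 htT γ hγ V' hV'
  refine ⟨fun k hk => k1' k (hk.trans htT), ⟨?_, fun V' hV' => ?_⟩, hfar2⟩
  · obtain ⟨a1, a2, a3⟩ := k2 _ hkT
    have hF : G.Far (th δ / 4) ((stp W (tau δ))^[⌊t / tau δ⌋₊] (x, ξ)).1 := fun V' hV' => by
      have := k1' _ hkT V' hV'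
      linarith
    unfold flow
    generalize (stp W (tau δ))^[⌊t / tau δ⌋₊] (x, ξ) = z at a1 a2 a3 hF ⊢
    obtain ⟨z1, z2⟩ := z
    exact (stp_mem G W a1 hF (EGood_mul h0 hab a2 a3)).1
  · have := hfar2 V' hV'
    linarith

private theorem EGood_norm (f : HD D) : ‖f‖ ^ 2 = ∫ q in D, ‖f q‖ ^ 2 := by
  have h1 : (inner ℂ f f : ℂ) = ∫ q in D, (inner ℂ (f q) (f q) : ℂ) := L2.inner_def f f
  rw [inner_self_eq_norm_sq_to_K] at h1
  have h2 : ∀ q, (inner ℂ (f q) (f q) : ℂ) = ((‖f q‖ ^ 2 : ℝ) : ℂ) := by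
    intro q
    rw [inner_self_eq_norm_sq_to_K]
    push_cast
    rfl
  simp only [h2] at h1
  rw [integral_complex_ofReal] at h1
  have h3 : (Complex.ofReal ‖f‖) ^ 2 = Complex.ofReal (∫ q in D, ‖f q‖ ^ 2) := h1
  rw [← Complex.ofReal_pow] at h3
  exact Complex.ofReal_injective h3

/-- the mass in a set where a good approximation vanishes -/
private theorem EGood_mass {A : Set P} (hA : MeasurableSet A) (hD : MeasurableSet D)
    (f g : HD D) (hg : ∀ᵐ q ∂(volume.restrict D), q ∈ A → g q = 0) :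
    mass A f ≤ ‖f - g‖ ^ 2 := by
  rw [EGood_norm]
  unfold mass
  have hint : IntegrableOn (fun q => ‖(f - g : HD D) q‖ ^ 2) D :=
    (Lp.memLp (f - g)).integrable_norm_pow (by norm_num)
  have e : ∫ q in A ∩ D, ‖f q‖ ^ 2 = ∫ q in A ∩ D, ‖(f - g : HD D) q‖ ^ 2 := by
    refine setIntegral_congr_ae (hA.inter hD) ?_
    have h1 := (ae_restrict_iff' hD).1 hg
    have h2 := (ae_restrict_iff' hD).1 (Lp.coeFn_sub f g)
    filter_upwards [h1, h2] with q q1 q2 hq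
    rw [q2 hq.2, Pi.sub_apply, q1 hq.2 hq.1, sub_zero]
  rw [e]
  exact setIntegral_mono_set hint (Eventually.of_forall fun q => sq_nonneg _)
    (Eventually.of_forall fun q hq => hq.2)

theorem good_neg (S : Spec D) (G : Geo D) (T : ℝ) : ∀ᶠ δ in 𝓝[>] (0 : ℝ),
    ∀ W : Walls G (th δ / 4), ∀ V ∈ G.V, ∀ p : P × P, p.1 ∈ G.X δ → |sq p.2 - 1| ≤ 1 →
      (∀ σ : ℝ, 0 ≤ σ → σ ≤ T → ∀ γ ∈ G.Gam T, ∀ V' ∈ G.V,
        rho1 δ ≤ dist (app γ (p.1 + σ • p.2)) V') →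
      ∀ t, 0 ≤ t → t ≤ T →
        mass (ball V (2 * th δ)) (S.U (hh δ) t (W.v δ p 0)) ≤ δ ^ 3000 := by
  filter_upwards [C.ev_geo G, orbit_far G T, iter S G T, mass_v G] with δ hδ ho hi hv
  intro W V hV p hp hsq hfar t ht0 htT
  obtain ⟨h0, h12, -, -⟩ := hδ
  have hth := C.th_pos h0
  have hsc := EGood_sc h0 h12
  obtain ⟨o1, o2, o3⟩ := ho W p hp hsq hfar t ht0 htT
  obtain ⟨m1, m2⟩ := EGood_mom hsq
  have hY : p.1 ∈ G.Y δ := ⟨subset_closure hp.1, fun V' hV' => by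
    have := hp.2 V' hV'
    linarith⟩
  obtain ⟨σ₁, σ₂, -, -, -, hn⟩ := hi W p.1 hY p.2 ⟨m1, m2⟩ t ht0 htT o1 o2
  have hz : ∀ᵐ q ∂(volume.restrict D), q ∈ ball V (2 * th δ) →
      ((((σ₁ * σ₂ : ℝ) : ℂ) * phs δ t p.2) • W.v δ (flow W (tau δ) t (p.1, p.2)) t : HD D) q
        = 0 := by
    filter_upwards [hv W (flow W (tau δ) t (p.1, p.2)) o2 t, Lp.coeFn_smul
      (((σ₁ * σ₂ : ℝ) : ℂ) * phs δ t p.2) (W.v δ (flow W (tau δ) t (p.1, p.2)) t)] with q q1 q2 hq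
    rw [q2, Pi.smul_apply, q1 ?_, smul_zero]
    have h1 := o3 V hV
    have h2 := dist_triangle (flow W (tau δ) t (p.1, p.2)).1 q V
    rw [mem_ball] at hq
    rw [dist_comm q]
    have h3 : rho1 δ ≤ dist (flow W (tau δ) t (p.1, p.2)).1 V := h1
    linarith
  refine (EGood_mass isOpen_ball.measurableSet G.isOpen.measurableSet _ _ hz).trans ?_
  refine (pow_le_pow_left₀ (norm_nonneg _) hn 2).trans ?_
  rw [← pow_mul]
  exact pow_le_pow_of_le_one h0.le (by linarith) (by norm_num)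

end

end Pool.Agent.MP4eed4eR.E
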