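import Pool.Agent.Lib.MP_4eed4e_an_R.C08
import Pool.Agent.Lib.MP_4eed4e_an_R.C11
import Pool.Agent.Lib.MP_4eed4e_an_RE.EBad
import Pool.Agent.Lib.MP_4eed4e_an_RE.EGood

/-!
MP_4eed4e_an, project R, block E, module EDual: the duality argument (E8).

PROOF of `dual`. `h = hh δ`, `θ = th δ`, `b = ball V (2 θ)`, `U = S.U h t`, `g = 1_b (U w)` (the
class of the indicator), `M = mass b (U w) = ‖g‖²`, `f = S.U h (-t) g`, so `‖f‖² = M` and `⟨f, w⟩
= ⟨g, U w⟩ = M` (`inner_U`). Let `m`, `c = cst δ ≥ 1 / 2` be as in `frame`. Then `(2 π h)² c M = ∫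
⟨f, v_z⟩ ⟨v_z, w⟩ dz - (2 π h)² ∫_D conj f (m - c) w` (integral over `G.X δ ×ˢ univ`).
* `|∫_D conj f (m - c) w| ≤ √M (16 ∑_{V'} mass (ball V' (2 θ)) w)^(1/2) ≤ √M C (K θ)^(1/2)`, because
  `|m - c| ≤ 4` and `m = c` off the squares of radius `2 θ` about the points of `G.V`.
* Let `O` be the set in the hypothesis (intersected with `z.1 ∈ G.X δ`). Off `O` one has `dist z.1
  (V + t₁ • z.2) ≤ a1`, `|sq z.2 - 1| ≤ a1 ≤ 1`, `z ∉ bad`, so by `good_neg` `‖⟨f, v_z⟩‖ = ‖⟨g, U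
  v_z⟩‖ = ‖⟨g, 1_b (U v_z)⟩‖ ≤ √M δ ^ 1500`, and `‖⟨v_z, w⟩‖ ≤ 32`. The set of these `z` is
  contained in `D × {|sq ξ - 1| ≤ 1}`, which has finite volume, so the integral over it is at most
  `C √M δ ^ 1500`.
* On `O`: by the Cauchy-Schwarz inequality the integral is at most `(∫ ‖⟨f, v_z⟩‖²)^(1/2) (∫_O
  ‖⟨v_z, w⟩‖²)^(1/2) ≤ (4 (2 π h)² M)^(1/2) I^(1/2)` (`bessel_v`). Divide by `(2 π h)² c √M` (if
  `M > 0`): `√M ≤ 2 (√I / (π h) + C δ ^ 1300 + C (K θ)^(1/2))`, and square. (`h = δ ^ 80`.)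

(In the Lean proof the square roots are avoided: `x y ≤ x² / 32 + 8 y²` and `4 x y ≤ x² / 16 + 64
y²`.)
-/

namespace Pool.Agent.MP4eed4eR.E

open MeasureTheory Set Filter Topology Metric
open scoped ComplexConjugate ContDiff

noncomputable section

variable {D : Set P}

/-- Restriction to a set, as an element of `L²(D)`. -/
private def EDual_cut (A : Set P) (f : HD D) : HD D := cls D (A.indicator (f : P → ℂ))

private theorem EDual_coe {A : Set P} (hA : MeasurableSet A) (f : HD D) :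
    (EDual_cut A f : P → ℂ) =ᵐ[volume.restrict D] A.indicator (f : P → ℂ) := by
  have h1 : MemLp (A.indicator (f : P → ℂ)) 2 (volume.restrict D) := (Lp.memLp f).indicator hA
  unfold EDual_cut cls
  rw [dif_pos h1]
  exact h1.coeFn_toLp

private theorem EDual_inner (f g : HD D) :
    (inner ℂ f g : ℂ) = ∫ q in D, conj (f q) * g q := by
  rw [L2.inner_def]
  refine integral_congr_ae (ae_of_all _ fun q => ?_)
  simp only
  rw [RCLike.inner_apply']

private theorem EDual_int (f : HD D) : IntegrableOn (fun q => ‖f q‖ ^ 2) D :=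
  (Lp.memLp f).integrable_norm_pow (by norm_num)

private theorem EDual_norm (f : HD D) : ‖f‖ ^ 2 = ∫ q in D, ‖f q‖ ^ 2 := by
  have h1 : (inner ℂ f f : ℂ) = ∫ q in D, (inner ℂ (f q) (f q) : ℂ) := L2.inner_def f f
  rw [inner_self_eq_norm_sq_to_K] at h1
  have h2 : ∀ q, (inner ℂ (f q) (f q) : ℂ) = ((‖f q‖ ^ 2 : ℝ) : ℂ) := by
    intro q
    rw [inner_self_eq_norm_sq_to_K]
    push_cast
    rfl
  simp only [h2] at h1
  rw [integral_complex_ofReal] at h1
  have h3 : (Complex.ofReal ‖f‖) ^ 2 = Complex.ofReal (∫ q in D, ‖f q‖ ^ 2) := h1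
  rw [← Complex.ofReal_pow] at h3
  exact Complex.ofReal_injective h3

private theorem EDual_facts {A : Set P} (hA : MeasurableSet A) (f g : HD D) :
    ‖EDual_cut A f‖ ^ 2 = mass A f ∧
      (inner ℂ (EDual_cut A f) g : ℂ) = inner ℂ (EDual_cut A f) (EDual_cut A g) ∧
      inner ℂ (EDual_cut A f) f = (mass A f : ℂ) ∧ 0 ≤ mass A f ∧ mass A f ≤ ‖f‖ ^ 2 := by
  have e1 : ‖EDual_cut A f‖ ^ 2 = mass A f := by
    rw [EDual_norm, mass, ← Measure.restrict_restrict hA, ← integral_indicator hA]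
    refine integral_congr_ae ?_
    filter_upwards [EDual_coe hA f] with q hq
    rw [hq]
    by_cases h : q ∈ A
    · rw [indicator_of_mem h, indicator_of_mem h]
    · rw [indicator_of_notMem h, indicator_of_notMem h]
      simp
  have e2 : ∀ g : HD D,
      (inner ℂ (EDual_cut A f) g : ℂ) = inner ℂ (EDual_cut A f) (EDual_cut A g) := by
    intro g
    rw [EDual_inner, EDual_inner]
    refine integral_congr_ae ?_
    filter_upwards [EDual_coe hA f, EDual_coe hA g] with q h1 h2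
    rw [h1, h2]
    by_cases h : q ∈ A
    · rw [indicator_of_mem h, indicator_of_mem h]
    · rw [indicator_of_notMem h, indicator_of_notMem h]
      simp
  refine ⟨e1, e2 g, ?_, ?_, ?_⟩
  · rw [e2 f, inner_self_eq_norm_sq_to_K, ← e1]
    norm_cast
  · rw [← e1]
    positivity
  · rw [mass, EDual_norm f]
    refine setIntegral_mono_set (EDual_int f) (ae_of_all _ fun q => by positivity) ?_
    exact (inter_subset_right).eventuallyLE

private theorem EDual_mono {A B : Set P} (h : A ⊆ B) (f : HD D) : mass A f ≤ mass B f := by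
  unfold mass
  refine setIntegral_mono_set ((EDual_int f).mono_set inter_subset_right)
    (ae_of_all _ fun q => by positivity) ?_
  exact (inter_subset_inter_left _ h).eventuallyLE

/-- the product of two elements of `L²` -/
private theorem EDual_prod (f g : HD D) :
    Integrable (fun q => conj (f q) * g q) (volume.restrict D) := by
  have h1 := L2.integrable_inner (𝕜 := ℂ) f g
  refine h1.congr (ae_of_all _ fun q => ?_)
  simp only
  rw [RCLike.inner_apply']

/-- the remainder with the multiplier -/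
private theorem EDual_rem (G : Geo D) {θ c : ℝ} (hc0 : 0 ≤ c) (hc4 : c ≤ 4) {m : P → ℝ}
    (hm : Measurable m) (h04 : ∀ q, 0 ≤ m q ∧ m q ≤ 4)
    (heq : ∀ q ∈ D, (∀ v ∈ G.V, 2 * θ ≤ dist q v) → m q = c) (f w : HD D) :
    ∃ R : ℂ, ∫ q in D, conj (f q) * ((m q : ℂ) * w q) = (c : ℂ) * inner ℂ f w + R ∧
      ‖R‖ ≤ ‖f‖ ^ 2 / 16 + 64 * ∑ v ∈ G.V, mass (ball v (2 * θ)) w := by
  have hp := EDual_prod f w
  have hb : ∀ q, ‖((m q - c : ℝ) : ℂ)‖ ≤ 4 := by
    intro q
    rw [Complex.norm_real, Real.norm_eq_abs, abs_le]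
    have := h04 q
    constructor <;> linarith
  have hi : Integrable (fun q => ((m q - c : ℝ) : ℂ) * (conj (f q) * w q))
      (volume.restrict D) := by
    refine hp.bdd_mul (c := 4) ?_ (ae_of_all _ hb)
    exact (Complex.measurable_ofReal.comp (hm.sub_const c)).aestronglyMeasurable
  refine ⟨∫ q in D, ((m q - c : ℝ) : ℂ) * (conj (f q) * w q), ?_, ?_⟩
  · rw [EDual_inner, ← integral_const_mul, ← integral_add (hp.const_mul _) hi]
    refine integral_congr_ae (ae_of_all _ fun q => ?_)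
    simp only
    push_cast
    ring
  · have hDm : MeasurableSet D := G.isOpen.measurableSet
    have hint : ∀ v ∈ G.V, Integrable ((ball v (2 * θ)).indicator (fun q => ‖w q‖ ^ 2))
        (volume.restrict D) := fun v _ => (EDual_int w).indicator isOpen_ball.measurableSet
    have hG : Integrable (fun q => ‖f q‖ ^ 2 / 16 +
        64 * ∑ v ∈ G.V, (ball v (2 * θ)).indicator (fun q => ‖w q‖ ^ 2) q)
        (volume.restrict D) :=
      (((EDual_int f).div_const 16).add ((integrable_finsetSum _ hint).const_mul 64))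
    refine (norm_integral_le_of_norm_le hG ?_).trans (le_of_eq ?_)
    · rw [ae_restrict_iff' hDm]
      refine ae_of_all _ fun q hq => ?_
      have hs : 0 ≤ ∑ v ∈ G.V, (ball v (2 * θ)).indicator (fun q => ‖w q‖ ^ 2) q :=
        Finset.sum_nonneg fun v _ => indicator_nonneg (fun _ _ => by positivity) _
      by_cases h : ∀ v ∈ G.V, 2 * θ ≤ dist q v
      · rw [heq q hq h, sub_self, Complex.ofReal_zero, zero_mul, norm_zero]
        positivity
      · push Not at h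
        obtain ⟨v, hv, hlt⟩ := h
        have h1 : ‖w q‖ ^ 2 ≤ ∑ v ∈ G.V, (ball v (2 * θ)).indicator (fun q => ‖w q‖ ^ 2) q := by
          have h2 := Finset.single_le_sum
            (f := fun v => (ball v (2 * θ)).indicator (fun q => ‖w q‖ ^ 2) q)
            (fun v _ => indicator_nonneg (fun _ _ => by positivity) _) hv
          have h3 : (ball v (2 * θ)).indicator (fun q => ‖w q‖ ^ 2) q = ‖w q‖ ^ 2 :=
            indicator_of_mem (mem_ball.2 hlt) _
          rw [← h3]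
          exact h2
        rw [norm_mul, norm_mul, RCLike.norm_conj]
        have h3 := mul_le_mul_of_nonneg_right (hb q) (mul_nonneg (norm_nonneg (f q))
          (norm_nonneg (w q)))
        nlinarith [sq_nonneg (‖f q‖ / 4 - 8 * ‖w q‖)]
    · rw [integral_add ((EDual_int f).div_const 16)
        ((integrable_finsetSum _ hint).const_mul 64), integral_div, ← EDual_norm,
        integral_const_mul, integral_finsetSum _ hint]
      congr 2
      refine Finset.sum_congr rfl fun v _ => ?_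
      rw [integral_indicator isOpen_ball.measurableSet,
        Measure.restrict_restrict isOpen_ball.measurableSet, mass]

private theorem EDual_measX (G : Geo D) (δ : ℝ) : MeasurableSet (G.X δ) := by
  have h1 : G.X δ = D ∩ ⋂ v ∈ G.V, {x : P | th δ ≤ dist x v} := by
    ext x
    simp only [Geo.X, Geo.Far, mem_ofPred_eq, mem_inter_iff, mem_iInter]
  rw [h1]
  refine G.isOpen.measurableSet.inter (Finset.measurableSet_biInter _ fun v _ => ?_)
  exact (isClosed_le continuous_const (by fun_prop)).measurableSet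

private theorem EDual_measv {G : Geo D} {ρ : ℝ} (W : Walls G ρ) {δ : ℝ} (hδ : 0 < δ)
    (w : HD D) : Measurable (fun z : P × P => (inner ℂ (W.v δ z 0) w : ℂ)) := by
  have h1 := measurable_inner_fam (h := hh δ) W (env_envc hδ 0) (-1) (-1) w
  have h2 : (fun z : P × P => (inner ℂ (W.v δ z 0) w : ℂ)) = fun z : P × P =>
      (inner ℂ (cls D (W.fam (-1) (-1) (envc δ 0) (hh δ) z.1 z.2)) w : ℂ) := by
    funext z
    unfold Walls.v
    rw [pkt_eq_fam]
  rw [h2]
  exact h1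

/-- the integral over the phase space, in two parts -/
private theorem EDual_split {X : Set P} {O E Y : Set (P × P)} (hE : MeasurableSet E)
    (hcov : X ×ˢ (univ : Set P) ⊆ O ∪ E) (hOY : O ⊆ Y) {a b : P × P → ℂ}
    (hb : Measurable b) {A I C ε : ℝ} (hA : 0 ≤ A) (hI : 0 ≤ I) (hC : 0 ≤ C) (hε : 0 ≤ ε)
    (hY : ∫⁻ z in Y, ENNReal.ofReal (‖a z‖ ^ 2) ≤ ENNReal.ofReal A)
    (hO : ∫⁻ z in O, ENNReal.ofReal (‖b z‖ ^ 2) ≤ ENNReal.ofReal I)
    (hvol : volume E ≤ ENNReal.ofReal C) (hsm : ∀ z ∈ E, ‖a z‖ * ‖b z‖ ≤ ε) :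
    ‖∫ z in X ×ˢ (univ : Set P), a z * b z‖ ≤ A / 32 + 8 * I + ε * C := by
  have key : ENNReal.ofReal ‖∫ z in X ×ˢ (univ : Set P), a z * b z‖ ≤
      ENNReal.ofReal (A / 32 + 8 * I + ε * C) := by
    rw [ofReal_norm]
    refine (enorm_integral_le_lintegral_enorm _).trans ?_
    refine (lintegral_mono_set hcov).trans ((lintegral_union_le _ _ _).trans ?_)
    rw [ENNReal.ofReal_add (by positivity) (by positivity)]
    refine add_le_add ?_ ?_
    · have h1 : ∀ z, ‖a z * b z‖ₑ ≤ ENNReal.ofReal (1 / 32) * ENNReal.ofReal (‖a z‖ ^ 2) +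
          ENNReal.ofReal 8 * ENNReal.ofReal (‖b z‖ ^ 2) := by
        intro z
        rw [← ENNReal.ofReal_mul (by norm_num), ← ENNReal.ofReal_mul (by norm_num),
          ← ENNReal.ofReal_add (by positivity) (by positivity), ← ofReal_norm, norm_mul]
        refine ENNReal.ofReal_le_ofReal ?_
        nlinarith [sq_nonneg (‖a z‖ - 16 * ‖b z‖)]
      refine (lintegral_mono h1).trans ?_
      rw [lintegral_add_right _ (by fun_prop), lintegral_const_mul' _ _ ENNReal.ofReal_ne_top,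
        lintegral_const_mul' _ _ ENNReal.ofReal_ne_top,
        ENNReal.ofReal_add (by positivity) (by positivity)]
      refine add_le_add ?_ ?_
      · have e : A / 32 = 1 / 32 * A := by ring
        rw [e, ENNReal.ofReal_mul (by norm_num)]
        gcongr
        exact (lintegral_mono_set hOY).trans hY
      · rw [ENNReal.ofReal_mul (by norm_num)]
        gcongr
    · have h2 : ∫⁻ z in E, ‖a z * b z‖ₑ ≤ ∫⁻ _ in E, ENNReal.ofReal ε := by
        refine setLIntegral_mono' hE fun z hz => ?_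
        rw [← ofReal_norm, norm_mul]
        exact ENNReal.ofReal_le_ofReal (hsm z hz)
      refine h2.trans ?_
      rw [setLIntegral_const, ENNReal.ofReal_mul hε]
      gcongr
  exact (ENNReal.ofReal_le_ofReal_iff (by positivity)).1 key

/-- the final inequality -/
private theorem EDual_arith {a c M N I C₁ n Kt e1 e2 h2 : ℝ} (ha : 0 < a) (hh2 : 0 < h2)
    (hah : h2 ≤ a) (hc : 1 / 2 ≤ c) (hM : 0 ≤ M) (hI : 0 ≤ I) (hC₁ : 0 ≤ C₁) (hn : 0 ≤ n)
    (hKt : 0 ≤ Kt) (_ : 0 ≤ e1) (he2 : 0 ≤ e2) (hee : e1 ≤ e2 * h2)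
    (h1 : a * c * M ≤ (4 * a * M) / 32 + 8 * I + 256 * e1 * C₁ + a * N)
    (h3 : N ≤ M / 16 + 64 * (n * Kt)) :
    M ≤ (26 + 820 * C₁ + 205 * n) * (I / h2 + Kt + e2) := by
  have h4 : a * N ≤ a * (M / 16 + 64 * (n * Kt)) := mul_le_mul_of_nonneg_left h3 ha.le
  have h5 : a * (1 / 2) * M ≤ a * c * M := by
    have := mul_le_mul_of_nonneg_left hc ha.le
    exact mul_le_mul_of_nonneg_right this hM
  have h6 : a * M ≤ 16 / 5 * (8 * I + 256 * e1 * C₁ + a * (64 * (n * Kt))) := by nlinarith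
  have h7 : M ≤ 16 / 5 * (8 * (I / a) + 256 * (e1 / a) * C₁ + 64 * (n * Kt)) := by
    have e : 16 / 5 * (8 * (I / a) + 256 * (e1 / a) * C₁ + 64 * (n * Kt)) =
        (16 / 5 * (8 * I + 256 * e1 * C₁ + a * (64 * (n * Kt)))) / a := by
      field_simp
    rw [e, le_div_iff₀ ha]
    linarith
  have h8 : I / a ≤ I / h2 := div_le_div_of_nonneg_left hI hh2 hah
  have h9 : e1 / a ≤ e2 := by
    rw [div_le_iff₀ ha]
    exact hee.trans (mul_le_mul_of_nonneg_left hah he2)
  have h10 : 0 ≤ I / h2 := by positivity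
  have h11 : 256 * (e1 / a) * C₁ ≤ 256 * e2 * C₁ := by gcongr
  have h12 : 0 ≤ C₁ * (I / h2) := by positivity
  have h13 : 0 ≤ C₁ * Kt := by positivity
  have h14 : 0 ≤ C₁ * e2 := by positivity
  have h15 : 0 ≤ n * (I / h2) := by positivity
  have h16 : 0 ≤ n * Kt := by positivity
  have h17 : 0 ≤ n * e2 := by positivity
  nlinarith

theorem dual (S : Spec D) (G : Geo D) (t₁ T K : ℝ) (hK : 0 ≤ K) : ∃ C : ℝ, 0 ≤ C ∧
    ∀ᶠ δ in 𝓝[>] (0 : ℝ), ∀ W : Walls G (th δ / 4), ∀ V ∈ G.V, ∀ w : HD D, ‖w‖ ≤ 8 →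
      (∀ V' ∈ G.V, mass (ball V' (3 * th δ)) w ≤ K * th δ) → ∀ I : ℝ, 0 ≤ I →
      ∫⁻ z in {z : P × P | z.1 ∈ G.X δ ∧ (a1 δ < dist z.1 (V + t₁ • z.2) ∨
        a1 δ < |sq z.2 - 1| ∨ z ∈ bad G t₁ T δ V)},
        ENNReal.ofReal (‖(inner ℂ (W.v δ z 0) w : ℂ)‖ ^ 2) ≤ ENNReal.ofReal I →
      ∀ t, 0 ≤ t → t ≤ T →
        mass (ball V (2 * th δ)) (S.U (hh δ) t w) ≤
          C * (I / hh δ ^ 2 + K * th δ + δ ^ 100) := by
  set C₁ : ℝ := (volume (D ×ˢ closedBall (0 : P) 2 : Set (P × P))).toReal with hC₁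
  have hvfin : volume (D ×ˢ closedBall (0 : P) 2 : Set (P × P)) ≠ ⊤ := by
    have hb : Bornology.IsBounded (D ×ˢ closedBall (0 : P) 2 : Set (P × P)) :=
      G.isBounded.prod isBounded_closedBall
    exact hb.measure_lt_top.ne
  refine ⟨26 + 820 * C₁ + 205 * (G.V.card : ℝ), by positivity, ?_⟩
  filter_upwards [C.ev_geo G, frame G, good_neg S G T, bessel_v G, cst_near] with δ hδ hfr hgn
    hbes hcst
  intro W V hV w hw hmass I hI hint t ht0 htT
  obtain ⟨h0, h12, -, -⟩ := hδ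
  have hth := C.th_pos h0
  have hhp := C.hh_pos h0
  have hδ1 : δ ≤ 1 := by linarith
  have ha1 : a1 δ ≤ 1 := pow_le_one₀ h0.le hδ1
  have hc1 : 1 / 2 ≤ cst δ := by
    have h1 : δ ^ 1000 ≤ δ ^ 1 := pow_le_pow_of_le_one h0.le hδ1 (by norm_num)
    have := hcst.1
    rw [pow_one] at h1
    linarith
  set b : Set P := ball V (2 * th δ) with hbdef
  have hbm : MeasurableSet b := isOpen_ball.measurableSet
  set u : HD D := S.U (hh δ) t w with hu
  set g : HD D := EDual_cut b u with hg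
  set f : HD D := S.U (hh δ) (-t) g with hf
  obtain ⟨g1, -, g3, g4, g5⟩ := EDual_facts hbm u u
  have hM8 : mass b u ≤ 64 := by
    have : ‖u‖ ^ 2 ≤ 64 := by
      rw [hu, norm_U]
      nlinarith [norm_nonneg w]
    linarith
  have hg8 : ‖g‖ ≤ 8 := by
    have : ‖g‖ ^ 2 ≤ 8 ^ 2 := by
      rw [hg, g1]
      linarith
    exact (sq_le_sq₀ (norm_nonneg _) (by norm_num)).1 this
  have hfM : ‖f‖ ^ 2 = mass b u := by
    rw [hf, norm_U, hg, g1]
  have hfw : (inner ℂ f w : ℂ) = (mass b u : ℂ) := by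
    rw [hf, inner_U, neg_neg, ← hu, hg, g3]
  obtain ⟨m, hm, hm04, hmeq, hfr2⟩ := hfr W
  obtain ⟨R, hR1, hR2⟩ := EDual_rem G (θ := th δ) (c := cst δ) (by linarith)
    (by linarith [hcst.2]) hm hm04 hmeq f w
  have hfr3 := (hfr2 f w).2
  rw [hR1, hfw] at hfr3
  -- the sets
  set X : Set P := G.X δ with hX
  set O : Set (P × P) := {z : P × P | z.1 ∈ G.X δ ∧ (a1 δ < dist z.1 (V + t₁ • z.2) ∨
        a1 δ < |sq z.2 - 1| ∨ z ∈ bad G t₁ T δ V)} with hO
  set E : Set (P × P) := {z : P × P | z.1 ∈ G.X δ ∧ ¬(a1 δ < dist z.1 (V + t₁ • z.2) ∨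
        a1 δ < |sq z.2 - 1| ∨ z ∈ bad G t₁ T δ V)} with hE
  have hEm : MeasurableSet E := by
    refine (measurable_fst (EDual_measX G δ)).inter (MeasurableSet.compl ?_)
    have h1 : MeasurableSet {z : P × P | a1 δ < dist z.1 (V + t₁ • z.2)} :=
      (isOpen_lt (by fun_prop) (by fun_prop)).measurableSet
    have h2 : MeasurableSet {z : P × P | a1 δ < |sq z.2 - 1|} :=
      (isOpen_lt (by fun_prop) (by unfold sq; fun_prop)).measurableSet
    exact h1.union (h2.union (meas_bad G t₁ T δ V))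
  have hcov : X ×ˢ (univ : Set P) ⊆ O ∪ E := by
    rintro z ⟨hz, -⟩
    by_cases h : (a1 δ < dist z.1 (V + t₁ • z.2) ∨
        a1 δ < |sq z.2 - 1| ∨ z ∈ bad G t₁ T δ V)
    · exact Or.inl ⟨hz, h⟩
    · exact Or.inr ⟨hz, h⟩
  have hOY : O ⊆ G.Y δ ×ˢ (univ : Set P) := by
    rintro z ⟨hz, -⟩
    refine ⟨⟨subset_closure hz.1, fun v hv => ?_⟩, mem_univ _⟩
    have := hz.2 v hv
    linarith
  have hvol : volume E ≤ ENNReal.ofReal C₁ := by
    rw [hC₁, ENNReal.ofReal_toReal hvfin]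
    refine measure_mono ?_
    rintro ⟨x, ξ⟩ ⟨hz, hn⟩
    push Not at hn
    obtain ⟨-, hn2, -⟩ := hn
    have hsq : |sq ξ - 1| ≤ 1 := le_trans hn2 ha1
    have h1 := (abs_le.1 hsq).2
    unfold sq at h1
    refine ⟨hz.1, ?_⟩
    rw [mem_closedBall, dist_zero_right]
    refine max_le ?_ ?_
    · change ‖ξ.1‖ ≤ 2
      rw [Real.norm_eq_abs, abs_le]
      constructor <;> nlinarith [sq_nonneg ξ.1, sq_nonneg ξ.2]
    · change ‖ξ.2‖ ≤ 2
      rw [Real.norm_eq_abs, abs_le]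
      constructor <;> nlinarith [sq_nonneg ξ.1, sq_nonneg ξ.2]
  have hsm : ∀ z ∈ E, ‖(inner ℂ f (W.v δ z 0) : ℂ)‖ * ‖(inner ℂ (W.v δ z 0) w : ℂ)‖ ≤
      256 * δ ^ 1500 := by
    rintro z ⟨hz, hn⟩
    push Not at hn
    obtain ⟨hn1, hn2, hn3⟩ := hn
    have hfar : ∀ σ : ℝ, 0 ≤ σ → σ ≤ T → ∀ γ ∈ G.Gam T, ∀ V' ∈ G.V,
        rho1 δ ≤ dist (app γ (z.1 + σ • z.2)) V' := by
      intro σ hσ0 hσT γ hγ V' hV'
      by_contra hlt
      push Not at hlt
      exact hn3 ⟨hn1, hn2, σ, hσ0, hσT, γ, hγ, V', hV', hlt⟩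
    have hq := hgn W V hV z hz (le_trans hn2 ha1) hfar t ht0 htT
    have h1 : ‖(inner ℂ f (W.v δ z 0) : ℂ)‖ ≤ 8 * δ ^ 1500 := by
      obtain ⟨-, k2, -, -, -⟩ := EDual_facts hbm u (S.U (hh δ) t (W.v δ z 0))
      obtain ⟨k1, -, -, -, -⟩ := EDual_facts hbm (S.U (hh δ) t (W.v δ z 0)) u
      rw [hf, inner_U, neg_neg, hg, k2]
      refine (norm_inner_le_norm _ _).trans ?_
      have k3 : ‖EDual_cut b (S.U (hh δ) t (W.v δ z 0))‖ ≤ δ ^ 1500 := by
        refine (sq_le_sq₀ (norm_nonneg _) (by positivity)).1 ?_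
        rw [k1, ← pow_mul]
        exact hq
      exact mul_le_mul hg8 k3 (norm_nonneg _) (by norm_num)
    have h2 : ‖(inner ℂ (W.v δ z 0) w : ℂ)‖ ≤ 32 := by
      refine (norm_inner_le_norm _ _).trans ?_
      have := norm_v_le W h0 z 0
      calc ‖W.v δ z 0‖ * ‖w‖ ≤ 4 * 8 := mul_le_mul this hw (norm_nonneg _) (by norm_num)
        _ = 32 := by norm_num
    calc ‖(inner ℂ f (W.v δ z 0) : ℂ)‖ * ‖(inner ℂ (W.v δ z 0) w : ℂ)‖ ≤ (8 * δ ^ 1500) * 32 :=
          mul_le_mul h1 h2 (norm_nonneg _) (by positivity)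
      _ = 256 * δ ^ 1500 := by ring
  have hY : ∫⁻ z in G.Y δ ×ˢ (univ : Set P), ENNReal.ofReal (‖(inner ℂ f (W.v δ z 0) : ℂ)‖ ^ 2) ≤
      ENNReal.ofReal (4 * (2 * Real.pi * hh δ) ^ 2 * mass b u) := by
    have h1 := hbes W 0 f
    rw [hfM] at h1
    refine le_trans (le_of_eq ?_) h1
    refine lintegral_congr fun z => ?_
    rw [norm_inner_symm]
  have hmain := EDual_split hEm hcov hOY (EDual_measv W h0 w) (A :=
    4 * (2 * Real.pi * hh δ) ^ 2 * mass b u) (by positivity) hI (C := C₁) (by positivity)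
    (ε := 256 * δ ^ 1500) (by positivity) hY hint hvol hsm
  rw [hfr3] at hmain
  have ha : 0 < (2 * Real.pi * hh δ) ^ 2 := by positivity
  have hN : ((2 * Real.pi * hh δ) ^ 2) * cst δ * mass b u ≤
      4 * (2 * Real.pi * hh δ) ^ 2 * mass b u / 32 + 8 * I + 256 * δ ^ 1500 * C₁ +
        (2 * Real.pi * hh δ) ^ 2 * ‖R‖ := by
    have e1 : ((((2 * Real.pi * hh δ) ^ 2) * cst δ * mass b u : ℝ) : ℂ) =
        ((2 * Real.pi * hh δ) ^ 2 : ℝ) * ((cst δ : ℂ) * (mass b u : ℂ) + R) -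
          ((2 * Real.pi * hh δ) ^ 2 : ℝ) * R := by
      push_cast
      ring
    have e2 : ((2 * Real.pi * hh δ) ^ 2) * cst δ * mass b u =
        ‖((((2 * Real.pi * hh δ) ^ 2) * cst δ * mass b u : ℝ) : ℂ)‖ := by
      rw [Complex.norm_real, Real.norm_eq_abs, abs_of_nonneg]
      exact mul_nonneg (mul_nonneg ha.le (by linarith)) g4
    rw [e2, e1]
    refine (norm_sub_le _ _).trans (add_le_add hmain (le_of_eq ?_))
    rw [norm_mul, Complex.norm_real, Real.norm_eq_abs, abs_of_pos ha]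
  have hR3 : ‖R‖ ≤ mass b u / 16 + 64 * ((G.V.card : ℝ) * (K * th δ)) := by
    rw [hfM] at hR2
    refine hR2.trans ?_
    have h1 : ∑ v ∈ G.V, mass (ball v (2 * th δ)) w ≤ (G.V.card : ℝ) * (K * th δ) := by
      have h2 : ∀ v ∈ G.V, mass (ball v (2 * th δ)) w ≤ K * th δ := fun v hv =>
        (EDual_mono (ball_subset_ball (by linarith)) w).trans (hmass v hv)
      refine (Finset.sum_le_card_nsmul _ _ _ h2).trans (le_of_eq ?_)
      rw [nsmul_eq_mul]
    linarith
  refine EDual_arith (e1 := δ ^ 1500) ha (by positivity) ?_ hc1 g4 hI (by positivity)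
    (Nat.cast_nonneg _) (mul_nonneg hK hth.le) (by positivity) (by positivity) ?_ hN hR3
  · have h1 : 1 ≤ 2 * Real.pi := by linarith [Real.pi_gt_three]
    calc hh δ ^ 2 = (1 * hh δ) ^ 2 := by ring
      _ ≤ (2 * Real.pi * hh δ) ^ 2 :=
        pow_le_pow_left₀ (by positivity) (mul_le_mul_of_nonneg_right h1 hhp.le) 2
  · unfold hh
    rw [← pow_mul, ← pow_add]
    exact pow_le_pow_of_le_one h0.le hδ1 (by norm_num)

end

end Pool.Agent.MP4eed4eR.E
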