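import Pool.Agent.Lib.MP_4eed4e_an_R.Base3
import Pool.Agent.Lib.MP_4eed4e_an_R.C08
import Pool.Agent.Lib.MP_4eed4e_an_R.C11

/-!
MP_4eed4e_an, project R, block E, module EJoint: joint measurability, and the average over the
packets which start near a vertex.

PROOFS.
* `meas_joint`: `parseval_inner` and `co_U` give the inner product as the sum over `k` of
  `conj (co k f) * (exp (..) * co k g)`, and `co k (fam ..)` is the complex conjugate of
  `inner (fam ..) (S.e k)`, measurable in the parameters by `measurable_inner_fam`. The sum is the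
  limit of the partial sums (`HasSum.tendsto_sum_nat`, `measurable_of_tendsto_metrizable`).
* `meas_vv`: `W.v δ z s` is `cls D (W.fam (-1) (-1) (envc δ s) (hh δ) z.1 z.2)` (`pkt_eq_fam`), and
  `env_envc`.
* `avg_bad`: exchange the integrals (`lintegral_lintegral_swap`, `meas_vv`, `G.N δ V` and `A` are
  measurable). For fixed `p` one has `‖⟨v_p, U(t) v_y⟩‖ = ‖⟨v_y, U(-t) v_p⟩‖` (`inner_U`,
  `inner_conj_symm`), `G.N δ V ⊆ G.Y δ ×ˢ univ`, and `bessel_v` gives at most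
  `4 (2 π h)² ‖v_p‖² ≤ 64 (2 π h)² ≤ 2560 h²` (`norm_U`, `norm_v_le`, `π² < 10`).
-/

namespace Pool.Agent.MP4eed4eR.E

open MeasureTheory Set Filter Topology Metric
open scoped ComplexConjugate ContDiff

noncomputable section

variable {D : Set P}

theorem meas_joint (S : Spec D) {G : Geo D} {ρ R R' h : ℝ} (W : Walls G ρ) {E E' : P → ℂ}
    (hE : Env E R) (hE' : Env E' R') (e₁ e₂ e₁' e₂' t : ℝ) :
    Measurable (fun p : (P × P) × (P × P) =>
      (inner ℂ (cls D (W.fam e₁ e₂ E h p.1.1 p.1.2))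
        (S.U h t (cls D (W.fam e₁' e₂' E' h p.2.1 p.2.2))) : ℂ)) := by
  have hlim : Tendsto (fun (n : ℕ) (p : (P × P) × (P × P)) => ∑ k ∈ Finset.range n,
      (inner ℂ (cls D (W.fam e₁ e₂ E h p.1.1 p.1.2)) (S.e k) : ℂ) *
        (Complex.exp (-(t * h * S.lam k / 2 : ℝ) * Complex.I) *
          conj (inner ℂ (cls D (W.fam e₁' e₂' E' h p.2.1 p.2.2)) (S.e k) : ℂ))) atTop
      (𝓝 (fun p : (P × P) × (P × P) =>
        (inner ℂ (cls D (W.fam e₁ e₂ E h p.1.1 p.1.2))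
          (S.U h t (cls D (W.fam e₁' e₂' E' h p.2.1 p.2.2))) : ℂ))) := by
    rw [tendsto_pi_nhds]
    intro p
    have hs := (parseval_inner S (cls D (W.fam e₁ e₂ E h p.1.1 p.1.2))
      (S.U h t (cls D (W.fam e₁' e₂' E' h p.2.1 p.2.2)))).tendsto_sum_nat
    refine hs.congr fun n => Finset.sum_congr rfl fun k _ => ?_
    rw [co_U]
    unfold Spec.co
    rw [inner_conj_symm, inner_conj_symm]
  refine measurable_of_tendsto_metrizable (fun n => ?_) hlim
  refine Finset.measurable_sum _ fun k _ => ?_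
  have h1 : Measurable (fun p : (P × P) × (P × P) =>
      (inner ℂ (cls D (W.fam e₁ e₂ E h p.1.1 p.1.2)) (S.e k) : ℂ)) :=
    (measurable_inner_fam W hE e₁ e₂ (S.e k)).comp measurable_fst
  have h2 : Measurable (fun p : (P × P) × (P × P) =>
      (inner ℂ (cls D (W.fam e₁' e₂' E' h p.2.1 p.2.2)) (S.e k) : ℂ)) :=
    (measurable_inner_fam W hE' e₁' e₂' (S.e k)).comp measurable_snd
  exact h1.mul ((Complex.continuous_conj.measurable.comp h2).const_mul _)

theorem meas_vv (S : Spec D) {G : Geo D} {ρ : ℝ} (W : Walls G ρ) {δ : ℝ} (hδ : 0 < δ)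
    (s t : ℝ) : Measurable (fun p : (P × P) × (P × P) =>
      (inner ℂ (W.v δ p.1 0) (S.U (hh δ) t (W.v δ p.2 s)) : ℂ)) := by
  have h1 := meas_joint S (h := hh δ) W (env_envc hδ 0) (env_envc hδ s) (-1) (-1) (-1) (-1) t
  have he : (fun p : (P × P) × (P × P) =>
      (inner ℂ (W.v δ p.1 0) (S.U (hh δ) t (W.v δ p.2 s)) : ℂ)) =
      fun p : (P × P) × (P × P) =>
      (inner ℂ (cls D (W.fam (-1) (-1) (envc δ 0) (hh δ) p.1.1 p.1.2))
        (S.U (hh δ) t (cls D (W.fam (-1) (-1) (envc δ s) (hh δ) p.2.1 p.2.2))) : ℂ) := by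
    funext p
    unfold Walls.v
    rw [pkt_eq_fam, pkt_eq_fam]
  rw [he]
  exact h1

private theorem EJoint_swap (F : P × P → P × P → ENNReal)
    (hF : Measurable (fun p : (P × P) × (P × P) => F p.1 p.2)) (N A : Set (P × P)) :
    ∫⁻ y in N, ∫⁻ p in A, F p y = ∫⁻ p in A, ∫⁻ y in N, F p y :=
  (lintegral_lintegral_swap hF.aemeasurable).symm

private theorem EJoint_num (h a : ℝ) (h0 : 0 ≤ a) (ha : a ≤ 4) :
    ENNReal.ofReal (4 * (2 * Real.pi * h) ^ 2 * a ^ 2) ≤ ENNReal.ofReal (2560 * h ^ 2) := by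
  refine ENNReal.ofReal_le_ofReal ?_
  have h1 : a ^ 2 ≤ 16 := by nlinarith
  have h2 : Real.pi ^ 2 ≤ 10 := by
    have h3 := Real.pi_lt_d2
    have h4 := Real.pi_pos
    nlinarith
  have h5 : 0 ≤ h ^ 2 := sq_nonneg _
  have h6 : 0 ≤ 4 * (2 * Real.pi * h) ^ 2 := mul_nonneg (by norm_num) (sq_nonneg _)
  calc 4 * (2 * Real.pi * h) ^ 2 * a ^ 2
      ≤ 4 * (2 * Real.pi * h) ^ 2 * 16 := mul_le_mul_of_nonneg_left h1 h6
    _ = 256 * (Real.pi ^ 2 * h ^ 2) := by ring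
    _ ≤ 256 * (10 * h ^ 2) :=
      mul_le_mul_of_nonneg_left (mul_le_mul_of_nonneg_right h2 h5) (by norm_num)
    _ = 2560 * h ^ 2 := by ring

theorem avg_bad (S : Spec D) (G : Geo D) : ∀ᶠ δ in 𝓝[>] (0 : ℝ), ∀ W : Walls G (th δ / 4),
    ∀ (V : P) (A : Set (P × P)), MeasurableSet A → ∀ s t : ℝ,
      ∫⁻ y in G.N δ V, ∫⁻ p in A,
        ENNReal.ofReal (‖(inner ℂ (W.v δ p 0) (S.U (hh δ) t (W.v δ y s)) : ℂ)‖ ^ 2) ≤
        ENNReal.ofReal (2560 * hh δ ^ 2) * volume A := by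
  filter_upwards [bessel_v G, self_mem_nhdsWithin] with δ hb hδ W V A hA s t
  have hδ : 0 < δ := hδ
  have hm : Measurable (fun p : (P × P) × (P × P) =>
      ENNReal.ofReal (‖(inner ℂ (W.v δ p.1 0) (S.U (hh δ) t (W.v δ p.2 s)) : ℂ)‖ ^ 2)) :=
    ((meas_vv S W hδ s t).norm.pow_const 2).ennreal_ofReal
  rw [EJoint_swap (fun p y : P × P =>
    ENNReal.ofReal (‖(inner ℂ (W.v δ p 0) (S.U (hh δ) t (W.v δ y s)) : ℂ)‖ ^ 2)) hm]
  calc ∫⁻ p in A, ∫⁻ y in G.N δ V,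
        ENNReal.ofReal (‖(inner ℂ (W.v δ p 0) (S.U (hh δ) t (W.v δ y s)) : ℂ)‖ ^ 2)
      ≤ ∫⁻ _ in A, ENNReal.ofReal (2560 * hh δ ^ 2) := by
        refine lintegral_mono fun p => ?_
        calc ∫⁻ y in G.N δ V,
              ENNReal.ofReal (‖(inner ℂ (W.v δ p 0) (S.U (hh δ) t (W.v δ y s)) : ℂ)‖ ^ 2)
            = ∫⁻ y in G.N δ V, ENNReal.ofReal
                (‖(inner ℂ (W.v δ y s) (S.U (hh δ) (-t) (W.v δ p 0)) : ℂ)‖ ^ 2) := by
              refine lintegral_congr fun y => ?_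
              rw [← inner_conj_symm, RCLike.norm_conj, inner_U]
          _ ≤ ∫⁻ y in G.Y δ ×ˢ (univ : Set P), ENNReal.ofReal
                (‖(inner ℂ (W.v δ y s) (S.U (hh δ) (-t) (W.v δ p 0)) : ℂ)‖ ^ 2) :=
              lintegral_mono_set fun y hy => ⟨hy.1, mem_univ _⟩
          _ ≤ ENNReal.ofReal (4 * (2 * Real.pi * hh δ) ^ 2 *
                ‖S.U (hh δ) (-t) (W.v δ p 0)‖ ^ 2) := hb W s _
          _ ≤ ENNReal.ofReal (2560 * hh δ ^ 2) := by
              rw [norm_U]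
              exact EJoint_num _ _ (norm_nonneg _) (norm_v_le W hδ p 0)
    _ = ENNReal.ofReal (2560 * hh δ ^ 2) * volume A := setLIntegral_const _ _

end

end Pool.Agent.MP4eed4eR.E
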