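import Pool.Agent.Lib.MP_4eed4e_an_RE.EProf
import Pool.Agent.Lib.MP_4eed4e_an_RE.EDual
import Pool.Agent.Lib.MP_4eed4e_an_RE.EJoint

/-!
MP_4eed4e_an, project R, block E, module ERet: the return estimate (statement of OutE).

PROOF of `ret`. `t₁ = min (G.rho0 / 32) (l / 2)`, `T = l + 1`, `h = hh δ`, `θ = th δ`, `a = a1 δ`,
`b = ball V (2 θ)`. For `|t - l| ≤ kap δ` one has `0 ≤ t - t₁ ≤ T`. Fix `s` and `y ∈ G.N δ V`,
`u = W.v δ y s`.
* `energy` (for `l + 1`) gives `w₁, w₂` with constant `C₀`; `‖u‖ ≤ 4` (`norm_v_le`); `u` vanishes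
  a.e. where `2 θ ≤ dist q V` (`mass_v`, `dist y.1 V < θ`). `profile` gives `w = w_y`, `‖w‖ ≤ 8`,
  with `‖U(t₁) u - w‖² ≤ C θ²`, the masses `≤ C θ` (so `K = C` in `dual`).
* `mass b (U(t) u) ≤ 2 mass b (U(t - t₁) w) + 2 ‖U(t₁) u - w‖²` (`U_add`, `norm_U`).
* The integral in `dual` is at most the one in `profile`, `C h² θ² / a²`, plus the integral over
  `bad`: `‖⟨v_p, w⟩‖² ≤ 2 ‖⟨v_p, U(t₁) u⟩‖² + 2 ‖⟨v_p, w - U(t₁) u⟩‖²`, and `bessel_v` for the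
  second term (`p.1 ∈ G.X δ ⊆ G.Y δ`): at most `2 J(y) + 8 (2 π h)² C θ²`, `J(y) = ∫⁻ p in bad,
  ‖⟨v_p, U(t₁) v_{y,s}⟩‖²` (finite by `bessel_v`). So `ofReal (mass b (U(t) v_{y,s})) ≤ ofReal (C
  (θ² / a² + θ + δ ^ 100 + θ²)) + ofReal (C / h²) J(y)` and `θ² / a² = δ ^ 12`, `θ ≤ δ ^ 12`.
  Integrate over `G.N δ V`: `N_vol`, `avg_bad` (`meas_bad`) and `bad_vol`, `a1³ rho1 = δ ^ 126 = δ
  ^ 12 θ³`.
-/

namespace Pool.Agent.MP4eed4eR

open MeasureTheory Set Filter Topology Metric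
open scoped ComplexConjugate ContDiff

noncomputable section

variable {D : Set P}

private theorem ERet_norm (f : HD D) : ‖f‖ ^ 2 = ∫ q in D, ‖f q‖ ^ 2 := by
  have h1 : (inner ℂ f f : ℂ) = ∫ q in D, (inner ℂ (f q) (f q) : ℂ) := L2.inner_def f f
  rw [inner_self_eq_norm_sq_to_K] at h1
  have h2 : ∀ q, (inner ℂ (f q) (f q) : ℂ) = ((‖f q‖ ^ 2 : ℝ) : ℂ) := by
    intro q
    rw [inner_self_eq_norm_sq_to_K]
    push_cast
    rfl
  simp only [h2] at h1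
  rw [integral_complex_ofReal] at h1
  have h3 : (Complex.ofReal ‖f‖) ^ 2 = Complex.ofReal (∫ q in D, ‖f q‖ ^ 2) := h1
  rw [← Complex.ofReal_pow] at h3
  exact Complex.ofReal_injective h3

private theorem ERet_int (f : HD D) : IntegrableOn (fun q => ‖f q‖ ^ 2) D :=
  (Lp.memLp f).integrable_norm_pow (by norm_num)

/-- the masses of two functions -/
private theorem ERet_mass {A : Set P} (hA : MeasurableSet A) (hD : MeasurableSet D)
    (f g : HD D) : mass A f ≤ 2 * mass A g + 2 * ‖f - g‖ ^ 2 := by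
  rw [ERet_norm]
  unfold mass
  have hsub : A ∩ D ⊆ D := inter_subset_right
  have i1 : IntegrableOn (fun q => ‖f q‖ ^ 2) (A ∩ D) := (ERet_int f).mono_set hsub
  have i2 : IntegrableOn (fun q => ‖g q‖ ^ 2) (A ∩ D) := (ERet_int g).mono_set hsub
  have i3 : IntegrableOn (fun q => ‖(f - g : HD D) q‖ ^ 2) (A ∩ D) :=
    (ERet_int (f - g)).mono_set hsub
  have h1 : ∫ q in A ∩ D, ‖(f - g : HD D) q‖ ^ 2 ≤ ∫ q in D, ‖(f - g : HD D) q‖ ^ 2 :=
    setIntegral_mono_set (ERet_int (f - g)) (Eventually.of_forall fun q => sq_nonneg _)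
      (Eventually.of_forall fun q hq => hq.2)
  have h2 : ∫ q in A ∩ D, ‖f q‖ ^ 2 ≤
      ∫ q in A ∩ D, (2 * ‖g q‖ ^ 2 + 2 * ‖(f - g : HD D) q‖ ^ 2) := by
    refine setIntegral_mono_on_ae i1 ((i2.const_mul 2).add (i3.const_mul 2)) (hA.inter hD) ?_
    have h3 := (ae_restrict_iff' hD).1 (Lp.coeFn_sub f g)
    filter_upwards [h3] with q q1 hq
    rw [q1 hq.2, Pi.sub_apply]
    have h4 : ‖f q‖ ≤ ‖g q‖ + ‖f q - g q‖ := by
      have := norm_add_le (g q) (f q - g q)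
      rwa [add_sub_cancel] at this
    have h5 := norm_nonneg (f q)
    nlinarith [sq_nonneg (‖g q‖ - ‖f q - g q‖)]
  rw [integral_add (i2.const_mul 2) (i3.const_mul 2), integral_const_mul,
    integral_const_mul] at h2
  linarith

private theorem ERet_mass_nonneg (A : Set P) (f : HD D) : 0 ≤ mass A f :=
  integral_nonneg fun _ => sq_nonneg _

private theorem ERet_meas {G : Geo D} {ρ : ℝ} (W : Walls G ρ) {δ : ℝ} (hδ : 0 < δ) (f : HD D) :
    Measurable fun z : P × P => ENNReal.ofReal (‖(inner ℂ (W.v δ z 0) f : ℂ)‖ ^ 2) := by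
  have h1 := measurable_inner_fam (h := hh δ) W (env_envc hδ 0) (-1) (-1) f
  have h2 : (fun z : P × P => (inner ℂ (W.v δ z 0) f : ℂ)) = fun z : P × P =>
      (inner ℂ (cls D (W.fam (-1) (-1) (envc δ 0) (hh δ) z.1 z.2)) f : ℂ) := by
    funext z
    unfold Walls.v
    rw [pkt_eq_fam]
  rw [← h2] at h1
  exact (h1.norm.pow_const 2).ennreal_ofReal

private theorem ERet_h {a b c : ℝ} (hb : 0 ≤ b) (hc : 0 ≤ c) (h : a ≤ 2 * b + 2 * c) :
    ENNReal.ofReal a ≤ 2 * ENNReal.ofReal b + 2 * ENNReal.ofReal c := by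
  refine (ENNReal.ofReal_le_ofReal h).trans (le_of_eq ?_)
  rw [ENNReal.ofReal_add (by positivity) (by positivity), ENNReal.ofReal_mul zero_le_two,
    ENNReal.ofReal_mul zero_le_two, ENNReal.ofReal_ofNat]

/-- the integral over a set of packets for two functions -/
private theorem ERet_two {G : Geo D} {ρ : ℝ} (W : Walls G ρ) {δ : ℝ} (hδ : 0 < δ) (B : Set (P × P))
    (f g : HD D) :
    ∫⁻ z in B, ENNReal.ofReal (‖(inner ℂ (W.v δ z 0) f : ℂ)‖ ^ 2) ≤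
      2 * (∫⁻ z in B, ENNReal.ofReal (‖(inner ℂ (W.v δ z 0) g : ℂ)‖ ^ 2)) +
        2 * ∫⁻ z in B, ENNReal.ofReal (‖(inner ℂ (W.v δ z 0) (f - g) : ℂ)‖ ^ 2) := by
  have m1 := ERet_meas W hδ g
  have m2 := ERet_meas W hδ (f - g)
  rw [← lintegral_const_mul _ m1, ← lintegral_const_mul _ m2,
    ← lintegral_add_left (m1.const_mul 2)]
  refine lintegral_mono fun z => ?_
  show ENNReal.ofReal (‖(inner ℂ (W.v δ z 0) f : ℂ)‖ ^ 2) ≤
    2 * ENNReal.ofReal (‖(inner ℂ (W.v δ z 0) g : ℂ)‖ ^ 2) +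
      2 * ENNReal.ofReal (‖(inner ℂ (W.v δ z 0) (f - g) : ℂ)‖ ^ 2)
  refine ERet_h (by positivity) (by positivity) ?_
  have h1 : (inner ℂ (W.v δ z 0) f : ℂ) =
      inner ℂ (W.v δ z 0) g + inner ℂ (W.v δ z 0) (f - g) := by
    rw [← inner_add_right, add_sub_cancel]
  rw [h1]
  have h2 := norm_add_le (inner ℂ (W.v δ z 0) g : ℂ) (inner ℂ (W.v δ z 0) (f - g))
  have h3 := norm_nonneg ((inner ℂ (W.v δ z 0) g : ℂ) + inner ℂ (W.v δ z 0) (f - g))
  nlinarith [sq_nonneg (‖(inner ℂ (W.v δ z 0) g : ℂ)‖ - ‖(inner ℂ (W.v δ z 0) (f - g) : ℂ)‖)]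

/-- comparison of the scales -/
private theorem ERet_sc {δ : ℝ} (h0 : 0 < δ) (h1 : δ ≤ 1 / 2) :
    hh δ ^ 2 * th δ ^ 2 / a1 δ ^ 2 = hh δ ^ 2 * δ ^ 12 ∧ th δ ^ 2 ≤ δ ^ 12 ∧ th δ ≤ δ ^ 12 ∧
      δ ^ 100 ≤ δ ^ 12 ∧ a1 δ ^ 3 * rho1 δ = δ ^ 12 * th δ ^ 3 := by
  have h2 : δ ≤ 1 := by linarith
  have h3 : δ ≠ 0 := h0.ne'
  refine ⟨?_, ?_, ?_, ?_, ?_⟩
  · unfold th a1
    field_simp
  · unfold th
    rw [← pow_mul]
    exact pow_le_pow_of_le_one h0.le h2 (by norm_num)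
  · exact pow_le_pow_of_le_one h0.le h2 (by norm_num)
  · exact pow_le_pow_of_le_one h0.le h2 (by norm_num)
  · unfold a1 rho1 th
    ring

/-- RET: the return estimate. -/
theorem ret (S : Spec D) (G : Geo D) {l : ℝ} (hl : 0 < l) : ∃ C : ℝ,
    ∀ᶠ δ in 𝓝[>] (0 : ℝ), ∀ W : Walls G (th δ / 4), ∀ V ∈ G.V, ∀ t : ℝ, |t - l| ≤ kap δ →
    ∀ s : ℝ, 0 ≤ s → s ≤ l + 1 →
    ∫⁻ y in G.N δ V, ENNReal.ofReal (mass (ball V (2 * th δ)) (S.U (hh δ) t (W.v δ y s))) ≤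
      ENNReal.ofReal (C * (δ ^ 12 * th δ ^ 3)) := by
  have hr := G.pos
  have ht₁ : 0 < min (G.rho0 / 32) (l / 2) := lt_min (by positivity) (by positivity)
  have ht₁' : min (G.rho0 / 32) (l / 2) ≤ G.rho0 / 32 := min_le_left _ _
  have ht₁'' : min (G.rho0 / 32) (l / 2) ≤ l / 2 := min_le_right _ _
  generalize min (G.rho0 / 32) (l / 2) = t₁ at ht₁ ht₁' ht₁''
  obtain ⟨C₀, hen⟩ := energy S G (l + 1)
  obtain ⟨C₁, hprof⟩ := profile S G ht₁ ht₁' C₀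
  have hK : 0 ≤ |C₁| := abs_nonneg _
  obtain ⟨C₂', hC₂', hdual⟩ := E.dual S G t₁ (l + 1) |C₁| hK
  obtain ⟨C₃, hC₃, hbv⟩ := E.bad_vol G ht₁ (l + 1)
  set C₂ : ℝ := C₂' + 1 with hC₂def
  have hC₂ : 0 < C₂ := by positivity
  set Q : ℝ := 2 * C₂ * (|C₁| + 8 * (2 * Real.pi) ^ 2 * |C₁| + |C₁| + 1) + 2 * |C₁| with hQ
  have hQ0 : 0 ≤ Q := by positivity
  refine ⟨128 * Q + 10240 * C₂ * C₃, ?_⟩
  have hl2 : 0 < min (l / 2) 1 := lt_min (by positivity) one_pos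
  have hK1 : 0 < 16 / (|C₁| + 1) := by positivity
  filter_upwards [C.ev_geo G, hen, hprof, hdual, hbv, E.avg_bad S G, E.N_vol G, mass_v G,
    bessel_v G, C.ev_pow hl2 (show 0 < 39 by norm_num),
    C.ev_pow hK1 (show 0 < 76 by norm_num)] with δ hgeo hen hprof hdual hbv havg hNv hmv hbes
      hkap hthK
  intro W V hV t ht s hs0 hsl
  obtain ⟨h0, h12, -, -⟩ := hgeo
  have hth := C.th_pos h0
  have hh0 := C.hh_pos h0
  obtain ⟨sc1, sc2, sc3, sc4, sc5⟩ := ERet_sc h0 h12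
  have hkap1 : kap δ ≤ l / 2 := le_trans hkap (min_le_left _ _)
  have hkap2 : kap δ ≤ 1 := le_trans hkap (min_le_right _ _)
  obtain ⟨ht1, ht2⟩ := abs_le.1 ht
  have htt0 : 0 ≤ t - t₁ := by linarith
  have htt1 : t - t₁ ≤ l + 1 := by linarith
  have hthK' : |C₁| * th δ ^ 2 ≤ 16 := by
    have e : th δ ^ 2 = δ ^ 76 := by
      unfold th
      rw [← pow_mul]
    rw [e]
    rw [le_div_iff₀ (by positivity)] at hthK
    have : 0 ≤ δ ^ 76 := by positivity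
    nlinarith
  set J : P × P → ENNReal := fun y => ∫⁻ p in E.bad G t₁ (l + 1) δ V,
    ENNReal.ofReal (‖(inner ℂ (W.v δ p 0) (S.U (hh δ) t₁ (W.v δ y s)) : ℂ)‖ ^ 2) with hJ
  have key : ∀ y ∈ G.N δ V,
      ENNReal.ofReal (mass (ball V (2 * th δ)) (S.U (hh δ) t (W.v δ y s))) ≤
        ENNReal.ofReal (Q * δ ^ 12) + ENNReal.ofReal (4 * C₂ / hh δ ^ 2) * J y := by
    intro y hy
    rcases eq_or_ne (J y) ⊤ with hJt | hJt
    · rw [hJt, ENNReal.mul_top (ENNReal.ofReal_pos.2 (by positivity)).ne', add_top]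
      exact le_top
    obtain ⟨hy1, hy2, hy3⟩ := hy
    obtain ⟨w₁, w₂, hw₁, hw₂, hco⟩ := hen W y.1 hy1 y.2 hy3 s (by
      rw [abs_of_nonneg hs0]
      exact hsl)
    have hu4 := norm_v_le W h0 y s
    have huz : ∀ᵐ q ∂(volume.restrict D), 2 * th δ ≤ dist q V →
        (W.v δ y s : P → ℂ) q = 0 := by
      filter_upwards [hmv W y hy1 s] with q hq hqV
      apply hq
      have := dist_triangle q y.1 V
      linarith
    obtain ⟨w, hw1, hw2, -, hw4⟩ := hprof W V hV (W.v δ y s) w₁ w₂ hu4 hw₁ hw₂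
      (fun k => (hco k).1) (fun k => (hco k).2) huz
    have hwK : ‖S.U (hh δ) t₁ (W.v δ y s) - w‖ ^ 2 ≤ |C₁| * th δ ^ 2 :=
      hw1.trans (mul_le_mul_of_nonneg_right (le_abs_self _) (sq_nonneg _))
    have hw8 : ‖w‖ ≤ 8 := by
      have h1 : ‖S.U (hh δ) t₁ (W.v δ y s) - w‖ ≤ 4 := by
        have h2 : ‖S.U (hh δ) t₁ (W.v δ y s) - w‖ ^ 2 ≤ 4 ^ 2 := by
          refine (hwK.trans hthK').trans ?_
          norm_num
        exact (pow_le_pow_iff_left₀ (norm_nonneg _) (by norm_num) two_ne_zero).1 h2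
      have h3 : ‖w‖ ≤ ‖S.U (hh δ) t₁ (W.v δ y s)‖ + ‖S.U (hh δ) t₁ (W.v δ y s) - w‖ := by
        have := norm_sub_le (S.U (hh δ) t₁ (W.v δ y s)) (S.U (hh δ) t₁ (W.v δ y s) - w)
        rwa [sub_sub_cancel] at this
      rw [norm_U] at h3
      linarith
    have hwm : ∀ V' ∈ G.V, mass (ball V' (3 * th δ)) w ≤ |C₁| * th δ := fun V' hV' =>
      (hw2 V' hV').trans (mul_le_mul_of_nonneg_right (le_abs_self _) hth.le)
    set I : ℝ := |C₁| * (hh δ ^ 2 * th δ ^ 2 / a1 δ ^ 2) + 2 * (J y).toReal +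
      8 * (2 * Real.pi * hh δ) ^ 2 * (|C₁| * th δ ^ 2) with hI
    have hJr : 0 ≤ (J y).toReal := ENNReal.toReal_nonneg
    have hI0 : 0 ≤ I := by
      have h1 : 0 ≤ hh δ ^ 2 * th δ ^ 2 / a1 δ ^ 2 := by
        rw [sc1]
        positivity
      positivity
    have hint : ∫⁻ z in {z : P × P | z.1 ∈ G.X δ ∧ (a1 δ < dist z.1 (V + t₁ • z.2) ∨
        a1 δ < |sq z.2 - 1| ∨ z ∈ E.bad G t₁ (l + 1) δ V)},
        ENNReal.ofReal (‖(inner ℂ (W.v δ z 0) w : ℂ)‖ ^ 2) ≤ ENNReal.ofReal I := by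
      have hsub : {z : P × P | z.1 ∈ G.X δ ∧ (a1 δ < dist z.1 (V + t₁ • z.2) ∨
          a1 δ < |sq z.2 - 1| ∨ z ∈ E.bad G t₁ (l + 1) δ V)} ⊆
          {z : P × P | z.1 ∈ G.X δ ∧ (a1 δ < dist z.1 (V + t₁ • z.2) ∨
            a1 δ < |sq z.2 - 1|)} ∪ {z : P × P | z.1 ∈ G.X δ ∧ z ∈ E.bad G t₁ (l + 1) δ V} := by
        rintro z ⟨h1, h2 | h2 | h2⟩
        · exact Or.inl ⟨h1, Or.inl h2⟩
        · exact Or.inl ⟨h1, Or.inr h2⟩
        · exact Or.inr ⟨h1, h2⟩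
      refine (lintegral_mono_set hsub).trans ((lintegral_union_le _ _ _).trans ?_)
      have b1 : ∫⁻ z in {z : P × P | z.1 ∈ G.X δ ∧ (a1 δ < dist z.1 (V + t₁ • z.2) ∨
          a1 δ < |sq z.2 - 1|)}, ENNReal.ofReal (‖(inner ℂ (W.v δ z 0) w : ℂ)‖ ^ 2) ≤
          ENNReal.ofReal (|C₁| * (hh δ ^ 2 * th δ ^ 2 / a1 δ ^ 2)) := by
        refine hw4.trans (ENNReal.ofReal_le_ofReal ?_)
        refine mul_le_mul_of_nonneg_right (le_abs_self _) ?_
        rw [sc1]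
        positivity
      have b2 : ∫⁻ z in {z : P × P | z.1 ∈ G.X δ ∧ z ∈ E.bad G t₁ (l + 1) δ V},
          ENNReal.ofReal (‖(inner ℂ (W.v δ z 0) (S.U (hh δ) t₁ (W.v δ y s)) : ℂ)‖ ^ 2) ≤
          J y := lintegral_mono_set fun z hz => hz.2
      have b3 : ∫⁻ z in {z : P × P | z.1 ∈ G.X δ ∧ z ∈ E.bad G t₁ (l + 1) δ V},
          ENNReal.ofReal (‖(inner ℂ (W.v δ z 0) (w - S.U (hh δ) t₁ (W.v δ y s)) : ℂ)‖ ^ 2) ≤
          ENNReal.ofReal (4 * (2 * Real.pi * hh δ) ^ 2 * (|C₁| * th δ ^ 2)) := by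
        have hXY : {z : P × P | z.1 ∈ G.X δ ∧ z ∈ E.bad G t₁ (l + 1) δ V} ⊆
            G.Y δ ×ˢ (univ : Set P) := by
          rintro z ⟨⟨k1, k2⟩, -⟩
          exact ⟨⟨subset_closure k1, fun v hv => by
            have := k2 v hv
            linarith⟩, mem_univ _⟩
        refine (lintegral_mono_set hXY).trans ((hbes W 0 _).trans ?_)
        refine ENNReal.ofReal_le_ofReal ?_
        rw [norm_sub_rev]
        exact mul_le_mul_of_nonneg_left hwK (by positivity)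
      have b4 := ERet_two W h0 {z : P × P | z.1 ∈ G.X δ ∧ z ∈ E.bad G t₁ (l + 1) δ V} w
        (S.U (hh δ) t₁ (W.v δ y s))
      have e2 : (2 : ENNReal) = ENNReal.ofReal 2 := by norm_num
      have e3 : J y = ENNReal.ofReal (J y).toReal := (ENNReal.ofReal_toReal hJt).symm
      calc _ ≤ ENNReal.ofReal (|C₁| * (hh δ ^ 2 * th δ ^ 2 / a1 δ ^ 2)) + (2 * J y + 2 *
            ENNReal.ofReal (4 * (2 * Real.pi * hh δ) ^ 2 * (|C₁| * th δ ^ 2))) := by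
            refine add_le_add b1 (b4.trans ?_)
            gcongr
        _ = ENNReal.ofReal I := by
            rw [e2, e3, ← ENNReal.ofReal_mul zero_le_two, ← ENNReal.ofReal_mul zero_le_two,
              ← ENNReal.ofReal_add (by positivity) (by positivity),
              ← ENNReal.ofReal_add (by rw [sc1]; positivity) (by positivity)]
            congr 1
            rw [hI]
            ring
    have hd := hdual W V hV w hw8 hwm I hI0 hint (t - t₁) htt0 htt1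
    have hm := ERet_mass (A := ball V (2 * th δ)) isOpen_ball.measurableSet
      G.isOpen.measurableSet (S.U (hh δ) t (W.v δ y s)) (S.U (hh δ) (t - t₁) w)
    have hU : S.U (hh δ) t (W.v δ y s) =
        S.U (hh δ) (t - t₁) (S.U (hh δ) t₁ (W.v δ y s)) := by
      rw [← U_add, sub_add_cancel]
    have hn : ‖S.U (hh δ) t (W.v δ y s) - S.U (hh δ) (t - t₁) w‖ ^ 2 ≤ |C₁| * th δ ^ 2 := by
      rw [hU, ← U_sub, norm_U]
      exact hwK
    have hbr : 0 ≤ I / hh δ ^ 2 + |C₁| * th δ + δ ^ 100 := by positivity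
    have hd2 : mass (ball V (2 * th δ)) (S.U (hh δ) (t - t₁) w) ≤
        C₂ * (I / hh δ ^ 2 + |C₁| * th δ + δ ^ 100) :=
      hd.trans (mul_le_mul_of_nonneg_right (by rw [hC₂def]; linarith) hbr)
    have hIh : I / hh δ ^ 2 = |C₁| * δ ^ 12 + 2 * (J y).toReal / hh δ ^ 2 +
        8 * (2 * Real.pi) ^ 2 * (|C₁| * th δ ^ 2) := by
      rw [hI, sc1]
      field_simp
    have hfin : mass (ball V (2 * th δ)) (S.U (hh δ) t (W.v δ y s)) ≤
        Q * δ ^ 12 + 4 * C₂ / hh δ ^ 2 * (J y).toReal := by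
      have f1 : |C₁| * δ ^ 12 + 8 * (2 * Real.pi) ^ 2 * (|C₁| * th δ ^ 2) + |C₁| * th δ +
          δ ^ 100 ≤ (|C₁| + 8 * (2 * Real.pi) ^ 2 * |C₁| + |C₁| + 1) * δ ^ 12 := by
        have g1 : 8 * (2 * Real.pi) ^ 2 * (|C₁| * th δ ^ 2) ≤
            8 * (2 * Real.pi) ^ 2 * (|C₁| * δ ^ 12) := by gcongr
        have g2 : |C₁| * th δ ≤ |C₁| * δ ^ 12 := by gcongr
        linarith
      have f2 : |C₁| * th δ ^ 2 ≤ |C₁| * δ ^ 12 := by gcongr
      have f3 := mul_le_mul_of_nonneg_left f1 hC₂.le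
      have f4 : mass (ball V (2 * th δ)) (S.U (hh δ) t (W.v δ y s)) ≤
          2 * (C₂ * (|C₁| * δ ^ 12 + 2 * (J y).toReal / hh δ ^ 2 +
            8 * (2 * Real.pi) ^ 2 * (|C₁| * th δ ^ 2) + |C₁| * th δ + δ ^ 100)) +
            2 * (|C₁| * th δ ^ 2) := by
        rw [hIh] at hd2
        linarith
      have f5 : 4 * C₂ / hh δ ^ 2 * (J y).toReal = 2 * (C₂ * (2 * (J y).toReal / hh δ ^ 2)) := by
        ring
      rw [f5, hQ]
      linarith
    calc ENNReal.ofReal (mass (ball V (2 * th δ)) (S.U (hh δ) t (W.v δ y s)))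
        ≤ ENNReal.ofReal (Q * δ ^ 12 + 4 * C₂ / hh δ ^ 2 * (J y).toReal) :=
          ENNReal.ofReal_le_ofReal hfin
      _ = ENNReal.ofReal (Q * δ ^ 12) + ENNReal.ofReal (4 * C₂ / hh δ ^ 2) * J y := by
          rw [ENNReal.ofReal_add (by positivity) (by positivity),
            ENNReal.ofReal_mul (p := 4 * C₂ / hh δ ^ 2) (by positivity),
            ENNReal.ofReal_toReal hJt]
  calc ∫⁻ y in G.N δ V,
        ENNReal.ofReal (mass (ball V (2 * th δ)) (S.U (hh δ) t (W.v δ y s)))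
      ≤ ∫⁻ y in G.N δ V, (ENNReal.ofReal (Q * δ ^ 12) +
          ENNReal.ofReal (4 * C₂ / hh δ ^ 2) * J y) :=
        setLIntegral_mono' (E.meas_N G δ V) key
    _ = ENNReal.ofReal (Q * δ ^ 12) * volume (G.N δ V) +
          ENNReal.ofReal (4 * C₂ / hh δ ^ 2) * ∫⁻ y in G.N δ V, J y := by
        rw [lintegral_add_left measurable_const, setLIntegral_const,
          lintegral_const_mul' _ _ ENNReal.ofReal_ne_top]
    _ ≤ ENNReal.ofReal (Q * δ ^ 12) * ENNReal.ofReal (128 * th δ ^ 3) +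
          ENNReal.ofReal (4 * C₂ / hh δ ^ 2) * (ENNReal.ofReal (2560 * hh δ ^ 2) *
            ENNReal.ofReal (C₃ * (a1 δ ^ 3 * rho1 δ))) := by
        have a1' := havg W V (E.bad G t₁ (l + 1) δ V) (E.meas_bad G t₁ (l + 1) δ V) s t₁
        have a2 := hNv V
        have a3 := hbv V
        gcongr
        exact a1'.trans (by gcongr)
    _ = ENNReal.ofReal ((128 * Q + 10240 * C₂ * C₃) * (δ ^ 12 * th δ ^ 3)) := by
        rw [sc5, ← ENNReal.ofReal_mul (by positivity), ← ENNReal.ofReal_mul (by positivity),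
          ← ENNReal.ofReal_mul (by positivity), ← ENNReal.ofReal_add (by positivity)
          (by positivity)]
        congr 1
        field_simp
        ring

end

end Pool.Agent.MP4eed4eR
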