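import Pool.Agent.Lib.MP_4eed4e_an_R.B04
import Pool.Agent.Lib.MP_4eed4e_an_R.C09
import Pool.Agent.Lib.MP_4eed4e_an_RE.ERet

/-!
MP_4eed4e_an, project R, block E, module ERetW: the return estimate for the operator `W`.

PROOF. `h = hh δ`, `√h = sh δ = δ ^ 40`, `N = G.N δ V`, `b = ball V (2 θ)`. By `mass_W_le`,
`mass b (W v_y) ≤ ∫ g(σ) mass b (U(l - 2 √h σ) v_y) dσ`, `g(σ) = (2 π)^(-1/2) exp(-σ² / 2)`. Pass to
`∫⁻` (`ofReal_integral_eq_lintegral_ofReal` or `ENNReal.ofReal_le..`; the masses are between `0` and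
`16`), integrate over `N` and exchange the integrals (`measurable_mass` with `pkt_eq_fam`,
`env_envc`). For `|σ| ≤ 1 / (2 δ)` one has `|2 √h σ| ≤ kap δ` and the inner integral is at most
`C δ ^ 12 θ³` by `ret`; for `|σ| > 1 / (2 δ)` it is at most `16 * 128 θ³` (`N_vol`) and
`∫ g` over this set is at most `δ ^ 12` (`g(σ) ≤ exp(-1 / (16 δ²)) exp(-σ² / 4)` there;
`C.neg_exp`).
`meas_massW`: `f ↦ mass b (W v_y)` is measurable: `co_W`, `parseval`-type expansion as in
`measurable_mass`: `mass b (S.W h l v) = ‖1_b W v‖²` is the sum over `j` of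
`‖⟨e_j, 1_b W v⟩‖²` (`parseval`) and `⟨e_j, 1_b W v⟩ = ⟨W* 1_b e_j, v⟩` with
`W* = S.op (conj om)` (coefficients), measurable by `measurable_inner_fam`.
-/

namespace Pool.Agent.MP4eed4eR.E

open MeasureTheory Set Filter Topology Metric
open scoped ComplexConjugate ContDiff

noncomputable section

variable {D : Set P}

/-- Restriction to a set, as an element of `L²(D)`. -/
private def ERetW_ind (A : Set P) (f : HD D) : HD D := cls D (A.indicator (f : P → ℂ))

private theorem ERetW_coe {A : Set P} (hA : MeasurableSet A) (f : HD D) :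
    (ERetW_ind A f : P → ℂ) =ᵐ[volume.restrict D] A.indicator (f : P → ℂ) := by
  have h1 : MemLp (A.indicator (f : P → ℂ)) 2 (volume.restrict D) := (Lp.memLp f).indicator hA
  unfold ERetW_ind cls
  rw [dif_pos h1]
  exact h1.coeFn_toLp

private theorem ERetW_inner {A : Set P} (hA : MeasurableSet A) (f g : HD D) :
    (inner ℂ f (ERetW_ind A g) : ℂ) =
      ∫ q, A.indicator (fun q => (inner ℂ (f q) (g q) : ℂ)) q ∂(volume.restrict D) := by
  rw [L2.inner_def]
  refine integral_congr_ae ?_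
  filter_upwards [ERetW_coe hA g] with q hq
  rw [hq]
  by_cases h : q ∈ A
  · rw [indicator_of_mem h, indicator_of_mem h]
  · rw [indicator_of_notMem h, indicator_of_notMem h, inner_zero_right]

private theorem ERetW_inner' {A : Set P} (hA : MeasurableSet A) (f g : HD D) :
    (inner ℂ (ERetW_ind A f) g : ℂ) =
      ∫ q, A.indicator (fun q => (inner ℂ (f q) (g q) : ℂ)) q ∂(volume.restrict D) := by
  rw [L2.inner_def]
  refine integral_congr_ae ?_
  filter_upwards [ERetW_coe hA f] with q hq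
  rw [hq]
  by_cases h : q ∈ A
  · rw [indicator_of_mem h, indicator_of_mem h]
  · rw [indicator_of_notMem h, indicator_of_notMem h, inner_zero_left]

private theorem ERetW_self (f : HD D) :
    (fun q => (inner ℂ (f q) (f q) : ℂ)) = fun q => ((‖f q‖ ^ 2 : ℝ) : ℂ) := by
  funext q
  rw [inner_self_eq_norm_sq_to_K]
  push_cast
  rfl

private theorem ERetW_mass {A : Set P} (hA : MeasurableSet A) (f : HD D) :
    mass A f = (inner ℂ f (ERetW_ind A f) : ℂ).re := by
  rw [ERetW_inner hA, integral_indicator hA, Measure.restrict_restrict hA, ERetW_self,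
    integral_complex_ofReal, Complex.ofReal_re]
  rfl

private theorem ERetW_ser {α : Type*} [MeasurableSpace α] {F : ℕ → α → ℂ} {g : α → ℂ}
    (hF : ∀ k, Measurable (F k)) (hg : ∀ a, HasSum (fun k => F k a) (g a)) : Measurable g := by
  refine measurable_of_tendsto_metrizable
    (f := fun n a => ∑ k ∈ Finset.range n, F k a) (fun n => ?_) ?_
  · exact Finset.measurable_fun_sum _ fun k _ => hF k
  · exact tendsto_pi_nhds.2 fun a => (hg a).tendsto_sum_nat

/-- masses of families with measurable coefficients -/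
private theorem ERetW_meas (S : Spec D) {α : Type*} [MeasurableSpace α] {g : α → HD D}
    (h1 : ∀ k, Measurable fun p => S.co k (g p)) {A : Set P} (hA : MeasurableSet A) :
    Measurable fun p => mass A (g p) := by
  have h2 : ∀ k, Measurable fun p => S.co k (ERetW_ind A (g p)) := by
    intro k
    refine ERetW_ser (F := fun j p => conj (S.co j (ERetW_ind A (S.e k))) * S.co j (g p))
      (fun j => measurable_const.mul (h1 j)) fun p => ?_
    have h3 : S.co k (ERetW_ind A (g p)) = inner ℂ (ERetW_ind A (S.e k)) (g p) := by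
      unfold Spec.co
      rw [ERetW_inner hA, ERetW_inner' hA]
    rw [h3]
    exact parseval_inner S _ _
  have h3 : Measurable fun p => (inner ℂ (g p) (ERetW_ind A (g p)) : ℂ) := by
    refine ERetW_ser (F := fun k p => conj (S.co k (g p)) * S.co k (ERetW_ind A (g p)))
      (fun k => ?_) fun p => parseval_inner S _ _
    exact (Complex.continuous_conj.measurable.comp (h1 k)).mul (h2 k)
  have h4 : (fun p => mass A (g p)) = fun p => (inner ℂ (g p) (ERetW_ind A (g p)) : ℂ).re := by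
    funext p
    exact ERetW_mass hA _
  rw [h4]
  exact Complex.measurable_re.comp h3

/-- the coefficients of the packets -/
private theorem ERetW_co (S : Spec D) {G : Geo D} {ρ : ℝ} (W : Walls G ρ) {δ : ℝ} (hδ : 0 < δ)
    (s : ℝ) (k : ℕ) : Measurable (fun y : P × P => S.co k (W.v δ y s)) := by
  have h1 : (fun y : P × P => S.co k (W.v δ y s)) = fun z : P × P =>
      conj (inner ℂ (cls D (W.fam (-1) (-1) (envc δ s) (hh δ) z.1 z.2)) (S.e k) : ℂ) := by
    funext z
    unfold Spec.co Walls.v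
    rw [pkt_eq_fam]
    exact (inner_conj_symm _ _).symm
  rw [h1]
  exact Complex.continuous_conj.measurable.comp
    (measurable_inner_fam W (env_envc hδ s) (-1) (-1) (S.e k))

theorem meas_massW (S : Spec D) {G : Geo D} {ρ : ℝ} (W : Walls G ρ) {δ : ℝ} (hδ : 0 < δ)
    (l s : ℝ) {A : Set P} (hA : MeasurableSet A) :
    Measurable (fun y : P × P => mass A (S.W (hh δ) l (W.v δ y s))) := by
  refine ERetW_meas S (fun k => ?_) hA
  simp only [co_W S (C.hh_pos hδ)]
  exact (ERetW_co S W hδ s k).const_mul _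

private theorem ERetW_nonneg (A : Set P) (f : HD D) : 0 ≤ mass A f :=
  integral_nonneg fun _ => sq_nonneg _

private theorem ERetW_le (A : Set P) (f : HD D) : mass A f ≤ ‖f‖ ^ 2 := by
  have h0 : IntegrableOn (fun q => ‖f q‖ ^ 2) D :=
    (memLp_two_iff_integrable_sq_norm (Lp.memLp f).1).1 (Lp.memLp f)
  have h1 : (inner ℂ f f : ℂ) = ((‖f‖ : ℝ) : ℂ) ^ 2 := inner_self_eq_norm_sq_to_K f
  have h2 : (inner ℂ f f : ℂ) = ∫ q in D, inner ℂ (f q) (f q) := L2.inner_def f f
  rw [ERetW_self, integral_complex_ofReal, h1] at h2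
  have h3 : ∫ q in D, ‖f q‖ ^ 2 = ‖f‖ ^ 2 := by exact_mod_cast h2.symm
  rw [← h3]
  exact setIntegral_mono_set h0 (Eventually.of_forall fun q => sq_nonneg _)
    (Eventually.of_forall inter_subset_right)

/-- the Gaussian weight -/
private def ERetW_g (σ : ℝ) : ℝ := (Real.sqrt (2 * Real.pi))⁻¹ * Real.exp (-σ ^ 2 / 2)

/-- the weight for the tail -/
private def ERetW_e (δ σ : ℝ) : ℝ :=
  (Real.sqrt (2 * Real.pi))⁻¹ * (Real.exp (-(1 / 16 / δ ^ 2)) * Real.exp (-(1 / 4) * σ ^ 2))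

private theorem ERetW_gint : Integrable ERetW_g ∧ ∫ σ, ERetW_g σ = 1 := by
  have e : ERetW_g = fun σ => (Real.sqrt (2 * Real.pi))⁻¹ * Real.exp (-(1 / 2) * σ ^ 2) := by
    funext σ
    unfold ERetW_g
    congr 2
    ring
  rw [e]
  refine ⟨(integrable_exp_neg_mul_sq (by norm_num)).const_mul _, ?_⟩
  rw [integral_const_mul, integral_gaussian]
  have h1 : Real.pi / (1 / 2) = 2 * Real.pi := by ring
  rw [h1]
  exact inv_mul_cancel₀ (by positivity)

private theorem ERetW_eint (δ : ℝ) : Integrable (ERetW_e δ) ∧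
    ∫ σ, ERetW_e δ σ = Real.sqrt 2 * Real.exp (-(1 / 16 / δ ^ 2)) := by
  unfold ERetW_e
  refine ⟨((integrable_exp_neg_mul_sq (by norm_num)).const_mul _).const_mul _, ?_⟩
  rw [integral_const_mul, integral_const_mul, integral_gaussian]
  have h1 : Real.pi / (1 / 4) = 2 * (2 * Real.pi) := by ring
  rw [h1, Real.sqrt_mul (by norm_num) (2 * Real.pi)]
  have h2 : Real.sqrt (2 * Real.pi) ≠ 0 := by positivity
  field_simp

private theorem ERetW_tail {δ σ : ℝ} (hδ : 0 < δ) (h : 1 / (2 * δ) < |σ|) :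
    ERetW_g σ ≤ ERetW_e δ σ := by
  unfold ERetW_g ERetW_e
  rw [← Real.exp_add]
  refine mul_le_mul_of_nonneg_left (Real.exp_le_exp.2 ?_) (by positivity)
  have h1 : (1 / (2 * δ)) ^ 2 ≤ σ ^ 2 := by
    rw [← sq_abs σ]
    exact pow_le_pow_left₀ (by positivity) h.le 2
  have h2 : 1 / 16 / δ ^ 2 = 1 / 4 * (1 / (2 * δ)) ^ 2 := by
    field_simp
    norm_num
  rw [h2]
  linarith

theorem ret_W (S : Spec D) (G : Geo D) {l : ℝ} (hl : 0 < l) : ∃ C : ℝ, 0 ≤ C ∧
    ∀ᶠ δ in 𝓝[>] (0 : ℝ), ∀ W : Walls G (th δ / 4), ∀ V ∈ G.V,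
    ∀ s : ℝ, 0 ≤ s → s ≤ l + 1 →
    ∫⁻ y in G.N δ V, ENNReal.ofReal (mass (ball V (2 * th δ)) (S.W (hh δ) l (W.v δ y s))) ≤
      ENNReal.ofReal (C * (δ ^ 12 * th δ ^ 3)) := by
  obtain ⟨C₁, hC₁⟩ := ret S G hl
  refine ⟨|C₁| + 2048, by positivity, ?_⟩
  filter_upwards [hC₁, N_vol G, C.ev_lt one_pos,
    C.neg_exp (by norm_num : (0 : ℝ) < 1 / 16) (Real.sqrt 2) 0 12] with δ h1 h2 h0 h3
  intro W V hV s hs0 hs1
  obtain ⟨hδ, hδ1⟩ := h0
  have hth := C.th_pos hδ
  have hsh : 0 < sh δ := pow_pos hδ _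
  have hm : MeasurableSet (ball V (2 * th δ)) := measurableSet_ball
  set m : ℝ → P × P → ℝ := fun σ y =>
    mass (ball V (2 * th δ)) (S.U (hh δ) (l - 2 * Real.sqrt (hh δ) * σ) (W.v δ y s)) with hmdef
  have hm0 : ∀ σ y, 0 ≤ m σ y := fun σ y => ERetW_nonneg _ _
  have hm16 : ∀ σ y, m σ y ≤ 16 := by
    intro σ y
    refine (ERetW_le _ _).trans ?_
    rw [norm_U]
    have h4 := norm_v_le W hδ y s
    have h5 := norm_nonneg (W.v δ y s)
    nlinarith
  have hg0 : ∀ σ, 0 ≤ ERetW_g σ := fun σ => by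
    unfold ERetW_g
    positivity
  have he0 : ∀ σ, 0 ≤ ERetW_e δ σ := fun σ => by
    unfold ERetW_e
    positivity
  have hgm : Measurable ERetW_g := by
    unfold ERetW_g
    fun_prop
  have hmm : Measurable fun p : (P × P) × ℝ => m p.2 p.1 := by
    have k1 := measurable_mass S (h := hh δ) W (env_envc hδ s) (-1) (-1) hm
    have k2 : Measurable fun p : (P × P) × ℝ =>
        ((l - 2 * Real.sqrt (hh δ) * p.2, p.1) : ℝ × (P × P)) := by fun_prop
    have k3 := k1.comp k2
    have e : (fun p : (P × P) × ℝ => m p.2 p.1) = fun p =>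
        mass (ball V (2 * th δ)) (S.U (hh δ) (l - 2 * Real.sqrt (hh δ) * p.2)
          (cls D (W.fam (-1) (-1) (envc δ s) (hh δ) p.1.1 p.1.2))) := by
      funext p
      simp only [hmdef]
      unfold Walls.v
      rw [pkt_eq_fam]
    rw [e]
    exact k3
  have key : ∀ y, ENNReal.ofReal (mass (ball V (2 * th δ)) (S.W (hh δ) l (W.v δ y s))) ≤
      ∫⁻ σ, ENNReal.ofReal (ERetW_g σ * m σ y) := by
    intro y
    have k1 := mass_W_le S (C.hh_pos hδ) l (W.v δ y s) hm
    refine (ENNReal.ofReal_le_ofReal k1).trans ?_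
    have k2 : AEStronglyMeasurable (fun σ => ERetW_g σ * m σ y) volume :=
      (hgm.mul (hmm.comp measurable_prodMk_left)).aestronglyMeasurable
    have k3 : ∫ σ, ERetW_g σ * m σ y = (∫⁻ σ, ENNReal.ofReal (ERetW_g σ * m σ y)).toReal :=
      integral_eq_lintegral_of_nonneg_ae
        (Eventually.of_forall fun σ => mul_nonneg (hg0 σ) (hm0 σ y)) k2
    have k4 : ∫ σ, ((Real.sqrt (2 * Real.pi))⁻¹ * Real.exp (-σ ^ 2 / 2)) *
        mass (ball V (2 * th δ)) (S.U (hh δ) (l - 2 * Real.sqrt (hh δ) * σ) (W.v δ y s)) =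
        ∫ σ, ERetW_g σ * m σ y := rfl
    rw [k4, k3]
    exact ENNReal.ofReal_toReal_le
  have hPhi : ∀ σ, ∫⁻ y in G.N δ V, ENNReal.ofReal (ERetW_g σ * m σ y) ≤
      ENNReal.ofReal (|C₁| * (δ ^ 12 * th δ ^ 3) * ERetW_g σ + 2048 * th δ ^ 3 * ERetW_e δ σ) := by
    intro σ
    have k1 : ∀ y, ENNReal.ofReal (ERetW_g σ * m σ y) =
        ENNReal.ofReal (ERetW_g σ) * ENNReal.ofReal (m σ y) := fun y =>
      ENNReal.ofReal_mul (hg0 σ)
    simp only [k1]
    rw [lintegral_const_mul' _ _ ENNReal.ofReal_ne_top]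
    rcases le_or_gt |σ| (1 / (2 * δ)) with h4 | h4
    · have k2 : |l - 2 * Real.sqrt (hh δ) * σ - l| ≤ kap δ := by
        have e1 : l - 2 * Real.sqrt (hh δ) * σ - l = -(2 * Real.sqrt (hh δ) * σ) := by ring
        rw [e1, abs_neg, C.sqrt_hh hδ, abs_mul, abs_of_pos (by positivity : 0 < 2 * sh δ)]
        calc 2 * sh δ * |σ| ≤ 2 * sh δ * (1 / (2 * δ)) :=
              mul_le_mul_of_nonneg_left h4 (by positivity)
          _ = kap δ := by
              unfold sh kap
              field_simp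
      have k3 := h1 W V hV _ k2 s hs0 hs1
      calc ENNReal.ofReal (ERetW_g σ) * ∫⁻ y in G.N δ V, ENNReal.ofReal (m σ y)
          ≤ ENNReal.ofReal (ERetW_g σ) * ENNReal.ofReal (C₁ * (δ ^ 12 * th δ ^ 3)) := by
            gcongr
        _ = ENNReal.ofReal (ERetW_g σ * (C₁ * (δ ^ 12 * th δ ^ 3))) :=
            (ENNReal.ofReal_mul (hg0 σ)).symm
        _ ≤ _ := by
            refine ENNReal.ofReal_le_ofReal ?_
            have k4 : C₁ * (δ ^ 12 * th δ ^ 3) ≤ |C₁| * (δ ^ 12 * th δ ^ 3) :=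
              mul_le_mul_of_nonneg_right (le_abs_self _) (by positivity)
            have k5 := mul_le_mul_of_nonneg_left k4 (hg0 σ)
            have k6 : 0 ≤ 2048 * th δ ^ 3 * ERetW_e δ σ := mul_nonneg (by positivity) (he0 σ)
            linarith
    · have k2 : ∫⁻ y in G.N δ V, ENNReal.ofReal (m σ y) ≤ ENNReal.ofReal (2048 * th δ ^ 3) := by
        calc ∫⁻ y in G.N δ V, ENNReal.ofReal (m σ y) ≤ ∫⁻ _y in G.N δ V, ENNReal.ofReal 16 :=
              lintegral_mono fun y => ENNReal.ofReal_le_ofReal (hm16 σ y)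
          _ = ENNReal.ofReal 16 * volume (G.N δ V) := setLIntegral_const _ _
          _ ≤ ENNReal.ofReal 16 * ENNReal.ofReal (128 * th δ ^ 3) := by
              gcongr
              exact h2 V
          _ = ENNReal.ofReal (2048 * th δ ^ 3) := by
              rw [← ENNReal.ofReal_mul (by norm_num)]
              congr 1
              ring
      calc ENNReal.ofReal (ERetW_g σ) * ∫⁻ y in G.N δ V, ENNReal.ofReal (m σ y)
          ≤ ENNReal.ofReal (ERetW_g σ) * ENNReal.ofReal (2048 * th δ ^ 3) := by gcongr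
        _ = ENNReal.ofReal (ERetW_g σ * (2048 * th δ ^ 3)) := (ENNReal.ofReal_mul (hg0 σ)).symm
        _ ≤ _ := by
            refine ENNReal.ofReal_le_ofReal ?_
            have k4 := mul_le_mul_of_nonneg_right (ERetW_tail hδ h4)
              (by positivity : 0 ≤ 2048 * th δ ^ 3)
            have k5 : 0 ≤ |C₁| * (δ ^ 12 * th δ ^ 3) * ERetW_g σ :=
              mul_nonneg (by positivity) (hg0 σ)
            linarith
  have hFm : Measurable fun p : (P × P) × ℝ => ENNReal.ofReal (ERetW_g p.2 * m p.2 p.1) :=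
    ((hgm.comp measurable_snd).mul hmm).ennreal_ofReal
  have hi1 := ERetW_gint
  have hi2 := ERetW_eint δ
  calc ∫⁻ y in G.N δ V, ENNReal.ofReal (mass (ball V (2 * th δ)) (S.W (hh δ) l (W.v δ y s)))
      ≤ ∫⁻ y in G.N δ V, ∫⁻ σ, ENNReal.ofReal (ERetW_g σ * m σ y) := lintegral_mono key
    _ = ∫⁻ σ, ∫⁻ y in G.N δ V, ENNReal.ofReal (ERetW_g σ * m σ y) :=
        lintegral_lintegral_swap hFm.aemeasurable
    _ ≤ ∫⁻ σ, ENNReal.ofReal (|C₁| * (δ ^ 12 * th δ ^ 3) * ERetW_g σ +
          2048 * th δ ^ 3 * ERetW_e δ σ) := lintegral_mono hPhi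
    _ = ENNReal.ofReal (∫ σ, (|C₁| * (δ ^ 12 * th δ ^ 3) * ERetW_g σ +
          2048 * th δ ^ 3 * ERetW_e δ σ)) := by
        have hint : Integrable fun σ => |C₁| * (δ ^ 12 * th δ ^ 3) * ERetW_g σ +
            2048 * th δ ^ 3 * ERetW_e δ σ := (hi1.1.const_mul _).add (hi2.1.const_mul _)
        exact (ofReal_integral_eq_lintegral_ofReal hint
          (Eventually.of_forall fun σ => add_nonneg (mul_nonneg (by positivity) (hg0 σ))
            (mul_nonneg (by positivity) (he0 σ)))).symm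
    _ ≤ ENNReal.ofReal ((|C₁| + 2048) * (δ ^ 12 * th δ ^ 3)) := by
        refine ENNReal.ofReal_le_ofReal ?_
        rw [integral_add (hi1.1.const_mul _) (hi2.1.const_mul _), integral_const_mul,
          integral_const_mul, hi1.2, hi2.2]
        rw [pow_zero, mul_one] at h3
        have k4 := mul_le_mul_of_nonneg_left h3 (by positivity : 0 ≤ 2048 * th δ ^ 3)
        linarith

end

end Pool.Agent.MP4eed4eR.E
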