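import Pool.Agent.Lib.MP_4eed4e_an_RE.EHit
import Pool.Agent.Lib.MP_4eed4e_an_RE.ERetW

/-!
MP_4eed4e_an, project R, block E, module ETube: the tube bound (statement of OutE).

PROOF of `tube`. `h = hh δ`, `θ = th δ`, `τ = tau δ = θ / 1024`. For `z` in the set, `hit` gives
`k`, `γ`, `V'`, and `quad_le` (`y = tmap γ (k τ) z`, `σ = k τ`) bounds the integrand by
`Φ_{k,V'}(y)`, `Φ_{k,V'}(y) = ofReal (2 (m(y) / δ ^ 6 + δ ^ 6) + δ ^ 1000)`, `m(y) = mass (ball V'
(2 θ)) (S.W h l (W.v δ y (k τ)))`. So the integral is at most the sum over `k < K = ⌊(l + 1 / 2) /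
τ⌋₊ + 1`, `γ ∈ G.Gam (l + 1)` and `V' ∈ G.V` of the integrals of `Φ_{k,V'} (tmap γ (k τ) z)` over
`{z | tmap γ (k τ) z ∈ G.N δ V'}` (bound the integrand by the sum of indicators,
`lintegral_finset_sum`; measurability by `meas_massW`, `meas_N`, `map_mp`), which are the
integrals of `Φ_{k,V'}` over `G.N δ V'` (`lint_map`, `gam_lin`). By `ret_W` and `N_vol` each of
them is at most `2 C δ ^ 6 θ³ + (2 δ ^ 6 + δ ^ 1000) * 128 θ³ ≤ C' δ ^ 6 θ³`. There are at most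
`C'' / θ` values of `k`, so the sum is at most `C δ ^ 6 θ² = C δ ^ 82 = C δ² h`.
-/

namespace Pool.Agent.MP4eed4eR

open MeasureTheory Set Filter Topology Metric
open scoped ComplexConjugate ContDiff

noncomputable section

variable {D : Set P}

/-- the majorant -/
private def ETube_F (S : Spec D) {G : Geo D} {ρ : ℝ} (W : Walls G ρ) (δ l : ℝ) (k : ℕ) (V : P)
    (y : P × P) : ENNReal :=
  ENNReal.ofReal (2 * (mass (ball V (2 * th δ)) (S.W (hh δ) l (W.v δ y (k * tau δ))) / δ ^ 6 +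
    δ ^ 6) + δ ^ 1000)

private theorem ETube_meas (S : Spec D) {G : Geo D} {ρ : ℝ} (W : Walls G ρ) {δ : ℝ}
    (h0 : 0 < δ) (l : ℝ) (k : ℕ) (V : P) : Measurable (ETube_F S W δ l k V) := by
  have h1 := E.meas_massW S W h0 l (k * tau δ) (A := ball V (2 * th δ))
    isOpen_ball.measurableSet
  unfold ETube_F
  exact ((((h1.div_const _).add_const _).const_mul _).add_const _).ennreal_ofReal

private theorem ETube_mass (f : HD D) (A : Set P) : 0 ≤ mass A f :=
  integral_nonneg fun _ => sq_nonneg _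

/-- one integral -/
private theorem ETube_one (S : Spec D) {G : Geo D} {ρ : ℝ} (W : Walls G ρ) {δ l C₁ : ℝ}
    (h0 : 0 < δ) (h1 : δ ≤ 1 / 2) (hC : 0 ≤ C₁) (k : ℕ) (V : P)
    (hr : ∫⁻ y in G.N δ V, ENNReal.ofReal
      (mass (ball V (2 * th δ)) (S.W (hh δ) l (W.v δ y (k * tau δ)))) ≤
      ENNReal.ofReal (C₁ * (δ ^ 12 * th δ ^ 3)))
    (hN : volume (G.N δ V) ≤ ENNReal.ofReal (128 * th δ ^ 3)) :
    ∫⁻ y in G.N δ V, ETube_F S W δ l k V y ≤
      ENNReal.ofReal ((2 * C₁ + 384) * (δ ^ 6 * th δ ^ 3)) := by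
  have hth := C.th_pos h0
  have e : ∀ y, ETube_F S W δ l k V y = ENNReal.ofReal (2 / δ ^ 6) * ENNReal.ofReal
      (mass (ball V (2 * th δ)) (S.W (hh δ) l (W.v δ y (k * tau δ)))) +
      ENNReal.ofReal (2 * δ ^ 6 + δ ^ 1000) := by
    intro y
    rw [← ENNReal.ofReal_mul (by positivity), ← ENNReal.ofReal_add (by
      have := ETube_mass (S.W (hh δ) l (W.v δ y (k * tau δ))) (ball V (2 * th δ))
      positivity) (by positivity)]
    unfold ETube_F
    congr 1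
    ring
  simp only [e]
  have hm := (E.meas_massW S W h0 l (k * tau δ) (A := ball V (2 * th δ))
    isOpen_ball.measurableSet).ennreal_ofReal
  rw [lintegral_add_right _ measurable_const, lintegral_const_mul _ hm, lintegral_const,
    Measure.restrict_apply_univ]
  have a1 : ENNReal.ofReal (2 / δ ^ 6) * ∫⁻ y in G.N δ V, ENNReal.ofReal
      (mass (ball V (2 * th δ)) (S.W (hh δ) l (W.v δ y (k * tau δ)))) ≤
      ENNReal.ofReal (2 * C₁ * (δ ^ 6 * th δ ^ 3)) := by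
    refine (mul_le_mul_right hr _).trans ?_
    rw [← ENNReal.ofReal_mul (by positivity)]
    refine ENNReal.ofReal_le_ofReal (le_of_eq ?_)
    field_simp
  have a2 : ENNReal.ofReal (2 * δ ^ 6 + δ ^ 1000) * volume (G.N δ V) ≤
      ENNReal.ofReal (384 * (δ ^ 6 * th δ ^ 3)) := by
    refine (mul_le_mul_right hN _).trans ?_
    rw [← ENNReal.ofReal_mul (by positivity)]
    refine ENNReal.ofReal_le_ofReal ?_
    have h2 : δ ^ 1000 ≤ δ ^ 6 := pow_le_pow_of_le_one h0.le (by linarith) (by norm_num)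
    have h3 : 0 ≤ th δ ^ 3 := by positivity
    have h4 := mul_le_mul_of_nonneg_right h2 h3
    nlinarith
  refine (add_le_add a1 a2).trans ?_
  rw [← ENNReal.ofReal_add (by positivity) (by positivity)]
  refine ENNReal.ofReal_le_ofReal (le_of_eq ?_)
  ring

/-- E9: the tube bound. -/
theorem tube (S : Spec D) (G : Geo D) {l : ℝ} (hl : 0 < l) : ∃ C : ℝ, ∀ᶠ δ in 𝓝[>] (0 : ℝ),
    ∀ W : Walls G (th δ / 4),
    ∫⁻ z in {z : P × P | z.1 ∈ G.X δ ∧ z.2 ∈ Win δ ∧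
        ¬GoodUpTo W (tau δ) (th δ) (l + 1 / 2) z},
      ENNReal.ofReal ‖(inner ℂ (W.v δ z 0) (S.W (hh δ) l (W.v δ z 0)) : ℂ)‖ ≤
      ENNReal.ofReal (C * (δ ^ 2 * hh δ)) := by
  obtain ⟨C₁, hC₁, hret⟩ := E.ret_W S G hl
  refine ⟨(l + 3 / 2) * 1024 * ((G.Gam (l + 1)).card * G.V.card : ℕ) * (2 * C₁ + 384), ?_⟩
  filter_upwards [C.ev_geo G, hret, E.hit S G hl, E.quad_le S G l, E.N_vol G] with δ hδ hr hh' hq
    hN
  intro W
  obtain ⟨h0, h12, -, -⟩ := hδ
  have hth := C.th_pos h0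
  have htau := C.tau_pos h0
  have hth1 : th δ ≤ 1 := by
    unfold th
    exact pow_le_one₀ h0.le (by linarith)
  have htau1 : tau δ ≤ 1 := by
    unfold tau
    linarith
  -- the index set
  let K : ℕ := ⌊(l + 1 / 2) / tau δ⌋₊ + 1
  have hKb : (K : ℝ) ≤ (l + 3 / 2) * 1024 / th δ := by
    have a1 : (⌊(l + 1 / 2) / tau δ⌋₊ : ℝ) ≤ (l + 1 / 2) / tau δ :=
      Nat.floor_le (by positivity)
    have a2 : (1 : ℝ) ≤ 1 / tau δ := by
      rw [le_div_iff₀ htau]
      linarith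
    have a3 : (K : ℝ) = (⌊(l + 1 / 2) / tau δ⌋₊ : ℝ) + 1 := by
      simp only [K]
      push_cast
      ring
    have a4 : (l + 1 / 2) / tau δ + 1 / tau δ = (l + 3 / 2) * 1024 / th δ := by
      unfold tau
      field_simp
      ring
    rw [a3, ← a4]
    linarith
  have hkl : ∀ k ∈ Finset.range K, (k : ℝ) * tau δ ≤ l + 1 / 2 := by
    intro k hk
    have a1 : k ≤ ⌊(l + 1 / 2) / tau δ⌋₊ := Nat.lt_succ_iff.1 (Finset.mem_range.1 hk)
    have a2 := (Nat.le_floor_iff (by positivity)).1 a1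
    rwa [le_div_iff₀ htau] at a2
  let I : Finset (ℕ × (P × P) × P) := Finset.range K ×ˢ (G.Gam (l + 1) ×ˢ G.V)
  let Tm : ℕ × (P × P) × P → P × P → P × P := fun i z => E.tmap i.2.1 (i.1 * tau δ) z
  let Φ : ℕ × (P × P) × P → P × P → ENNReal := fun i =>
    {z | Tm i z ∈ G.N δ i.2.2}.indicator fun z => ETube_F S W δ l i.1 i.2.2 (Tm i z)
  have hTm : ∀ i ∈ I, Measurable (Tm i) := by
    intro i hi
    have a1 := (Finset.mem_product.1 (Finset.mem_product.1 hi).2).1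
    exact (E.map_mp (E.gam_lin G a1) _).measurable
  have hΦm : ∀ i ∈ I, Measurable (Φ i) := by
    intro i hi
    exact ((ETube_meas S W h0 l i.1 i.2.2).comp (hTm i hi)).indicator
      (hTm i hi (E.meas_N G δ i.2.2))
  -- each integral
  have hone : ∀ i ∈ I, ∫⁻ z, Φ i z ≤ ENNReal.ofReal ((2 * C₁ + 384) * (δ ^ 6 * th δ ^ 3)) := by
    intro i hi
    obtain ⟨hk, hi2⟩ := Finset.mem_product.1 hi
    obtain ⟨hγ, hV⟩ := Finset.mem_product.1 hi2
    have hNm := E.meas_N G δ i.2.2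
    have a1 : ∫⁻ z, Φ i z = ∫⁻ z in {z | Tm i z ∈ G.N δ i.2.2},
        ETube_F S W δ l i.1 i.2.2 (Tm i z) := lintegral_indicator (hTm i hi hNm) _
    rw [a1]
    have a2 := E.lint_map (E.gam_lin G hγ) (i.1 * tau δ) hNm
      (ETube_meas S W h0 l i.1 i.2.2)
    refine a2.le.trans ?_
    have a3 := hkl i.1 hk
    exact ETube_one S W h0 h12 hC₁ i.1 i.2.2
      (hr W i.2.2 hV _ (by positivity) (by linarith)) (hN i.2.2)
  -- the pointwise bound
  have hpt : ∀ z ∈ {z : P × P | z.1 ∈ G.X δ ∧ z.2 ∈ Win δ ∧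
      ¬GoodUpTo W (tau δ) (th δ) (l + 1 / 2) z},
      ENNReal.ofReal ‖(inner ℂ (W.v δ z 0) (S.W (hh δ) l (W.v δ z 0)) : ℂ)‖ ≤
        ∑ i ∈ I, Φ i z := by
    rintro z ⟨hz1, hz2, hz3⟩
    obtain ⟨k, hk, γ, hγ, V', hV', hy, om, hom, hu⟩ := hh' W z hz1 hz2 hz3
    have b1 := hq W z _ V' hV' hy _ om hom hu
    have hkK : k ∈ Finset.range K := by
      rw [Finset.mem_range]
      refine Nat.lt_succ_iff.2 (Nat.le_floor ?_)
      rwa [le_div_iff₀ htau]
    have hiI : (k, γ, V') ∈ I := Finset.mem_product.2 ⟨hkK, Finset.mem_product.2 ⟨hγ, hV'⟩⟩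
    refine le_trans ?_ (Finset.single_le_sum (f := fun i => Φ i z) (fun _ _ => zero_le) hiI)
    have b2 : Φ (k, γ, V') z = ETube_F S W δ l k V' (Tm (k, γ, V') z) :=
      indicator_of_mem (s := {z | Tm (k, γ, V') z ∈ G.N δ V'}) hy _
    show _ ≤ Φ (k, γ, V') z
    rw [b2]
    exact ENNReal.ofReal_le_ofReal b1
  -- the sum
  have hsm : Measurable fun z => ∑ i ∈ I, Φ i z := Finset.measurable_fun_sum I hΦm
  refine (setLIntegral_mono hsm hpt).trans ?_
  refine (setLIntegral_le_lintegral _ _).trans ?_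
  rw [lintegral_finsetSum' _ (fun i hi => (hΦm i hi).aemeasurable)]
  refine (Finset.sum_le_card_nsmul I _ _ hone).trans ?_
  have hcard : I.card = K * ((G.Gam (l + 1)).card * G.V.card) := by
    simp only [I, Finset.card_product, Finset.card_range]
  rw [nsmul_eq_mul, ← ENNReal.ofReal_natCast, ← ENNReal.ofReal_mul (by positivity), hcard]
  refine ENNReal.ofReal_le_ofReal ?_
  have hn : (0 : ℝ) ≤ (((G.Gam (l + 1)).card * G.V.card : ℕ) : ℝ) := by positivity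
  generalize ((G.Gam (l + 1)).card * G.V.card : ℕ) = n at hn ⊢
  have c1 : (((K * n : ℕ) : ℝ)) * ((2 * C₁ + 384) * (δ ^ 6 * th δ ^ 3)) ≤
      (l + 3 / 2) * 1024 / th δ * n * ((2 * C₁ + 384) * (δ ^ 6 * th δ ^ 3)) := by
    push_cast
    refine mul_le_mul_of_nonneg_right (mul_le_mul_of_nonneg_right hKb hn) (by positivity)
  refine c1.trans (le_of_eq ?_)
  have c2 : δ ^ 2 * hh δ = δ ^ 6 * th δ ^ 2 := by
    unfold hh th
    rw [← pow_mul, ← pow_add, ← pow_add]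
  rw [c2]
  field_simp

end

end Pool.Agent.MP4eed4eR
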