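import Pool.Agent.Lib.MP_4eed4e_an_RE.EDefs
import Pool.Agent.Lib.MP_4eed4e_an_R.C02

/-!
MP_4eed4e_an, project R, block E, module ECut: the cutoff functions.

PROOFS. `cutV V r q = chi ((q.1 - V.1) / r) * chi ((q.2 - V.2) / r)` (module C02 for `chi`:
`contDiff_chi`, `chi_deriv_zero`, `chi_deriv_bdd`; the statements with the prefix `C.`).
`d1 (cutV V r) q = deriv chi ((q.1 - V.1) / r) / r * chi ((q.2 - V.2) / r)`, and so on: compute
`fderiv` along `(1, 0)` as the derivative of `t ↦ cutV V r (q + t • (1, 0))`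
(`lineDeriv_eq_fderiv`, or `HasFDerivAt` of the product); the same with the second derivatives.
For `cutV_der_zero` note that `cutV V r` is constant near `q`.
-/

namespace Pool.Agent.MP4eed4eR.E

open MeasureTheory Set Filter Topology Metric
open scoped ComplexConjugate ContDiff

noncomputable section

/-! ### auxiliary lemmas -/

theorem ECut_d_smooth {η : P → ℝ} (h : ContDiff ℝ ∞ η) :
    ContDiff ℝ ∞ (d1 η) ∧ ContDiff ℝ ∞ (d2 η) := by
  have h1 : ContDiff ℝ ∞ (fderiv ℝ η) := h.fderiv_right (by simp)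
  exact ⟨h1.clm_apply contDiff_const, h1.clm_apply contDiff_const⟩

theorem ECut_mul {f g : P → ℝ} (hf : Differentiable ℝ f) (hg : Differentiable ℝ g) (q : P) :
    d1 (fun q => f q * g q) q = d1 f q * g q + f q * d1 g q ∧
      d2 (fun q => f q * g q) q = d2 f q * g q + f q * d2 g q := by
  unfold d1 d2
  rw [fderiv_fun_mul (hf q) (hg q)]
  constructor
  · simp only [ContinuousLinearMap.add_apply, ContinuousLinearMap.smul_apply, smul_eq_mul]
    ring
  · simp only [ContinuousLinearMap.add_apply, ContinuousLinearMap.smul_apply, smul_eq_mul]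
    ring

theorem ECut_cmul {f : P → ℝ} (c : ℝ) (hf : Differentiable ℝ f) (q : P) :
    d1 (fun q => c * f q) q = c * d1 f q ∧ d2 (fun q => c * f q) q = c * d2 f q := by
  unfold d1 d2
  rw [fderiv_const_mul (hf q)]
  exact ⟨rfl, rfl⟩

theorem ECut_add {f g : P → ℝ} (hf : Differentiable ℝ f) (hg : Differentiable ℝ g) (q : P) :
    d1 (fun q => f q + g q) q = d1 f q + d1 g q ∧
      d2 (fun q => f q + g q) q = d2 f q + d2 g q := by
  unfold d1 d2
  rw [fderiv_fun_add (hf q) (hg q)]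
  exact ⟨rfl, rfl⟩

/-- Product functions. -/
def ECut_pr (g k : ℝ → ℝ) (V : P) (r : ℝ) (q : P) : ℝ :=
  g ((q.1 - V.1) / r) * k ((q.2 - V.2) / r)

theorem ECut_pr_diff {g k : ℝ → ℝ} (hg : Differentiable ℝ g) (hk : Differentiable ℝ k) (V : P)
    (r : ℝ) : Differentiable ℝ (ECut_pr g k V r) := by
  unfold ECut_pr
  fun_prop

theorem ECut_pr_d {g k : ℝ → ℝ} (hg : Differentiable ℝ g) (hk : Differentiable ℝ k) (V : P)
    (r : ℝ) (q : P) : d1 (ECut_pr g k V r) q = 1 / r * ECut_pr (deriv g) k V r q ∧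
      d2 (ECut_pr g k V r) q = 1 / r * ECut_pr g (deriv k) V r q := by
  have h1 : HasFDerivAt (fun q : P => (q.1 - V.1) / r)
      ((1 / r) • ContinuousLinearMap.fst ℝ ℝ ℝ) q := by
    have := ((hasFDerivAt_fst (𝕜 := ℝ) (p := q)).sub_const V.1).const_mul (1 / r)
    refine this.congr_of_eventuallyEq (Eventually.of_forall fun q ↦ ?_)
    simp only
    ring
  have h2 : HasFDerivAt (fun q : P => (q.2 - V.2) / r)
      ((1 / r) • ContinuousLinearMap.snd ℝ ℝ ℝ) q := by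
    have := ((hasFDerivAt_snd (𝕜 := ℝ) (p := q)).sub_const V.2).const_mul (1 / r)
    refine this.congr_of_eventuallyEq (Eventually.of_forall fun q ↦ ?_)
    simp only
    ring
  have h3 := ((hg ((q.1 - V.1) / r)).hasDerivAt.comp_hasFDerivAt q h1).mul
    ((hk ((q.2 - V.2) / r)).hasDerivAt.comp_hasFDerivAt q h2)
  have h4 : fderiv ℝ (ECut_pr g k V r) q = _ := h3.fderiv
  unfold d1 d2
  rw [h4]
  constructor
  · simp [ECut_pr]
    ring
  · simp [ECut_pr]
    ring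

theorem ECut_pr_lap {g k : ℝ → ℝ} (hg : ContDiff ℝ ∞ g) (hk : ContDiff ℝ ∞ k) (V : P)
    (r : ℝ) (q : P) : lap (ECut_pr g k V r) q =
      1 / r ^ 2 * (ECut_pr (deriv (deriv g)) k V r q + ECut_pr g (deriv (deriv k)) V r q) := by
  have g0 := hg.differentiable (by simp)
  have k0 := hk.differentiable (by simp)
  have g1 := (contDiff_infty_iff_deriv.1 hg).2.differentiable (by simp)
  have k1 := (contDiff_infty_iff_deriv.1 hk).2.differentiable (by simp)
  unfold lap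
  have e1 : d1 (ECut_pr g k V r) = fun q ↦ 1 / r * ECut_pr (deriv g) k V r q :=
    funext fun q ↦ (ECut_pr_d g0 k0 V r q).1
  have e2 : d2 (ECut_pr g k V r) = fun q ↦ 1 / r * ECut_pr g (deriv k) V r q :=
    funext fun q ↦ (ECut_pr_d g0 k0 V r q).2
  rw [e1, e2, (ECut_cmul _ (ECut_pr_diff g1 k0 V r) q).1,
    (ECut_cmul _ (ECut_pr_diff g0 k1 V r) q).2, (ECut_pr_d g1 k0 V r q).1,
    (ECut_pr_d g0 k1 V r q).2]
  ring

theorem ECut_eq (V : P) (r : ℝ) : cutV V r = ECut_pr chi chi V r := rfl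

theorem ECut_chi0 : Differentiable ℝ chi := C.contDiff_chi.differentiable (by simp)

theorem ECut_it2 : iteratedDeriv 2 chi = deriv (deriv chi) := by
  rw [iteratedDeriv_succ, iteratedDeriv_one]

theorem ECut_d1 (V : P) (r : ℝ) (q : P) :
    d1 (cutV V r) q = 1 / r * ECut_pr (deriv chi) chi V r q := by
  rw [ECut_eq]
  exact (ECut_pr_d ECut_chi0 ECut_chi0 V r q).1

theorem ECut_d2 (V : P) (r : ℝ) (q : P) :
    d2 (cutV V r) q = 1 / r * ECut_pr chi (deriv chi) V r q := by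
  rw [ECut_eq]
  exact (ECut_pr_d ECut_chi0 ECut_chi0 V r q).2

theorem ECut_lap (V : P) (r : ℝ) (q : P) : lap (cutV V r) q = 1 / r ^ 2 *
    (ECut_pr (deriv (deriv chi)) chi V r q + ECut_pr chi (deriv (deriv chi)) V r q) := by
  rw [ECut_eq]
  exact ECut_pr_lap C.contDiff_chi C.contDiff_chi V r q

theorem cutV_mem (V : P) (r : ℝ) (q : P) : 0 ≤ cutV V r q ∧ cutV V r q ≤ 1 :=
  ⟨C.chir_nonneg _ _, C.chir_le_one _ _⟩

theorem cutV_one {V : P} {r : ℝ} (hr : 0 < r) {q : P} (h : dist q V ≤ r) : cutV V r q = 1 :=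
  C.chir_eq_one hr (by rwa [← dist_eq_norm])

theorem cutV_zero {V : P} {r : ℝ} (hr : 0 < r) {q : P} (h : 2 * r ≤ dist q V) :
    cutV V r q = 0 :=
  C.chir_eq_zero hr (by rwa [← dist_eq_norm])

/-- The derivatives vanish inside the small square and off the big one. -/
theorem cutV_der_zero {V : P} {r : ℝ} (hr : 0 < r) {q : P} (h : dist q V < r ∨ 2 * r < dist q V) :
    d1 (cutV V r) q = 0 ∧ d2 (cutV V r) q = 0 ∧ lap (cutV V r) q = 0 := by
  have hz1 : ∀ {y : ℝ}, (|y| < 1 ∨ 2 < |y|) → deriv chi y = 0 := fun {y} hy ↦ by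
    rw [← iteratedDeriv_one]
    exact C.chi_deriv_zero one_pos hy
  have hz2 : ∀ {y : ℝ}, (|y| < 1 ∨ 2 < |y|) → deriv (deriv chi) y = 0 := fun {y} hy ↦ by
    rw [← ECut_it2]
    exact C.chi_deriv_zero two_pos hy
  have habs : ∀ x : ℝ, |x / r| = |x| / r := fun x ↦ by rw [abs_div, abs_of_pos hr]
  rw [ECut_d1, ECut_d2, ECut_lap]
  unfold ECut_pr
  rw [Prod.dist_eq, Real.dist_eq, Real.dist_eq] at h
  rcases h with h | h
  · obtain ⟨h1, h2⟩ := max_lt_iff.1 h
    have a1 : |(q.1 - V.1) / r| < 1 := by rwa [habs, div_lt_one hr]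
    have a2 : |(q.2 - V.2) / r| < 1 := by rwa [habs, div_lt_one hr]
    rw [hz1 (Or.inl a1), hz1 (Or.inl a2), hz2 (Or.inl a1), hz2 (Or.inl a2)]
    simp
  · rcases lt_max_iff.1 h with h1 | h1
    · have a1 : 2 < |(q.1 - V.1) / r| := by rwa [habs, lt_div_iff₀ hr]
      rw [hz1 (Or.inr a1), hz2 (Or.inr a1), C.chi_eq_zero a1.le]
      simp
    · have a1 : 2 < |(q.2 - V.2) / r| := by rwa [habs, lt_div_iff₀ hr]
      rw [hz1 (Or.inr a1), hz2 (Or.inr a1), C.chi_eq_zero a1.le]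
      simp

theorem cutV_bdd : ∃ C : ℝ, 0 ≤ C ∧ ∀ (V : P) (r : ℝ), 0 < r → ∀ q : P,
    |d1 (cutV V r) q| ≤ C / r ∧ |d2 (cutV V r) q| ≤ C / r ∧ |lap (cutV V r) q| ≤ C / r ^ 2 := by
  obtain ⟨C1, hC1, h1⟩ := C.chi_deriv_bdd 1
  obtain ⟨C2, hC2, h2⟩ := C.chi_deriv_bdd 2
  rw [iteratedDeriv_one] at h1
  rw [ECut_it2] at h2
  have h0 : ∀ y, |chi y| ≤ 1 := fun y ↦ by
    rw [abs_of_nonneg (C.chi_nonneg y)]
    exact C.chi_le_one y
  have hpr : ∀ {g k : ℝ → ℝ} {A B : ℝ}, 0 ≤ A → (∀ y, |g y| ≤ A) → (∀ y, |k y| ≤ B) →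
      ∀ V r q, |ECut_pr g k V r q| ≤ A * B := by
    intro g k A B hA hg hk V r q
    unfold ECut_pr
    rw [abs_mul]
    exact mul_le_mul (hg _) (hk _) (abs_nonneg _) hA
  refine ⟨C1 + 2 * C2, by positivity, fun V r hr q ↦ ⟨?_, ?_, ?_⟩⟩
  · rw [ECut_d1, abs_mul, abs_of_pos (by positivity : 0 < 1 / r), div_eq_mul_one_div (C1 + 2 * C2),
      mul_comm]
    refine mul_le_mul_of_nonneg_right ?_ (by positivity)
    have := hpr hC1 h1 h0 V r q
    linarith
  · rw [ECut_d2, abs_mul, abs_of_pos (by positivity : 0 < 1 / r), div_eq_mul_one_div (C1 + 2 * C2),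
      mul_comm]
    refine mul_le_mul_of_nonneg_right ?_ (by positivity)
    have := hpr zero_le_one h0 h1 V r q
    linarith
  · rw [ECut_lap, abs_mul, abs_of_pos (by positivity : 0 < 1 / r ^ 2),
      div_eq_mul_one_div (C1 + 2 * C2), mul_comm]
    refine mul_le_mul_of_nonneg_right ?_ (by positivity)
    have e1 := hpr hC2 h2 h0 V r q
    have e2 := hpr zero_le_one h0 h2 V r q
    have e3 := abs_add_le (ECut_pr (deriv (deriv chi)) chi V r q)
      (ECut_pr chi (deriv (deriv chi)) V r q)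
    linarith

theorem cutV_cut (V : P) {r : ℝ} (hr : 0 < r) : Cut (cutV V r) := by
  obtain ⟨K, hK, h⟩ := cutV_bdd
  refine ⟨(C.contDiff_chir r).comp (contDiff_id.sub contDiff_const),
    max 1 (max (K / r) (K / r ^ 2)), fun q ↦ ⟨?_, ?_, ?_, ?_⟩⟩
  · rw [abs_of_nonneg (cutV_mem V r q).1]
    exact (cutV_mem V r q).2.trans (le_max_left _ _)
  · exact (h V r hr q).1.trans ((le_max_left _ _).trans (le_max_right _ _))
  · exact (h V r hr q).2.1.trans ((le_max_left _ _).trans (le_max_right _ _))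
  · exact (h V r hr q).2.2.trans ((le_max_right _ _).trans (le_max_right _ _))

theorem cut_mul {η ζ : P → ℝ} (hη : Cut η) (hζ : Cut ζ) : Cut (fun q => η q * ζ q) := by
  obtain ⟨A, hA⟩ := hη.bdd
  obtain ⟨B, hB⟩ := hζ.bdd
  have dη := hη.smooth.differentiable (by simp)
  have dζ := hζ.smooth.differentiable (by simp)
  obtain ⟨sη1, sη2⟩ := ECut_d_smooth hη.smooth
  obtain ⟨sζ1, sζ2⟩ := ECut_d_smooth hζ.smooth
  have dη1 := sη1.differentiable (by simp)
  have dη2 := sη2.differentiable (by simp)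
  have dζ1 := sζ1.differentiable (by simp)
  have dζ2 := sζ2.differentiable (by simp)
  have hA0 : 0 ≤ A := (abs_nonneg _).trans (hA 0).1
  have hB0 : 0 ≤ B := (abs_nonneg _).trans (hB 0).1
  have pm : ∀ {x y : ℝ}, |x| ≤ A → |y| ≤ B → |x * y| ≤ A * B := fun {x y} hx hy ↦ by
    rw [abs_mul]
    exact mul_le_mul hx hy (abs_nonneg _) hA0
  have hAB : 0 ≤ A * B := mul_nonneg hA0 hB0
  have e1 : d1 (fun q => η q * ζ q) = fun q ↦ d1 η q * ζ q + η q * d1 ζ q :=
    funext fun q ↦ (ECut_mul dη dζ q).1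
  have e2 : d2 (fun q => η q * ζ q) = fun q ↦ d2 η q * ζ q + η q * d2 ζ q :=
    funext fun q ↦ (ECut_mul dη dζ q).2
  have e3 : ∀ q, lap (fun q => η q * ζ q) q = lap η q * ζ q +
      2 * (d1 η q * d1 ζ q + d2 η q * d2 ζ q) + η q * lap ζ q := by
    intro q
    unfold lap
    rw [e1, e2, (ECut_add (f := fun q ↦ d1 η q * ζ q) (g := fun q ↦ η q * d1 ζ q)
      (dη1.mul dζ) (dη.mul dζ1) q).1,
      (ECut_add (f := fun q ↦ d2 η q * ζ q) (g := fun q ↦ η q * d2 ζ q)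
      (dη2.mul dζ) (dη.mul dζ2) q).2, (ECut_mul dη1 dζ q).1, (ECut_mul dη dζ1 q).1,
      (ECut_mul dη2 dζ q).2, (ECut_mul dη dζ2 q).2]
    ring
  refine ⟨hη.smooth.mul hζ.smooth, 6 * (A * B), fun q ↦ ?_⟩
  obtain ⟨a0, a1, a2, a3⟩ := hA q
  obtain ⟨b0, b1, b2, b3⟩ := hB q
  refine ⟨?_, ?_, ?_, ?_⟩
  · have := pm a0 b0
    linarith
  · rw [e1]
    have t := abs_add_le (d1 η q * ζ q) (η q * d1 ζ q)
    have := pm a1 b0
    have := pm a0 b1
    linarith
  · rw [e2]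
    have t := abs_add_le (d2 η q * ζ q) (η q * d2 ζ q)
    have := pm a2 b0
    have := pm a0 b2
    linarith
  · rw [e3]
    have t1 := abs_add_le (lap η q * ζ q + 2 * (d1 η q * d1 ζ q + d2 η q * d2 ζ q)) (η q * lap ζ q)
    have t2 := abs_add_le (lap η q * ζ q) (2 * (d1 η q * d1 ζ q + d2 η q * d2 ζ q))
    have t3 := abs_add_le (d1 η q * d1 ζ q) (d2 η q * d2 ζ q)
    have t4 : |2 * (d1 η q * d1 ζ q + d2 η q * d2 ζ q)| =
        2 * |d1 η q * d1 ζ q + d2 η q * d2 ζ q| := by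
      rw [abs_mul, abs_of_pos (two_pos : (0 : ℝ) < 2)]
    have := pm a3 b0
    have := pm a1 b1
    have := pm a2 b2
    have := pm a0 b3
    linarith

theorem cut_const (c : ℝ) : Cut (fun _ => c) := by
  have e1 : d1 (fun _ : P => c) = fun _ ↦ 0 := funext fun q ↦ by simp [d1]
  have e2 : d2 (fun _ : P => c) = fun _ ↦ 0 := funext fun q ↦ by simp [d2]
  have e3 : d1 (fun _ : P => (0 : ℝ)) = fun _ ↦ 0 := funext fun q ↦ by simp [d1]
  have e4 : d2 (fun _ : P => (0 : ℝ)) = fun _ ↦ 0 := funext fun q ↦ by simp [d2]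
  refine ⟨contDiff_const, |c|, fun q ↦ ⟨le_rfl, ?_, ?_, ?_⟩⟩
  · rw [e1]
    simp
  · rw [e2]
    simp
  · unfold lap
    rw [e1, e2, e3, e4]
    simp

theorem cut_sub {η ζ : P → ℝ} (hη : Cut η) (hζ : Cut ζ) : Cut (fun q => η q - ζ q) := by
  have h1 := cut_mul (cut_const (-1)) hζ
  obtain ⟨A, hA⟩ := hη.bdd
  obtain ⟨B, hB⟩ := h1.bdd
  have e0 : (fun q => η q - ζ q) = fun q ↦ η q + -1 * ζ q := by
    funext q
    ring
  rw [e0]
  have dη := hη.smooth.differentiable (by simp)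
  have dζ := h1.smooth.differentiable (by simp)
  obtain ⟨sη1, sη2⟩ := ECut_d_smooth hη.smooth
  obtain ⟨sζ1, sζ2⟩ := ECut_d_smooth h1.smooth
  have e1 : d1 (fun q => η q + -1 * ζ q) = fun q ↦ d1 η q + d1 (fun q ↦ -1 * ζ q) q :=
    funext fun q ↦ (ECut_add dη dζ q).1
  have e2 : d2 (fun q => η q + -1 * ζ q) = fun q ↦ d2 η q + d2 (fun q ↦ -1 * ζ q) q :=
    funext fun q ↦ (ECut_add dη dζ q).2
  have e3 : ∀ q, lap (fun q => η q + -1 * ζ q) q = lap η q + lap (fun q ↦ -1 * ζ q) q := by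
    intro q
    unfold lap
    rw [e1, e2, (ECut_add (sη1.differentiable (by simp)) (sζ1.differentiable (by simp)) q).1,
      (ECut_add (sη2.differentiable (by simp)) (sζ2.differentiable (by simp)) q).2]
    ring
  refine ⟨hη.smooth.add h1.smooth, A + B, fun q ↦ ?_⟩
  obtain ⟨a0, a1, a2, a3⟩ := hA q
  obtain ⟨b0, b1, b2, b3⟩ := hB q
  refine ⟨(abs_add_le _ _).trans (add_le_add a0 b0), ?_, ?_, ?_⟩
  · rw [e1]
    exact (abs_add_le _ _).trans (add_le_add a1 b1)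
  · rw [e2]
    exact (abs_add_le _ _).trans (add_le_add a2 b2)
  · rw [e3]
    exact (abs_add_le _ _).trans (add_le_add a3 b3)

end

end Pool.Agent.MP4eed4eR.E
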