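import Pool.Agent.Lib.MP_4eed4e_an_R.Base3

/-!
MP_4eed4e_an, project R, block E (the return estimate): definitions.

Text: section 5 of /team-store/MP_4eed4e_R.md. The profile of the diffracted wave is studied for
finite sums of eigenfunctions (`fs`), where all derivatives in time are derivatives of finite sums,
and the limit is taken at the end (module EProf). `H = h² (-Δ)`, and `ch1` are the coefficients of
`(H - 1) u`.
-/

namespace Pool.Agent.MP4eed4eR.E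

open MeasureTheory Set Filter Topology Metric
open scoped ComplexConjugate ContDiff

noncomputable section

variable {D : Set P}

/-- A complex valued function in `H¹₀(D)` with its gradient. -/
structure CH (D : Set P) (u u₁ u₂ : P → ℂ) : Prop where
  re : H10 D (fun q => (u q).re) (fun q => (u₁ q).re) (fun q => (u₂ q).re)
  im : H10 D (fun q => (u q).im) (fun q => (u₁ q).im) (fun q => (u₂ q).im)

/-- A complex valued function in `H¹₀(D)` with its gradient and `-Δu = f ∈ L²`. -/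
structure CDom (D : Set P) (u u₁ u₂ f : P → ℂ) : Prop where
  re : Dom D (fun q => (u q).re) (fun q => (u₁ q).re) (fun q => (u₂ q).re) (fun q => (f q).re)
  im : Dom D (fun q => (u q).im) (fun q => (u₁ q).im) (fun q => (u₂ q).im) (fun q => (f q).im)

/-! ### Finite sums of eigenfunctions -/

/-- The finite sum with coefficients `c`. -/
def fs (S : Spec D) (s : Finset ℕ) (c : ℕ → ℂ) (q : P) : ℂ := ∑ k ∈ s, c k * (S.u k q : ℂ)

/-- Its gradient. -/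
def fs1 (S : Spec D) (s : Finset ℕ) (c : ℕ → ℂ) (q : P) : ℂ := ∑ k ∈ s, c k * (S.u₁ k q : ℂ)

def fs2 (S : Spec D) (s : Finset ℕ) (c : ℕ → ℂ) (q : P) : ℂ := ∑ k ∈ s, c k * (S.u₂ k q : ℂ)

/-- `-Δ` of the finite sum. -/
def fsL (S : Spec D) (s : Finset ℕ) (c : ℕ → ℂ) (q : P) : ℂ :=
  ∑ k ∈ s, c k * ((S.lam k * S.u k q : ℝ) : ℂ)

/-- The coefficients at the time `t` of the solution of `u' = (i h / 2) Δ u`. -/
def cev (S : Spec D) (h t : ℝ) (c : ℕ → ℂ) (k : ℕ) : ℂ :=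
  Complex.exp (-(t * h * S.lam k / 2 : ℝ) * Complex.I) * c k

/-- The coefficients of the time derivative. -/
def cdt (S : Spec D) (h : ℝ) (c : ℕ → ℂ) (k : ℕ) : ℂ :=
  -Complex.I * ((h * S.lam k / 2 : ℝ) : ℂ) * c k

/-- The coefficients of `(H - 1) u`. -/
def ch1 (S : Spec D) (h : ℝ) (c : ℕ → ℂ) (k : ℕ) : ℂ := ((h ^ 2 * S.lam k - 1 : ℝ) : ℂ) * c k

/-- The square of the norm of the finite sum. -/
def nsq (s : Finset ℕ) (c : ℕ → ℂ) : ℝ := ∑ k ∈ s, ‖c k‖ ^ 2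

/-! ### Cutoffs -/

/-- The cutoff at `V`: `1` on the square of radius `r`, `0` off the square of radius `2 r`. -/
def cutV (V : P) (r : ℝ) (q : P) : ℝ := chir r (q - V)

/-- The moving cutoff: `0` for `e · (q - V) ≤ a + 2 t`, `1` for `e · (q - V) ≥ a + 2 t + d`. -/
def mv (V e : P) (a d t : ℝ) (q : P) : ℝ :=
  Real.smoothTransition ((dot e (q - V) - a - 2 * t) / d)

/-- The derivative of the profile of the moving cutoff. -/
def mvd (V e : P) (a d t : ℝ) (q : P) : ℝ :=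
  deriv Real.smoothTransition ((dot e (q - V) - a - 2 * t) / d)

/-! ### The localised wave -/

variable (S : Spec D) (V : P) (r : ℝ) (s : Finset ℕ)

/-- `w = η u`, `η = cutV V r`. -/
def W0 (c : ℕ → ℂ) (q : P) : ℂ := (cutV V r q : ℂ) * fs S s c q

def W1 (c : ℕ → ℂ) (q : P) : ℂ :=
  (cutV V r q : ℂ) * fs1 S s c q + (d1 (cutV V r) q : ℂ) * fs S s c q

def W2 (c : ℕ → ℂ) (q : P) : ℂ :=
  (cutV V r q : ℂ) * fs2 S s c q + (d2 (cutV V r) q : ℂ) * fs S s c q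

/-- The commutator `[Δ, η] u = 2 ∇η · ∇u + (Δη) u`. -/
def Cm (c : ℕ → ℂ) (q : P) : ℂ :=
  2 * ((d1 (cutV V r) q : ℂ) * fs1 S s c q + (d2 (cutV V r) q : ℂ) * fs2 S s c q) +
    (lap (cutV V r) q : ℂ) * fs S s c q

/-- `-Δ w`. -/
def WL (c : ℕ → ℂ) (q : P) : ℂ := (cutV V r q : ℂ) * fsL S s c q - Cm S V r s c q

/-- The source term: `w' = (i h / 2) Δ w + rr`. -/
def RR (h : ℝ) (c : ℕ → ℂ) (q : P) : ℂ := -(Complex.I * (h / 2 : ℝ)) * Cm S V r s c q

/-- `|(X + i t h ∇) w|²`, `X = q - V`. -/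
def Qd (h t : ℝ) (c : ℕ → ℂ) (q : P) : ℝ :=
  ‖((q.1 - V.1 : ℝ) : ℂ) * W0 S V r s c q + Complex.I * (t * h : ℝ) * W1 S V r s c q‖ ^ 2 +
    ‖((q.2 - V.2 : ℝ) : ℂ) * W0 S V r s c q + Complex.I * (t * h : ℝ) * W2 S V r s c q‖ ^ 2

/-- `X · ∇ w`. -/
def XW (c : ℕ → ℂ) (q : P) : ℂ :=
  ((q.1 - V.1 : ℝ) : ℂ) * W1 S V r s c q + ((q.2 - V.2 : ℝ) : ℂ) * W2 S V r s c q

/-- The hypotheses on the finite sum (the initial data). -/
structure Dat (S : Spec D) (V : P) (C₀ δ : ℝ) (s : Finset ℕ) (c : ℕ → ℂ) : Prop where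
  n0 : nsq s c ≤ 16
  n1 : nsq s (ch1 S (hh δ) c) ≤ (C₀ * th δ) ^ 2
  n2 : nsq s (ch1 S (hh δ) (ch1 S (hh δ) c)) ≤ (C₀ * th δ ^ 2) ^ 2
  i0 : ∫ q in {q : P | 2 * th δ ≤ dist q V}, ‖fs S s c q‖ ^ 2 ≤ th δ ^ 4
  i1 : ∫ q in {q : P | 2 * th δ ≤ dist q V}, ‖fs S s (ch1 S (hh δ) c) q‖ ^ 2 ≤ th δ ^ 4

end

end Pool.Agent.MP4eed4eR.E
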