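import Pool.Agent.Lib.MP_4eed4e_an_R.C08
import Pool.Agent.Lib.MP_4eed4e_an_R.C11
import Pool.Agent.Lib.MP_4eed4e_an_R.C30

/-!
MP_4eed4e_an, project R, block E, module EEn: phase space localisation in energy (E5).

PROOFS. `h = hh δ`; `E₀, E₁, E₂` from `ham_fam`, `f_j z = cls D (W.fam (-1) (-1) E_j h z.1 z.2)`.
* `en_id`: for `z = (x, ξ)`, `x ∈ G.Y δ`: `parseval_inner` for the three inner products and `(|ξ|²
  - 1) conj (co k v) co k w = conj (co k v) co k g - conj ((h² λ_k - |ξ|²) co k v) co k w`, `co k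
  g = (h² λ_k - 1) co k w`, and `ham_fam` for `(h² λ_k - |ξ|²) co k v` (`ξ` is real): `(|ξ|² - 1)
  ⟨v, w⟩ = ⟨v, g⟩ - ⟨f₀, w⟩ - ξ₁ ⟨f₁, w⟩ - ξ₂ ⟨f₂, w⟩`.
* `en_int`: square, `‖..‖² ≤ 4 (‖⟨v, g⟩‖² + ‖⟨f₀, w⟩‖² + ξ₁² ‖⟨f₁, w⟩‖² + ξ₂² ‖⟨f₂, w⟩‖²)`; for `a
  < ||ξ|² - 1|` (`0 < a ≤ 1`) one has `1 / (|ξ|² - 1)² ≤ 1 / a²` and `|ξ|² / (|ξ|² - 1)² ≤ 1 / |..
  | + 1 / (..)² ≤ 2 / a²`. Integrate over `G.X δ ×ˢ univ ⊆ G.Y δ ×ˢ univ` with `bessel_v` for `g`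
  and `bessel_fam` for `w`.
-/

namespace Pool.Agent.MP4eed4eR.E

open MeasureTheory Set Filter Topology Metric
open scoped ComplexConjugate ContDiff

noncomputable section

variable {D : Set P}

private theorem EEn_id (S : Spec D) {h e : ℝ} {ξ : P} (hξ : e = sq ξ - 1)
    {v w g f₀ f₁ f₂ : HD D}
    (hg : ∀ k, S.co k g = ((h ^ 2 * S.lam k - 1 : ℝ) : ℂ) * S.co k w)
    (hf : ∀ k, ((h ^ 2 * S.lam k - sq ξ : ℝ) : ℂ) * S.co k v =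
      S.co k f₀ + (ξ.1 : ℂ) * S.co k f₁ + (ξ.2 : ℂ) * S.co k f₂) :
    (e : ℂ) * inner ℂ v w = inner ℂ v g - inner ℂ f₀ w - (ξ.1 : ℂ) * inner ℂ f₁ w -
      (ξ.2 : ℂ) * inner ℂ f₂ w := by
  have h1 := (parseval_inner S v w).mul_left (e : ℂ)
  have h2 := (((parseval_inner S v g).sub (parseval_inner S f₀ w)).sub
    ((parseval_inner S f₁ w).mul_left (ξ.1 : ℂ))).sub
    ((parseval_inner S f₂ w).mul_left (ξ.2 : ℂ))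
  have hfun : ∀ k, (e : ℂ) * (conj (S.co k v) * S.co k w) =
      conj (S.co k v) * S.co k g - conj (S.co k f₀) * S.co k w -
        (ξ.1 : ℂ) * (conj (S.co k f₁) * S.co k w) -
          (ξ.2 : ℂ) * (conj (S.co k f₂) * S.co k w) := by
    intro k
    have h3 := congrArg (starRingEnd ℂ) (hf k)
    simp only [map_mul, map_add, Complex.conj_ofReal] at h3
    rw [hg k, hξ]
    have h4 : conj (S.co k f₀) = ((h ^ 2 * S.lam k - sq ξ : ℝ) : ℂ) * conj (S.co k v) -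
        (ξ.1 : ℂ) * conj (S.co k f₁) - (ξ.2 : ℂ) * conj (S.co k f₂) := by
      rw [h3]
      ring
    rw [h4]
    push_cast
    ring
  simp only [hfun] at h1
  exact h1.unique h2

private theorem EEn_four (a b c d : ℂ) :
    ‖a - b - c - d‖ ^ 2 ≤ 4 * (‖a‖ ^ 2 + ‖b‖ ^ 2 + ‖c‖ ^ 2 + ‖d‖ ^ 2) := by
  have h1 : ‖a - b - c - d‖ ≤ ‖a‖ + ‖b‖ + ‖c‖ + ‖d‖ := by
    have e1 := norm_sub_le (a - b - c) d
    have e2 := norm_sub_le (a - b) c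
    have e3 := norm_sub_le a b
    linarith
  have h0 := norm_nonneg (a - b - c - d)
  calc ‖a - b - c - d‖ ^ 2 ≤ (‖a‖ + ‖b‖ + ‖c‖ + ‖d‖) ^ 2 := by gcongr
    _ ≤ 4 * (‖a‖ ^ 2 + ‖b‖ ^ 2 + ‖c‖ ^ 2 + ‖d‖ ^ 2) := by
      nlinarith [sq_nonneg (‖a‖ - ‖b‖), sq_nonneg (‖a‖ - ‖c‖), sq_nonneg (‖a‖ - ‖d‖),
        sq_nonneg (‖b‖ - ‖c‖), sq_nonneg (‖b‖ - ‖d‖), sq_nonneg (‖c‖ - ‖d‖)]

private theorem EEn_pt {e a : ℝ} {ξ : P} (hξ : e = sq ξ - 1) (ha : 0 < a) (ha1 : a ≤ 1)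
    (he : a < |e|) {X A B C E : ℂ}
    (hX : (e : ℂ) * X = A - B - (ξ.1 : ℂ) * C - (ξ.2 : ℂ) * E) :
    ‖X‖ ^ 2 ≤ 4 / a ^ 2 * ‖A‖ ^ 2 + (4 / a ^ 2 * ‖B‖ ^ 2 +
      (8 / a ^ 2 * ‖C‖ ^ 2 + 8 / a ^ 2 * ‖E‖ ^ 2)) := by
  have h1 := EEn_four A B ((ξ.1 : ℂ) * C) ((ξ.2 : ℂ) * E)
  rw [← hX, norm_mul, norm_mul, norm_mul, Complex.norm_real, Complex.norm_real,
    Complex.norm_real, Real.norm_eq_abs, Real.norm_eq_abs, Real.norm_eq_abs, mul_pow, mul_pow,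
    mul_pow, sq_abs, sq_abs, sq_abs] at h1
  have he0 : 0 < |e| := ha.trans he
  have he2 : 0 < e ^ 2 := by
    rw [← sq_abs]
    positivity
  have hae : a ^ 2 ≤ e ^ 2 := by
    rw [← sq_abs e]
    exact pow_le_pow_left₀ ha.le he.le 2
  have hsq : sq ξ = ξ.1 ^ 2 + ξ.2 ^ 2 := rfl
  have hsum : ξ.1 ^ 2 + ξ.2 ^ 2 ≤ |e| + 1 := by
    have := le_abs_self e
    rw [hξ] at this ⊢
    rw [← hsq]
    linarith
  have k1 : (|e| + 1) * a ^ 2 ≤ 2 * e ^ 2 := by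
    have h2 : |e| * a ^ 2 ≤ e ^ 2 := by
      rw [← sq_abs e]
      have : a ^ 2 ≤ |e| := by nlinarith
      nlinarith
    nlinarith
  have k2 : ∀ x : ℝ, x ^ 2 ≤ |e| + 1 → ∀ y : ℝ, 0 ≤ y → x ^ 2 * y * a ^ 2 ≤ 2 * y * e ^ 2 := by
    intro x hx y hy
    have h3 : x ^ 2 * a ^ 2 ≤ 2 * e ^ 2 :=
      (mul_le_mul_of_nonneg_right hx (by positivity)).trans k1
    nlinarith
  have c1 := k2 ξ.1 (by nlinarith [sq_nonneg ξ.2]) (‖C‖ ^ 2) (by positivity)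
  have c2 := k2 ξ.2 (by nlinarith [sq_nonneg ξ.1]) (‖E‖ ^ 2) (by positivity)
  have hA : ‖A‖ ^ 2 * a ^ 2 ≤ ‖A‖ ^ 2 * e ^ 2 := by gcongr
  have hB : ‖B‖ ^ 2 * a ^ 2 ≤ ‖B‖ ^ 2 * e ^ 2 := by gcongr
  have h5 : e ^ 2 * (‖X‖ ^ 2 * a ^ 2) ≤ e ^ 2 * (4 * ‖A‖ ^ 2 + (4 * ‖B‖ ^ 2 +
      (8 * ‖C‖ ^ 2 + 8 * ‖E‖ ^ 2))) := by
    have h6 := mul_le_mul_of_nonneg_right h1 (by positivity : 0 ≤ a ^ 2)
    nlinarith
  have h7 := le_of_mul_le_mul_left h5 he2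
  have ha2 : 0 < a ^ 2 := by positivity
  have h8 : 4 / a ^ 2 * ‖A‖ ^ 2 + (4 / a ^ 2 * ‖B‖ ^ 2 +
      (8 / a ^ 2 * ‖C‖ ^ 2 + 8 / a ^ 2 * ‖E‖ ^ 2)) = (4 * ‖A‖ ^ 2 + (4 * ‖B‖ ^ 2 +
      (8 * ‖C‖ ^ 2 + 8 * ‖E‖ ^ 2))) / a ^ 2 := by
    field_simp
  rw [h8, le_div_iff₀ ha2]
  exact h7

theorem en_int (S : Spec D) (G : Geo D) : ∃ C : ℝ, 0 ≤ C ∧ ∀ᶠ δ in 𝓝[>] (0 : ℝ),
    ∀ W : Walls G (th δ / 4), ∀ a : ℝ, 0 < a → a ≤ 1 → ∀ w g : HD D,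
      (∀ k, S.co k g = ((hh δ ^ 2 * S.lam k - 1 : ℝ) : ℂ) * S.co k w) →
      ∫⁻ z in {z : P × P | z.1 ∈ G.X δ ∧ a < |sq z.2 - 1|},
        ENNReal.ofReal (‖(inner ℂ (W.v δ z 0) w : ℂ)‖ ^ 2) ≤
        ENNReal.ofReal (C * (hh δ ^ 2 * (‖g‖ ^ 2 + hh δ * ‖w‖ ^ 2) / a ^ 2)) := by
  obtain ⟨K₀, hK₀⟩ := ham_fam S G
  set K : ℝ := max K₀ 0 with hKdef
  have hK0 : 0 ≤ K := le_max_right _ _
  have hKK : K₀ ≤ K := le_max_left _ _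
  refine ⟨64 * Real.pi ^ 2 * (1 + 5 * K), by positivity, ?_⟩
  filter_upwards [hK₀, bessel_v G, bessel_fam G, C.ev_lt (c := 1) one_pos] with δ hham hbv hbf hδ
  intro W a ha ha1 w g hg
  obtain ⟨E₀, E₁, E₂, hE₀, hE₁, hE₂, n₀, n₁, n₂, hid⟩ := hham
  have hh0 : 0 < hh δ := pow_pos hδ.1 80
  have hh1 : hh δ ≤ 1 := pow_le_one₀ hδ.1.le hδ.2.le
  have hv : ∀ z : P × P, W.v δ z 0 = cls D (W.fam (-1) (-1) (envc δ 0) (hh δ) z.1 z.2) := by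
    intro z
    unfold Walls.v
    rw [pkt_eq_fam]
  set F₀ : P × P → HD D := fun z => cls D (W.fam (-1) (-1) E₀ (hh δ) z.1 z.2) with hF₀
  set F₁ : P × P → HD D := fun z => cls D (W.fam (-1) (-1) E₁ (hh δ) z.1 z.2) with hF₁
  set F₂ : P × P → HD D := fun z => cls D (W.fam (-1) (-1) E₂ (hh δ) z.1 z.2) with hF₂
  have hXY : ∀ x ∈ G.X δ, x ∈ G.Y δ := by
    intro x hx
    refine ⟨subset_closure hx.1, fun v hv => ?_⟩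
    have h1 := hx.2 v hv
    have h2 : 0 < th δ := pow_pos hδ.1 38
    linarith
  -- measurability
  have mv : Measurable fun z : P × P => ENNReal.ofReal (‖(inner ℂ (W.v δ z 0) g : ℂ)‖ ^ 2) := by
    have h1 := measurable_inner_fam (h := hh δ) W (env_envc hδ.1 0) (-1) (-1) g
    have h2 : (fun z : P × P => ENNReal.ofReal (‖(inner ℂ (W.v δ z 0) g : ℂ)‖ ^ 2)) =
        fun z : P × P => ENNReal.ofReal
          (‖(inner ℂ (cls D (W.fam (-1) (-1) (envc δ 0) (hh δ) z.1 z.2)) g : ℂ)‖ ^ 2) := by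
      funext z
      rw [hv z]
    rw [h2]
    exact (h1.norm.pow_const 2).ennreal_ofReal
  have mF : ∀ {E : P → ℂ}, Env E (2 * rad δ) → Measurable fun z : P × P =>
      ENNReal.ofReal (‖(inner ℂ (cls D (W.fam (-1) (-1) E (hh δ) z.1 z.2)) w : ℂ)‖ ^ 2) := by
    intro E hE
    exact ((measurable_inner_fam (h := hh δ) W hE (-1) (-1) w).norm.pow_const 2).ennreal_ofReal
  have m₀ := mF hE₀
  have m₁ := mF hE₁
  have m₂ := mF hE₂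
  have c4 : 0 ≤ 4 / a ^ 2 := by positivity
  have c8 : 0 ≤ 8 / a ^ 2 := by positivity
  -- the pointwise bound
  set Bf : P × P → ENNReal := fun z =>
    ENNReal.ofReal (4 / a ^ 2) * ENNReal.ofReal (‖(inner ℂ (W.v δ z 0) g : ℂ)‖ ^ 2) +
    (ENNReal.ofReal (4 / a ^ 2) * ENNReal.ofReal (‖(inner ℂ (F₀ z) w : ℂ)‖ ^ 2) +
    (ENNReal.ofReal (8 / a ^ 2) * ENNReal.ofReal (‖(inner ℂ (F₁ z) w : ℂ)‖ ^ 2) +
    ENNReal.ofReal (8 / a ^ 2) * ENNReal.ofReal (‖(inner ℂ (F₂ z) w : ℂ)‖ ^ 2))) with hBf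
  have mB : Measurable Bf :=
    (mv.const_mul _).add ((m₀.const_mul _).add ((m₁.const_mul _).add (m₂.const_mul _)))
  have hpt : ∀ z ∈ {z : P × P | z.1 ∈ G.X δ ∧ a < |sq z.2 - 1|},
      ENNReal.ofReal (‖(inner ℂ (W.v δ z 0) w : ℂ)‖ ^ 2) ≤ Bf z := by
    intro z hz
    have h1 := EEn_id S (h := hh δ) (e := sq z.2 - 1) (ξ := z.2) rfl hg
      (fun k => hid W z.1 (hXY z.1 hz.1) z.2 k)
    have h2 := EEn_pt (e := sq z.2 - 1) (ξ := z.2) rfl ha ha1 hz.2 h1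
    have h3 := ENNReal.ofReal_le_ofReal h2
    rw [ENNReal.ofReal_add (by positivity) (by positivity),
      ENNReal.ofReal_add (by positivity) (by positivity),
      ENNReal.ofReal_add (by positivity) (by positivity), ENNReal.ofReal_mul c4,
      ENNReal.ofReal_mul c4, ENNReal.ofReal_mul c8, ENNReal.ofReal_mul c8] at h3
    exact h3
  have hsub : {z : P × P | z.1 ∈ G.X δ ∧ a < |sq z.2 - 1|} ⊆ G.Y δ ×ˢ (univ : Set P) := by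
    intro z hz
    exact ⟨hXY z.1 hz.1, mem_univ _⟩
  have hI : ∀ {E : P → ℂ}, 0 ≤ ∫ y, ‖E y‖ ^ 2 :=
    fun {E} => integral_nonneg (fun y => by positivity)
  have t0 := hbv W 0 g
  have t1 := hbf W E₀ hE₀ (-1) (-1) (Or.inr rfl) (Or.inr rfl) w
  have t2 := hbf W E₁ hE₁ (-1) (-1) (Or.inr rfl) (Or.inr rfl) w
  have t3 := hbf W E₂ hE₂ (-1) (-1) (Or.inr rfl) (Or.inr rfl) w
  have hpi := Real.pi_pos
  set I₀ : ℝ := ∫ y, ‖E₀ y‖ ^ 2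
  set I₁ : ℝ := ∫ y, ‖E₁ y‖ ^ 2
  set I₂ : ℝ := ∫ y, ‖E₂ y‖ ^ 2
  have hI₀ : 0 ≤ I₀ := hI
  have hI₁ : 0 ≤ I₁ := hI
  have hI₂ : 0 ≤ I₂ := hI
  have hn₀ : I₀ ≤ K * hh δ := by
    refine n₀.trans ?_
    have h1 : K₀ * hh δ ^ 2 ≤ K * hh δ ^ 2 := by gcongr
    have h2 : hh δ ^ 2 ≤ hh δ := by nlinarith
    exact h1.trans (mul_le_mul_of_nonneg_left h2 hK0)
  have hn₁ : I₁ ≤ K * hh δ := n₁.trans (by gcongr)
  have hn₂ : I₂ ≤ K * hh δ := n₂.trans (by gcongr)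
  calc ∫⁻ z in {z : P × P | z.1 ∈ G.X δ ∧ a < |sq z.2 - 1|},
        ENNReal.ofReal (‖(inner ℂ (W.v δ z 0) w : ℂ)‖ ^ 2)
      ≤ ∫⁻ z in {z : P × P | z.1 ∈ G.X δ ∧ a < |sq z.2 - 1|}, Bf z :=
        setLIntegral_mono mB hpt
    _ ≤ ∫⁻ z in G.Y δ ×ˢ (univ : Set P), Bf z := lintegral_mono_set hsub
    _ = ENNReal.ofReal (4 / a ^ 2) * (∫⁻ z in G.Y δ ×ˢ (univ : Set P),
          ENNReal.ofReal (‖(inner ℂ (W.v δ z 0) g : ℂ)‖ ^ 2)) +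
        (ENNReal.ofReal (4 / a ^ 2) * (∫⁻ z in G.Y δ ×ˢ (univ : Set P),
          ENNReal.ofReal (‖(inner ℂ (F₀ z) w : ℂ)‖ ^ 2)) +
        (ENNReal.ofReal (8 / a ^ 2) * (∫⁻ z in G.Y δ ×ˢ (univ : Set P),
          ENNReal.ofReal (‖(inner ℂ (F₁ z) w : ℂ)‖ ^ 2)) +
        ENNReal.ofReal (8 / a ^ 2) * (∫⁻ z in G.Y δ ×ˢ (univ : Set P),
          ENNReal.ofReal (‖(inner ℂ (F₂ z) w : ℂ)‖ ^ 2)))) := by
        rw [hBf, lintegral_add_left (mv.const_mul _), lintegral_add_left (m₀.const_mul _),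
          lintegral_add_left (m₁.const_mul _), lintegral_const_mul _ mv, lintegral_const_mul _ m₀,
          lintegral_const_mul _ m₁, lintegral_const_mul _ m₂]
    _ ≤ ENNReal.ofReal (4 / a ^ 2) *
          ENNReal.ofReal (4 * (2 * Real.pi * hh δ) ^ 2 * ‖g‖ ^ 2) +
        (ENNReal.ofReal (4 / a ^ 2) *
          ENNReal.ofReal (4 * (2 * Real.pi * hh δ) ^ 2 * I₀ * ‖w‖ ^ 2) +
        (ENNReal.ofReal (8 / a ^ 2) *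
          ENNReal.ofReal (4 * (2 * Real.pi * hh δ) ^ 2 * I₁ * ‖w‖ ^ 2) +
        ENNReal.ofReal (8 / a ^ 2) *
          ENNReal.ofReal (4 * (2 * Real.pi * hh δ) ^ 2 * I₂ * ‖w‖ ^ 2))) := by
        gcongr
    _ = ENNReal.ofReal (4 / a ^ 2 * (4 * (2 * Real.pi * hh δ) ^ 2 * ‖g‖ ^ 2) +
        (4 / a ^ 2 * (4 * (2 * Real.pi * hh δ) ^ 2 * I₀ * ‖w‖ ^ 2) +
        (8 / a ^ 2 * (4 * (2 * Real.pi * hh δ) ^ 2 * I₁ * ‖w‖ ^ 2) +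
        8 / a ^ 2 * (4 * (2 * Real.pi * hh δ) ^ 2 * I₂ * ‖w‖ ^ 2)))) := by
        rw [ENNReal.ofReal_add (by positivity) (by positivity),
          ENNReal.ofReal_add (by positivity) (by positivity),
          ENNReal.ofReal_add (by positivity) (by positivity), ENNReal.ofReal_mul c4,
          ENNReal.ofReal_mul c4, ENNReal.ofReal_mul c8, ENNReal.ofReal_mul c8]
    _ ≤ ENNReal.ofReal (64 * Real.pi ^ 2 * (1 + 5 * K) *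
          (hh δ ^ 2 * (‖g‖ ^ 2 + hh δ * ‖w‖ ^ 2) / a ^ 2)) := by
        refine ENNReal.ofReal_le_ofReal ?_
        have e1 : 4 / a ^ 2 * (4 * (2 * Real.pi * hh δ) ^ 2 * ‖g‖ ^ 2) +
            (4 / a ^ 2 * (4 * (2 * Real.pi * hh δ) ^ 2 * I₀ * ‖w‖ ^ 2) +
            (8 / a ^ 2 * (4 * (2 * Real.pi * hh δ) ^ 2 * I₁ * ‖w‖ ^ 2) +
            8 / a ^ 2 * (4 * (2 * Real.pi * hh δ) ^ 2 * I₂ * ‖w‖ ^ 2))) =
            64 * Real.pi ^ 2 * hh δ ^ 2 / a ^ 2 *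
              (‖g‖ ^ 2 + (I₀ + 2 * I₁ + 2 * I₂) * ‖w‖ ^ 2) := by
          field_simp
          ring
        have e2 : 64 * Real.pi ^ 2 * (1 + 5 * K) *
            (hh δ ^ 2 * (‖g‖ ^ 2 + hh δ * ‖w‖ ^ 2) / a ^ 2) =
            64 * Real.pi ^ 2 * hh δ ^ 2 / a ^ 2 *
              ((1 + 5 * K) * (‖g‖ ^ 2 + hh δ * ‖w‖ ^ 2)) := by
          field_simp
        rw [e1, e2]
        refine mul_le_mul_of_nonneg_left ?_ (by positivity)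
        have e3 : (I₀ + 2 * I₁ + 2 * I₂) * ‖w‖ ^ 2 ≤ (5 * K * hh δ) * ‖w‖ ^ 2 := by
          refine mul_le_mul_of_nonneg_right ?_ (by positivity)
          linarith
        have e4 : 0 ≤ 5 * K * ‖g‖ ^ 2 := by positivity
        have e5 : 0 ≤ hh δ * ‖w‖ ^ 2 := mul_nonneg hh0.le (sq_nonneg _)
        nlinarith

end

end Pool.Agent.MP4eed4eR.E
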