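import Pool.Agent.Lib.MP_4eed4e_an_RE.EDefs

/-!
MP_4eed4e_an, project R, block E, module EForm: derivatives in time of integrals of finite sums.

PROOFS.
* `form_int`, `hasDerivAt_form`: expand the product of the two sums and the integral,
  `∫ = ∑ j ∈ s, ∑ k ∈ s, conj (c j) * c k * ∫ conj (a j q) * b k q` (`integral_finset_sum`,
  `integral_const_mul`), and differentiate the coefficients (`HasDerivAt.sum`, `HasDerivAt.mul`,
  `HasDerivAt.star` or `HasDerivAt.conj`).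
* `hasDerivAt_cev`: derivative of the exponential.
* `hasDerivAt_weight`: `hasDerivAt_integral_of_dominated_loc_of_deriv_le` with the bound
  `C * |g q|`.
* `hasDerivAt_wform`: combine the two: the integral is the finite sum of the products of
  `conj (c j t) * c k t` and `∫ φ t q * conj (a j q) * b k q`.
-/

namespace Pool.Agent.MP4eed4eR.E

open MeasureTheory Set Filter Topology Metric
open scoped ComplexConjugate ContDiff

noncomputable section

variable {D : Set P}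

theorem hasDerivAt_cev (S : Spec D) (h : ℝ) (c : ℕ → ℂ) (k : ℕ) (t : ℝ) :
    HasDerivAt (fun t => cev S h t c k) (cdt S h (cev S h t c) k) t := by
  have h0 : HasDerivAt (fun t : ℝ => -((t * h * S.lam k / 2 : ℝ) : ℂ) * Complex.I)
      (-((h * S.lam k / 2 : ℝ) : ℂ) * Complex.I) t := by
    have h1 : HasDerivAt (fun t : ℝ => t * h * S.lam k / 2) (h * S.lam k / 2) t := by
      have h2 := ((hasDerivAt_id t).mul_const h).mul_const (S.lam k)
      have h3 := h2.div_const 2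
      simpa using h3
    exact (h1.ofReal_comp.neg).mul_const Complex.I
  have h4 := h0.cexp.mul_const (c k)
  refine h4.congr_deriv ?_
  unfold cdt cev
  ring

theorem cev_zero (S : Spec D) (h : ℝ) (c : ℕ → ℂ) : cev S h 0 c = c := by
  funext k
  unfold cev
  simp

theorem norm_cev (S : Spec D) (h t : ℝ) (c : ℕ → ℂ) (k : ℕ) : ‖cev S h t c k‖ = ‖c k‖ := by
  unfold cev
  have h1 : -((t * h * S.lam k / 2 : ℝ) : ℂ) * Complex.I =
      ((-(t * h * S.lam k / 2) : ℝ) : ℂ) * Complex.I := by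
    push_cast
    ring
  rw [norm_mul, h1, Complex.norm_exp_ofReal_mul_I, one_mul]

theorem cev_ch1 (S : Spec D) (h t : ℝ) (c : ℕ → ℂ) :
    ch1 S h (cev S h t c) = cev S h t (ch1 S h c) := by
  funext k
  unfold ch1 cev
  ring

theorem nsq_cev (S : Spec D) (h t : ℝ) (s : Finset ℕ) (c : ℕ → ℂ) :
    nsq s (cev S h t c) = nsq s c := by
  unfold nsq
  exact Finset.sum_congr rfl fun k _ => by rw [norm_cev]

/-- `u' = (i h / 2) Δ u = - (i h / 2) (- Δ u)`. -/
theorem fs_cdt (S : Spec D) (h : ℝ) (s : Finset ℕ) (c : ℕ → ℂ) (q : P) :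
    fs S s (cdt S h c) q = -(Complex.I * (h / 2 : ℝ)) * fsL S s c q := by
  unfold fs fsL cdt
  rw [Finset.mul_sum]
  refine Finset.sum_congr rfl fun k _ => ?_
  push_cast
  ring

/-- `h² (- Δ u) = u + (H - 1) u`. -/
theorem fsL_eq (S : Spec D) (h : ℝ) (s : Finset ℕ) (c : ℕ → ℂ) (q : P) :
    ((h ^ 2 : ℝ) : ℂ) * fsL S s c q = fs S s c q + fs S s (ch1 S h c) q := by
  unfold fs fsL ch1
  rw [Finset.mul_sum, ← Finset.sum_add_distrib]
  refine Finset.sum_congr rfl fun k _ => ?_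
  push_cast
  ring

private theorem EForm_real (S : Spec D) (s : Finset ℕ) (a : ℕ → ℝ) :
    Integrable (fun q => (∑ k ∈ s, a k * S.u k q) ^ 2) ∧
      ∫ q, (∑ k ∈ s, a k * S.u k q) ^ 2 = ∑ k ∈ s, a k ^ 2 := by
  have hi : ∀ j k, Integrable (fun q => a j * a k * (S.u j q * S.u k q)) := fun j k =>
    ((S.h10 j).mem.integrable_mul (S.h10 k).mem).const_mul _
  have he : ∀ q, (∑ k ∈ s, a k * S.u k q) ^ 2 =
      ∑ j ∈ s, ∑ k ∈ s, a j * a k * (S.u j q * S.u k q) := by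
    intro q
    rw [pow_two, Finset.sum_mul_sum]
    exact Finset.sum_congr rfl fun j _ => Finset.sum_congr rfl fun k _ => by ring
  simp only [he]
  have hi2 : ∀ j ∈ s, Integrable (fun q => ∑ k ∈ s, a j * a k * (S.u j q * S.u k q)) :=
    fun j _ => integrable_finsetSum _ fun k _ => hi j k
  refine ⟨integrable_finsetSum _ hi2, ?_⟩
  rw [integral_finsetSum _ hi2]
  refine Finset.sum_congr rfl fun j hj => ?_
  rw [integral_finsetSum _ fun k _ => hi j k]
  have h1 : ∀ k ∈ s, ∫ q, a j * a k * (S.u j q * S.u k q) = if j = k then a j ^ 2 else 0 := by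
    intro k _
    rw [integral_const_mul, S.orth]
    split_ifs with h
    · subst h
      ring
    · ring
  rw [Finset.sum_congr rfl h1, Finset.sum_ite_eq, if_pos hj]

/-- The norm of the finite sum. -/
theorem int_fs (S : Spec D) (s : Finset ℕ) (c : ℕ → ℂ) :
    Integrable (fun q => ‖fs S s c q‖ ^ 2) ∧ ∫ q, ‖fs S s c q‖ ^ 2 = nsq s c := by
  have h1 := EForm_real S s (fun k => (c k).re)
  have h2 := EForm_real S s (fun k => (c k).im)
  have h3 : ∀ q, ‖fs S s c q‖ ^ 2 =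
      (∑ k ∈ s, (c k).re * S.u k q) ^ 2 + (∑ k ∈ s, (c k).im * S.u k q) ^ 2 := by
    intro q
    have hr : (fs S s c q).re = ∑ k ∈ s, (c k).re * S.u k q := by
      unfold fs
      rw [Complex.re_sum]
      exact Finset.sum_congr rfl fun k _ => by simp
    have hi : (fs S s c q).im = ∑ k ∈ s, (c k).im * S.u k q := by
      unfold fs
      rw [Complex.im_sum]
      exact Finset.sum_congr rfl fun k _ => by simp
    rw [← Complex.normSq_eq_norm_sq, Complex.normSq_apply, hr, hi]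
    ring
  simp only [h3]
  refine ⟨h1.1.add h2.1, ?_⟩
  rw [integral_add h1.1 h2.1, h1.2, h2.2, ← Finset.sum_add_distrib]
  unfold nsq
  refine Finset.sum_congr rfl fun k _ => ?_
  rw [← Complex.normSq_eq_norm_sq, Complex.normSq_apply]
  ring

private theorem EForm_int {φ : P → ℝ} {C : ℝ} {g : P → ℂ} (hg : Integrable g)
    (hm : Measurable φ) (hφ : ∀ q, |φ q| ≤ C) : Integrable (fun q => (φ q : ℂ) * g q) := by
  refine hg.bdd_mul (c := C) ?_ ?_
  · exact (Complex.measurable_ofReal.comp hm).aestronglyMeasurable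
  · exact Eventually.of_forall fun q => by
      rw [Complex.norm_real, Real.norm_eq_abs]
      exact hφ q

private theorem EForm_sum (s : Finset ℕ) {a b : ℕ → P → ℂ} {w : P → ℂ}
    (hint : ∀ j ∈ s, ∀ k ∈ s, Integrable (fun q => w q * (conj (a j q) * b k q)))
    (x y : ℕ → ℂ) :
    Integrable (fun q => w q * (conj (∑ k ∈ s, x k * a k q) * ∑ k ∈ s, y k * b k q)) ∧
      ∫ q, w q * (conj (∑ k ∈ s, x k * a k q) * ∑ k ∈ s, y k * b k q) =
        ∑ j ∈ s, ∑ k ∈ s, conj (x j) * y k * ∫ q, w q * (conj (a j q) * b k q) := by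
  have he : ∀ q, w q * (conj (∑ k ∈ s, x k * a k q) * ∑ k ∈ s, y k * b k q) =
      ∑ j ∈ s, ∑ k ∈ s, conj (x j) * y k * (w q * (conj (a j q) * b k q)) := by
    intro q
    rw [map_sum, Finset.sum_mul_sum, Finset.mul_sum]
    refine Finset.sum_congr rfl fun j _ => ?_
    rw [Finset.mul_sum]
    refine Finset.sum_congr rfl fun k _ => ?_
    rw [map_mul]
    ring
  simp only [he]
  have hi : ∀ j ∈ s, ∀ k ∈ s,
      Integrable (fun q => conj (x j) * y k * (w q * (conj (a j q) * b k q))) :=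
    fun j hj k hk => (hint j hj k hk).const_mul _
  have hi2 : ∀ j ∈ s,
      Integrable (fun q => ∑ k ∈ s, conj (x j) * y k * (w q * (conj (a j q) * b k q))) :=
    fun j hj => integrable_finsetSum _ fun k hk => hi j hj k hk
  refine ⟨integrable_finsetSum _ hi2, ?_⟩
  rw [integral_finsetSum _ hi2]
  refine Finset.sum_congr rfl fun j hj => ?_
  rw [integral_finsetSum _ fun k hk => hi j hj k hk]
  exact Finset.sum_congr rfl fun k _ => integral_const_mul _ _

private theorem EForm_weight {φ φ' : ℝ → P → ℝ} {C : ℝ} (hφ : ∀ t q, |φ t q| ≤ C)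
    (hφ' : ∀ t q, |φ' t q| ≤ C) (hm : ∀ t, Measurable (φ t)) (hm' : ∀ t, Measurable (φ' t))
    (hd : ∀ t q, HasDerivAt (fun t => φ t q) (φ' t q) t) {g : P → ℂ} (hg : Integrable g) (t : ℝ) :
    HasDerivAt (fun t => ∫ q, (φ t q : ℂ) * g q) (∫ q, (φ' t q : ℂ) * g q) t := by
  have hcm : ∀ t, AEStronglyMeasurable (fun q => (φ t q : ℂ)) volume := fun t =>
    (Complex.measurable_ofReal.comp (hm t)).aestronglyMeasurable
  have hcm' : ∀ t, AEStronglyMeasurable (fun q => (φ' t q : ℂ)) volume := fun t =>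
    (Complex.measurable_ofReal.comp (hm' t)).aestronglyMeasurable
  refine (hasDerivAt_integral_of_dominated_loc_of_deriv_le (μ := volume)
    (F := fun t q => (φ t q : ℂ) * g q) (F' := fun t q => (φ' t q : ℂ) * g q)
    (bound := fun q => C * ‖g q‖) (s := Set.univ) Filter.univ_mem ?_ ?_ ?_ ?_ ?_ ?_).2
  · exact Eventually.of_forall fun t => (hcm t).mul hg.aestronglyMeasurable
  · exact EForm_int hg (hm t) (hφ t)
  · exact (hcm' t).mul hg.aestronglyMeasurable
  · refine Eventually.of_forall fun q t _ => ?_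
    rw [norm_mul, Complex.norm_real, Real.norm_eq_abs]
    exact mul_le_mul_of_nonneg_right (hφ' t q) (norm_nonneg _)
  · exact hg.norm.const_mul C
  · exact Eventually.of_forall fun q t _ => (hd t q).ofReal_comp.mul_const (g q)

private theorem EForm_w {φ φ' : ℝ → P → ℝ} {C : ℝ} (hφ : ∀ t q, |φ t q| ≤ C)
    (hφ' : ∀ t q, |φ' t q| ≤ C) (hm : ∀ t, Measurable (φ t)) (hm' : ∀ t, Measurable (φ' t))
    (hd : ∀ t q, HasDerivAt (fun t => φ t q) (φ' t q) t) (s : Finset ℕ) {a b : ℕ → P → ℂ}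
    (hint : ∀ j ∈ s, ∀ k ∈ s, Integrable (fun q => conj (a j q) * b k q)) {c : ℝ → ℕ → ℂ}
    {c' : ℕ → ℂ} {t : ℝ} (hc : ∀ k ∈ s, HasDerivAt (fun t => c t k) (c' k) t) :
    HasDerivAt
      (fun t => ∫ q, (φ t q : ℂ) * (conj (∑ k ∈ s, c t k * a k q) * ∑ k ∈ s, c t k * b k q))
      (∫ q, ((φ' t q : ℂ) * (conj (∑ k ∈ s, c t k * a k q) * ∑ k ∈ s, c t k * b k q) +
        (φ t q : ℂ) * (conj (∑ k ∈ s, c' k * a k q) * (∑ k ∈ s, c t k * b k q) +
        conj (∑ k ∈ s, c t k * a k q) * ∑ k ∈ s, c' k * b k q))) t := by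
  have hi : ∀ t, ∀ j ∈ s, ∀ k ∈ s, Integrable (fun q => (φ t q : ℂ) * (conj (a j q) * b k q)) :=
    fun t j hj k hk => EForm_int (hint j hj k hk) (hm t) (hφ t)
  have hi' : ∀ t, ∀ j ∈ s, ∀ k ∈ s, Integrable (fun q => (φ' t q : ℂ) * (conj (a j q) * b k q)) :=
    fun t j hj k hk => EForm_int (hint j hj k hk) (hm' t) (hφ' t)
  have e0 := EForm_sum s (hi' t) (c t) (c t)
  have e1 := EForm_sum s (hi t) c' (c t)
  have e2 := EForm_sum s (hi t) (c t) c'
  have hL : (fun t => ∫ q, (φ t q : ℂ) * (conj (∑ k ∈ s, c t k * a k q) *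
      ∑ k ∈ s, c t k * b k q)) = fun t => ∑ j ∈ s, ∑ k ∈ s,
        conj (c t j) * c t k * ∫ q, (φ t q : ℂ) * (conj (a j q) * b k q) := by
    funext t
    exact (EForm_sum s (hi t) (c t) (c t)).2
  have hR : (∫ q, ((φ' t q : ℂ) * (conj (∑ k ∈ s, c t k * a k q) * ∑ k ∈ s, c t k * b k q) +
        (φ t q : ℂ) * (conj (∑ k ∈ s, c' k * a k q) * (∑ k ∈ s, c t k * b k q) +
        conj (∑ k ∈ s, c t k * a k q) * ∑ k ∈ s, c' k * b k q))) =
      ∑ j ∈ s, ∑ k ∈ s, ((conj (c' j) * c t k + conj (c t j) * c' k) *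
        (∫ q, (φ t q : ℂ) * (conj (a j q) * b k q)) + conj (c t j) * c t k *
          ∫ q, (φ' t q : ℂ) * (conj (a j q) * b k q)) := by
    have h1 : ∀ q, ((φ' t q : ℂ) * (conj (∑ k ∈ s, c t k * a k q) * ∑ k ∈ s, c t k * b k q) +
        (φ t q : ℂ) * (conj (∑ k ∈ s, c' k * a k q) * (∑ k ∈ s, c t k * b k q) +
        conj (∑ k ∈ s, c t k * a k q) * ∑ k ∈ s, c' k * b k q)) =
        (φ' t q : ℂ) * (conj (∑ k ∈ s, c t k * a k q) * ∑ k ∈ s, c t k * b k q) +
        ((φ t q : ℂ) * (conj (∑ k ∈ s, c' k * a k q) * ∑ k ∈ s, c t k * b k q) +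
        (φ t q : ℂ) * (conj (∑ k ∈ s, c t k * a k q) * ∑ k ∈ s, c' k * b k q)) := fun q => by
      ring
    simp only [h1]
    have i1 := integral_add e0.1 (e1.1.add e2.1)
    have i2 := integral_add e1.1 e2.1
    rw [e0.2] at i1
    rw [e1.2, e2.2] at i2
    refine (i1.trans (congrArg _ i2)).trans ?_
    rw [← Finset.sum_add_distrib, ← Finset.sum_add_distrib]
    refine Finset.sum_congr rfl fun j _ => ?_
    rw [← Finset.sum_add_distrib, ← Finset.sum_add_distrib]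
    exact Finset.sum_congr rfl fun k _ => by ring
  rw [hL, hR]
  refine HasDerivAt.fun_sum fun j hj => HasDerivAt.fun_sum fun k hk => ?_
  have hJ := EForm_weight hφ hφ' hm hm' hd (hint j hj k hk) t
  have hcj : HasDerivAt (fun t => conj (c t j)) (conj (c' j)) t := (hc j hj).star
  exact (hcj.mul (hc k hk)).mul hJ

theorem hasDerivAt_form (s : Finset ℕ) {a b : ℕ → P → ℂ}
    (hint : ∀ j ∈ s, ∀ k ∈ s, Integrable (fun q => conj (a j q) * b k q)) {c : ℝ → ℕ → ℂ}
    {c' : ℕ → ℂ} {t : ℝ} (hc : ∀ k ∈ s, HasDerivAt (fun t => c t k) (c' k) t) :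
    HasDerivAt (fun t => ∫ q, conj (∑ k ∈ s, c t k * a k q) * ∑ k ∈ s, c t k * b k q)
      (∫ q, (conj (∑ k ∈ s, c' k * a k q) * (∑ k ∈ s, c t k * b k q) +
        conj (∑ k ∈ s, c t k * a k q) * ∑ k ∈ s, c' k * b k q)) t := by
  have h := EForm_w (φ := fun _ _ => 1) (φ' := fun _ _ => 0) (C := 1) (fun _ _ => by simp)
    (fun _ _ => by simp) (fun _ => measurable_const) (fun _ => measurable_const)
    (fun t _ => hasDerivAt_const t 1) s hint hc
  simpa using h

theorem hasDerivAt_weight {φ φ' : ℝ → P → ℝ} {C : ℝ} (hφ : ∀ t q, |φ t q| ≤ C)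
    (hφ' : ∀ t q, |φ' t q| ≤ C) (hm : ∀ t, Measurable (φ t)) (hm' : ∀ t, Measurable (φ' t))
    (hd : ∀ t q, HasDerivAt (fun t => φ t q) (φ' t q) t) {g : P → ℂ} (hg : Integrable g) (t : ℝ) :
    HasDerivAt (fun t => ∫ q, (φ t q : ℂ) * g q) (∫ q, (φ' t q : ℂ) * g q) t := by
  exact EForm_weight hφ hφ' hm hm' hd hg t

theorem hasDerivAt_wform {φ φ' : ℝ → P → ℝ} {C : ℝ} (hφ : ∀ t q, |φ t q| ≤ C)
    (hφ' : ∀ t q, |φ' t q| ≤ C) (hm : ∀ t, Measurable (φ t)) (hm' : ∀ t, Measurable (φ' t))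
    (hd : ∀ t q, HasDerivAt (fun t => φ t q) (φ' t q) t) (s : Finset ℕ) {a b : ℕ → P → ℂ}
    (hint : ∀ j ∈ s, ∀ k ∈ s, Integrable (fun q => conj (a j q) * b k q)) {c : ℝ → ℕ → ℂ}
    {c' : ℕ → ℂ} {t : ℝ} (hc : ∀ k ∈ s, HasDerivAt (fun t => c t k) (c' k) t) :
    HasDerivAt
      (fun t => ∫ q, (φ t q : ℂ) * (conj (∑ k ∈ s, c t k * a k q) * ∑ k ∈ s, c t k * b k q))
      (∫ q, ((φ' t q : ℂ) * (conj (∑ k ∈ s, c t k * a k q) * ∑ k ∈ s, c t k * b k q) +
        (φ t q : ℂ) * (conj (∑ k ∈ s, c' k * a k q) * (∑ k ∈ s, c t k * b k q) +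
        conj (∑ k ∈ s, c t k * a k q) * ∑ k ∈ s, c' k * b k q))) t := by
  exact EForm_w hφ hφ' hm hm' hd s hint hc

end

end Pool.Agent.MP4eed4eR.E
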