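import Pool.Agent.Lib.MP_4eed4e_an_RE.ECut

/-!
MP_4eed4e_an, project R, block E, module EMov: the moving cutoffs.

PROOFS. In `mv` and `mvd` the argument is an affine function of `q` with gradient `e / d`; `|e.1|`,
`|e.2|` are at most `1` because `sq e = 1`. The derivatives of `Real.smoothTransition` (smooth,
locally constant off `[0, 1]`) are continuous functions which vanish off `[0, 1]`, hence bounded.
`mvd ≥ 0` because `Real.smoothTransition` is monotone; its derivative vanishes at the points `≤ 0`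
and `≥ 1`. `lap (mvd ..) q = sq e / d ^ 2 * (third derivative) = (third derivative) / d ^ 2`.
-/

namespace Pool.Agent.MP4eed4eR.E

open MeasureTheory Set Filter Topology Metric
open scoped ComplexConjugate ContDiff

noncomputable section

/-! ### auxiliary lemmas -/

private abbrev ST : ℝ → ℝ := Real.smoothTransition

private theorem st_smooth : ContDiff ℝ ∞ ST := Real.smoothTransition.contDiff

private theorem st_low {y : ℝ} (hy : y ≤ 0) : deriv ST y = 0 := by
  refine IsLocalMin.deriv_eq_zero (Eventually.of_forall fun z ↦ ?_)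
  change Real.smoothTransition y ≤ Real.smoothTransition z
  rw [Real.smoothTransition.zero_of_nonpos hy]
  exact Real.smoothTransition.nonneg z

private theorem st_it_zero {n : ℕ} (hn : 0 < n) {y : ℝ} (h : y < 0 ∨ 1 < y) :
    iteratedDeriv n ST y = 0 := by
  rcases h with h | h
  · have h1 : ST =ᶠ[𝓝 y] fun _ => (0 : ℝ) := by
      filter_upwards [(isOpen_gt' (0 : ℝ)).mem_nhds h] with z hz
      exact Real.smoothTransition.zero_of_nonpos (le_of_lt hz)
    rw [h1.iteratedDeriv_eq, iteratedDeriv_const, if_neg hn.ne']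
  · have h1 : ST =ᶠ[𝓝 y] fun _ => (1 : ℝ) := by
      filter_upwards [(isOpen_lt' (1 : ℝ)).mem_nhds h] with z hz
      exact Real.smoothTransition.one_of_one_le (le_of_lt hz)
    rw [h1.iteratedDeriv_eq, iteratedDeriv_const, if_neg hn.ne']

private theorem st_bdd {n : ℕ} (hn : 0 < n) : ∃ C : ℝ, 0 ≤ C ∧ ∀ y, |iteratedDeriv n ST y| ≤ C := by
  have h1 : Continuous (iteratedDeriv n ST) :=
    st_smooth.continuous_iteratedDeriv n (by exact_mod_cast le_top)
  obtain ⟨K, hK⟩ := isCompact_Icc.exists_bound_of_continuousOn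
    (h1.continuousOn (s := Icc (0 : ℝ) 1))
  refine ⟨max K 0, le_max_right _ _, fun y => ?_⟩
  by_cases hy : 0 ≤ y ∧ y ≤ 1
  · exact (hK y hy).trans (le_max_left _ _)
  · have : y < 0 ∨ 1 < y := by
      rcases lt_or_ge y 0 with h | h
      · exact Or.inl h
      · exact Or.inr (not_le.1 fun h' ↦ hy ⟨h, h'⟩)
    rw [st_it_zero hn this, abs_zero]
    exact le_max_right _ _

/-- the affine argument -/
private def ag (V e : P) (a d t : ℝ) (q : P) : ℝ := (dot e (q - V) - a - 2 * t) / d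

private theorem ag_fd (V e : P) (a d t : ℝ) (q : P) : HasFDerivAt (ag V e a d t)
    ((e.1 / d) • ContinuousLinearMap.fst ℝ ℝ ℝ + (e.2 / d) • ContinuousLinearMap.snd ℝ ℝ ℝ) q := by
  have := (((hasFDerivAt_fst (𝕜 := ℝ) (p := q)).const_mul (e.1 / d)).add
    ((hasFDerivAt_snd (𝕜 := ℝ) (p := q)).const_mul (e.2 / d))).sub_const
    ((dot e V + a + 2 * t) / d)
  refine this.congr_of_eventuallyEq (Eventually.of_forall fun q ↦ ?_)
  simp only [ag, dot, Prod.fst_sub, Prod.snd_sub, Pi.add_apply]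
  ring

private theorem ln_d {g : ℝ → ℝ} (hg : Differentiable ℝ g) (V e : P) (a d t : ℝ) (q : P) :
    d1 (fun q ↦ g (ag V e a d t q)) q = e.1 / d * deriv g (ag V e a d t q) ∧
      d2 (fun q ↦ g (ag V e a d t q)) q = e.2 / d * deriv g (ag V e a d t q) := by
  have h3 := (hg (ag V e a d t q)).hasDerivAt.comp_hasFDerivAt q (ag_fd V e a d t q)
  have h4 : fderiv ℝ (fun q ↦ g (ag V e a d t q)) q = _ := h3.fderiv
  unfold d1 d2
  rw [h4]
  constructor
  · simp
    ring
  · simp
    ring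

private theorem ln_lap {g : ℝ → ℝ} (hg : ContDiff ℝ ∞ g) (V e : P) (a d t : ℝ) (q : P) :
    lap (fun q ↦ g (ag V e a d t q)) q =
      sq e / d ^ 2 * deriv (deriv g) (ag V e a d t q) := by
  have g0 := hg.differentiable (by simp)
  have g1 := (contDiff_infty_iff_deriv.1 hg).2.differentiable (by simp)
  have e1 : d1 (fun q ↦ g (ag V e a d t q)) = fun q ↦ e.1 / d * deriv g (ag V e a d t q) :=
    funext fun q ↦ (ln_d g0 V e a d t q).1
  have e2 : d2 (fun q ↦ g (ag V e a d t q)) = fun q ↦ e.2 / d * deriv g (ag V e a d t q) :=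
    funext fun q ↦ (ln_d g0 V e a d t q).2
  have hdf : Differentiable ℝ (fun q ↦ deriv g (ag V e a d t q)) :=
    g1.comp fun q ↦ (ag_fd V e a d t q).differentiableAt
  unfold lap
  rw [e1, e2, (ECut_cmul _ hdf q).1, (ECut_cmul _ hdf q).2, (ln_d g1 V e a d t q).1,
    (ln_d g1 V e a d t q).2]
  unfold sq
  ring

private theorem sq_le {e : P} (he : sq e = 1) : |e.1| ≤ 1 ∧ |e.2| ≤ 1 := by
  unfold sq at he
  constructor
  · rw [← sq_le_one_iff_abs_le_one]
    nlinarith [sq_nonneg e.2]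
  · rw [← sq_le_one_iff_abs_le_one]
    nlinarith [sq_nonneg e.1]

private theorem ag_smooth (V e : P) (a d t : ℝ) : ContDiff ℝ ∞ (ag V e a d t) := by
  unfold ag dot
  have h1 : ContDiff ℝ ∞ (fun q : P ↦ (q - V).1) :=
    contDiff_fst.comp (contDiff_id.sub contDiff_const)
  have h2 : ContDiff ℝ ∞ (fun q : P ↦ (q - V).2) :=
    contDiff_snd.comp (contDiff_id.sub contDiff_const)
  exact (((((contDiff_const.mul h1).add (contDiff_const.mul h2)).sub contDiff_const).sub
    contDiff_const).div_const d)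

private theorem ln_cut {g : ℝ → ℝ} (hg : ContDiff ℝ ∞ g) {A B C : ℝ} (hA : ∀ y, |g y| ≤ A)
    (hB : ∀ y, |deriv g y| ≤ B) (hC : ∀ y, |deriv (deriv g) y| ≤ C) {V e : P} {a d t : ℝ}
    (he : sq e = 1) (hd : 0 < d) : Cut (fun q ↦ g (ag V e a d t q)) := by
  obtain ⟨he1, he2⟩ := sq_le he
  have g0 := hg.differentiable (by simp)
  have hB0 : 0 ≤ B := (abs_nonneg _).trans (hB 0)
  have hC0 : 0 ≤ C := (abs_nonneg _).trans (hC 0)
  have hA0 : 0 ≤ A := (abs_nonneg _).trans (hA 0)
  refine ⟨hg.comp (ag_smooth V e a d t), A + B / d + C / d ^ 2, fun q ↦ ?_⟩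
  have p1 : 0 ≤ B / d := by positivity
  have p2 : 0 ≤ C / d ^ 2 := by positivity
  have p3 : ∀ x : ℝ, |x| ≤ 1 → |x / d * deriv g (ag V e a d t q)| ≤ B / d := by
    intro x hx
    rw [abs_mul, abs_div, abs_of_pos hd, div_mul_eq_mul_div]
    refine div_le_div_of_nonneg_right ?_ hd.le
    calc |x| * |deriv g (ag V e a d t q)| ≤ 1 * B :=
          mul_le_mul hx (hB _) (abs_nonneg _) zero_le_one
      _ = B := one_mul B
  refine ⟨?_, ?_, ?_, ?_⟩
  · have := hA (ag V e a d t q)
    linarith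
  · rw [(ln_d g0 V e a d t q).1]
    have := p3 _ he1
    linarith
  · rw [(ln_d g0 V e a d t q).2]
    have := p3 _ he2
    linarith
  · rw [ln_lap hg V e a d t q, he, abs_mul, abs_of_pos (by positivity : 0 < 1 / d ^ 2),
      one_div_mul_eq_div]
    have : |deriv (deriv g) (ag V e a d t q)| / d ^ 2 ≤ C / d ^ 2 :=
      div_le_div_of_nonneg_right (hC _) (by positivity)
    linarith

private theorem st_it2 : iteratedDeriv 2 ST = deriv (deriv ST) := by
  rw [iteratedDeriv_succ, iteratedDeriv_one]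

private theorem st_it3 : iteratedDeriv 3 ST = deriv (deriv (deriv ST)) := by
  rw [iteratedDeriv_succ, iteratedDeriv_succ, iteratedDeriv_one]

theorem mv_mem (V e : P) (a d t : ℝ) (q : P) : 0 ≤ mv V e a d t q ∧ mv V e a d t q ≤ 1 :=
  ⟨Real.smoothTransition.nonneg _, Real.smoothTransition.le_one _⟩

theorem mv_zero {V e : P} {a d t : ℝ} (hd : 0 < d) {q : P} (h : dot e (q - V) ≤ a + 2 * t) :
    mv V e a d t q = 0 :=
  Real.smoothTransition.zero_of_nonpos (div_nonpos_of_nonpos_of_nonneg (by linarith) hd.le)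

theorem mv_one {V e : P} {a d t : ℝ} (hd : 0 < d) {q : P} (h : a + 2 * t + d ≤ dot e (q - V)) :
    mv V e a d t q = 1 :=
  Real.smoothTransition.one_of_one_le (by rw [le_div_iff₀ hd]; linarith)

theorem mvd_zero {V e : P} {a d t : ℝ} (hd : 0 < d) {q : P} (h : dot e (q - V) ≤ a + 2 * t) :
    mvd V e a d t q = 0 :=
  st_low (div_nonpos_of_nonpos_of_nonneg (by linarith) hd.le)

theorem mvd_nonneg (V e : P) (a d t : ℝ) (q : P) : 0 ≤ mvd V e a d t q :=
  Real.smoothTransition.monotone.deriv_nonneg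

theorem mv_cut {V e : P} {a d t : ℝ} (he : sq e = 1) (hd : 0 < d) : Cut (mv V e a d t) := by
  obtain ⟨C1, -, h1⟩ := st_bdd (n := 1) one_pos
  obtain ⟨C2, -, h2⟩ := st_bdd (n := 2) two_pos
  rw [iteratedDeriv_one] at h1
  rw [st_it2] at h2
  exact ln_cut st_smooth (A := 1) (fun y ↦ by
    rw [abs_of_nonneg (Real.smoothTransition.nonneg y)]
    exact Real.smoothTransition.le_one y) h1 h2 he hd

theorem mvd_cut {V e : P} {a d t : ℝ} (he : sq e = 1) (hd : 0 < d) : Cut (mvd V e a d t) := by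
  obtain ⟨C1, -, h1⟩ := st_bdd (n := 1) one_pos
  obtain ⟨C2, -, h2⟩ := st_bdd (n := 2) two_pos
  obtain ⟨C3, -, h3⟩ := st_bdd (n := 3) three_pos
  rw [iteratedDeriv_one] at h1
  rw [st_it2] at h2
  rw [st_it3] at h3
  exact ln_cut (contDiff_infty_iff_deriv.1 st_smooth).2 h1 h2 h3 he hd

theorem mv_d1 {V e : P} {a d t : ℝ} (hd : 0 < d) (q : P) :
    d1 (mv V e a d t) q = e.1 / d * mvd V e a d t q ∧
      d2 (mv V e a d t) q = e.2 / d * mvd V e a d t q :=
  ln_d (st_smooth.differentiable (by simp)) V e a d t q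

theorem mv_dt {V e : P} {a d : ℝ} (hd : 0 < d) (t : ℝ) (q : P) :
    HasDerivAt (fun t => mv V e a d t q) (-(2 / d) * mvd V e a d t q) t := by
  have h1 : HasDerivAt (fun t : ℝ ↦ (dot e (q - V) - a - 2 * t) / d) (-(2 / d)) t := by
    have := (((hasDerivAt_id t).const_mul 2).const_sub (dot e (q - V) - a)).div_const d
    refine (this.congr_deriv ?_)
    ring
  have h2 := (st_smooth.differentiable (by simp)
    ((dot e (q - V) - a - 2 * t) / d)).hasDerivAt.comp t h1
  refine h2.congr_deriv ?_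
  unfold mvd
  ring

/-- The bounds are uniform in `V`, `e`, `a`, `t`. -/
theorem mvd_bdd {d : ℝ} (hd : 0 < d) : ∃ C : ℝ, 0 ≤ C ∧ ∀ (V e : P) (a t : ℝ), sq e = 1 →
    ∀ q, mvd V e a d t q ≤ C ∧ |lap (mvd V e a d t) q| ≤ C := by
  obtain ⟨C1, hC1, h1⟩ := st_bdd (n := 1) one_pos
  obtain ⟨C3, hC3, h3⟩ := st_bdd (n := 3) three_pos
  rw [iteratedDeriv_one] at h1
  rw [st_it3] at h3
  have p3 : 0 ≤ C3 / d ^ 2 := by positivity
  refine ⟨C1 + C3 / d ^ 2, by positivity, fun V e a t he q ↦ ⟨?_, ?_⟩⟩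
  · have := (le_abs_self _).trans (h1 ((dot e (q - V) - a - 2 * t) / d))
    unfold mvd
    linarith
  · have h4 : lap (mvd V e a d t) q = sq e / d ^ 2 * deriv (deriv (deriv ST)) (ag V e a d t q) :=
      ln_lap (contDiff_infty_iff_deriv.1 st_smooth).2 V e a d t q
    rw [h4, he, abs_mul, abs_of_pos (by positivity : 0 < 1 / d ^ 2), one_div_mul_eq_div]
    have : |deriv (deriv (deriv ST)) (ag V e a d t q)| / d ^ 2 ≤ C3 / d ^ 2 :=
      div_le_div_of_nonneg_right (h3 _) (by positivity)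
    linarith

theorem mv_continuous (V e : P) (a d : ℝ) : Continuous (fun z : ℝ × P => mv V e a d z.1 z.2) ∧
    Continuous (fun z : ℝ × P => mvd V e a d z.1 z.2) := by
  have h1 : Continuous (fun z : ℝ × P ↦ (dot e (z.2 - V) - a - 2 * z.1) / d) := by
    unfold dot
    fun_prop
  exact ⟨st_smooth.continuous.comp h1,
    (contDiff_infty_iff_deriv.1 st_smooth).2.continuous.comp h1⟩

end

end Pool.Agent.MP4eed4eR.E
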