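import Pool.Agent.Lib.MP_4eed4e_an_RE.EStat
import Pool.Agent.Lib.MP_4eed4e_an_RE.EMov
import Pool.Agent.Lib.MP_4eed4e_an_RE.EForm

/-!
MP_4eed4e_an, project R, block E, module EEsc: the derivative of the mass beyond a moving cutoff.

PROOFS. Write `F = fs S s c_t`, `c_t = cev S h t c`, `F1, F2` for the gradient, `L = fsL S s c_t`.
* `mass_deriv`. `hasDerivAt_wform` with `φ = mv`, `φ' = -(2 / d) mvd` (`mv_dt`, `mv_mem`,
  `mvd_bdd`), `a k q = b k q = S.u k q`, `c' = cdt S h c_t` gives the derivative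
  `∫ (-(2 / d) mvd ‖F‖² + mv (conj F' F + conj F F'))` with `F' = fs (cdt c_t) = - (i h / 2) L`
  (`fs_cdt`), and `conj F' F + conj F F' = 2 Re (conj F F') = h Im (conj F L)`. `CDom.flux` for
  `ζ = mv` (`mv_cut`) and `mv_d1` give `h ∫ mv Im (conj F L) = (h / d) ∫ mvd Im (conj F (e · ∇F))`.
  The integral in the statement is real: use `hasDerivAt` of the real part (`reCLM`), or
  `‖F‖ ^ 2 = (conj F * F).re` and `integral_ofReal`.
* `mass_deriv_le`. Pointwise `h Im (conj F (e · ∇F)) ≤ (‖F‖² + h² (‖F1‖² + ‖F2‖²)) / 2`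
  (`‖e · ∇F‖² ≤ ‖F1‖² + ‖F2‖²` because `sq e = 1`). By `CDom.energy` with `ζ = mvd` and `fsL_eq`,
  `h² ∫ mvd (‖F1‖² + ‖F2‖²) = ∫ mvd (‖F‖² + Re (conj F G)) + (h² / 2) ∫ lap mvd ‖F‖²`,
  `G = fs (ch1 c_t)`. So the derivative is at most
  `(1 / 2d) (-2 ∫ mvd ‖F‖² + ∫ mvd ‖F‖ ‖G‖ + (h² / 2) ∫ |lap mvd| ‖F‖²)`.
-/

namespace Pool.Agent.MP4eed4eR.E

open MeasureTheory Set Filter Topology Metric
open scoped ComplexConjugate ContDiff

noncomputable section

variable {D : Set P}

/-! ### auxiliary lemmas -/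

private theorem cut_int {ζ : P → ℝ} (hζ : Cut ζ) {f g : P → ℂ} (hf : MemLp f 2 volume)
    (hg : MemLp g 2 volume) : Integrable (fun q => (ζ q : ℂ) * (conj (f q) * g q)) := by
  obtain ⟨C, hC⟩ := hζ.bdd
  have h1 : Integrable (fun q => conj (f q) * g q) := hf.star.integrable_mul hg
  refine h1.bdd_mul (c := C) ?_ (Eventually.of_forall fun q => ?_)
  · exact (Complex.continuous_ofReal.comp hζ.smooth.continuous).aestronglyMeasurable
  · rw [Complex.norm_real]
    exact (hC q).1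

private theorem cut_int_im {ζ : P → ℝ} (hζ : Cut ζ) {f g : P → ℂ} (hf : MemLp f 2 volume)
    (hg : MemLp g 2 volume) : Integrable (fun q => ζ q * (conj (f q) * g q).im) := by
  refine (cut_int hζ hf hg).im.congr (Eventually.of_forall fun q => ?_)
  change ((ζ q : ℂ) * (conj (f q) * g q)).im = _
  rw [Complex.im_ofReal_mul]

private theorem cut_int_re {ζ : P → ℝ} (hζ : Cut ζ) {f g : P → ℂ} (hf : MemLp f 2 volume)
    (hg : MemLp g 2 volume) : Integrable (fun q => ζ q * (conj (f q) * g q).re) := by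
  refine (cut_int hζ hf hg).re.congr (Eventually.of_forall fun q => ?_)
  change ((ζ q : ℂ) * (conj (f q) * g q)).re = _
  rw [Complex.re_ofReal_mul]

private theorem re_self (z : ℂ) : (conj z * z).re = ‖z‖ ^ 2 := by
  rw [Complex.conj_mul', ← Complex.ofReal_pow, Complex.ofReal_re]

private theorem cut_int_sq {ζ : P → ℝ} (hζ : Cut ζ) {f : P → ℂ} (hf : MemLp f 2 volume) :
    Integrable (fun q => ζ q * ‖f q‖ ^ 2) := by
  refine (cut_int_re hζ hf hf).congr (Eventually.of_forall fun q => ?_)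
  simp only [re_self]

private theorem fs_mem (S : Spec D) (s : Finset ℕ) (c : ℕ → ℂ) :
    MemLp (fs S s c) 2 volume ∧ MemLp (fs1 S s c) 2 volume ∧ MemLp (fs2 S s c) 2 volume ∧
      MemLp (fsL S s c) 2 volume :=
  ⟨(cdom_fs S s c).ch.memLp.1, (cdom_fs S s c).ch.memLp.2.1, (cdom_fs S s c).ch.memLp.2.2,
    (cdom_fs S s c).memLp_f⟩

private theorem u_mem (S : Spec D) (k : ℕ) : MemLp (fun q => (S.u k q : ℂ)) 2 volume :=
  (S.h10 k).mem.ofReal

private theorem pt_deriv' {z L : ℂ} {k : ℝ} :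
    conj (-(Complex.I * (k : ℂ)) * L) * z + conj z * (-(Complex.I * (k : ℂ)) * L) =
      ((2 * k * (conj z * L).im : ℝ) : ℂ) := by
  apply Complex.ext
  · simp [Complex.mul_re, Complex.mul_im]
    ring
  · simp [Complex.mul_re, Complex.mul_im]
    ring

private theorem pt_deriv {z L : ℂ} {h : ℝ} :
    conj (-(Complex.I * (h / 2 : ℝ)) * L) * z + conj z * (-(Complex.I * (h / 2 : ℝ)) * L) =
      ((h * (conj z * L).im : ℝ) : ℂ) := by
  rw [pt_deriv', show 2 * (h / 2) * (conj z * L).im = h * (conj z * L).im by ring]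

private theorem flux_pt {z w : ℂ} {h : ℝ} (hh0 : 0 < h) :
    h * (conj z * w).im ≤ (‖z‖ ^ 2 + h ^ 2 * ‖w‖ ^ 2) / 2 := by
  have h1 : (conj z * w).im ≤ ‖z‖ * ‖w‖ := by
    refine (le_abs_self _).trans ((Complex.abs_im_le_norm _).trans ?_)
    rw [norm_mul, Complex.norm_conj]
  have h2 : 2 * (‖z‖ * (h * ‖w‖)) ≤ ‖z‖ ^ 2 + (h * ‖w‖) ^ 2 := by
    nlinarith [sq_nonneg (‖z‖ - h * ‖w‖)]
  have h3 : h * (conj z * w).im ≤ h * (‖z‖ * ‖w‖) := mul_le_mul_of_nonneg_left h1 hh0.le
  nlinarith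

private theorem dir_le {e : P} (he : sq e = 1) (z w : ℂ) :
    ‖(e.1 : ℂ) * z + (e.2 : ℂ) * w‖ ^ 2 ≤ ‖z‖ ^ 2 + ‖w‖ ^ 2 := by
  unfold sq at he
  rw [← Complex.normSq_eq_norm_sq, ← Complex.normSq_eq_norm_sq, ← Complex.normSq_eq_norm_sq,
    Complex.normSq_apply, Complex.normSq_apply, Complex.normSq_apply]
  simp only [Complex.add_re, Complex.add_im, Complex.re_ofReal_mul, Complex.im_ofReal_mul]
  nlinarith [sq_nonneg (e.2 * z.re - e.1 * w.re), sq_nonneg (e.2 * z.im - e.1 * w.im)]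

theorem mass_deriv (S : Spec D) {V e : P} {a d h : ℝ} (he : sq e = 1) (hd : 0 < d)
    (s : Finset ℕ) (c : ℕ → ℂ) (t : ℝ) :
    HasDerivAt (fun t => ∫ q, mv V e a d t q * ‖fs S s (cev S h t c) q‖ ^ 2)
      (∫ q, mvd V e a d t q * (-(2 / d) * ‖fs S s (cev S h t c) q‖ ^ 2 +
        h / d * (conj (fs S s (cev S h t c) q) * ((e.1 : ℂ) * fs1 S s (cev S h t c) q +
          (e.2 : ℂ) * fs2 S s (cev S h t c) q)).im)) t := by
  obtain ⟨C1, hC1, hb1⟩ := mvd_bdd hd
  have hcut : Cut (mv V e a d t) := mv_cut he hd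
  have hcut' : Cut (mvd V e a d t) := mvd_cut he hd
  obtain ⟨m0, m1, m2, mL⟩ := fs_mem S s (cev S h t c)
  have hmc := mv_continuous V e a d
  have H := hasDerivAt_wform (φ := fun t q => mv V e a d t q)
    (φ' := fun t q => -(2 / d) * mvd V e a d t q) (C := max 1 (2 / d * C1))
    (fun t q => by
      rw [abs_of_nonneg (mv_mem V e a d t q).1]
      exact (mv_mem V e a d t q).2.trans (le_max_left _ _))
    (fun t q => by
      rw [abs_mul, abs_neg, abs_of_nonneg (by positivity : (0 : ℝ) ≤ 2 / d),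
        abs_of_nonneg (mvd_nonneg V e a d t q)]
      exact (mul_le_mul_of_nonneg_left (hb1 V e a t he q).1 (by positivity)).trans
        (le_max_right _ _))
    (fun t => (hmc.1.comp (Continuous.prodMk_right t)).measurable)
    (fun t => ((hmc.2.comp (Continuous.prodMk_right t)).measurable).const_mul _)
    (fun t q => mv_dt hd t q) s (a := fun k q => (S.u k q : ℂ)) (b := fun k q => (S.u k q : ℂ))
    (fun j _ k _ => (u_mem S j).star.integrable_mul (u_mem S k))
    (c := fun t => cev S h t c) (c' := cdt S h (cev S h t c)) (t := t)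
    (fun k _ => hasDerivAt_cev S h c k t)
  have H2 := (Complex.reCLM.hasFDerivAt).comp_hasDerivAt t H
  have e1 : (fun t => ∫ q, mv V e a d t q * ‖fs S s (cev S h t c) q‖ ^ 2) =
      Complex.reCLM ∘ (fun t => ∫ q, (mv V e a d t q : ℂ) *
        (conj (∑ k ∈ s, cev S h t c k * (S.u k q : ℂ)) *
          ∑ k ∈ s, cev S h t c k * (S.u k q : ℂ))) := by
    funext t
    simp only [Function.comp_apply, Complex.reCLM_apply]
    rw [← Complex.ofReal_re (∫ q, mv V e a d t q * ‖fs S s (cev S h t c) q‖ ^ 2),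
      ← integral_complex_ofReal]
    congr 1
    refine integral_congr_ae (Eventually.of_forall fun q => ?_)
    change ((mv V e a d t q * ‖fs S s (cev S h t c) q‖ ^ 2 : ℝ) : ℂ) =
      (mv V e a d t q : ℂ) * (conj (fs S s (cev S h t c) q) * fs S s (cev S h t c) q)
    rw [Complex.conj_mul']
    push_cast
    rfl
  rw [e1]
  refine H2.congr_deriv ?_
  rw [Complex.reCLM_apply]
  have e2 : ∫ q, (((-(2 / d) * mvd V e a d t q : ℝ) : ℂ) *
      (conj (∑ k ∈ s, cev S h t c k * (S.u k q : ℂ)) *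
        ∑ k ∈ s, cev S h t c k * (S.u k q : ℂ)) +
      (mv V e a d t q : ℂ) *
      (conj (∑ k ∈ s, cdt S h (cev S h t c) k * (S.u k q : ℂ)) *
          (∑ k ∈ s, cev S h t c k * (S.u k q : ℂ)) +
        conj (∑ k ∈ s, cev S h t c k * (S.u k q : ℂ)) *
          ∑ k ∈ s, cdt S h (cev S h t c) k * (S.u k q : ℂ))) =
      ((∫ q, (-(2 / d) * (mvd V e a d t q * ‖fs S s (cev S h t c) q‖ ^ 2) +
        h * (mv V e a d t q * (conj (fs S s (cev S h t c) q) *
          fsL S s (cev S h t c) q).im)) : ℝ) : ℂ) := by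
    rw [← integral_complex_ofReal]
    refine integral_congr_ae (Eventually.of_forall fun q => ?_)
    change ((-(2 / d) * mvd V e a d t q : ℝ) : ℂ) *
      (conj (fs S s (cev S h t c) q) * fs S s (cev S h t c) q) +
      (mv V e a d t q : ℂ) *
      (conj (fs S s (cdt S h (cev S h t c)) q) * fs S s (cev S h t c) q +
        conj (fs S s (cev S h t c) q) * fs S s (cdt S h (cev S h t c)) q) =
      ((-(2 / d) * (mvd V e a d t q * ‖fs S s (cev S h t c) q‖ ^ 2) +
        h * (mv V e a d t q * (conj (fs S s (cev S h t c) q) *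
          fsL S s (cev S h t c) q).im) : ℝ) : ℂ)
    rw [fs_cdt, pt_deriv, Complex.conj_mul']
    push_cast
    ring
  rw [e2, Complex.ofReal_re]
  have i1 := cut_int_sq hcut' m0
  have i2 := cut_int_im hcut m0 mL
  rw [integral_add (i1.const_mul _) (i2.const_mul _), integral_const_mul, integral_const_mul,
    (cdom_fs S s (cev S h t c)).flux hcut]
  have e3 : (∫ q, (conj (fs S s (cev S h t c) q) * ((d1 (mv V e a d t) q : ℂ) *
      fs1 S s (cev S h t c) q + (d2 (mv V e a d t) q : ℂ) * fs2 S s (cev S h t c) q)).im) =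
      1 / d * ∫ q, mvd V e a d t q * (conj (fs S s (cev S h t c) q) *
        ((e.1 : ℂ) * fs1 S s (cev S h t c) q + (e.2 : ℂ) * fs2 S s (cev S h t c) q)).im := by
    rw [← integral_const_mul]
    refine integral_congr_ae (Eventually.of_forall fun q => ?_)
    simp only
    rw [(mv_d1 hd q).1, (mv_d1 hd q).2]
    have : conj (fs S s (cev S h t c) q) * (((e.1 / d * mvd V e a d t q : ℝ) : ℂ) *
        fs1 S s (cev S h t c) q + ((e.2 / d * mvd V e a d t q : ℝ) : ℂ) *
          fs2 S s (cev S h t c) q) =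
        ((1 / d * mvd V e a d t q : ℝ) : ℂ) * (conj (fs S s (cev S h t c) q) *
          ((e.1 : ℂ) * fs1 S s (cev S h t c) q + (e.2 : ℂ) * fs2 S s (cev S h t c) q)) := by
      push_cast
      ring
    rw [this, Complex.im_ofReal_mul]
    ring
  rw [e3]
  have m3 : MemLp (fun q => (e.1 : ℂ) * fs1 S s (cev S h t c) q +
      (e.2 : ℂ) * fs2 S s (cev S h t c) q) 2 volume := (m1.const_mul _).add (m2.const_mul _)
  have i3 := cut_int_im hcut' m0 m3
  rw [← integral_const_mul, ← mul_assoc, ← integral_const_mul,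
    ← integral_add (i1.const_mul _) (i3.const_mul _)]
  refine integral_congr_ae (Eventually.of_forall fun q => ?_)
  simp only
  ring

theorem mass_deriv_le (S : Spec D) (hb : Bornology.IsBounded D) {V e : P} {a d h : ℝ}
    (he : sq e = 1) (hd : 0 < d) (hh0 : 0 < h) (s : Finset ℕ) (c : ℕ → ℂ) (t : ℝ) :
    ∫ q, mvd V e a d t q * (-(2 / d) * ‖fs S s (cev S h t c) q‖ ^ 2 +
        h / d * (conj (fs S s (cev S h t c) q) * ((e.1 : ℂ) * fs1 S s (cev S h t c) q +
          (e.2 : ℂ) * fs2 S s (cev S h t c) q)).im) ≤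
      1 / (2 * d) * ((∫ q, mvd V e a d t q *
        (‖fs S s (cev S h t c) q‖ * ‖fs S s (cev S h t (ch1 S h c)) q‖)) +
        h ^ 2 / 2 * ∫ q, |lap (mvd V e a d t) q| * ‖fs S s (cev S h t c) q‖ ^ 2) := by
  have hcut' : Cut (mvd V e a d t) := mvd_cut he hd
  have hG := cev_ch1 S h t c
  set cc := cev S h t c with hcc
  set gg := cev S h t (ch1 S h c) with hgg
  obtain ⟨m0, m1, m2, mL⟩ := fs_mem S s cc
  obtain ⟨mG, -, -, -⟩ := fs_mem S s gg
  have m3 : MemLp (fun q => (e.1 : ℂ) * fs1 S s cc q + (e.2 : ℂ) * fs2 S s cc q) 2 volume :=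
    (m1.const_mul _).add (m2.const_mul _)
  have i0 := cut_int_sq hcut' m0
  have i1 := cut_int_sq hcut' m1
  have i2 := cut_int_sq hcut' m2
  have i3 := cut_int_im hcut' m0 m3
  have iL := cut_int_re hcut' m0 mL
  have iG := cut_int_re hcut' m0 mG
  obtain ⟨C, hC⟩ := hcut'.bdd
  have hn0 : Integrable (fun q => ‖fs S s cc q‖ ^ 2) := m0.norm.integrable_sq
  have hlapm : AEStronglyMeasurable (lap (mvd V e a d t)) volume := by
    have hs := hcut'.smooth
    have k1 : ContDiff ℝ ∞ (d1 (mvd V e a d t)) := by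
      unfold d1
      exact (hs.fderiv_right (m := ∞) (by simp)).clm_apply contDiff_const
    have k2 : ContDiff ℝ ∞ (d2 (mvd V e a d t)) := by
      unfold d2
      exact (hs.fderiv_right (m := ∞) (by simp)).clm_apply contDiff_const
    have k3 : Continuous (d1 (d1 (mvd V e a d t))) := by
      unfold d1 at k1 ⊢
      exact ((k1.fderiv_right (m := ∞) (by simp)).clm_apply contDiff_const).continuous
    have k4 : Continuous (d2 (d2 (mvd V e a d t))) := by
      unfold d2 at k2 ⊢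
      exact ((k2.fderiv_right (m := ∞) (by simp)).clm_apply contDiff_const).continuous
    exact (k3.add k4).aestronglyMeasurable
  have il : Integrable (fun q => lap (mvd V e a d t) q * ‖fs S s cc q‖ ^ 2) :=
    hn0.bdd_mul (c := C) hlapm (Eventually.of_forall fun q => (hC q).2.2.2)
  have ila : Integrable (fun q => |lap (mvd V e a d t) q| * ‖fs S s cc q‖ ^ 2) :=
    hn0.bdd_mul (c := C) hlapm.norm (Eventually.of_forall fun q => by
      rw [Real.norm_eq_abs, abs_abs]
      exact (hC q).2.2.2)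
  have ip : Integrable (fun q => mvd V e a d t q * (‖fs S s cc q‖ * ‖fs S s gg q‖)) := by
    have h1 : Integrable (fun q => ‖fs S s cc q‖ * ‖fs S s gg q‖) :=
      m0.norm.integrable_mul mG.norm
    exact h1.bdd_mul (c := C) hcut'.smooth.continuous.aestronglyMeasurable
      (Eventually.of_forall fun q => (hC q).1)
  have hen := (cdom_fs S s cc).energy hcut' hb
  have hA : ∀ q, h ^ 2 * (conj (fs S s cc q) * fsL S s cc q).re =
      ‖fs S s cc q‖ ^ 2 + (conj (fs S s cc q) * fs S s gg q).re := by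
    intro q
    have h1 := fsL_eq S h s cc q
    rw [hG] at h1
    have h2 : conj (fs S s cc q) * (((h ^ 2 : ℝ) : ℂ) * fsL S s cc q) =
        conj (fs S s cc q) * (fs S s cc q + fs S s gg q) := by rw [h1]
    have h3 := congrArg Complex.re h2
    rw [mul_left_comm, Complex.re_ofReal_mul, mul_add, Complex.add_re, re_self] at h3
    exact h3
  have hB : h ^ 2 * ∫ q, mvd V e a d t q * (conj (fs S s cc q) * fsL S s cc q).re =
      (∫ q, mvd V e a d t q * ‖fs S s cc q‖ ^ 2) +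
        ∫ q, mvd V e a d t q * (conj (fs S s cc q) * fs S s gg q).re := by
    rw [← integral_const_mul, ← integral_add i0 iG]
    refine integral_congr_ae (Eventually.of_forall fun q => ?_)
    simp only
    rw [mul_left_comm, hA q]
    ring
  have hpt : ∫ q, mvd V e a d t q * (-(2 / d) * ‖fs S s cc q‖ ^ 2 +
        h / d * (conj (fs S s cc q) * ((e.1 : ℂ) * fs1 S s cc q +
          (e.2 : ℂ) * fs2 S s cc q)).im) ≤
      ∫ q, (-(3 / (2 * d)) * (mvd V e a d t q * ‖fs S s cc q‖ ^ 2) +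
        h ^ 2 / (2 * d) * (mvd V e a d t q * (‖fs1 S s cc q‖ ^ 2 + ‖fs2 S s cc q‖ ^ 2))) := by
    refine integral_mono ?_ ?_ fun q => ?_
    · refine ((i0.const_mul (-(2 / d))).add (i3.const_mul (h / d))).congr
        (Eventually.of_forall fun q => ?_)
      simp only [Pi.add_apply]
      ring
    · refine ((i0.const_mul (-(3 / (2 * d)))).add ((i1.add i2).const_mul (h ^ 2 / (2 * d)))).congr
        (Eventually.of_forall fun q => ?_)
      simp only [Pi.add_apply]
      ring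
    · simp only
      have h1 := flux_pt (z := fs S s cc q)
        (w := (e.1 : ℂ) * fs1 S s cc q + (e.2 : ℂ) * fs2 S s cc q) hh0
      have h2 := dir_le he (fs1 S s cc q) (fs2 S s cc q)
      have h3 := mvd_nonneg V e a d t q
      have h4 : h * (conj (fs S s cc q) * ((e.1 : ℂ) * fs1 S s cc q +
          (e.2 : ℂ) * fs2 S s cc q)).im ≤ (‖fs S s cc q‖ ^ 2 +
            h ^ 2 * (‖fs1 S s cc q‖ ^ 2 + ‖fs2 S s cc q‖ ^ 2)) / 2 := by
        have : h ^ 2 * ‖(e.1 : ℂ) * fs1 S s cc q + (e.2 : ℂ) * fs2 S s cc q‖ ^ 2 ≤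
            h ^ 2 * (‖fs1 S s cc q‖ ^ 2 + ‖fs2 S s cc q‖ ^ 2) :=
          mul_le_mul_of_nonneg_left h2 (sq_nonneg h)
        linarith
      have h5 : mvd V e a d t q / d * (h * (conj (fs S s cc q) * ((e.1 : ℂ) * fs1 S s cc q +
          (e.2 : ℂ) * fs2 S s cc q)).im) ≤ mvd V e a d t q / d * ((‖fs S s cc q‖ ^ 2 +
            h ^ 2 * (‖fs1 S s cc q‖ ^ 2 + ‖fs2 S s cc q‖ ^ 2)) / 2) :=
        mul_le_mul_of_nonneg_left h4 (div_nonneg h3 hd.le)
      have h6 : mvd V e a d t q * (-(2 / d) * ‖fs S s cc q‖ ^ 2 +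
          h / d * (conj (fs S s cc q) * ((e.1 : ℂ) * fs1 S s cc q +
            (e.2 : ℂ) * fs2 S s cc q)).im) = -(2 / d) * (mvd V e a d t q * ‖fs S s cc q‖ ^ 2) +
          mvd V e a d t q / d * (h * (conj (fs S s cc q) * ((e.1 : ℂ) * fs1 S s cc q +
          (e.2 : ℂ) * fs2 S s cc q)).im) := by
        ring
      have h7 : -(3 / (2 * d)) * (mvd V e a d t q * ‖fs S s cc q‖ ^ 2) +
          h ^ 2 / (2 * d) * (mvd V e a d t q * (‖fs1 S s cc q‖ ^ 2 + ‖fs2 S s cc q‖ ^ 2)) =
          -(2 / d) * (mvd V e a d t q * ‖fs S s cc q‖ ^ 2) +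
          mvd V e a d t q / d * ((‖fs S s cc q‖ ^ 2 +
            h ^ 2 * (‖fs1 S s cc q‖ ^ 2 + ‖fs2 S s cc q‖ ^ 2)) / 2) := by
        field_simp
        ring
      rw [h6, h7]
      linarith
  have i12 : Integrable (fun q => mvd V e a d t q * (‖fs1 S s cc q‖ ^ 2 + ‖fs2 S s cc q‖ ^ 2)) :=
    (i1.add i2).congr (Eventually.of_forall fun q => by simp only [Pi.add_apply]; ring)
  rw [integral_add (i0.const_mul _) (i12.const_mul _), integral_const_mul,
    integral_const_mul, hen] at hpt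
  have hre : ∫ q, mvd V e a d t q * (conj (fs S s cc q) * fs S s gg q).re ≤
      ∫ q, mvd V e a d t q * (‖fs S s cc q‖ * ‖fs S s gg q‖) := by
    refine integral_mono iG ip fun q => ?_
    refine mul_le_mul_of_nonneg_left ?_ (mvd_nonneg V e a d t q)
    refine (Complex.re_le_norm _).trans ?_
    rw [norm_mul, Complex.norm_conj]
  have hla : ∫ q, lap (mvd V e a d t) q * ‖fs S s cc q‖ ^ 2 ≤
      ∫ q, |lap (mvd V e a d t) q| * ‖fs S s cc q‖ ^ 2 :=
    integral_mono il ila fun q => mul_le_mul_of_nonneg_right (le_abs_self _) (sq_nonneg _)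
  have hA0 : 0 ≤ ∫ q, mvd V e a d t q * ‖fs S s cc q‖ ^ 2 :=
    integral_nonneg fun q => mul_nonneg (mvd_nonneg V e a d t q) (sq_nonneg _)
  generalize (∫ q, mvd V e a d t q * ‖fs S s cc q‖ ^ 2) = A at hpt hB hA0
  generalize (∫ q, mvd V e a d t q * (conj (fs S s cc q) * fs S s gg q).re) = B at hB hre
  generalize (∫ q, mvd V e a d t q * (‖fs S s cc q‖ * ‖fs S s gg q‖)) = B' at hre ⊢
  generalize (∫ q, lap (mvd V e a d t) q * ‖fs S s cc q‖ ^ 2) = E at hpt hla
  generalize (∫ q, |lap (mvd V e a d t) q| * ‖fs S s cc q‖ ^ 2) = E' at hla ⊢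
  generalize (∫ q, mvd V e a d t q * (conj (fs S s cc q) * fsL S s cc q).re) = X at hpt hB
  refine hpt.trans ?_
  have hk : -(3 / (2 * d)) * A + h ^ 2 / (2 * d) * (X + 1 / 2 * E) =
      1 / (2 * d) * (-3 * A + (h ^ 2 * X) + h ^ 2 / 2 * E) := by
    field_simp
    ring
  rw [hk, hB]
  refine mul_le_mul_of_nonneg_left ?_ (by positivity)
  have : h ^ 2 / 2 * E ≤ h ^ 2 / 2 * E' := mul_le_mul_of_nonneg_left hla (by positivity)
  linarith

end

end Pool.Agent.MP4eed4eR.E
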