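import Pool.Agent.Lib.MP_4eed4e_an_RE.EEsc

/-!
MP_4eed4e_an, project R, block E, module EEsc2: the mass that leaves a square.

PROOF of `escape`. Let `C₁` be the constant of `mvd_bdd`. For each of the four vectors
`e = (1, 0), (-1, 0), (0, 1), (0, -1)` put `J t = ∫ mv V e a d t ‖F t‖²`, `F t = fs S s (cev S h t c)`.
`mvd` is `0` unless `a + 2 t < e · (q - V)`, so (for `t ≥ 0`) unless `a ≤ dist q V` (sup norm), and
`mvd ≤ C₁`, `|lap mvd| ≤ C₁`. By `mass_deriv`, `mass_deriv_le`, the Cauchy-Schwarz inequality on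
`{a ≤ dist q V}` and `int_fs`, `nsq_cev`, the derivative of `J` on `[0, t₁]` is at most
`B = (C₁ / 2d) (K + (h² / 2) nsq s c)`, so `J t ≤ J 0 + t₁ B` (`image_sub_le_mul_sub_of_deriv_le` or
`image_le_of_deriv_right_le_deriv_boundary`). `J 0 ≤ ∫ ‖F 0‖²` over `{a ≤ dist q V}` and
`{a + 2 t + d ≤ dist q V}` is the union of the four sets `{a + 2 t + d ≤ e · (q - V)}`, where
`mv = 1`. Add the four inequalities; `C = 4 C₁ / d` is enough.
-/

namespace Pool.Agent.MP4eed4eR.E

open MeasureTheory Set Filter Topology Metric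
open scoped ComplexConjugate ContDiff

noncomputable section

variable {D : Set P}

/-! ### auxiliary lemmas -/

private theorem cs_le {μ : Measure P} {f g : P → ℝ} (hf : MemLp f 2 μ) (hg : MemLp g 2 μ)
    (hf0 : ∀ q, 0 ≤ f q) (hg0 : ∀ q, 0 ≤ g q) {K : ℝ} (hK : 0 ≤ K)
    (h : (∫ q, f q ^ 2 ∂μ) * (∫ q, g q ^ 2 ∂μ) ≤ K ^ 2) : ∫ q, f q * g q ∂μ ≤ K := by
  have e2 : (2 : ENNReal) = ENNReal.ofReal 2 := by norm_num
  have h1 := integral_mul_le_Lp_mul_Lq_of_nonneg (μ := μ) Real.HolderConjugate.two_two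
    (f := f) (g := g) (Eventually.of_forall hf0) (Eventually.of_forall hg0)
    (by rw [← e2]; exact hf) (by rw [← e2]; exact hg)
  simp only [Real.rpow_two] at h1
  refine h1.trans ?_
  have hf1 : 0 ≤ ∫ q, f q ^ 2 ∂μ := integral_nonneg fun q => sq_nonneg _
  have hg1 : 0 ≤ ∫ q, g q ^ 2 ∂μ := integral_nonneg fun q => sq_nonneg _
  rw [← Real.mul_rpow hf1 hg1, ← Real.sqrt_eq_rpow]
  calc Real.sqrt ((∫ q, f q ^ 2 ∂μ) * ∫ q, g q ^ 2 ∂μ) ≤ Real.sqrt (K ^ 2) :=
        Real.sqrt_le_sqrt h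
    _ = K := Real.sqrt_sq hK

private theorem int4 {f1 f2 f3 f4 : P → ℝ} (h1 : Integrable f1) (h2 : Integrable f2)
    (h3 : Integrable f3) (h4 : Integrable f4) : ∫ q, (f1 q + f2 q + (f3 q + f4 q)) =
      ((∫ q, f1 q) + ∫ q, f2 q) + ((∫ q, f3 q) + ∫ q, f4 q) := by
  have := integral_add (h1.add h2) (h3.add h4)
  simp only [Pi.add_apply] at this
  rw [this, integral_add h1 h2, integral_add h3 h4]

private theorem meas_far (V : P) (a : ℝ) : MeasurableSet {q : P | a ≤ dist q V} :=
  (isClosed_le continuous_const (continuous_id.dist continuous_const)).measurableSet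

private theorem far_of_dot {V e : P} (hen : ∀ v : P, dot e v ≤ ‖v‖) {a t : ℝ} (ht : 0 ≤ t)
    {q : P} (h : a + 2 * t < dot e (q - V)) : a ≤ dist q V := by
  have h1 := hen (q - V)
  rw [← dist_eq_norm] at h1
  linarith

private theorem one_dir (S : Spec D) (hb : Bornology.IsBounded D) {d C₁ : ℝ} (hd : 0 < d)
    (hC0 : 0 ≤ C₁) (hC : ∀ (V e : P) (a t : ℝ), sq e = 1 →
      ∀ q, mvd V e a d t q ≤ C₁ ∧ |lap (mvd V e a d t) q| ≤ C₁) {e : P} (he : sq e = 1)
    (hen : ∀ v : P, dot e v ≤ ‖v‖) {h : ℝ} (hh0 : 0 < h) (V : P) (a t₁ K : ℝ) (s : Finset ℕ)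
    (c : ℕ → ℂ) (hK : 0 ≤ K) (hKK : ∀ t, 0 ≤ t → t ≤ t₁ →
        (∫ q in {q : P | a ≤ dist q V}, ‖fs S s (cev S h t c) q‖ ^ 2) *
        (∫ q in {q : P | a ≤ dist q V}, ‖fs S s (cev S h t (ch1 S h c)) q‖ ^ 2) ≤ K ^ 2)
    (t : ℝ) (ht : 0 ≤ t) (ht1 : t ≤ t₁) :
    ∫ q, mv V e a d t q * ‖fs S s (cev S h t c) q‖ ^ 2 ≤
      (∫ q in {q : P | a ≤ dist q V}, ‖fs S s c q‖ ^ 2) +
        C₁ / (2 * d) * t₁ * (K + h ^ 2 * nsq s c) := by
  have hns : 0 ≤ nsq s c := Finset.sum_nonneg fun _ _ => sq_nonneg _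
  set M : ℝ := C₁ / (2 * d) * (K + h ^ 2 * nsq s c) with hM
  have hM0 : 0 ≤ M := by positivity
  have hA := meas_far V a
  -- the bound of the derivative
  have hder : ∀ x ∈ Ico 0 t, (∫ q, mvd V e a d x q * (-(2 / d) * ‖fs S s (cev S h x c) q‖ ^ 2 +
        h / d * (conj (fs S s (cev S h x c) q) * ((e.1 : ℂ) * fs1 S s (cev S h x c) q +
          (e.2 : ℂ) * fs2 S s (cev S h x c) q)).im)) ≤ M := by
    intro x hx
    have hx0 := hx.1
    refine (mass_deriv_le S hb he hd hh0 s c x).trans ?_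
    have mF : MemLp (fs S s (cev S h x c)) 2 volume := (cdom_fs S s _).ch.memLp.1
    have mG : MemLp (fs S s (cev S h x (ch1 S h c))) 2 volume := (cdom_fs S s _).ch.memLp.1
    have iFG : Integrable (fun q => ‖fs S s (cev S h x c) q‖ *
        ‖fs S s (cev S h x (ch1 S h c)) q‖) := mF.norm.integrable_mul mG.norm
    have b1 : ∫ q, mvd V e a d x q *
        (‖fs S s (cev S h x c) q‖ * ‖fs S s (cev S h x (ch1 S h c)) q‖) ≤ C₁ * K := by
      have k1 : ∫ q, mvd V e a d x q *
          (‖fs S s (cev S h x c) q‖ * ‖fs S s (cev S h x (ch1 S h c)) q‖) ≤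
          ∫ q, indicator {q : P | a ≤ dist q V} (fun q => C₁ * (‖fs S s (cev S h x c) q‖ *
            ‖fs S s (cev S h x (ch1 S h c)) q‖)) q := by
        refine integral_mono_of_nonneg (Eventually.of_forall fun q => ?_)
          ((iFG.const_mul C₁).indicator hA) (Eventually.of_forall fun q => ?_)
        · exact mul_nonneg (mvd_nonneg V e a d x q) (by positivity)
        · simp only
          by_cases hq : q ∈ {q : P | a ≤ dist q V}
          · rw [indicator_of_mem hq]
            exact mul_le_mul_of_nonneg_right (hC V e a x he q).1 (by positivity)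
          · rw [indicator_of_notMem hq]
            have : dot e (q - V) ≤ a + 2 * x := by
              by_contra hcon
              exact hq (far_of_dot hen hx0 (not_le.1 hcon))
            rw [mvd_zero hd this, zero_mul]
      refine k1.trans ?_
      rw [integral_indicator hA, integral_const_mul]
      refine mul_le_mul_of_nonneg_left ?_ hC0
      exact cs_le (mF.norm.restrict _) (mG.norm.restrict _) (fun q => norm_nonneg _)
        (fun q => norm_nonneg _) hK (hKK x hx0 (hx.2.le.trans ht1))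
    have b2 : ∫ q, |lap (mvd V e a d x) q| * ‖fs S s (cev S h x c) q‖ ^ 2 ≤
        C₁ * nsq s c := by
      have k1 : ∫ q, |lap (mvd V e a d x) q| * ‖fs S s (cev S h x c) q‖ ^ 2 ≤
          ∫ q, C₁ * ‖fs S s (cev S h x c) q‖ ^ 2 := by
        refine integral_mono_of_nonneg (Eventually.of_forall fun q => ?_)
          ((int_fs S s _).1.const_mul C₁) (Eventually.of_forall fun q => ?_)
        · exact mul_nonneg (abs_nonneg _) (sq_nonneg _)
        · exact mul_le_mul_of_nonneg_right (hC V e a x he q).2 (sq_nonneg _)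
      rw [integral_const_mul, (int_fs S s _).2, nsq_cev] at k1
      exact k1
    have hd2 : 0 ≤ 1 / (2 * d) := by positivity
    have hh2 : 0 ≤ h ^ 2 / 2 := by positivity
    calc 1 / (2 * d) * ((∫ q, mvd V e a d x q *
        (‖fs S s (cev S h x c) q‖ * ‖fs S s (cev S h x (ch1 S h c)) q‖)) +
        h ^ 2 / 2 * ∫ q, |lap (mvd V e a d x) q| * ‖fs S s (cev S h x c) q‖ ^ 2)
        ≤ 1 / (2 * d) * (C₁ * K + h ^ 2 / 2 * (C₁ * nsq s c)) :=
          mul_le_mul_of_nonneg_left (add_le_add b1 (mul_le_mul_of_nonneg_left b2 hh2)) hd2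
      _ ≤ 1 / (2 * d) * (C₁ * K + h ^ 2 * (C₁ * nsq s c)) := by
          refine mul_le_mul_of_nonneg_left ?_ hd2
          have : 0 ≤ h ^ 2 * (C₁ * nsq s c) := by positivity
          linarith
      _ = M := by
          rw [hM]
          ring
  have hmd := fun x => mass_deriv S (V := V) (e := e) (a := a) (d := d) (h := h) he hd s c x
  have key := image_le_of_deriv_right_le_deriv_boundary (a := 0) (b := t)
    (f := fun t => ∫ q, mv V e a d t q * ‖fs S s (cev S h t c) q‖ ^ 2)
    (f' := fun x => ∫ q, mvd V e a d x q * (-(2 / d) * ‖fs S s (cev S h x c) q‖ ^ 2 +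
        h / d * (conj (fs S s (cev S h x c) q) * ((e.1 : ℂ) * fs1 S s (cev S h x c) q +
          (e.2 : ℂ) * fs2 S s (cev S h x c) q)).im))
    (fun x _ => (hmd x).continuousAt.continuousWithinAt)
    (fun x _ => (hmd x).hasDerivWithinAt)
    (B := fun x => (∫ q in {q : P | a ≤ dist q V}, ‖fs S s c q‖ ^ 2) + M * x)
    (B' := fun _ => M) ?_ (by fun_prop)
    (fun x _ => ?_) hder (right_mem_Icc.2 ht)
  · refine key.trans ?_
    have : M * t ≤ M * t₁ := mul_le_mul_of_nonneg_left ht1 hM0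
    have e1 : M * t₁ = C₁ / (2 * d) * t₁ * (K + h ^ 2 * nsq s c) := by
      rw [hM]
      ring
    linarith
  · simp only [mul_zero, add_zero, cev_zero]
    rw [← integral_indicator hA]
    refine integral_mono_of_nonneg (Eventually.of_forall fun q => ?_)
      ((int_fs S s c).1.indicator hA) (Eventually.of_forall fun q => ?_)
    · exact mul_nonneg (mv_mem V e a d 0 q).1 (sq_nonneg _)
    · simp only
      by_cases hq : q ∈ {q : P | a ≤ dist q V}
      · rw [indicator_of_mem hq]
        exact mul_le_of_le_one_left (sq_nonneg _) (mv_mem V e a d 0 q).2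
      · rw [indicator_of_notMem hq]
        have : dot e (q - V) ≤ a + 2 * 0 := by
          by_contra hcon
          exact hq (far_of_dot hen le_rfl (not_le.1 hcon))
        rw [mv_zero hd this, zero_mul]
  · have h1 := (((hasDerivAt_id x).const_mul M).const_add
      (∫ q in {q : P | a ≤ dist q V}, ‖fs S s c q‖ ^ 2)).hasDerivWithinAt (s := Ici x)
    rw [mul_one] at h1
    exact h1

theorem escape (S : Spec D) (hb : Bornology.IsBounded D) {d : ℝ} (hd : 0 < d) :
    ∃ C : ℝ, 0 ≤ C ∧ ∀ h : ℝ, 0 < h → ∀ (V : P) (a t₁ K : ℝ) (s : Finset ℕ) (c : ℕ → ℂ),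
      0 ≤ K → (∀ t, 0 ≤ t → t ≤ t₁ →
        (∫ q in {q : P | a ≤ dist q V}, ‖fs S s (cev S h t c) q‖ ^ 2) *
        (∫ q in {q : P | a ≤ dist q V}, ‖fs S s (cev S h t (ch1 S h c)) q‖ ^ 2) ≤ K ^ 2) →
      ∀ t, 0 ≤ t → t ≤ t₁ →
        ∫ q in {q : P | a + 2 * t + d ≤ dist q V}, ‖fs S s (cev S h t c) q‖ ^ 2 ≤
          4 * (∫ q in {q : P | a ≤ dist q V}, ‖fs S s c q‖ ^ 2) +
            C * t₁ * (K + h ^ 2 * nsq s c) := by
  obtain ⟨C₁, hC0, hC⟩ := mvd_bdd hd
  refine ⟨2 * C₁ / d, by positivity, fun h hh0 V a t₁ K s c hK hKK t ht ht1 => ?_⟩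
  have n1 : ∀ v : P, |v.1| ≤ ‖v‖ := fun v => norm_fst_le v
  have n2 : ∀ v : P, |v.2| ≤ ‖v‖ := fun v => norm_snd_le v
  have g := fun (e : P) (he : sq e = 1) (hen : ∀ v : P, dot e v ≤ ‖v‖) =>
    one_dir S hb hd hC0 hC he hen hh0 V a t₁ K s c hK hKK t ht ht1
  have s1 := g (1, 0) (by unfold sq; norm_num) (fun v => by
    unfold dot
    have := (le_abs_self v.1).trans (n1 v)
    simpa using this)
  have s2 := g (-1, 0) (by unfold sq; norm_num) (fun v => by
    unfold dot
    have := (neg_le_abs v.1).trans (n1 v)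
    simpa using this)
  have s3 := g (0, 1) (by unfold sq; norm_num) (fun v => by
    unfold dot
    have := (le_abs_self v.2).trans (n2 v)
    simpa using this)
  have s4 := g (0, -1) (by unfold sq; norm_num) (fun v => by
    unfold dot
    have := (neg_le_abs v.2).trans (n2 v)
    simpa using this)
  have hB := meas_far V (a + 2 * t + d)
  have iF := (int_fs S s (cev S h t c)).1
  have im : ∀ e : P, Integrable (fun q => mv V e a d t q * ‖fs S s (cev S h t c) q‖ ^ 2) :=
    fun e => iF.bdd_mul (c := 1)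
      (((mv_continuous V e a d).1.comp (Continuous.prodMk_right t)).aestronglyMeasurable)
      (Eventually.of_forall fun q => by
        rw [Real.norm_eq_abs, abs_of_nonneg (mv_mem V e a d t q).1]
        exact (mv_mem V e a d t q).2)
  have hsum : ∫ q in {q : P | a + 2 * t + d ≤ dist q V}, ‖fs S s (cev S h t c) q‖ ^ 2 ≤
      ∫ q, (mv V (1, 0) a d t q * ‖fs S s (cev S h t c) q‖ ^ 2 +
        mv V (-1, 0) a d t q * ‖fs S s (cev S h t c) q‖ ^ 2 +
        (mv V (0, 1) a d t q * ‖fs S s (cev S h t c) q‖ ^ 2 +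
        mv V (0, -1) a d t q * ‖fs S s (cev S h t c) q‖ ^ 2)) := by
    rw [← integral_indicator hB]
    refine integral_mono (iF.indicator hB) (((im _).add (im _)).add ((im _).add (im _)))
      fun q => ?_
    have p1 := mv_mem V (1, 0) a d t q
    have p2 := mv_mem V (-1, 0) a d t q
    have p3 := mv_mem V (0, 1) a d t q
    have p4 := mv_mem V (0, -1) a d t q
    simp only
    rw [← add_mul, ← add_mul, ← add_mul]
    by_cases hq : q ∈ {q : P | a + 2 * t + d ≤ dist q V}
    · rw [indicator_of_mem hq]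
      have hq' : a + 2 * t + d ≤ max |q.1 - V.1| |q.2 - V.2| := hq
      have hone : 1 ≤ mv V (1, 0) a d t q + mv V (-1, 0) a d t q +
          (mv V (0, 1) a d t q + mv V (0, -1) a d t q) := by
        rcases le_max_iff.1 hq' with h1 | h1
        · rcases le_abs.1 h1 with h2 | h2
          · have := mv_one hd (V := V) (e := ((1 : ℝ), (0 : ℝ))) (a := a) (t := t) (q := q)
              (by unfold dot; simpa using h2)
            linarith [p2.1, p3.1, p4.1]
          · have := mv_one hd (V := V) (e := ((-1 : ℝ), (0 : ℝ))) (a := a) (t := t) (q := q)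
              (by unfold dot; simpa using h2)
            linarith [p1.1, p3.1, p4.1]
        · rcases le_abs.1 h1 with h2 | h2
          · have := mv_one hd (V := V) (e := ((0 : ℝ), (1 : ℝ))) (a := a) (t := t) (q := q)
              (by unfold dot; simpa using h2)
            linarith [p1.1, p2.1, p4.1]
          · have := mv_one hd (V := V) (e := ((0 : ℝ), (-1 : ℝ))) (a := a) (t := t) (q := q)
              (by unfold dot; simpa using h2)
            linarith [p1.1, p2.1, p3.1]
      exact le_mul_of_one_le_left (sq_nonneg _) hone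
    · rw [indicator_of_notMem hq]
      have : 0 ≤ mv V (1, 0) a d t q + mv V (-1, 0) a d t q +
          (mv V (0, 1) a d t q + mv V (0, -1) a d t q) := by
        linarith [p1.1, p2.1, p3.1, p4.1]
      exact mul_nonneg this (sq_nonneg _)
  refine hsum.trans ?_
  rw [int4 (im _) (im _) (im _) (im _)]
  have e1 : 2 * C₁ / d * t₁ * (K + h ^ 2 * nsq s c) =
      4 * (C₁ / (2 * d) * t₁ * (K + h ^ 2 * nsq s c)) := by
    field_simp
    ring
  rw [e1]
  linarith

end

end Pool.Agent.MP4eed4eR.E
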