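import Pool.Agent.Lib.MP_4eed4e_an_RE.EStat

/-!
MP_4eed4e_an, project R, block E, module EFold: derivatives of folded functions and integration by
parts (E4, first part).

PROOFS.
* `D1_foldF`, `D2_foldF`: the derivative of `q ↦ F (2 a - q.1, q.2)` along `(1, 0)` is
  `- D1 F (2 a - q.1, q.2)` and along `(0, 1)` it is `D2 F (2 a - q.1, q.2)`, and so on
  (`HasFDerivAt.comp` with the affine map, or one variable functions via `HasLineDerivAt`).
* `foldF_mul1`: if `w₁.2 ≠ 0` then `w₁.1 = v`, and `(2 v - q.1) - v = - (q.1 - v)`.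
* `foldF_smooth`: compositions of smooth functions; the support of each term is the image of a
  compact set.
* `ibp`: for a smooth function `Φ` with compact support apply `h10_parts` to its real and imaginary
  parts (they are `Cut`: continuous functions with compact support are bounded) and to the real and
  the imaginary part of `w`; `D1 Φ = d1 (re Φ) + i d1 (im Φ)`.
* `key1`: `∫ conj Φ (X₁ w + i t h w₁) = ∫ conj (X₁ Φ) w - i t h ∫ conj (D1 Φ) w`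
  `= ∫ conj (X₁ Φ + i t h D1 Φ) w` (`ibp`) for `Φ = foldF 1 (-1) ..`; then `D1_foldF` and
  `foldF_mul1`. The integrals are over the plane; `w = 0` and `w₁ = 0` a.e. off `D` (`CH.zero`).
-/

namespace Pool.Agent.MP4eed4eR.E

open MeasureTheory Set Filter Topology Metric
open scoped ComplexConjugate ContDiff

noncomputable section

variable {D : Set P}

private theorem EFold_aff {F : P → ℂ} (hF : ContDiff ℝ ∞ F) (a α b β : ℝ) (q : P) :
    DifferentiableAt ℝ (fun q : P => F (a + α * q.1, b + β * q.2)) q ∧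
    D1 (fun q : P => F (a + α * q.1, b + β * q.2)) q =
      (α : ℂ) * D1 F (a + α * q.1, b + β * q.2) ∧
    D2 (fun q : P => F (a + α * q.1, b + β * q.2)) q =
      (β : ℂ) * D2 F (a + α * q.1, b + β * q.2) := by
  have h1 : HasFDerivAt (fun q : P => ((a + α * q.1, b + β * q.2) : P))
      ((α • ContinuousLinearMap.fst ℝ ℝ ℝ).prod (β • ContinuousLinearMap.snd ℝ ℝ ℝ)) q := by
    refine HasFDerivAt.prodMk ?_ ?_
    · exact (hasFDerivAt_fst.const_mul α).const_add a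
    · exact (hasFDerivAt_snd.const_mul β).const_add b
  have h2 : HasFDerivAt F (fderiv ℝ F (a + α * q.1, b + β * q.2))
      (a + α * q.1, b + β * q.2) :=
    ((hF.differentiable (by simp)) _).hasFDerivAt
  have h3 := h2.comp q h1
  have h4 : HasFDerivAt (fun q : P => F (a + α * q.1, b + β * q.2)) _ q := h3
  refine ⟨h4.differentiableAt, ?_, ?_⟩
  · unfold D1
    rw [h4.fderiv]
    have e : ((α • ContinuousLinearMap.fst ℝ ℝ ℝ).prod (β • ContinuousLinearMap.snd ℝ ℝ ℝ))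
        ((1, 0) : P) = α • ((1, 0) : P) := by
      ext <;> simp
    rw [ContinuousLinearMap.comp_apply, e, map_smul, Complex.real_smul]
  · unfold D2
    rw [h4.fderiv]
    have e : ((α • ContinuousLinearMap.fst ℝ ℝ ℝ).prod (β • ContinuousLinearMap.snd ℝ ℝ ℝ))
        ((0, 1) : P) = β • ((0, 1) : P) := by
      ext <;> simp
    rw [ContinuousLinearMap.comp_apply, e, map_smul, Complex.real_smul]

private theorem EFold_lin {f₀ f₁ f₂ f₃ : P → ℂ} (c₁ c₂ c₃ : ℂ) {q : P}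
    (h₀ : DifferentiableAt ℝ f₀ q) (h₁ : DifferentiableAt ℝ f₁ q)
    (h₂ : DifferentiableAt ℝ f₂ q) (h₃ : DifferentiableAt ℝ f₃ q) :
    D1 (fun q => f₀ q + c₁ * f₁ q + c₂ * f₂ q + c₃ * f₃ q) q =
      D1 f₀ q + c₁ * D1 f₁ q + c₂ * D1 f₂ q + c₃ * D1 f₃ q ∧
    D2 (fun q => f₀ q + c₁ * f₁ q + c₂ * f₂ q + c₃ * f₃ q) q =
      D2 f₀ q + c₁ * D2 f₁ q + c₂ * D2 f₂ q + c₃ * D2 f₃ q := by
  have h := ((h₀.hasFDerivAt.fun_add (h₁.hasFDerivAt.const_mul c₁)).fun_add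
    (h₂.hasFDerivAt.const_mul c₂)).fun_add (h₃.hasFDerivAt.const_mul c₃)
  unfold D1 D2
  rw [h.fderiv]
  simp

private theorem EFold_eq (e₁ e₂ : ℝ) (w₁ w₂ : ℝ × ℝ) (F : P → ℂ) (q : P) :
    foldF e₁ e₂ w₁ w₂ F q = F q +
      ((e₁ * w₁.2 ^ 2 : ℝ) : ℂ) * F (2 * w₁.1 + (-1) * q.1, 0 + 1 * q.2) +
      ((e₂ * w₂.2 ^ 2 : ℝ) : ℂ) * F (0 + 1 * q.1, 2 * w₂.1 + (-1) * q.2) +
      ((e₁ * e₂ * (w₁.2 ^ 2 * w₂.2 ^ 2) : ℝ) : ℂ) *
        F (2 * w₁.1 + (-1) * q.1, 2 * w₂.1 + (-1) * q.2) := by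
  unfold foldF
  simp only [zero_add, one_mul, neg_mul, ← sub_eq_add_neg]

private theorem EFold_D (e₁ e₂ : ℝ) (w₁ w₂ : ℝ × ℝ) {F : P → ℂ} (hF : ContDiff ℝ ∞ F) (q : P) :
    D1 (foldF e₁ e₂ w₁ w₂ F) q = foldF (-e₁) e₂ w₁ w₂ (D1 F) q ∧
    D2 (foldF e₁ e₂ w₁ w₂ F) q = foldF e₁ (-e₂) w₁ w₂ (D2 F) q := by
  have e : foldF e₁ e₂ w₁ w₂ F = fun q => F q +
      ((e₁ * w₁.2 ^ 2 : ℝ) : ℂ) * F (2 * w₁.1 + (-1) * q.1, 0 + 1 * q.2) +
      ((e₂ * w₂.2 ^ 2 : ℝ) : ℂ) * F (0 + 1 * q.1, 2 * w₂.1 + (-1) * q.2) +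
      ((e₁ * e₂ * (w₁.2 ^ 2 * w₂.2 ^ 2) : ℝ) : ℂ) *
        F (2 * w₁.1 + (-1) * q.1, 2 * w₂.1 + (-1) * q.2) :=
    funext fun q => EFold_eq e₁ e₂ w₁ w₂ F q
  obtain ⟨a1, a2, a3⟩ := EFold_aff hF (2 * w₁.1) (-1) 0 1 q
  obtain ⟨b1, b2, b3⟩ := EFold_aff hF 0 1 (2 * w₂.1) (-1) q
  obtain ⟨c1, c2, c3⟩ := EFold_aff hF (2 * w₁.1) (-1) (2 * w₂.1) (-1) q
  have hl := EFold_lin ((e₁ * w₁.2 ^ 2 : ℝ) : ℂ) ((e₂ * w₂.2 ^ 2 : ℝ) : ℂ)
    ((e₁ * e₂ * (w₁.2 ^ 2 * w₂.2 ^ 2) : ℝ) : ℂ) ((hF.differentiable (by simp)) q) a1 b1 c1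
  constructor
  · rw [e, hl.1, a2, b2, c2, EFold_eq]
    push_cast
    ring
  · rw [e, hl.2, a3, b3, c3, EFold_eq]
    push_cast
    ring

theorem D1_foldF (e₁ e₂ : ℝ) (w₁ w₂ : ℝ × ℝ) {F : P → ℂ} (hF : ContDiff ℝ ∞ F) (q : P) :
    D1 (foldF e₁ e₂ w₁ w₂ F) q = foldF (-e₁) e₂ w₁ w₂ (D1 F) q :=
  (EFold_D e₁ e₂ w₁ w₂ hF q).1

theorem D2_foldF (e₁ e₂ : ℝ) (w₁ w₂ : ℝ × ℝ) {F : P → ℂ} (hF : ContDiff ℝ ∞ F) (q : P) :
    D2 (foldF e₁ e₂ w₁ w₂ F) q = foldF e₁ (-e₂) w₁ w₂ (D2 F) q :=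
  (EFold_D e₁ e₂ w₁ w₂ hF q).2

theorem foldF_mul1 (e₁ e₂ : ℝ) {w₁ w₂ : ℝ × ℝ} {v : ℝ} (h : w₁.2 ≠ 0 → w₁.1 = v) (F : P → ℂ)
    (q : P) : ((q.1 - v : ℝ) : ℂ) * foldF e₁ e₂ w₁ w₂ F q =
      foldF (-e₁) e₂ w₁ w₂ (fun y => ((y.1 - v : ℝ) : ℂ) * F y) q := by
  unfold foldF
  by_cases h0 : w₁.2 = 0
  · simp only [h0]
    push_cast
    ring
  · rw [h h0]
    push_cast
    ring

theorem foldF_mul2 (e₁ e₂ : ℝ) {w₁ w₂ : ℝ × ℝ} {v : ℝ} (h : w₂.2 ≠ 0 → w₂.1 = v) (F : P → ℂ)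
    (q : P) : ((q.2 - v : ℝ) : ℂ) * foldF e₁ e₂ w₁ w₂ F q =
      foldF e₁ (-e₂) w₁ w₂ (fun y => ((y.2 - v : ℝ) : ℂ) * F y) q := by
  unfold foldF
  by_cases h0 : w₂.2 = 0
  · simp only [h0]
    push_cast
    ring
  · rw [h h0]
    push_cast
    ring

private theorem EFold_cpt {F : P → ℂ} (hF : ContDiff ℝ ∞ F) (hc : HasCompactSupport F)
    (a b : ℝ) : (ContDiff ℝ ∞ (fun q : P => F (a - q.1, q.2)) ∧
      HasCompactSupport (fun q : P => F (a - q.1, q.2))) ∧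
      (ContDiff ℝ ∞ (fun q : P => F (q.1, b - q.2)) ∧
      HasCompactSupport (fun q : P => F (q.1, b - q.2))) ∧
      (ContDiff ℝ ∞ (fun q : P => F (a - q.1, b - q.2)) ∧
      HasCompactSupport (fun q : P => F (a - q.1, b - q.2))) := by
  refine ⟨⟨?_, ?_⟩, ⟨?_, ?_⟩, ?_, ?_⟩
  · exact hF.comp ((contDiff_const.sub contDiff_fst).prodMk contDiff_snd)
  · exact hc.comp_homeomorph ((Homeomorph.subLeft a).prodCongr (Homeomorph.refl ℝ))
  · exact hF.comp (contDiff_fst.prodMk (contDiff_const.sub contDiff_snd))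
  · exact hc.comp_homeomorph ((Homeomorph.refl ℝ).prodCongr (Homeomorph.subLeft b))
  · exact hF.comp ((contDiff_const.sub contDiff_fst).prodMk (contDiff_const.sub contDiff_snd))
  · exact hc.comp_homeomorph ((Homeomorph.subLeft a).prodCongr (Homeomorph.subLeft b))

theorem foldF_smooth (e₁ e₂ : ℝ) (w₁ w₂ : ℝ × ℝ) {F : P → ℂ} (hF : ContDiff ℝ ∞ F)
    (hc : HasCompactSupport F) :
    ContDiff ℝ ∞ (foldF e₁ e₂ w₁ w₂ F) ∧ HasCompactSupport (foldF e₁ e₂ w₁ w₂ F) := by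
  obtain ⟨⟨a1, a2⟩, ⟨b1, b2⟩, c1, c2⟩ := EFold_cpt hF hc (2 * w₁.1) (2 * w₂.1)
  constructor
  · exact ((hF.add (contDiff_const.mul a1)).add (contDiff_const.mul b1)).add
      (contDiff_const.mul c1)
  · exact ((hc.add a2.mul_left).add b2.mul_left).add c2.mul_left

/-! ### Integration by parts -/

private theorem EFold_re {Φ : P → ℂ} (hΦ : ContDiff ℝ ∞ Φ) (q : P) :
    (d1 (fun q => (Φ q).re) q = (D1 Φ q).re ∧ d2 (fun q => (Φ q).re) q = (D2 Φ q).re) ∧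
    (d1 (fun q => (Φ q).im) q = (D1 Φ q).im ∧ d2 (fun q => (Φ q).im) q = (D2 Φ q).im) := by
  have h : HasFDerivAt Φ (fderiv ℝ Φ q) q := ((hΦ.differentiable (by simp)) q).hasFDerivAt
  have h1 : HasFDerivAt (fun q => (Φ q).re) (Complex.reCLM.comp (fderiv ℝ Φ q)) q :=
    Complex.reCLM.hasFDerivAt.comp q h
  have h2 : HasFDerivAt (fun q => (Φ q).im) (Complex.imCLM.comp (fderiv ℝ Φ q)) q :=
    Complex.imCLM.hasFDerivAt.comp q h
  unfold d1 d2 D1 D2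
  rw [h1.fderiv, h2.fderiv]
  exact ⟨⟨rfl, rfl⟩, rfl, rfl⟩

private theorem EFold_d {φ : P → ℝ} (hφ : ContDiff ℝ ∞ φ) (hc : HasCompactSupport φ) :
    (ContDiff ℝ ∞ (d1 φ) ∧ HasCompactSupport (d1 φ)) ∧
      (ContDiff ℝ ∞ (d2 φ) ∧ HasCompactSupport (d2 φ)) := by
  refine ⟨⟨?_, ?_⟩, ?_, ?_⟩
  · exact (hφ.fderiv_right (m := ∞) (by simp)).clm_apply contDiff_const
  · exact hc.fderiv_apply (𝕜 := ℝ) (1, 0)
  · exact (hφ.fderiv_right (m := ∞) (by simp)).clm_apply contDiff_const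
  · exact hc.fderiv_apply (𝕜 := ℝ) (0, 1)

private theorem EFold_cut {φ : P → ℝ} (hφ : ContDiff ℝ ∞ φ) (hc : HasCompactSupport φ) :
    Cut φ := by
  obtain ⟨⟨s1, k1⟩, s2, k2⟩ := EFold_d hφ hc
  obtain ⟨⟨s11, k11⟩, -⟩ := EFold_d s1 k1
  obtain ⟨-, s22, k22⟩ := EFold_d s2 k2
  obtain ⟨C0, h0⟩ := hc.exists_bound_of_continuous hφ.continuous
  obtain ⟨C1, h1⟩ := k1.exists_bound_of_continuous s1.continuous
  obtain ⟨C2, h2⟩ := k2.exists_bound_of_continuous s2.continuous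
  obtain ⟨C3, h3⟩ := (k11.add k22).exists_bound_of_continuous (s11.continuous.add s22.continuous)
  refine ⟨hφ, max (max C0 C1) (max C2 C3), fun q => ⟨?_, ?_, ?_, ?_⟩⟩
  · exact (h0 q).trans ((le_max_left _ _).trans (le_max_left _ _))
  · exact (h1 q).trans ((le_max_right _ _).trans (le_max_left _ _))
  · exact (h2 q).trans ((le_max_left _ _).trans (le_max_right _ _))
  · exact (h3 q).trans ((le_max_right _ _).trans (le_max_right _ _))

private theorem EFold_parts {Φ : P → ℂ} (hΦ : ContDiff ℝ ∞ Φ) (hc : HasCompactSupport Φ) :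
    (ContDiff ℝ ∞ (fun q => (Φ q).re) ∧ HasCompactSupport (fun q => (Φ q).re)) ∧
      (ContDiff ℝ ∞ (fun q => (Φ q).im) ∧ HasCompactSupport (fun q => (Φ q).im)) :=
  ⟨⟨Complex.reCLM.contDiff.comp hΦ, hc.comp_left (g := Complex.re) rfl⟩,
    Complex.imCLM.contDiff.comp hΦ, hc.comp_left (g := Complex.im) rfl⟩

private theorem EFold_split {Φ w : P → ℂ} (h1 : MemLp (fun q => (Φ q).re) 2 volume)
    (h2 : MemLp (fun q => (Φ q).im) 2 volume) (h3 : MemLp (fun q => (w q).re) 2 volume)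
    (h4 : MemLp (fun q => (w q).im) 2 volume) :
    ∫ q, conj (Φ q) * w q =
      (((∫ q, (Φ q).re * (w q).re) + ∫ q, (Φ q).im * (w q).im : ℝ) : ℂ) +
      Complex.I * (((∫ q, (Φ q).re * (w q).im) - ∫ q, (Φ q).im * (w q).re : ℝ) : ℂ) := by
  have i1 : Integrable (fun q => (Φ q).re * (w q).re) volume := h1.integrable_mul h3
  have i2 : Integrable (fun q => (Φ q).im * (w q).im) volume := h2.integrable_mul h4
  have i3 : Integrable (fun q => (Φ q).re * (w q).im) volume := h1.integrable_mul h4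
  have i4 : Integrable (fun q => (Φ q).im * (w q).re) volume := h2.integrable_mul h3
  have e : ∀ q, conj (Φ q) * w q = (((Φ q).re * (w q).re + (Φ q).im * (w q).im : ℝ) : ℂ) +
      Complex.I * (((Φ q).re * (w q).im - (Φ q).im * (w q).re : ℝ) : ℂ) := by
    intro q
    apply Complex.ext
    · simp
    · simp
      ring
  simp only [e]
  rw [integral_add (i1.add i2).ofReal ((i3.sub i4).ofReal.const_mul _), integral_const_mul,
    integral_complex_ofReal, integral_complex_ofReal, integral_add i1 i2, integral_sub i3 i4]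

theorem ibp (hb : Bornology.IsBounded D) {Φ w w₁ w₂ : P → ℂ} (hΦ : ContDiff ℝ ∞ Φ)
    (hc : HasCompactSupport Φ) (hw : CH D w w₁ w₂) :
    ∫ q, conj (Φ q) * w₁ q = -∫ q, conj (D1 Φ q) * w q ∧
      ∫ q, conj (Φ q) * w₂ q = -∫ q, conj (D2 Φ q) * w q := by
  obtain ⟨⟨r1, r2⟩, m1, m2⟩ := EFold_parts hΦ hc
  have Lr : MemLp (fun q => (Φ q).re) 2 volume := r1.continuous.memLp_of_hasCompactSupport r2
  have Li : MemLp (fun q => (Φ q).im) 2 volume := m1.continuous.memLp_of_hasCompactSupport m2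
  obtain ⟨⟨a1, a2⟩, a3, a4⟩ := EFold_d r1 r2
  obtain ⟨⟨b1, b2⟩, b3, b4⟩ := EFold_d m1 m2
  have ed := EFold_re hΦ
  have D1r : MemLp (fun q => (D1 Φ q).re) 2 volume := by
    have h := a1.continuous.memLp_of_hasCompactSupport (p := 2) (μ := volume) a2
    exact (memLp_congr_ae (Eventually.of_forall fun q => (ed q).1.1)).1 h
  have D2r : MemLp (fun q => (D2 Φ q).re) 2 volume := by
    have h := a3.continuous.memLp_of_hasCompactSupport (p := 2) (μ := volume) a4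
    exact (memLp_congr_ae (Eventually.of_forall fun q => (ed q).1.2)).1 h
  have D1i : MemLp (fun q => (D1 Φ q).im) 2 volume := by
    have h := b1.continuous.memLp_of_hasCompactSupport (p := 2) (μ := volume) b2
    exact (memLp_congr_ae (Eventually.of_forall fun q => (ed q).2.1)).1 h
  have D2i : MemLp (fun q => (D2 Φ q).im) 2 volume := by
    have h := b3.continuous.memLp_of_hasCompactSupport (p := 2) (μ := volume) b4
    exact (memLp_congr_ae (Eventually.of_forall fun q => (ed q).2.2)).1 h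
  have Cr := EFold_cut r1 r2
  have Ci := EFold_cut m1 m2
  have p1 := h10_parts Cr hw.re hb
  have p2 := h10_parts Cr hw.im hb
  have p3 := h10_parts Ci hw.re hb
  have p4 := h10_parts Ci hw.im hb
  simp only [(ed _).1.1, (ed _).1.2] at p1 p2
  simp only [(ed _).2.1, (ed _).2.2] at p3 p4
  constructor
  · rw [EFold_split Lr Li hw.re.mem₁ hw.im.mem₁, EFold_split D1r D1i hw.re.mem hw.im.mem,
      p1.1, p2.1, p3.1, p4.1]
    push_cast
    ring
  · rw [EFold_split Lr Li hw.re.mem₂ hw.im.mem₂, EFold_split D2r D2i hw.re.mem hw.im.mem,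
      p1.2, p2.2, p3.2, p4.2]
    push_cast
    ring

private theorem EFold_conj {Ψ : P → ℂ} (h : Continuous Ψ) (hc : HasCompactSupport Ψ) :
    MemLp (fun q => conj (Ψ q)) 2 volume := by
  refine Continuous.memLp_of_hasCompactSupport (Complex.continuous_conj.comp h) ?_
  exact hc.comp_left (g := conj) (map_zero _)

private theorem EFold_D12 {Φ : P → ℂ} (hΦ : ContDiff ℝ ∞ Φ) (hc : HasCompactSupport Φ) :
    (Continuous (D1 Φ) ∧ HasCompactSupport (D1 Φ)) ∧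
      (Continuous (D2 Φ) ∧ HasCompactSupport (D2 Φ)) := by
  have h : ContDiff ℝ ∞ (fun q => fderiv ℝ Φ q) := hΦ.fderiv_right (m := ∞) (by simp)
  refine ⟨⟨?_, ?_⟩, ?_, ?_⟩
  · exact (h.clm_apply contDiff_const).continuous
  · exact hc.fderiv_apply (𝕜 := ℝ) (1, 0)
  · exact (h.clm_apply contDiff_const).continuous
  · exact hc.fderiv_apply (𝕜 := ℝ) (0, 1)

/-- the common part of the two identities -/
private theorem EFold_key {Φ Ψ u u' X : P → ℂ} (hX : Continuous X)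
    (hXr : ∀ q, conj (X q) = X q) (hΦ : Continuous Φ) (hc : HasCompactSupport Φ)
    (hΨ : Continuous Ψ) (hc' : HasCompactSupport Ψ) (hu : MemLp u 2 volume)
    (hu' : MemLp u' 2 volume) (a : ℝ)
    (h : ∫ q, conj (Φ q) * u' q = -∫ q, conj (Ψ q) * u q) :
    ∫ q, conj (Φ q) * (X q * u q + Complex.I * (a : ℂ) * u' q) =
      ∫ q, conj (X q * Φ q + Complex.I * (a : ℂ) * Ψ q) * u q := by
  have hXΦ : MemLp (fun q => conj (X q * Φ q)) 2 volume :=
    EFold_conj (hX.mul hΦ) hc.mul_left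
  have i1 : Integrable (fun q => conj (X q * Φ q) * u q) volume := hXΦ.integrable_mul hu
  have i2 : Integrable (fun q => conj (Φ q) * u' q) volume :=
    (EFold_conj hΦ hc).integrable_mul hu'
  have i3 : Integrable (fun q => conj (Ψ q) * u q) volume :=
    (EFold_conj hΨ hc').integrable_mul hu
  have e1 : ∀ q, conj (Φ q) * (X q * u q + Complex.I * (a : ℂ) * u' q) =
      conj (X q * Φ q) * u q + Complex.I * (a : ℂ) * (conj (Φ q) * u' q) := by
    intro q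
    rw [map_mul, hXr]
    ring
  have e2 : ∀ q, conj (X q * Φ q + Complex.I * (a : ℂ) * Ψ q) * u q =
      conj (X q * Φ q) * u q + -(Complex.I * (a : ℂ)) * (conj (Ψ q) * u q) := by
    intro q
    rw [map_add, map_mul (starRingEnd ℂ) (Complex.I * (a : ℂ)), map_mul (starRingEnd ℂ)
      Complex.I, Complex.conj_I, Complex.conj_ofReal]
    ring
  simp only [e1, e2]
  rw [integral_add i1 (i2.const_mul _), integral_add i1 (i3.const_mul _), integral_const_mul,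
    integral_const_mul, h]
  ring

theorem key1 (hD : IsOpen D) (hb : Bornology.IsBounded D) {v : P} {w₁ w₂ : ℝ × ℝ}
    (h1 : w₁.2 ≠ 0 → w₁.1 = v.1) {F : P → ℂ} (hF : ContDiff ℝ ∞ F) (hc : HasCompactSupport F)
    {u u₁ u₂ : P → ℂ} (hu : CH D u u₁ u₂) (a : ℝ) :
    ∫ q in D, conj (foldF 1 (-1) w₁ w₂ F q) *
        (((q.1 - v.1 : ℝ) : ℂ) * u q + Complex.I * (a : ℂ) * u₁ q) =
      ∫ q in D, conj (foldF (-1) (-1) w₁ w₂ (fun y => ((y.1 - v.1 : ℝ) : ℂ) * F y +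
        Complex.I * (a : ℂ) * D1 F y) q) * u q := by
  obtain ⟨z0, z1, z2⟩ := hu.zero hD
  obtain ⟨m0, m1, m2⟩ := hu.memLp
  obtain ⟨hs, hk⟩ := foldF_smooth 1 (-1) w₁ w₂ hF hc
  obtain ⟨⟨k1, k2⟩, -⟩ := EFold_D12 hs hk
  rw [setIntegral_eq_integral_of_ae_compl_eq_zero (by
    filter_upwards [z0, z1] with q q0 q1 hq
    rw [q0 hq, q1 hq]
    ring), setIntegral_eq_integral_of_ae_compl_eq_zero (by
    filter_upwards [z0] with q q0 hq
    rw [q0 hq, mul_zero])]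
  rw [EFold_key (X := fun q => ((q.1 - v.1 : ℝ) : ℂ)) (by fun_prop)
    (fun q => Complex.conj_ofReal _) hs.continuous hk k1 k2 m0 m1 a (ibp hb hs hk hu).1]
  refine integral_congr_ae (Eventually.of_forall fun q => ?_)
  simp only
  rw [foldF_mul1 1 (-1) h1 F q, D1_foldF 1 (-1) w₁ w₂ hF q]
  congr 2
  unfold foldF
  ring

theorem key2 (hD : IsOpen D) (hb : Bornology.IsBounded D) {v : P} {w₁ w₂ : ℝ × ℝ}
    (h2 : w₂.2 ≠ 0 → w₂.1 = v.2) {F : P → ℂ} (hF : ContDiff ℝ ∞ F) (hc : HasCompactSupport F)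
    {u u₁ u₂ : P → ℂ} (hu : CH D u u₁ u₂) (a : ℝ) :
    ∫ q in D, conj (foldF (-1) 1 w₁ w₂ F q) *
        (((q.2 - v.2 : ℝ) : ℂ) * u q + Complex.I * (a : ℂ) * u₂ q) =
      ∫ q in D, conj (foldF (-1) (-1) w₁ w₂ (fun y => ((y.2 - v.2 : ℝ) : ℂ) * F y +
        Complex.I * (a : ℂ) * D2 F y) q) * u q := by
  obtain ⟨z0, z1, z2⟩ := hu.zero hD
  obtain ⟨m0, m1, m2⟩ := hu.memLp
  obtain ⟨hs, hk⟩ := foldF_smooth (-1) 1 w₁ w₂ hF hc
  obtain ⟨-, k1, k2⟩ := EFold_D12 hs hk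
  rw [setIntegral_eq_integral_of_ae_compl_eq_zero (by
    filter_upwards [z0, z2] with q q0 q1 hq
    rw [q0 hq, q1 hq]
    ring), setIntegral_eq_integral_of_ae_compl_eq_zero (by
    filter_upwards [z0] with q q0 hq
    rw [q0 hq, mul_zero])]
  rw [EFold_key (X := fun q => ((q.2 - v.2 : ℝ) : ℂ)) (by fun_prop)
    (fun q => Complex.conj_ofReal _) hs.continuous hk k1 k2 m0 m2 a (ibp hb hs hk hu).2]
  refine integral_congr_ae (Eventually.of_forall fun q => ?_)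
  simp only
  rw [foldF_mul2 (-1) 1 h2 F q, D2_foldF (-1) 1 w₁ w₂ hF q]
  congr 2
  unfold foldF
  ring

end

end Pool.Agent.MP4eed4eR.E
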