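import Pool.Agent.Lib.MP_4eed4e_an_R.D03
import Pool.Agent.Lib.MP_4eed4e_an_R.D06
import Pool.Agent.Lib.MP_4eed4e_an_RE.EDefs

/-!
MP_4eed4e_an, project R, block E, module EStat: the static identities for complex valued functions.

PROOFS. All statements follow from the real ones of OutD (`dom_sum`, `dom_mul`, `local_energy`,
`flux`, `dilation`, `weak_h10`) for the real and the imaginary parts. With `u = a + i b`,
`f = f_a + i f_b`: `Re (conj u f) = a f_a + b f_b`, `Im (conj u f) = a f_b - b f_a`,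
`‖u₁‖ ^ 2 = a₁ ^ 2 + b₁ ^ 2`. Integrability of the products comes from `MemLp _ 2`
(`MemLp.integrable_mul`, the weights are bounded and continuous); two integrals are added with
`integral_add`.
* `cdom_fs`: the real part of `∑ c k u_k` is `∑ (c k).re u_k` (`dom_sum`).
* `CDom.mul`: real and imaginary parts, `dom_mul`; the coefficient functions are real.
* `CDom.weak`: expand into four real identities (`weak_h10`).
-/

namespace Pool.Agent.MP4eed4eR.E

open MeasureTheory Set Filter Topology Metric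
open scoped ComplexConjugate ContDiff

noncomputable section

variable {D : Set P}

private theorem EStat_mem {u : P → ℂ} (h1 : MemLp (fun q => (u q).re) 2 volume)
    (h2 : MemLp (fun q => (u q).im) 2 volume) : MemLp u 2 volume :=
  memLp_re_im_iff.1 ⟨h1, h2⟩

private theorem EStat_cont {η : P → ℝ} (hη : Cut η) :
    Continuous η ∧ Continuous (d1 η) ∧ Continuous (d2 η) ∧ Continuous (lap η) := by
  have h0 : ContDiff ℝ ∞ η := hη.smooth
  have hd : ∀ f : P → ℝ, ContDiff ℝ ∞ f → ∀ v : P, ContDiff ℝ ∞ (fun q => fderiv ℝ f q v) := by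
    intro f hf v
    exact (hf.fderiv_right (m := ∞) (by simp)).clm_apply contDiff_const
  have h1 : ContDiff ℝ ∞ (d1 η) := hd η h0 (1, 0)
  have h2 : ContDiff ℝ ∞ (d2 η) := hd η h0 (0, 1)
  refine ⟨h0.continuous, h1.continuous, h2.continuous, ?_⟩
  exact ((hd _ h1 (1, 0)).continuous).add ((hd _ h2 (0, 1)).continuous)

private theorem EStat_int {w : P → ℝ} (hw : Continuous w) (hb : ∃ C, ∀ q, |w q| ≤ C)
    {a b : P → ℝ} (ha : MemLp a 2 volume) (hb' : MemLp b 2 volume) :
    Integrable (fun q => w q * (a q * b q)) := by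
  obtain ⟨C, hC⟩ := hb
  have h1 : Integrable (fun q => a q * b q) := ha.integrable_mul hb'
  exact h1.bdd_mul (c := C) hw.aestronglyMeasurable (Filter.Eventually.of_forall hC)

private theorem EStat_int1 {a b : P → ℝ} (ha : MemLp a 2 volume) (hb' : MemLp b 2 volume) :
    Integrable (fun q => a q * b q) := ha.integrable_mul hb'

theorem CDom.ch {u u₁ u₂ f : P → ℂ} (h : CDom D u u₁ u₂ f) : CH D u u₁ u₂ := by
  exact ⟨h.re.h10, h.im.h10⟩

theorem CH.memLp {u u₁ u₂ : P → ℂ} (h : CH D u u₁ u₂) :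
    MemLp u 2 volume ∧ MemLp u₁ 2 volume ∧ MemLp u₂ 2 volume := by
  exact ⟨EStat_mem h.re.mem h.im.mem, EStat_mem h.re.mem₁ h.im.mem₁, EStat_mem h.re.mem₂ h.im.mem₂⟩

theorem CDom.memLp_f {u u₁ u₂ f : P → ℂ} (h : CDom D u u₁ u₂ f) : MemLp f 2 volume := by
  exact EStat_mem h.re.mem h.im.mem

theorem CH.zero (hD : IsOpen D) {u u₁ u₂ : P → ℂ} (h : CH D u u₁ u₂) :
    (∀ᵐ q ∂volume, q ∉ D → u q = 0) ∧ (∀ᵐ q ∂volume, q ∉ D → u₁ q = 0) ∧
      ∀ᵐ q ∂volume, q ∉ D → u₂ q = 0 := by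
  obtain ⟨a1, a2, a3⟩ := h10_zero hD h.re
  obtain ⟨b1, b2, b3⟩ := h10_zero hD h.im
  refine ⟨?_, ?_, ?_⟩
  · filter_upwards [a1, b1] with q h1 h2 hq
    exact Complex.ext (h1 hq) (h2 hq)
  · filter_upwards [a2, b2] with q h1 h2 hq
    exact Complex.ext (h1 hq) (h2 hq)
  · filter_upwards [a3, b3] with q h1 h2 hq
    exact Complex.ext (h1 hq) (h2 hq)

theorem cdom_fs (S : Spec D) (s : Finset ℕ) (c : ℕ → ℂ) :
    CDom D (fs S s c) (fs1 S s c) (fs2 S s c) (fsL S s c) := by
  constructor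
  · have h := dom_sum S s (fun k => (c k).re)
    convert h using 1 <;> funext q <;>
      simp only [fs, fs1, fs2, fsL, Complex.re_sum, Complex.re_mul_ofReal]
  · have h := dom_sum S s (fun k => (c k).im)
    convert h using 1 <;> funext q <;>
      simp only [fs, fs1, fs2, fsL, Complex.im_sum, Complex.im_mul_ofReal]

theorem CDom.mul {η : P → ℝ} (hη : Cut η) {u u₁ u₂ f : P → ℂ} (h : CDom D u u₁ u₂ f) :
    CDom D (fun q => (η q : ℂ) * u q) (fun q => (η q : ℂ) * u₁ q + (d1 η q : ℂ) * u q)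
      (fun q => (η q : ℂ) * u₂ q + (d2 η q : ℂ) * u q)
      (fun q => (η q : ℂ) * f q - (2 * ((d1 η q : ℂ) * u₁ q + (d2 η q : ℂ) * u₂ q) +
        (lap η q : ℂ) * u q)) := by
  constructor
  · have h1 := dom_mul hη h.re
    convert h1 using 1 <;> funext q <;>
      simp only [Complex.add_re, Complex.sub_re, Complex.mul_re, Complex.ofReal_re,
        Complex.ofReal_im, Complex.re_ofNat, Complex.im_ofNat, Complex.add_im, Complex.mul_im] <;>
      ring
  · have h1 := dom_mul hη h.im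
    convert h1 using 1 <;> funext q <;>
      simp only [Complex.add_re, Complex.sub_im, Complex.mul_re, Complex.ofReal_re,
        Complex.ofReal_im, Complex.re_ofNat, Complex.im_ofNat, Complex.add_im, Complex.mul_im] <;>
      ring

/-- The local energy identity. -/
theorem CDom.energy {ζ : P → ℝ} (hζ : Cut ζ) {u u₁ u₂ f : P → ℂ} (h : CDom D u u₁ u₂ f)
    (hb : Bornology.IsBounded D) :
    ∫ q, ζ q * (‖u₁ q‖ ^ 2 + ‖u₂ q‖ ^ 2) =
      (∫ q, ζ q * (conj (u q) * f q).re) + 1 / 2 * ∫ q, lap ζ q * ‖u q‖ ^ 2 := by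
  obtain ⟨c1, -, -, c4⟩ := EStat_cont hζ
  obtain ⟨C, hC⟩ := hζ.bdd
  have b1 : ∃ C, ∀ q, |ζ q| ≤ C := ⟨C, fun q => (hC q).1⟩
  have b4 : ∃ C, ∀ q, |lap ζ q| ≤ C := ⟨C, fun q => (hC q).2.2.2⟩
  have e1 := local_energy hζ h.re hb
  have e2 := local_energy hζ h.im hb
  have m1 := h.re.h10
  have m2 := h.im.h10
  have f1 : ∫ q, ζ q * (‖u₁ q‖ ^ 2 + ‖u₂ q‖ ^ 2) =
      (∫ q, ζ q * ((u₁ q).re ^ 2 + (u₂ q).re ^ 2)) +
        ∫ q, ζ q * ((u₁ q).im ^ 2 + (u₂ q).im ^ 2) := by
    rw [← integral_add]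
    · refine integral_congr_ae (Filter.Eventually.of_forall (fun q => ?_))
      simp only [← Complex.normSq_eq_norm_sq, Complex.normSq_apply]
      ring
    · have := (EStat_int c1 b1 m1.mem₁ m1.mem₁).add (EStat_int c1 b1 m1.mem₂ m1.mem₂)
      refine this.congr (Filter.Eventually.of_forall (fun q => ?_))
      simp only [Pi.add_apply]
      ring
    · have := (EStat_int c1 b1 m2.mem₁ m2.mem₁).add (EStat_int c1 b1 m2.mem₂ m2.mem₂)
      refine this.congr (Filter.Eventually.of_forall (fun q => ?_))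
      simp only [Pi.add_apply]
      ring
  have f2 : ∫ q, ζ q * (conj (u q) * f q).re =
      (∫ q, ζ q * ((u q).re * (f q).re)) + ∫ q, ζ q * ((u q).im * (f q).im) := by
    rw [← integral_add (EStat_int c1 b1 m1.mem h.re.mem) (EStat_int c1 b1 m2.mem h.im.mem)]
    refine integral_congr_ae (Filter.Eventually.of_forall (fun q => ?_))
    simp only [Complex.mul_re, Complex.conj_re, Complex.conj_im]
    ring
  have f3 : ∫ q, lap ζ q * ‖u q‖ ^ 2 =
      (∫ q, lap ζ q * (u q).re ^ 2) + ∫ q, lap ζ q * (u q).im ^ 2 := by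
    rw [← integral_add]
    · refine integral_congr_ae (Filter.Eventually.of_forall (fun q => ?_))
      simp only [← Complex.normSq_eq_norm_sq, Complex.normSq_apply]
      ring
    · refine (EStat_int c4 b4 m1.mem m1.mem).congr (Filter.Eventually.of_forall (fun q => ?_))
      simp only
      ring
    · refine (EStat_int c4 b4 m2.mem m2.mem).congr (Filter.Eventually.of_forall (fun q => ?_))
      simp only
      ring
  rw [f1, f2, f3, e1, e2]
  ring

/-- The flux identity. -/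
theorem CDom.flux {ζ : P → ℝ} (hζ : Cut ζ) {u u₁ u₂ f : P → ℂ} (h : CDom D u u₁ u₂ f) :
    ∫ q, ζ q * (conj (u q) * f q).im =
      ∫ q, (conj (u q) * ((d1 ζ q : ℂ) * u₁ q + (d2 ζ q : ℂ) * u₂ q)).im := by
  have e := Pool.Agent.MP4eed4eR.flux hζ h.re h.im
  have l1 : ∀ q, ζ q * (conj (u q) * f q).im =
      ζ q * ((u q).re * (f q).im - (u q).im * (f q).re) := by
    intro q
    simp only [Complex.mul_im, Complex.conj_re, Complex.conj_im]
    ring
  have l2 : ∀ q, (conj (u q) * ((d1 ζ q : ℂ) * u₁ q + (d2 ζ q : ℂ) * u₂ q)).im =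
      (u q).re * (d1 ζ q * (u₁ q).im + d2 ζ q * (u₂ q).im) -
        (u q).im * (d1 ζ q * (u₁ q).re + d2 ζ q * (u₂ q).re) := by
    intro q
    simp only [Complex.mul_im, Complex.conj_re, Complex.conj_im, Complex.add_re, Complex.add_im,
      Complex.mul_re, Complex.ofReal_re, Complex.ofReal_im]
    ring
  simp only [l1, l2]
  exact e

/-- The dilation identity. -/
theorem CDom.dil (G : Geo D) {V : P} (hV : V ∈ G.V) {u u₁ u₂ f : P → ℂ}
    (h : CDom D u u₁ u₂ f) (hsu : ∀ q, 4 * G.rho0 ≤ dist q V → u q = 0 ∧ u₁ q = 0 ∧ u₂ q = 0)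
    (hsf : ∀ q, 4 * G.rho0 ≤ dist q V → f q = 0) :
    ∫ q, (conj (f q) * (((q.1 - V.1 : ℝ) : ℂ) * u₁ q + ((q.2 - V.2 : ℝ) : ℂ) * u₂ q)).re = 0 := by
  have e1 := dilation G hV h.re
    (fun q hq => ⟨by rw [(hsu q hq).1]; rfl, by rw [(hsu q hq).2.1]; rfl,
      by rw [(hsu q hq).2.2]; rfl⟩) (fun q hq => by rw [hsf q hq]; rfl)
  have e2 := dilation G hV h.im
    (fun q hq => ⟨by rw [(hsu q hq).1]; rfl, by rw [(hsu q hq).2.1]; rfl,
      by rw [(hsu q hq).2.2]; rfl⟩) (fun q hq => by rw [hsf q hq]; rfl)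
  have key : ∀ (a : P → ℝ) (X : P → ℝ), MemLp a 2 volume → Continuous X →
      (∀ q, 4 * G.rho0 ≤ dist q V → a q = 0) → (∀ q, |X q| ≤ dist q V) →
      MemLp (fun q => X q * a q) 2 volume := by
    intro a X ha hX h0 hXb
    refine MemLp.of_le_mul (g := a) (c := 4 * G.rho0) ha
      (hX.aestronglyMeasurable.mul ha.aestronglyMeasurable)
      (Filter.Eventually.of_forall (fun q => ?_))
    rw [Real.norm_eq_abs, Real.norm_eq_abs, abs_mul]
    by_cases hq : 4 * G.rho0 ≤ dist q V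
    · rw [h0 q hq]
      simp
    · push Not at hq
      exact mul_le_mul_of_nonneg_right ((hXb q).trans hq.le) (abs_nonneg _)
  have c1 : Continuous fun q : P => q.1 - V.1 := continuous_fst.sub continuous_const
  have c2 : Continuous fun q : P => q.2 - V.2 := continuous_snd.sub continuous_const
  have x1 : ∀ q : P, |q.1 - V.1| ≤ dist q V := fun q => by
    rw [Prod.dist_eq, ← Real.dist_eq]
    exact le_max_left _ _
  have x2 : ∀ q : P, |q.2 - V.2| ≤ dist q V := fun q => by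
    rw [Prod.dist_eq, ← Real.dist_eq]
    exact le_max_right _ _
  have r1 := key (fun q => (u₁ q).re) _ h.re.h10.mem₁ c1
    (fun q hq => by rw [(hsu q hq).2.1]; rfl) x1
  have r2 := key (fun q => (u₂ q).re) _ h.re.h10.mem₂ c2
    (fun q hq => by rw [(hsu q hq).2.2]; rfl) x2
  have s1 := key (fun q => (u₁ q).im) _ h.im.h10.mem₁ c1
    (fun q hq => by rw [(hsu q hq).2.1]; rfl) x1
  have s2 := key (fun q => (u₂ q).im) _ h.im.h10.mem₂ c2
    (fun q hq => by rw [(hsu q hq).2.2]; rfl) x2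
  have i1 : Integrable (fun q => (f q).re * ((q.1 - V.1) * (u₁ q).re + (q.2 - V.2) * (u₂ q).re)) :=
    EStat_int1 h.re.mem (r1.add r2)
  have i2 : Integrable (fun q => (f q).im * ((q.1 - V.1) * (u₁ q).im + (q.2 - V.2) * (u₂ q).im)) :=
    EStat_int1 h.im.mem (s1.add s2)
  have l : ∀ q, (conj (f q) * (((q.1 - V.1 : ℝ) : ℂ) * u₁ q +
      ((q.2 - V.2 : ℝ) : ℂ) * u₂ q)).re =
      (f q).re * ((q.1 - V.1) * (u₁ q).re + (q.2 - V.2) * (u₂ q).re) +
        (f q).im * ((q.1 - V.1) * (u₁ q).im + (q.2 - V.2) * (u₂ q).im) := by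
    intro q
    simp only [Complex.mul_im, Complex.conj_re, Complex.conj_im, Complex.add_re, Complex.add_im,
      Complex.mul_re, Complex.ofReal_re, Complex.ofReal_im]
    ring
  simp only [l]
  rw [integral_add i1 i2, e1, e2, add_zero]

/-- The weak equation with a test function in `H¹₀(D)`. -/
theorem CDom.weak {u u₁ u₂ f v v₁ v₂ : P → ℂ} (h : CDom D u u₁ u₂ f) (hv : CH D v v₁ v₂) :
    ∫ q, (conj (u₁ q) * v₁ q + conj (u₂ q) * v₂ q) = ∫ q, conj (f q) * v q := by
  have hu := h.ch.memLp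
  have hvm := hv.memLp
  have hc : ∀ {g : P → ℂ}, MemLp g 2 volume → MemLp (fun q => conj (g q)) 2 volume :=
    fun hg => hg.star
  have i1 : Integrable (fun q => conj (u₁ q) * v₁ q) := (hc hu.2.1).integrable_mul hvm.2.1
  have i2 : Integrable (fun q => conj (u₂ q) * v₂ q) := (hc hu.2.2).integrable_mul hvm.2.2
  have i3 : Integrable (fun q => conj (f q) * v q) := (hc h.memLp_f).integrable_mul hvm.1
  have i12 : Integrable (fun q => conj (u₁ q) * v₁ q + conj (u₂ q) * v₂ q) := i1.add i2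
  have w1 := weak_h10 h.re hv.re
  have w2 := weak_h10 h.re hv.im
  have w3 := weak_h10 h.im hv.re
  have w4 := weak_h10 h.im hv.im
  have hr := h.re.h10
  have hi := h.im.h10
  have k1 : ∀ {a b c d : P → ℝ}, MemLp a 2 volume → MemLp b 2 volume → MemLp c 2 volume →
      MemLp d 2 volume → Integrable (fun q => a q * b q + c q * d q) :=
    fun ha hb hc hd => (EStat_int1 ha hb).add (EStat_int1 hc hd)
  apply Complex.ext
  · have a1 := integral_re (𝕜 := ℂ) i12
    have a2 := integral_re (𝕜 := ℂ) i3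
    have a1' : (∫ q, (conj (u₁ q) * v₁ q + conj (u₂ q) * v₂ q)).re =
        ∫ q, (conj (u₁ q) * v₁ q + conj (u₂ q) * v₂ q).re := a1.symm
    have a2' : (∫ q, conj (f q) * v q).re = ∫ q, (conj (f q) * v q).re := a2.symm
    rw [a1', a2']
    have l1 : ∀ q, (conj (u₁ q) * v₁ q + conj (u₂ q) * v₂ q).re =
        ((u₁ q).re * (v₁ q).re + (u₂ q).re * (v₂ q).re) +
          ((u₁ q).im * (v₁ q).im + (u₂ q).im * (v₂ q).im) := by
      intro q
      simp only [Complex.mul_re, Complex.conj_re, Complex.conj_im, Complex.add_re]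
      ring
    have l2 : ∀ q, (conj (f q) * v q).re = (f q).re * (v q).re + (f q).im * (v q).im := by
      intro q
      simp only [Complex.mul_re, Complex.conj_re, Complex.conj_im]
      ring
    simp only [l1, l2]
    rw [integral_add (k1 hr.mem₁ hv.re.mem₁ hr.mem₂ hv.re.mem₂)
      (k1 hi.mem₁ hv.im.mem₁ hi.mem₂ hv.im.mem₂), w1, w4,
      integral_add (EStat_int1 h.re.mem hv.re.mem) (EStat_int1 h.im.mem hv.im.mem)]
  · have a1 := integral_im (𝕜 := ℂ) i12
    have a2 := integral_im (𝕜 := ℂ) i3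
    have a1' : (∫ q, (conj (u₁ q) * v₁ q + conj (u₂ q) * v₂ q)).im =
        ∫ q, (conj (u₁ q) * v₁ q + conj (u₂ q) * v₂ q).im := a1.symm
    have a2' : (∫ q, conj (f q) * v q).im = ∫ q, (conj (f q) * v q).im := a2.symm
    rw [a1', a2']
    have l1 : ∀ q, (conj (u₁ q) * v₁ q + conj (u₂ q) * v₂ q).im =
        ((u₁ q).re * (v₁ q).im + (u₂ q).re * (v₂ q).im) -
          ((u₁ q).im * (v₁ q).re + (u₂ q).im * (v₂ q).re) := by
      intro q
      simp only [Complex.mul_im, Complex.conj_re, Complex.conj_im, Complex.add_im]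
      ring
    have l2 : ∀ q, (conj (f q) * v q).im = (f q).re * (v q).im - (f q).im * (v q).re := by
      intro q
      simp only [Complex.mul_im, Complex.conj_re, Complex.conj_im]
      ring
    simp only [l1, l2]
    rw [integral_sub (k1 hr.mem₁ hv.im.mem₁ hr.mem₂ hv.im.mem₂)
      (k1 hi.mem₁ hv.re.mem₁ hi.mem₂ hv.re.mem₂), w2, w3,
      integral_sub (EStat_int1 h.re.mem hv.im.mem) (EStat_int1 h.im.mem hv.re.mem)]

end

end Pool.Agent.MP4eed4eR.E
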