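import Pool.Agent.Lib.MP_4eed4e_an_R.B03
import Pool.Agent.Lib.MP_4eed4e_an_R.C06
import Pool.Agent.Lib.MP_4eed4e_an_RE.EStat

/-!
MP_4eed4e_an, project R, block E, module ELoc: locality of `H - 1`, coefficients of functions in
the domain, finite partial sums.

PROOFS.
* `co_cls`: `S.co k (cls D f) = ∫ u_k f` (`inner` in `Lp` over `volume.restrict D`; `u_k = 0` a.e.
  off `D` by `h10_zero`).
* `co_cdom`: for `CDom D u u₁ u₂ f`: `∫ u_k f = ∫ ∇u_k · ∇u = λ_k ∫ u_k u` (`weak_h10` for the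
  real and imaginary parts of `u` with the test function `u_k`, and `weak_h10` for `u_k`
  (`dom_sum` with `s = {k}`, or `Spec.h10`, `Spec.weak`) with the test functions `re u`, `im u`).
* `loc_zero`: let `u = 0` a.e. on `O ∩ D`, `O` open, `co k w₁ = (h² λ_k - 1) co k u`. For a test
  function `φ` (`Test (O ∩ D) φ`) the functions `φ` and `-Δφ - ...` give `CDom D φ (d1 φ) (d2 φ)
  (-lap φ)` (integration by parts, `h10_parts`), so `co k (cls φ₁) = (h² λ_k - 1) co k (cls φ)`
  for `φ₁ = -h² lap φ - φ` (`co_cdom`), and by `parseval_inner` `⟨φ, w₁⟩ = ⟨φ₁, u⟩ = 0`, since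
  `φ₁` vanishes off `O ∩ D` and `u` vanishes on it. So `∫ φ w₁ = 0` for all test functions in `O ∩
  D`, hence `w₁ = 0` a.e. on `O ∩ D` (`ae_eq_zero_of_integral_contDiff_smul_eq_zero` for the open
  set `O ∩ D` ⊆ P; `w₁` is locally integrable).
* `partial_sum`: `S.op` with the indicator coefficients, or `parseval`: the tails of the convergent
  series `∑ ‖co k f‖²` tend to `0`; the class of `fs S (range n) (fun k => co k f)` is the
  orthogonal projection.
-/

namespace Pool.Agent.MP4eed4eR.E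

open MeasureTheory Set Filter Topology Metric
open scoped ComplexConjugate ContDiff

noncomputable section

variable {D : Set P}

private theorem ELoc_cls {f : P → ℂ} (hf : MemLp f 2 (volume.restrict D)) :
    cls D f = hf.toLp f := by
  rw [cls, dif_pos hf]

theorem cls_coe {f : P → ℂ} (hf : MemLp f 2 (volume.restrict D)) :
    (cls D f : P → ℂ) =ᵐ[volume.restrict D] f := by
  rw [ELoc_cls hf]
  exact hf.coeFn_toLp

private theorem ELoc_inner (f g : HD D) :
    (inner ℂ f g : ℂ) = ∫ q in D, conj ((f : P → ℂ) q) * (g : P → ℂ) q := by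
  rw [L2.inner_def]
  refine integral_congr_ae (Eventually.of_forall fun q => ?_)
  simp only [RCLike.inner_apply]
  exact mul_comm _ _

private theorem ELoc_inner_cls {f : P → ℂ} (hf : MemLp f 2 (volume.restrict D)) (g : HD D) :
    (inner ℂ (cls D f) g : ℂ) = ∫ q in D, conj (f q) * (g : P → ℂ) q := by
  rw [ELoc_inner]
  refine integral_congr_ae ?_
  filter_upwards [cls_coe hf] with q hq
  rw [hq]

theorem norm_cls_sq {f : P → ℂ} (hf : MemLp f 2 (volume.restrict D)) :
    ‖cls D f‖ ^ 2 = ∫ q in D, ‖f q‖ ^ 2 := by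
  have h1 : ((‖cls D f‖ ^ 2 : ℝ) : ℂ) = ((∫ q in D, ‖f q‖ ^ 2 : ℝ) : ℂ) := by
    have h2 : (inner ℂ (cls D f) (cls D f) : ℂ) = ((‖cls D f‖ ^ 2 : ℝ) : ℂ) := by
      rw [inner_self_eq_norm_sq_to_K]
      push_cast
      rfl
    rw [← h2, ELoc_inner, ← integral_complex_ofReal]
    refine integral_congr_ae ?_
    filter_upwards [cls_coe hf] with q hq
    rw [hq, Complex.conj_mul']
    push_cast
    rfl
  exact_mod_cast h1

theorem cls_sub {f g : P → ℂ} (hf : MemLp f 2 (volume.restrict D))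
    (hg : MemLp g 2 (volume.restrict D)) :
    cls D (fun q => f q - g q) = cls D f - cls D g := by
  rw [ELoc_cls hf, ELoc_cls hg]
  have h := ELoc_cls (hf.sub hg)
  exact h.trans (MemLp.toLp_sub hf hg)

private theorem ELoc_u (S : Spec D) (k : ℕ) : MemLp (fun q => (S.u k q : ℂ)) 2 volume :=
  (S.h10 k).mem.ofReal

private theorem ELoc_u_zero (S : Spec D) (k : ℕ) : ∀ᵐ q ∂volume, q ∉ D → S.u k q = 0 :=
  (h10_zero S.isOpen (S.h10 k)).1

private theorem ELoc_co (S : Spec D) (k : ℕ) (g : HD D) :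
    S.co k g = ∫ q in D, (S.u k q : ℂ) * (g : P → ℂ) q := by
  rw [Spec.co, Spec.e, ELoc_inner_cls ((ELoc_u S k).restrict D)]
  refine integral_congr_ae (Eventually.of_forall fun q => ?_)
  simp only [Complex.conj_ofReal]

/-- The coefficient of a class as an integral over the plane. -/
private theorem ELoc_co_cls (S : Spec D) (k : ℕ) {f : P → ℂ}
    (hf : MemLp f 2 (volume.restrict D)) :
    S.co k (cls D f) = ∫ q, (S.u k q : ℂ) * f q := by
  rw [ELoc_co]
  have h1 : ∫ q in D, (S.u k q : ℂ) * (cls D f : P → ℂ) q = ∫ q in D, (S.u k q : ℂ) * f q := by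
    refine integral_congr_ae ?_
    filter_upwards [cls_coe hf] with q hq
    rw [hq]
  rw [h1]
  refine setIntegral_eq_integral_of_ae_compl_eq_zero ?_
  filter_upwards [ELoc_u_zero S k] with q hq hqD
  rw [hq hqD]
  simp

private theorem ELoc_cls_zero : cls D (fun _ => 0) = 0 := by
  rw [ELoc_cls MemLp.zero']
  exact MemLp.toLp_zero _

private theorem ELoc_cls_add {f g : P → ℂ} (hf : MemLp f 2 (volume.restrict D))
    (hg : MemLp g 2 (volume.restrict D)) :
    cls D (fun q => f q + g q) = cls D f + cls D g := by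
  rw [ELoc_cls hf, ELoc_cls hg]
  have h := ELoc_cls (hf.add hg)
  exact h.trans (MemLp.toLp_add hf hg)

private theorem ELoc_cls_smul (c : ℂ) {f : P → ℂ} (hf : MemLp f 2 (volume.restrict D)) :
    cls D (fun q => c * f q) = c • cls D f := by
  rw [ELoc_cls hf]
  have h := ELoc_cls (hf.const_smul c)
  exact h.trans (MemLp.toLp_const_smul c hf)

private theorem ELoc_fs_mem (S : Spec D) (s : Finset ℕ) (c : ℕ → ℂ) :
    MemLp (fs S s c) 2 (volume.restrict D) :=
  (cdom_fs S s c).ch.memLp.1.restrict D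

/-- The class of a finite sum. -/
private theorem ELoc_fs (S : Spec D) (s : Finset ℕ) (c : ℕ → ℂ) :
    cls D (fs S s c) = ∑ k ∈ s, c k • S.e k := by
  classical
  induction s using Finset.induction_on with
  | empty =>
    rw [Finset.sum_empty]
    have h : fs S ∅ c = fun _ => 0 := by
      funext q
      simp [fs]
    rw [h]
    exact ELoc_cls_zero
  | insert a s ha ih =>
    rw [Finset.sum_insert ha, ← ih]
    have h : fs S (insert a s) c = fun q => c a * (S.u a q : ℂ) + fs S s c q := by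
      funext q
      simp only [fs]
      rw [Finset.sum_insert ha]
    have hm := (ELoc_u S a).restrict D
    rw [h, ELoc_cls_add (f := fun q => c a * (S.u a q : ℂ)) (hm.const_smul (c a))
      (ELoc_fs_mem S s c), ELoc_cls_smul (c a) hm]
    rfl

/-- The coefficients of the finite sums. -/
theorem co_fs (S : Spec D) (s : Finset ℕ) (c : ℕ → ℂ) (k : ℕ) :
    S.co k (cls D (fs S s c)) = if k ∈ s then c k else 0 := by
  rw [ELoc_fs, Spec.co, inner_sum]
  have h := orthonormal_iff_ite.1 (orthonormal_e S)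
  simp only [inner_smul_right, h, mul_ite, mul_one, mul_zero]
  rw [Finset.sum_ite_eq]

theorem co_cdom (S : Spec D) {u u₁ u₂ f : P → ℂ} (h : CDom D u u₁ u₂ f) (k : ℕ) :
    S.co k (cls D f) = (S.lam k : ℂ) * S.co k (cls D u) := by
  have hfs : fs S {k} (fun _ => 1) = fun q => (S.u k q : ℂ) := by
    funext q
    simp [fs]
  have hfL : fsL S {k} (fun _ => 1) = fun q => ((S.lam k * S.u k q : ℝ) : ℂ) := by
    funext q
    simp [fsL]
  have hk := cdom_fs S {k} (fun _ => 1)
  have h1 := h.weak hk.ch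
  have h2 := hk.weak h.ch
  rw [hfs] at h1
  rw [hfL] at h2
  have h3 := congrArg conj h1
  rw [← integral_conj, ← integral_conj] at h3
  have h4 : ∫ q, conj (conj (f q) * (S.u k q : ℂ)) = ∫ q, (S.u k q : ℂ) * f q := by
    refine integral_congr_ae (Eventually.of_forall fun q => ?_)
    simp only [map_mul, Complex.conj_conj, Complex.conj_ofReal]
    exact mul_comm _ _
  have h5 : ∫ q, conj (conj (u₁ q) * fs1 S {k} (fun _ => 1) q +
      conj (u₂ q) * fs2 S {k} (fun _ => 1) q) =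
      ∫ q, (conj (fs1 S {k} (fun _ => 1) q) * u₁ q + conj (fs2 S {k} (fun _ => 1) q) * u₂ q) := by
    refine integral_congr_ae (Eventually.of_forall fun q => ?_)
    simp only [map_add, map_mul, Complex.conj_conj]
    ring
  have h6 : ∫ q, conj ((S.lam k * S.u k q : ℝ) : ℂ) * u q =
      (S.lam k : ℂ) * ∫ q, (S.u k q : ℂ) * u q := by
    rw [← integral_const_mul]
    refine integral_congr_ae (Eventually.of_forall fun q => ?_)
    simp only [Complex.conj_ofReal]
    push_cast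
    ring
  rw [ELoc_co_cls S k (h.memLp_f.restrict D), ELoc_co_cls S k (h.ch.memLp.1.restrict D), ← h4,
    ← h3, h5, h2, h6]

private theorem ELoc_bdd {f : P → ℝ} (h : Continuous f) (hc : HasCompactSupport f) :
    ∃ C, ∀ q, |f q| ≤ C := h.bounded_above_of_compact_support hc

private theorem ELoc_d {f : P → ℝ} (h : ContDiff ℝ ∞ f) (hc : HasCompactSupport f) :
    (ContDiff ℝ ∞ (d1 f) ∧ HasCompactSupport (d1 f)) ∧
      (ContDiff ℝ ∞ (d2 f) ∧ HasCompactSupport (d2 f)) := by
  have h1 : ContDiff ℝ ∞ (fderiv ℝ f) := h.fderiv_right (by simp)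
  have c0 := hc.fderiv ℝ
  exact ⟨⟨h1.clm_apply contDiff_const,
    c0.comp_left (g := fun L : P →L[ℝ] ℝ => L ((1, 0) : P)) rfl⟩,
    ⟨h1.clm_apply contDiff_const,
    c0.comp_left (g := fun L : P →L[ℝ] ℝ => L ((0, 1) : P)) rfl⟩⟩

private theorem ELoc_lap {f : P → ℝ} (h : ContDiff ℝ ∞ f) (hc : HasCompactSupport f) :
    ContDiff ℝ ∞ (lap f) ∧ HasCompactSupport (lap f) := by
  obtain ⟨⟨a1, a2⟩, ⟨b1, b2⟩⟩ := ELoc_d h hc
  exact ⟨(ELoc_d a1 a2).1.1.add (ELoc_d b1 b2).2.1, (ELoc_d a1 a2).1.2.add (ELoc_d b1 b2).2.2⟩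

private theorem ELoc_cut {f : P → ℝ} (h : ContDiff ℝ ∞ f) (hc : HasCompactSupport f) :
    Cut f := by
  obtain ⟨⟨a1, a2⟩, ⟨b1, b2⟩⟩ := ELoc_d h hc
  obtain ⟨l1, l2⟩ := ELoc_lap h hc
  obtain ⟨C0, h0⟩ := ELoc_bdd h.continuous hc
  obtain ⟨C1, h1⟩ := ELoc_bdd a1.continuous a2
  obtain ⟨C2, h2⟩ := ELoc_bdd b1.continuous b2
  obtain ⟨C3, h3⟩ := ELoc_bdd l1.continuous l2
  refine ⟨h, max (max C0 C1) (max C2 C3), fun q => ⟨?_, ?_, ?_, ?_⟩⟩
  · exact (h0 q).trans ((le_max_left _ _).trans (le_max_left _ _))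
  · exact (h1 q).trans ((le_max_right _ _).trans (le_max_left _ _))
  · exact (h2 q).trans ((le_max_left _ _).trans (le_max_right _ _))
  · exact (h3 q).trans ((le_max_right _ _).trans (le_max_right _ _))

private theorem ELoc_h10 {φ : P → ℝ} (h : Test D φ) : H10 D φ (d1 φ) (d2 φ) := by
  obtain ⟨⟨a1, a2⟩, ⟨b1, b2⟩⟩ := ELoc_d h.smooth h.compact
  refine ⟨h.smooth.continuous.memLp_of_hasCompactSupport h.compact,
    a1.continuous.memLp_of_hasCompactSupport a2, b1.continuous.memLp_of_hasCompactSupport b2,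
    fun _ => φ, fun _ => h, ?_, ?_, ?_⟩ <;> simp

private theorem ELoc_dom (hb : Bornology.IsBounded D) {φ : P → ℝ} (h : Test D φ) :
    Dom D φ (d1 φ) (d2 φ) (fun q => -lap φ q) := by
  obtain ⟨⟨a1, a2⟩, ⟨b1, b2⟩⟩ := ELoc_d h.smooth h.compact
  obtain ⟨l1, l2⟩ := ELoc_lap h.smooth h.compact
  refine ⟨ELoc_h10 h, (l1.continuous.memLp_of_hasCompactSupport l2).neg, fun ψ hψ => ?_⟩
  have e1 := (h10_parts (ELoc_cut a1 a2) (ELoc_h10 hψ) hb).1
  have e2 := (h10_parts (ELoc_cut b1 b2) (ELoc_h10 hψ) hb).2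
  obtain ⟨⟨p1, p2⟩, ⟨q1, q2⟩⟩ := ELoc_d hψ.smooth hψ.compact
  have hm : ∀ {f : P → ℝ}, ContDiff ℝ ∞ f → HasCompactSupport f → MemLp f 2 volume :=
    fun hf hc => hf.continuous.memLp_of_hasCompactSupport hc
  have i1 : Integrable (fun q => d1 φ q * d1 ψ q) := (hm a1 a2).integrable_mul (hm p1 p2)
  have i2 : Integrable (fun q => d2 φ q * d2 ψ q) := (hm b1 b2).integrable_mul (hm q1 q2)
  have i3 : Integrable (fun q => d1 (d1 φ) q * ψ q) :=
    (hm (ELoc_d a1 a2).1.1 (ELoc_d a1 a2).1.2).integrable_mul (hm hψ.smooth hψ.compact)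
  have i4 : Integrable (fun q => d2 (d2 φ) q * ψ q) :=
    (hm (ELoc_d b1 b2).2.1 (ELoc_d b1 b2).2.2).integrable_mul (hm hψ.smooth hψ.compact)
  rw [integral_add i1 i2, e1, e2, ← neg_add, ← integral_add i3 i4, ← integral_neg]
  refine integral_congr_ae (Eventually.of_forall fun q => ?_)
  simp only [lap]
  ring

/-- The coefficients of `- h² Δ φ - φ`. -/
private theorem ELoc_co_test (S : Spec D) (hb : Bornology.IsBounded D) (h : ℝ) {φ : P → ℝ}
    (hφ : Test D φ) (k : ℕ) :
    S.co k (cls D (fun q => ((h ^ 2 * -lap φ q - φ q : ℝ) : ℂ))) =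
      ((h ^ 2 * S.lam k - 1 : ℝ) : ℂ) * S.co k (cls D (fun q => (φ q : ℂ))) := by
  have hd := ELoc_dom hb hφ
  have hz : Dom D (fun _ : P => (0 : ℝ)) (fun _ => 0) (fun _ => 0) (fun _ => 0) := by
    have h0 := dom_sum S ∅ (fun _ => 0)
    simpa using h0
  have hc : CDom D (fun q => (φ q : ℂ)) (fun q => (d1 φ q : ℂ)) (fun q => (d2 φ q : ℂ))
      (fun q => ((-lap φ q : ℝ) : ℂ)) := ⟨hd, hz⟩
  have h1 := co_cdom S hc k
  have m1 := hc.memLp_f.restrict D
  have m2 := hc.ch.memLp.1.restrict D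
  have e : (fun q => ((h ^ 2 * -lap φ q - φ q : ℝ) : ℂ)) =
      fun q => (h ^ 2 : ℂ) * ((-lap φ q : ℝ) : ℂ) - (φ q : ℂ) := by
    funext q
    push_cast
    rfl
  have m3 : MemLp (fun q => (h ^ 2 : ℂ) * ((-lap φ q : ℝ) : ℂ)) 2 (volume.restrict D) :=
    m1.const_smul (h ^ 2 : ℂ)
  rw [e, cls_sub m3 m2, ELoc_cls_smul (h ^ 2 : ℂ) m1, Spec.co, inner_sub_right,
    inner_smul_right]
  have e2 : ∀ g : HD D, inner ℂ (S.e k) g = S.co k g := fun g => rfl
  rw [e2, e2, h1]
  push_cast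
  ring

private theorem ELoc_supp {φ : P → ℝ} {U : Set P} (h : tsupport φ ⊆ U) {q : P} (hq : q ∉ U) :
    φ q = 0 ∧ lap φ q = 0 := by
  have h0 : q ∉ tsupport φ := fun hh => hq (h hh)
  have hU : (tsupport φ)ᶜ ∈ 𝓝 q := (isClosed_tsupport φ).isOpen_compl.mem_nhds h0
  have hd : ∀ x ∈ (tsupport φ)ᶜ, d1 φ x = 0 ∧ d2 φ x = 0 := by
    intro x hx
    have h2 : fderiv ℝ φ x = 0 := fderiv_of_notMem_tsupport ℝ hx
    constructor
    · rw [d1, h2]
      rfl
    · rw [d2, h2]
      rfl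
  have hd1 : d1 φ =ᶠ[𝓝 q] fun _ => 0 := by
    filter_upwards [hU] with x hx
    exact (hd x hx).1
  have hd2 : d2 φ =ᶠ[𝓝 q] fun _ => 0 := by
    filter_upwards [hU] with x hx
    exact (hd x hx).2
  refine ⟨image_eq_zero_of_notMem_tsupport h0, ?_⟩
  rw [lap, d1, d2, hd1.fderiv_eq, hd2.fderiv_eq, fderiv_const_apply]
  simp

theorem loc_zero (S : Spec D) (hb : Bornology.IsBounded D) {h : ℝ} {O : Set P} (hO : IsOpen O)
    {u w : HD D} (hw : ∀ k, S.co k w = ((h ^ 2 * S.lam k - 1 : ℝ) : ℂ) * S.co k u)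
    (hu : ∀ᵐ q ∂(volume.restrict D), q ∈ O → (u : P → ℂ) q = 0) :
    ∀ᵐ q ∂(volume.restrict D), q ∈ O → (w : P → ℂ) q = 0 := by
  have hDm : MeasurableSet D := S.isOpen.measurableSet
  have hUo : IsOpen (O ∩ D) := hO.inter S.isOpen
  have : IsFiniteMeasure (volume.restrict D) := ⟨by
    rw [Measure.restrict_apply_univ]
    exact hb.measure_lt_top⟩
  have hwm : MemLp (w : P → ℂ) 2 (volume.restrict D) := Lp.memLp w
  have hwi : Integrable (w : P → ℂ) (volume.restrict D) := hwm.integrable one_le_two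
  have key : ∀ g : P → ℝ, ContDiff ℝ ∞ g → HasCompactSupport g → tsupport g ⊆ O ∩ D →
      ∫ q, g q • (w : P → ℂ) q ∂(volume.restrict D) = 0 := by
    intro φ hφ hφc hφs
    have hT : Test D φ := ⟨hφ, hφc, hφs.trans inter_subset_right⟩
    have hm : MemLp (fun q => (φ q : ℂ)) 2 (volume.restrict D) :=
      ((hφ.continuous.memLp_of_hasCompactSupport hφc).ofReal).restrict D
    obtain ⟨l1, l2⟩ := ELoc_lap hφ hφc
    have hm1 : MemLp (fun q => ((h ^ 2 * -lap φ q - φ q : ℝ) : ℂ)) 2 (volume.restrict D) := by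
      have a1 : MemLp (fun q => h ^ 2 * -lap φ q - φ q) 2 (volume : Measure P) :=
        ((l1.continuous.memLp_of_hasCompactSupport l2).neg.const_mul (h ^ 2)).sub
          (hφ.continuous.memLp_of_hasCompactSupport hφc)
      exact a1.ofReal.restrict D
    have h1 := parseval_inner S (cls D (fun q => (φ q : ℂ))) w
    have h2 := parseval_inner S (cls D (fun q => ((h ^ 2 * -lap φ q - φ q : ℝ) : ℂ))) u
    have h3 : (fun k => conj (S.co k (cls D (fun q => (φ q : ℂ)))) * S.co k w) =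
        fun k => conj (S.co k (cls D (fun q => ((h ^ 2 * -lap φ q - φ q : ℝ) : ℂ)))) *
          S.co k u := by
      funext k
      rw [ELoc_co_test S hb h hT k, hw k, map_mul, Complex.conj_ofReal]
      ring
    rw [h3] at h1
    have h4 := h1.unique h2
    rw [ELoc_inner_cls hm, ELoc_inner_cls hm1] at h4
    have h5 : ∫ q in D, conj ((h ^ 2 * -lap φ q - φ q : ℝ) : ℂ) * (u : P → ℂ) q = 0 := by
      refine integral_eq_zero_of_ae ?_
      filter_upwards [hu, ae_restrict_mem hDm] with q h6 h7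
      by_cases hq : q ∈ O
      · rw [h6 hq, mul_zero]
        rfl
      · obtain ⟨z1, z2⟩ := ELoc_supp hφs (fun hh => hq hh.1)
        rw [z1, z2]
        simp
    rw [h5] at h4
    rw [← h4]
    refine integral_congr_ae (Eventually.of_forall fun q => ?_)
    simp only [Complex.conj_ofReal, Complex.real_smul]
  have h8 := hUo.ae_eq_zero_of_integral_contDiff_smul_eq_zero
    (hwi.locallyIntegrable.locallyIntegrableOn _) key
  filter_upwards [h8, ae_restrict_mem hDm] with q h9 h10 h11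
  exact h9 ⟨h11, h10⟩

/-- The Hilbert basis of eigenfunctions. -/
private def ELoc_basis (S : Spec D) : HilbertBasis ℕ ℂ (HD D) :=
  HilbertBasis.mkOfOrthogonalEqBot (orthonormal_e S) (by
    rw [Submodule.eq_bot_iff]
    intro f hf
    refine ext_co S fun k => ?_
    have h1 : S.co k (0 : HD D) = 0 := inner_zero_right _
    rw [h1]
    exact Submodule.inner_right_of_mem_orthogonal
      (Submodule.subset_span (Set.mem_range_self k)) hf)

theorem partial_sum (S : Spec D) (f : HD D) :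
    Tendsto (fun n => cls D (fs S (Finset.range n) (fun k => S.co k f))) atTop (𝓝 f) := by
  have h1 := (ELoc_basis S).hasSum_repr f
  have h2 : ∀ k, (ELoc_basis S) k = S.e k := fun k => by
    rw [ELoc_basis, HilbertBasis.coe_mkOfOrthogonalEqBot]
  have h3 : (fun k => (ELoc_basis S).repr f k • (ELoc_basis S) k) =
      fun k => S.co k f • S.e k := by
    funext k
    rw [HilbertBasis.repr_apply_apply, h2]
    rfl
  rw [h3] at h1
  have h4 := h1.tendsto_sum_nat
  simp only [ELoc_fs]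
  exact h4

theorem U_fs (S : Spec D) (h t : ℝ) (s : Finset ℕ) (c : ℕ → ℂ) :
    S.U h t (cls D (fs S s c)) = cls D (fs S s (cev S h t c)) := by
  refine ext_co S fun k => ?_
  rw [co_U, co_fs, co_fs, mul_ite, mul_zero]
  rfl

end

end Pool.Agent.MP4eed4eR.E
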