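import Pool.Agent.Lib.MP_4eed4e_an_RE.EVir

/-!
MP_4eed4e_an, project R, block E, module ENear: little mass stays near the vertex (E3).

PROOF. `θ = th δ`, `h = hh δ`, `c_t = cev S h t₁ c`, `F, F1, F2` the finite sum and its gradient,
`F¹ = fs (ch1 c_t)`. For small `δ` one has `6 θ < G.rho0 / 2`, and for `dist q V ≤ 6 θ` one has
`W0 = F`, `W1 = F1`, `W2 = F2` (`Cm_zero`), so `t₁² h² (‖F1‖² + ‖F2‖²) ≤ 2 |X|² ‖F‖² + 2 Qd`
there, and `|X|² ≤ 72 θ²`; with `virial` and `∫ ‖F‖² ≤ 16`: `h² ∫ (‖F1‖² + ‖F2‖²)` over `{dist q V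
≤ 6 θ}` is at most `C θ² / t₁²`. `CDom.energy` for `ζ = cutV V (3 θ)`, times `h²` (`fsL_eq`,
`cev_ch1`): `∫ ζ ‖F‖² = h² ∫ ζ (‖F1‖² + ‖F2‖²) - ∫ ζ Re (conj F F¹) - (h² / 2) ∫ lap ζ ‖F‖²` `≤ C
θ² + 4 |C₀| θ + C (h² / θ²) ≤ C θ` (`cutV_bdd`, `h ≤ θ²`).
-/

namespace Pool.Agent.MP4eed4eR.E

open MeasureTheory Set Filter Topology Metric
open scoped ComplexConjugate ContDiff

noncomputable section

variable {D : Set P}

private theorem ENear_pt (x τ : ℝ) (F F1 : ℂ) :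
    τ ^ 2 * ‖F1‖ ^ 2 ≤ 2 * ‖(x : ℂ) * F + Complex.I * (τ : ℂ) * F1‖ ^ 2 + 2 * x ^ 2 * ‖F‖ ^ 2 := by
  have h1 : Complex.I * (τ : ℂ) * F1 = ((x : ℂ) * F + Complex.I * (τ : ℂ) * F1) - (x : ℂ) * F := by
    ring
  have h2 : |τ| * ‖F1‖ = ‖Complex.I * (τ : ℂ) * F1‖ := by
    rw [norm_mul, norm_mul, Complex.norm_I, Complex.norm_real, Real.norm_eq_abs, one_mul]
  have h3 : |τ| * ‖F1‖ ≤ ‖(x : ℂ) * F + Complex.I * (τ : ℂ) * F1‖ + |x| * ‖F‖ := by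
    rw [h2]
    conv_lhs => rw [h1]
    refine (norm_sub_le _ _).trans ?_
    rw [norm_mul (x : ℂ) F, Complex.norm_real, Real.norm_eq_abs]
  have h4 : (|τ| * ‖F1‖) ^ 2 ≤
      (‖(x : ℂ) * F + Complex.I * (τ : ℂ) * F1‖ + |x| * ‖F‖) ^ 2 :=
    pow_le_pow_left₀ (by positivity) h3 2
  have h5 : (|τ| * ‖F1‖) ^ 2 = τ ^ 2 * ‖F1‖ ^ 2 := by rw [mul_pow, sq_abs]
  have h6 : (|x| * ‖F‖) ^ 2 = x ^ 2 * ‖F‖ ^ 2 := by rw [mul_pow, sq_abs]
  nlinarith [sq_nonneg (‖(x : ℂ) * F + Complex.I * (τ : ℂ) * F1‖ - |x| * ‖F‖)]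

private theorem ENear_grad (S : Spec D) (V : P) {r h t θ : ℝ} (hθ : 0 < θ) (hr : 6 * θ < r)
    (s : Finset ℕ) (c : ℕ → ℂ) (q : P) :
    cutV V (3 * θ) q * (‖fs1 S s c q‖ ^ 2 + ‖fs2 S s c q‖ ^ 2) * (t ^ 2 * h ^ 2) ≤
      144 * θ ^ 2 * ‖fs S s c q‖ ^ 2 + 2 * Qd S V r s h t c q := by
  have hQ : 0 ≤ Qd S V r s h t c q := by
    unfold Qd
    positivity
  rcases le_or_gt (2 * (3 * θ)) (dist q V) with hd | hd
  · rw [cutV_zero (by positivity) hd]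
    have : 0 ≤ 144 * θ ^ 2 * ‖fs S s c q‖ ^ 2 := by positivity
    linarith
  · have hd' : dist q V < 6 * θ := by linarith
    obtain ⟨-, w1, w2, w0⟩ := Cm_zero S (by linarith : (0 : ℝ) < r) s c (hd'.trans hr)
    have e : Qd S V r s h t c q =
        ‖((q.1 - V.1 : ℝ) : ℂ) * fs S s c q + Complex.I * (t * h : ℝ) * fs1 S s c q‖ ^ 2 +
        ‖((q.2 - V.2 : ℝ) : ℂ) * fs S s c q + Complex.I * (t * h : ℝ) * fs2 S s c q‖ ^ 2 := by
      unfold Qd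
      rw [w0, w1, w2]
    have p1 := ENear_pt (q.1 - V.1) (t * h) (fs S s c q) (fs1 S s c q)
    have p2 := ENear_pt (q.2 - V.2) (t * h) (fs S s c q) (fs2 S s c q)
    have hx : ∀ x : ℝ, |x| ≤ 6 * θ → x ^ 2 ≤ 36 * θ ^ 2 := by
      intro x hx
      have := pow_le_pow_left₀ (abs_nonneg x) hx 2
      rw [sq_abs] at this
      linarith [mul_pow 6 θ 2]
    have hd1 : |q.1 - V.1| ≤ 6 * θ := by
      have : dist q.1 V.1 ≤ dist q V := by
        rw [Prod.dist_eq]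
        exact le_max_left _ _
      rw [Real.dist_eq] at this
      linarith
    have hd2 : |q.2 - V.2| ≤ 6 * θ := by
      have : dist q.2 V.2 ≤ dist q V := by
        rw [Prod.dist_eq]
        exact le_max_right _ _
      rw [Real.dist_eq] at this
      linarith
    have b1 : (q.1 - V.1) ^ 2 * ‖fs S s c q‖ ^ 2 ≤ 36 * θ ^ 2 * ‖fs S s c q‖ ^ 2 :=
      mul_le_mul_of_nonneg_right (hx _ hd1) (by positivity)
    have b2 : (q.2 - V.2) ^ 2 * ‖fs S s c q‖ ^ 2 ≤ 36 * θ ^ 2 * ‖fs S s c q‖ ^ 2 :=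
      mul_le_mul_of_nonneg_right (hx _ hd2) (by positivity)
    have hz : cutV V (3 * θ) q * (‖fs1 S s c q‖ ^ 2 + ‖fs2 S s c q‖ ^ 2) * (t ^ 2 * h ^ 2) ≤
        1 * (‖fs1 S s c q‖ ^ 2 + ‖fs2 S s c q‖ ^ 2) * (t ^ 2 * h ^ 2) := by
      refine mul_le_mul_of_nonneg_right (mul_le_mul_of_nonneg_right ?_ (by positivity))
        (by positivity)
      exact (cutV_mem V (3 * θ) q).2
    rw [e]
    rw [mul_pow] at p1 p2
    linarith

private theorem ENear_core (S : Spec D) (G : Geo D) (V : P) {θ h t C₀ C₁ C₂ : ℝ} (hθ : 0 < θ)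
    (hθ1 : θ ≤ 1) (hθr : 6 * θ < G.rho0 / 2) (hh0 : 0 < h) (hh : h ≤ θ ^ 2) (ht : 0 < t)
    (s : Finset ℕ) (c : ℕ → ℂ) (n0 : nsq s c ≤ 16) (n1 : nsq s (ch1 S h c) ≤ (C₀ * θ) ^ 2)
    (hQ : ∫ q, Qd S V (G.rho0 / 2) s h t c q ≤ C₁ * θ ^ 2) (hC₁ : 0 ≤ C₁) (hC₂ : 0 ≤ C₂)
    (hlap : ∀ q, |lap (cutV V (3 * θ)) q| ≤ C₂ / (3 * θ) ^ 2) :
    ∫ q in {q : P | dist q V ≤ 3 * θ}, ‖fs S s c q‖ ^ 2 ≤
      ((2304 + 2 * C₁) / t ^ 2 + 8 + C₀ ^ 2 / 2 + C₂) * θ := by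
  have h3θ : 0 < 3 * θ := by positivity
  have hd := cdom_fs S s c
  have hm := hd.ch.memLp
  have hm' := (cdom_fs S s (ch1 S h c)).ch.memLp
  obtain ⟨iF, eF⟩ := int_fs S s c
  obtain ⟨iF', eF'⟩ := int_fs S s (ch1 S h c)
  have i1 : Integrable (fun q => ‖fs1 S s c q‖ ^ 2) :=
    (memLp_two_iff_integrable_sq_norm hm.2.1.1).1 hm.2.1
  have i2 : Integrable (fun q => ‖fs2 S s c q‖ ^ 2) :=
    (memLp_two_iff_integrable_sq_norm hm.2.2.1).1 hm.2.2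
  have hζ : Cut (cutV V (3 * θ)) := cutV_cut V h3θ
  have cζ : Continuous (cutV V (3 * θ)) := hζ.smooth.continuous
  have bζ : ∀ q, ‖cutV V (3 * θ) q‖ ≤ 1 := fun q => by
    rw [Real.norm_eq_abs, abs_of_nonneg (cutV_mem V _ q).1]
    exact (cutV_mem V _ q).2
  have hbd : ∀ {g : P → ℝ}, Integrable g → Integrable (fun q => cutV V (3 * θ) q * g q) :=
    fun hg => hg.bdd_mul (c := 1) cζ.aestronglyMeasurable (Eventually.of_forall bζ)
  have cl : Continuous (lap (cutV V (3 * θ))) := by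
    obtain ⟨s1, s2⟩ := ECut_d_smooth hζ.smooth
    exact ((ECut_d_smooth s1).1.continuous).add (ECut_d_smooth s2).2.continuous
  have iL : Integrable (fun q => lap (cutV V (3 * θ)) q * ‖fs S s c q‖ ^ 2) :=
    iF.bdd_mul (c := C₂ / (3 * θ) ^ 2) cl.aestronglyMeasurable
      (Eventually.of_forall fun q => by
        rw [Real.norm_eq_abs]
        exact hlap q)
  obtain ⟨iQ, -⟩ := qd_eq S V (r := G.rho0 / 2) (by linarith [G.pos]) h t s c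
  have e := hd.energy hζ G.isBounded
  -- the gradient
  have g1 : (∫ q, cutV V (3 * θ) q * (‖fs1 S s c q‖ ^ 2 + ‖fs2 S s c q‖ ^ 2)) * (t ^ 2 * h ^ 2) ≤
      144 * θ ^ 2 * (∫ q, ‖fs S s c q‖ ^ 2) + 2 * ∫ q, Qd S V (G.rho0 / 2) s h t c q := by
    rw [← integral_mul_const, ← integral_const_mul, ← integral_const_mul,
      ← integral_add (iF.const_mul _) (iQ.const_mul _)]
    exact integral_mono ((hbd (i1.add i2)).mul_const _) ((iF.const_mul _).add (iQ.const_mul _))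
      fun q => ENear_grad S V hθ hθr s c q
  -- the product
  have iP : Integrable (fun q => (conj (fs S s c q) * fs S s (ch1 S h c) q).re) := by
    have h1 : Integrable (fun q => conj (fs S s c q) * fs S s (ch1 S h c) q) :=
      (hm.1.star).integrable_mul hm'.1
    exact h1.re
  have g2 : h ^ 2 * (∫ q, cutV V (3 * θ) q * (conj (fs S s c q) * fsL S s c q).re) =
      ∫ q, cutV V (3 * θ) q *
        (‖fs S s c q‖ ^ 2 + (conj (fs S s c q) * fs S s (ch1 S h c) q).re) := by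
    rw [← integral_const_mul]
    refine integral_congr_ae (Eventually.of_forall fun q => ?_)
    have h1 : h ^ 2 * (conj (fs S s c q) * fsL S s c q).re =
        ‖fs S s c q‖ ^ 2 + (conj (fs S s c q) * fs S s (ch1 S h c) q).re := by
      have h2 : conj (fs S s c q) * (((h ^ 2 : ℝ) : ℂ) * fsL S s c q) =
          conj (fs S s c q) * fs S s c q + conj (fs S s c q) * fs S s (ch1 S h c) q := by
        rw [fsL_eq, mul_add]
      have h3 := congrArg Complex.re h2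
      rw [mul_left_comm, Complex.re_ofReal_mul, Complex.add_re, ← Complex.normSq_eq_conj_mul_self,
        Complex.ofReal_re, Complex.normSq_eq_norm_sq] at h3
      exact h3
    show h ^ 2 * (cutV V (3 * θ) q * (conj (fs S s c q) * fsL S s c q).re) =
      cutV V (3 * θ) q *
        (‖fs S s c q‖ ^ 2 + (conj (fs S s c q) * fs S s (ch1 S h c) q).re)
    rw [← h1]
    ring
  have g3 : (∫ q, cutV V (3 * θ) q * ‖fs S s c q‖ ^ 2) -
      (θ / 2 * (∫ q, ‖fs S s c q‖ ^ 2) + 1 / (2 * θ) * ∫ q, ‖fs S s (ch1 S h c) q‖ ^ 2) ≤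
      ∫ q, cutV V (3 * θ) q *
        (‖fs S s c q‖ ^ 2 + (conj (fs S s c q) * fs S s (ch1 S h c) q).re) := by
    have iS : Integrable (fun q => θ / 2 * ‖fs S s c q‖ ^ 2 +
        1 / (2 * θ) * ‖fs S s (ch1 S h c) q‖ ^ 2) := (iF.const_mul _).add (iF'.const_mul _)
    rw [← integral_const_mul, ← integral_const_mul,
      ← integral_add (iF.const_mul _) (iF'.const_mul _),
      ← integral_sub (hbd iF) iS]
    refine integral_mono ((hbd iF).sub iS)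
      (hbd (iF.add iP)) fun q => ?_
    obtain ⟨z0, z1⟩ := cutV_mem V (3 * θ) q
    obtain ⟨z, hz⟩ : ∃ z, z = cutV V (3 * θ) q := ⟨_, rfl⟩
    obtain ⟨a, ha⟩ : ∃ a, a = ‖fs S s c q‖ := ⟨_, rfl⟩
    obtain ⟨b, hb⟩ : ∃ b, b = ‖fs S s (ch1 S h c) q‖ := ⟨_, rfl⟩
    obtain ⟨p, hp⟩ : ∃ p, p = (conj (fs S s c q) * fs S s (ch1 S h c) q).re := ⟨_, rfl⟩
    have ha0 : 0 ≤ a := ha ▸ norm_nonneg _
    have hb0 : 0 ≤ b := hb ▸ norm_nonneg _
    have hpab : |p| ≤ a * b := by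
      rw [hp, ha, hb]
      refine (Complex.abs_re_le_norm _).trans ?_
      rw [norm_mul, RCLike.norm_conj]
    show cutV V (3 * θ) q * ‖fs S s c q‖ ^ 2 -
      (θ / 2 * ‖fs S s c q‖ ^ 2 + 1 / (2 * θ) * ‖fs S s (ch1 S h c) q‖ ^ 2) ≤
      cutV V (3 * θ) q *
        (‖fs S s c q‖ ^ 2 + (conj (fs S s c q) * fs S s (ch1 S h c) q).re)
    rw [← hz, ← ha, ← hb, ← hp]
    rw [← hz] at z0 z1
    have k1 : -(z * p) ≤ a * b := by
      have h1 : -(z * p) ≤ z * |p| := by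
        rw [← mul_neg]
        exact mul_le_mul_of_nonneg_left (neg_le_abs p) z0
      have h2 : z * |p| ≤ 1 * |p| := mul_le_mul_of_nonneg_right z1 (abs_nonneg p)
      linarith
    have k2 : a * b ≤ θ / 2 * a ^ 2 + 1 / (2 * θ) * b ^ 2 := by
      have h1 : θ / 2 * a ^ 2 + 1 / (2 * θ) * b ^ 2 - a * b = (θ * a - b) ^ 2 / (2 * θ) := by
        field_simp
        ring
      have h2 : 0 ≤ (θ * a - b) ^ 2 / (2 * θ) := by positivity
      linarith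
    linarith
  -- the Laplacian
  have g4 : -(C₂ / (3 * θ) ^ 2 * ∫ q, ‖fs S s c q‖ ^ 2) ≤
      ∫ q, lap (cutV V (3 * θ)) q * ‖fs S s c q‖ ^ 2 := by
    rw [← integral_const_mul, ← integral_neg]
    refine integral_mono (iF.const_mul _).neg iL fun q => ?_
    show -(C₂ / (3 * θ) ^ 2 * ‖fs S s c q‖ ^ 2) ≤ lap (cutV V (3 * θ)) q * ‖fs S s c q‖ ^ 2
    rw [← neg_mul]
    exact mul_le_mul_of_nonneg_right (neg_le_of_abs_le (hlap q)) (by positivity)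
  -- the ball
  have g5 : ∫ q in {q : P | dist q V ≤ 3 * θ}, ‖fs S s c q‖ ^ 2 ≤
      ∫ q, cutV V (3 * θ) q * ‖fs S s c q‖ ^ 2 := by
    have hB : MeasurableSet {q : P | dist q V ≤ 3 * θ} := measurableSet_closedBall
    rw [← integral_indicator hB]
    refine integral_mono (iF.indicator hB) (hbd iF) fun q => ?_
    by_cases hq : q ∈ {q : P | dist q V ≤ 3 * θ}
    · rw [indicator_of_mem hq]
      show ‖fs S s c q‖ ^ 2 ≤ cutV V (3 * θ) q * ‖fs S s c q‖ ^ 2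
      rw [cutV_one h3θ hq, one_mul]
    · rw [indicator_of_notMem hq]
      exact mul_nonneg (cutV_mem V _ q).1 (by positivity)
  rw [eF] at g1 g3 g4
  rw [eF'] at g3
  obtain ⟨T, hT⟩ : ∃ T, T = ∫ q, cutV V (3 * θ) q * (‖fs1 S s c q‖ ^ 2 + ‖fs2 S s c q‖ ^ 2) :=
    ⟨_, rfl⟩
  rw [← hT] at g1 e
  have k1 : h ^ 2 * T ≤ (2304 + 2 * C₁) / t ^ 2 * θ := by
    have h1 : T * (t ^ 2 * h ^ 2) ≤ (2304 + 2 * C₁) * θ := by
      have h2 : 144 * θ ^ 2 * nsq s c ≤ 144 * θ ^ 2 * 16 :=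
        mul_le_mul_of_nonneg_left n0 (by positivity)
      have h3 : θ ^ 2 ≤ θ := by nlinarith
      have h4 : (2304 + 2 * C₁) * θ ^ 2 ≤ (2304 + 2 * C₁) * θ :=
        mul_le_mul_of_nonneg_left h3 (by positivity)
      linarith
    rw [div_mul_eq_mul_div, le_div_iff₀ (by positivity)]
    linarith
  have k2 : θ / 2 * nsq s c ≤ 8 * θ := by
    have := mul_le_mul_of_nonneg_left n0 (by positivity : (0 : ℝ) ≤ θ / 2)
    linarith
  have k3 : 1 / (2 * θ) * nsq s (ch1 S h c) ≤ C₀ ^ 2 / 2 * θ := by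
    have h1 := mul_le_mul_of_nonneg_left n1 (by positivity : (0 : ℝ) ≤ 1 / (2 * θ))
    refine h1.trans (le_of_eq ?_)
    field_simp
  have k4 : h ^ 2 / 2 * (C₂ / (3 * θ) ^ 2 * nsq s c) ≤ C₂ * θ := by
    have h1 : h ^ 2 ≤ θ ^ 4 := by
      have := pow_le_pow_left₀ hh0.le hh 2
      rwa [← pow_mul] at this
    have h2 : C₂ / (3 * θ) ^ 2 * nsq s c ≤ C₂ / (3 * θ) ^ 2 * 16 :=
      mul_le_mul_of_nonneg_left n0 (by positivity)
    have h3 : h ^ 2 / 2 * (C₂ / (3 * θ) ^ 2 * nsq s c) ≤ θ ^ 4 / 2 * (C₂ / (3 * θ) ^ 2 * 16) := by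
      refine (mul_le_mul_of_nonneg_left h2 (by positivity)).trans ?_
      exact mul_le_mul_of_nonneg_right (by linarith) (by positivity)
    have h4 : θ ^ 4 / 2 * (C₂ / (3 * θ) ^ 2 * 16) = C₂ * (8 / 9 * θ ^ 2) := by
      field_simp
      ring
    have h5 : C₂ * (8 / 9 * θ ^ 2) ≤ C₂ * θ := by
      refine mul_le_mul_of_nonneg_left ?_ hC₂
      nlinarith
    linarith
  have k5 : h ^ 2 / 2 * -(C₂ / (3 * θ) ^ 2 * nsq s c) ≤
      h ^ 2 / 2 * ∫ q, lap (cutV V (3 * θ)) q * ‖fs S s c q‖ ^ 2 :=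
    mul_le_mul_of_nonneg_left g4 (by positivity)
  have k6 : h ^ 2 * T = h ^ 2 * (∫ q, cutV V (3 * θ) q * (conj (fs S s c q) * fsL S s c q).re) +
      h ^ 2 / 2 * ∫ q, lap (cutV V (3 * θ)) q * ‖fs S s c q‖ ^ 2 := by
    rw [e]
    ring
  rw [g2] at k6
  linarith

theorem near_mass (S : Spec D) (G : Geo D) (C₀ : ℝ) {t₁ : ℝ} (ht₁ : 0 < t₁)
    (ht₁' : t₁ ≤ G.rho0 / 32) : ∃ C : ℝ, 0 ≤ C ∧ ∀ᶠ δ in 𝓝[>] (0 : ℝ),
    ∀ V ∈ G.V, ∀ (s : Finset ℕ) (c : ℕ → ℂ), Dat S V C₀ δ s c →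
      ∫ q in {q : P | dist q V ≤ 3 * th δ}, ‖fs S s (cev S (hh δ) t₁ c) q‖ ^ 2 ≤
        C * th δ := by
  obtain ⟨C₁, hC₁, hv⟩ := virial S G C₀
  obtain ⟨C₂, hC₂, hb⟩ := cutV_bdd
  refine ⟨(2304 + 2 * C₁) / t₁ ^ 2 + 8 + C₀ ^ 2 / 2 + C₂, by positivity, ?_⟩
  have hρ := G.pos
  have hsm : ∀ᶠ δ in 𝓝[>] (0 : ℝ), δ ∈ Ioo (0 : ℝ) (min 1 (G.rho0 / 12)) :=
    Ioo_mem_nhdsGT (lt_min one_pos (by positivity))
  filter_upwards [hv, hsm] with δ hv hδ V hV s c hdat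
  obtain ⟨h0, h1⟩ := hδ
  have h2 : δ < 1 := h1.trans_le (min_le_left _ _)
  have h3 : δ < G.rho0 / 12 := h1.trans_le (min_le_right _ _)
  have hθ : 0 < th δ := pow_pos h0 38
  have hθδ : th δ ≤ δ := by
    have := pow_le_pow_of_le_one h0.le h2.le (by norm_num : 1 ≤ 38)
    rwa [pow_one] at this
  have hh0 : 0 < hh δ := pow_pos h0 80
  have hhθ : hh δ ≤ th δ ^ 2 := by
    unfold hh th
    rw [← pow_mul]
    exact pow_le_pow_of_le_one h0.le h2.le (by norm_num)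
  refine ENear_core S G V hθ (by linarith) (by linarith) hh0 hhθ ht₁ s (cev S (hh δ) t₁ c)
    ?_ ?_ (hv V hV s c hdat t₁ ht₁.le ht₁') hC₁ hC₂ fun q => (hb V _ (by positivity) q).2.2
  · rw [nsq_cev]
    exact hdat.n0
  · rw [cev_ch1, nsq_cev]
    exact hdat.n1

end

end Pool.Agent.MP4eed4eR.E
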