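import Pool.Agent.Lib.MP_4eed4e_an_R.BDefs
import Pool.Agent.Lib.MP_4eed4e_an_R.C01
import Pool.Agent.Lib.MP_4eed4e_an_R.C02
import Pool.Agent.Lib.MP_4eed4e_an_R.C03

/-!
MP_4eed4e_an, project R, block E, module EPk: the packet under `(y - V) + i t h ∇` (E4, second
part).

`envX1 δ t Y = ((1 - i t) Y₁ χ_r(Y) + i t h ∂₁χ_r(Y)) g(Y)`, `g(Y) = (π h)^(-1/2) exp(-|Y|² / 2h)`,
`r = rad δ`, `h = hh δ`.

PROOFS.
* `psic_smooth`: product of `chir` (`C.contDiff_chir`) and of the exponential of a polynomial;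
  `chir r (y - x) = 0` for `2 r ≤ dist y x`.
* `pk1`: `beta 0 = 1`, so `psic δ x ξ 0 y = χ_r(Y) g(Y) exp(i ξ·Y / h)`, `Y = y - x`, and
  `D1 psic = (∂₁χ_r g - χ_r (Y₁ / h) g + χ_r (i ξ₁ / h) g) exp(..)` (one variable derivatives along
  `(1, 0)`). So `(y₁ - v₁) psic + i t h D1 psic = (x₁ - v₁ - t ξ₁) psic + (Y₁ - i t Y₁) psic +`
  `i t h ∂₁χ_r g exp(..)`.
* `envX_env`: bounded, measurable, vanishes for `2 r < ‖Y‖`.
* `envX_norm`: `‖envX1‖² ≤ 2 (1 + t²) Y₁² g² + 2 t² h² (∂₁χ_r)² g²`, `∫ Y₁² g² = h / 2`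
  (`C.gauss_mom`, `C.gauss_mom2` or by hand), `|∂₁χ_r| ≤ C / r`, `h² / r² ≤ h` for small `δ`
  (`h / r² = 4096 δ⁴`), `∫ g² = 1` (`C.gauss_real`).
-/

namespace Pool.Agent.MP4eed4eR.E

open MeasureTheory Set Filter Topology Metric
open scoped ComplexConjugate ContDiff

noncomputable section

/-- The Gaussian `(π h)^(-1/2) exp(-|Y|² / 2h)`. -/
def gau (h : ℝ) (Y : P) : ℝ := 1 / Real.sqrt (Real.pi * h) * Real.exp (-sq Y / (2 * h))

def envX1 (δ t : ℝ) (Y : P) : ℂ :=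
  ((1 - Complex.I * (t : ℂ)) * ((Y.1 * chir (rad δ) Y : ℝ) : ℂ) +
    Complex.I * ((t * hh δ * d1 (chir (rad δ)) Y : ℝ) : ℂ)) * (gau (hh δ) Y : ℂ)

def envX2 (δ t : ℝ) (Y : P) : ℂ :=
  ((1 - Complex.I * (t : ℂ)) * ((Y.2 * chir (rad δ) Y : ℝ) : ℂ) +
    Complex.I * ((t * hh δ * d2 (chir (rad δ)) Y : ℝ) : ℂ)) * (gau (hh δ) Y : ℂ)

theorem psic_smooth {δ : ℝ} (hδ : 0 < δ) (x ξ : P) (s : ℝ) :
    ContDiff ℝ ∞ (psic δ x ξ s) ∧ HasCompactSupport (psic δ x ξ s) := by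
  constructor
  · have h1 : ContDiff ℝ ∞ (fun y : P => chir (rad δ) (y - x)) :=
      (C.contDiff_chir (rad δ)).comp (contDiff_id.sub contDiff_const)
    have h2 : ContDiff ℝ ∞ (fun y : P => sq (y - x)) := by
      unfold sq
      exact ((contDiff_fst.comp (contDiff_id.sub contDiff_const)).pow 2).add
        ((contDiff_snd.comp (contDiff_id.sub contDiff_const)).pow 2)
    have h3 : ContDiff ℝ ∞ (fun y : P => dot ξ (y - x) / hh δ) := by
      unfold dot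
      exact ((contDiff_const.mul (contDiff_fst.comp (contDiff_id.sub contDiff_const))).add
        (contDiff_const.mul (contDiff_snd.comp (contDiff_id.sub contDiff_const)))).div_const _
    have h1' := Complex.ofRealCLM.contDiff.comp h1 (n := ∞)
    have h2' := Complex.ofRealCLM.contDiff.comp h2 (n := ∞)
    have h3' := Complex.ofRealCLM.contDiff.comp h3 (n := ∞)
    exact h1'.mul (contDiff_const.mul
      (((contDiff_const.mul h2').div_const _).add (h3'.mul contDiff_const)).cexp)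
  · refine HasCompactSupport.intro (isCompact_closedBall x (2 * rad δ)) fun y hy => ?_
    rw [mem_closedBall, not_le, dist_eq_norm] at hy
    unfold psic
    rw [C.chir_eq_zero (C.rad_pos hδ) hy.le, Complex.ofReal_zero, zero_mul]

private theorem EPk_psi (h : ℝ) (x ξ y : P) :
    psi h x ξ 0 y = (gau h (y - x) : ℂ) * Complex.exp ((dot ξ (y - x) / h : ℝ) * Complex.I) := by
  have hb : beta 0 = 1 := by simp [beta]
  unfold psi gau
  have e : ((-sq (y - x) / (2 * h) : ℝ) : ℂ) =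
      -1 * ((sq (y - x) : ℝ) : ℂ) / ((2 * h : ℝ) : ℂ) := by
    push_cast
    ring
  rw [hb, mul_one, Complex.exp_add, ← mul_assoc, ← e, ← Complex.ofReal_exp, ← Complex.ofReal_mul]

/-- the derivative of the packet in the direction `e` -/
private theorem EPk_deriv {δ : ℝ} (hδ : 0 < δ) (x ξ y e : P) :
    fderiv ℝ (psic δ x ξ 0) y e =
      ((fderiv ℝ (chir (rad δ)) (y - x) e : ℝ) : ℂ) * psi (hh δ) x ξ 0 y +
        (chir (rad δ) (y - x) : ℂ) * (psi (hh δ) x ξ 0 y *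
          (-(((dot (y - x) e / hh δ : ℝ)) : ℂ) + ((dot ξ e / hh δ : ℝ) : ℂ) * Complex.I)) := by
  have hh0 : (hh δ : ℂ) ≠ 0 := by exact_mod_cast (C.hh_pos hδ).ne'
  have hγ : HasDerivAt (fun t : ℝ => y + t • e) e 0 := by
    have h1 := ((hasDerivAt_id (0 : ℝ)).smul_const e).const_add y
    rwa [one_smul] at h1
  have hγx : HasDerivAt (fun t : ℝ => y + t • e - x) e 0 := hγ.sub_const x
  have hF : HasFDerivAt (psic δ x ξ 0) (fderiv ℝ (psic δ x ξ 0) y) (y + (0 : ℝ) • e) := by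
    rw [zero_smul, add_zero]
    exact (((psic_smooth hδ x ξ 0).1.differentiable (by simp)) y).hasFDerivAt
  have h1 : HasDerivAt (fun t : ℝ => psic δ x ξ 0 (y + t • e)) (fderiv ℝ (psic δ x ξ 0) y e) 0 :=
    HasFDerivAt.comp_hasDerivAt (f := fun t : ℝ => y + t • e) 0 hF hγ
  have hχ : HasFDerivAt (chir (rad δ)) (fderiv ℝ (chir (rad δ)) (y - x))
      (y + (0 : ℝ) • e - x) := by
    rw [zero_smul, add_zero]
    exact (((C.contDiff_chir (rad δ)).differentiable (by simp)) (y - x)).hasFDerivAt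
  have h2 : HasDerivAt (fun t : ℝ => ((chir (rad δ) (y + t • e - x) : ℝ) : ℂ))
      ((fderiv ℝ (chir (rad δ)) (y - x) e : ℝ) : ℂ) 0 :=
    (HasFDerivAt.comp_hasDerivAt (f := fun t : ℝ => y + t • e - x) 0 hχ hγx).ofReal_comp
  have hc1 : HasDerivAt (fun t : ℝ => (y + t • e - x).1) e.1 0 := by
    have h3 := ((hasDerivAt_id (0 : ℝ)).mul_const e.1).const_add (y.1 - x.1)
    rw [one_mul] at h3
    refine h3.congr_of_eventuallyEq (Eventually.of_forall fun t => ?_)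
    simp only [Prod.fst_sub, Prod.fst_add, Prod.smul_fst, smul_eq_mul, id]
    ring
  have hc2 : HasDerivAt (fun t : ℝ => (y + t • e - x).2) e.2 0 := by
    have h3 := ((hasDerivAt_id (0 : ℝ)).mul_const e.2).const_add (y.2 - x.2)
    rw [one_mul] at h3
    refine h3.congr_of_eventuallyEq (Eventually.of_forall fun t => ?_)
    simp only [Prod.snd_sub, Prod.snd_add, Prod.smul_snd, smul_eq_mul, id]
    ring
  have hsq : HasDerivAt (fun t : ℝ => sq (y + t • e - x)) (2 * dot (y - x) e) 0 := by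
    have h3 := (hc1.pow 2).add (hc2.pow 2)
    refine h3.congr_deriv ?_
    simp [dot]
    ring
  have hdot : HasDerivAt (fun t : ℝ => dot ξ (y + t • e - x) / hh δ) (dot ξ e / hh δ) 0 :=
    ((hc1.const_mul ξ.1).add (hc2.const_mul ξ.2)).div_const _
  have hex : HasDerivAt (fun t : ℝ => -beta 0 * ((sq (y + t • e - x) : ℝ) : ℂ) /
      (2 * hh δ : ℝ) + ((dot ξ (y + t • e - x) / hh δ : ℝ) : ℂ) * Complex.I)
      (-beta 0 * ((2 * dot (y - x) e : ℝ) : ℂ) / (2 * hh δ : ℝ) +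
        ((dot ξ e / hh δ : ℝ) : ℂ) * Complex.I) 0 :=
    ((hsq.ofReal_comp.const_mul (-beta 0)).div_const _).add
      (hdot.ofReal_comp.mul_const Complex.I)
  have hpsi : HasDerivAt (fun t : ℝ => psi (hh δ) x ξ 0 (y + t • e))
      (psi (hh δ) x ξ 0 y * (-(((dot (y - x) e / hh δ : ℝ)) : ℂ) +
        ((dot ξ e / hh δ : ℝ) : ℂ) * Complex.I)) 0 := by
    have h3 := (hex.cexp).const_mul (((1 / Real.sqrt (Real.pi * hh δ) : ℝ) : ℂ) * beta 0)
    refine h3.congr_deriv ?_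
    have hb : beta 0 = 1 := by simp [beta]
    unfold psi
    rw [zero_smul, add_zero, hb]
    rw [← mul_assoc]
    congr 1
    push_cast
    field_simp
  have h4 := h2.mul hpsi
  simp only [zero_smul, add_zero] at h4
  exact h1.unique h4

theorem pk1 {δ : ℝ} (hδ : 0 < δ) (x ξ : P) (t v : ℝ) (y : P) :
    ((y.1 - v : ℝ) : ℂ) * psic δ x ξ 0 y +
        Complex.I * ((t * hh δ : ℝ) : ℂ) * D1 (psic δ x ξ 0) y =
      ((x.1 - v - t * ξ.1 : ℝ) : ℂ) * psic δ x ξ 0 y +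
        envX1 δ t (y - x) * Complex.exp ((dot ξ (y - x) / hh δ : ℝ) * Complex.I) := by
  have hh0 : (hh δ : ℂ) ≠ 0 := by exact_mod_cast (C.hh_pos hδ).ne'
  have hI : Complex.I ^ 2 = -1 := Complex.I_sq
  have e1 : dot (y - x) (1, 0) = y.1 - x.1 := by simp [dot]
  have e2 : dot ξ (1, 0) = ξ.1 := by simp [dot]
  rw [D1, EPk_deriv hδ, e1, e2]
  unfold psic envX1 d1
  rw [EPk_psi, Prod.fst_sub]
  push_cast
  field_simp
  ring_nf
  rw [hI]
  ring

theorem pk2 {δ : ℝ} (hδ : 0 < δ) (x ξ : P) (t v : ℝ) (y : P) :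
    ((y.2 - v : ℝ) : ℂ) * psic δ x ξ 0 y +
        Complex.I * ((t * hh δ : ℝ) : ℂ) * D2 (psic δ x ξ 0) y =
      ((x.2 - v - t * ξ.2 : ℝ) : ℂ) * psic δ x ξ 0 y +
        envX2 δ t (y - x) * Complex.exp ((dot ξ (y - x) / hh δ : ℝ) * Complex.I) := by
  have hh0 : (hh δ : ℂ) ≠ 0 := by exact_mod_cast (C.hh_pos hδ).ne'
  have hI : Complex.I ^ 2 = -1 := Complex.I_sq
  have e1 : dot (y - x) (0, 1) = y.2 - x.2 := by simp [dot]
  have e2 : dot ξ (0, 1) = ξ.2 := by simp [dot]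
  rw [D2, EPk_deriv hδ, e1, e2]
  unfold psic envX2 d2
  rw [EPk_psi, Prod.snd_sub]
  push_cast
  field_simp
  ring_nf
  rw [hI]
  ring

private theorem EPk_dcont (r : ℝ) (e : P) : Continuous fun y : P => fderiv ℝ (chir r) y e :=
  ((C.contDiff_chir r).continuous_fderiv (by simp)).clm_apply continuous_const

private theorem EPk_dzero {r : ℝ} (hr : 0 < r) {y : P} (h : 2 * r < ‖y‖) (e : P) :
    fderiv ℝ (chir r) y e = 0 := by
  have h1 : chir r =ᶠ[𝓝 y] fun _ => (0 : ℝ) := by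
    filter_upwards [(isOpen_lt continuous_const continuous_norm).mem_nhds h] with z hz
    exact C.chir_eq_zero hr (le_of_lt hz)
  rw [h1.fderiv_eq, fderiv_const_apply]
  rfl

private theorem EPk_gcont (h : ℝ) : Continuous (gau h) := by
  unfold gau sq
  fun_prop

private theorem EPk_env {δ : ℝ} (hδ : 0 < δ) (t : ℝ) (e : P) {c : P → ℝ} (hc : Continuous c) :
    Env (fun Y : P => ((1 - Complex.I * (t : ℂ)) * ((c Y * chir (rad δ) Y : ℝ) : ℂ) +
      Complex.I * ((t * hh δ * fderiv ℝ (chir (rad δ)) Y e : ℝ) : ℂ)) * (gau (hh δ) Y : ℂ))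
      (2 * rad δ) := by
  have hcont : Continuous (fun Y : P => ((1 - Complex.I * (t : ℂ)) *
      ((c Y * chir (rad δ) Y : ℝ) : ℂ) +
      Complex.I * ((t * hh δ * fderiv ℝ (chir (rad δ)) Y e : ℝ) : ℂ)) *
      (gau (hh δ) Y : ℂ)) := by
    have h1 := EPk_dcont (rad δ) e
    have h2 := (C.contDiff_chir (rad δ)).continuous
    have h3 := EPk_gcont (hh δ)
    refine ((continuous_const.mul (Complex.continuous_ofReal.comp (hc.mul h2))).add
      (continuous_const.mul (Complex.continuous_ofReal.comp (continuous_const.mul h1)))).mul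
      (Complex.continuous_ofReal.comp h3)
  have hz : ∀ y : P, 2 * rad δ < ‖y‖ → ((1 - Complex.I * (t : ℂ)) *
      ((c y * chir (rad δ) y : ℝ) : ℂ) +
      Complex.I * ((t * hh δ * fderiv ℝ (chir (rad δ)) y e : ℝ) : ℂ)) *
      (gau (hh δ) y : ℂ) = 0 := by
    intro y hy
    rw [C.chir_eq_zero (C.rad_pos hδ) hy.le, EPk_dzero (C.rad_pos hδ) hy]
    simp
  refine ⟨hcont.measurable, ?_, hz⟩
  refine hcont.bounded_above_of_compact_support
    (HasCompactSupport.intro (isCompact_closedBall (0 : P) (2 * rad δ)) fun y hy => hz y ?_)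
  rw [mem_closedBall_zero_iff, not_le] at hy
  exact hy

theorem envX_env {δ : ℝ} (hδ : 0 < δ) (t : ℝ) :
    Env (envX1 δ t) (2 * rad δ) ∧ Env (envX2 δ t) (2 * rad δ) :=
  ⟨EPk_env hδ t (1, 0) continuous_fst, EPk_env hδ t (0, 1) continuous_snd⟩

/-- the derivatives of the cutoff -/
private theorem EPk_dchi : ∃ K : ℝ, 0 ≤ K ∧ ∀ (r : ℝ) (y : P), 0 < r →
    |fderiv ℝ (chir r) y (1, 0)| ≤ K / r ∧ |fderiv ℝ (chir r) y (0, 1)| ≤ K / r := by
  obtain ⟨K, hK, hb⟩ := C.chi_deriv_bdd 1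
  refine ⟨K, hK, fun r y hr => ?_⟩
  have hb' : ∀ z, |deriv chi z| ≤ K := fun z => by
    rw [← iteratedDeriv_one]
    exact hb z
  have hd : ∀ z, HasDerivAt chi (deriv chi z) z := fun z =>
    ((C.contDiff_chi.differentiable (by simp)) z).hasDerivAt
  have hF : HasFDerivAt (chir r) (fderiv ℝ (chir r) y) y :=
    (((C.contDiff_chir r).differentiable (by simp)) y).hasFDerivAt
  have hle : ∀ a b : ℝ, |a| ≤ K → |b| ≤ 1 → |a * (1 / r) * b| ≤ K / r := by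
    intro a b ha hb1
    rw [abs_mul, abs_mul, abs_of_pos (by positivity : (0 : ℝ) < 1 / r)]
    calc |a| * (1 / r) * |b| ≤ K * (1 / r) * 1 := by gcongr
      _ = K / r := by ring
  have hchi1 : ∀ z, |chi z| ≤ 1 := fun z => by
    rw [abs_of_nonneg (C.chi_nonneg z)]
    exact C.chi_le_one z
  constructor
  · have hγ : HasDerivAt (fun t : ℝ => ((t, y.2) : P)) ((1, 0) : P) y.1 :=
      (hasDerivAt_id y.1).prodMk (hasDerivAt_const y.1 y.2)
    have h1 : HasDerivAt (fun t : ℝ => chir r (t, y.2)) (fderiv ℝ (chir r) y (1, 0)) y.1 :=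
      HasFDerivAt.comp_hasDerivAt (f := fun t : ℝ => ((t, y.2) : P)) y.1 hF hγ
    have h2 : HasDerivAt (fun t : ℝ => chir r (t, y.2))
        (deriv chi (y.1 / r) * (1 / r) * chi (y.2 / r)) y.1 :=
      (((hd (y.1 / r)).comp y.1 ((hasDerivAt_id y.1).div_const r))).mul_const (chi (y.2 / r))
    rw [h1.unique h2]
    exact hle _ _ (hb' _) (hchi1 _)
  · have hγ : HasDerivAt (fun t : ℝ => ((y.1, t) : P)) ((0, 1) : P) y.2 :=
      (hasDerivAt_const y.2 y.1).prodMk (hasDerivAt_id y.2)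
    have h1 : HasDerivAt (fun t : ℝ => chir r (y.1, t)) (fderiv ℝ (chir r) y (0, 1)) y.2 :=
      HasFDerivAt.comp_hasDerivAt (f := fun t : ℝ => ((y.1, t) : P)) y.2 hF hγ
    have h2 : HasDerivAt (fun t : ℝ => chir r (y.1, t))
        (chi (y.1 / r) * (deriv chi (y.2 / r) * (1 / r))) y.2 :=
      (((hd (y.2 / r)).comp y.2 ((hasDerivAt_id y.2).div_const r))).const_mul (chi (y.1 / r))
    rw [h1.unique h2, mul_comm]
    exact hle _ _ (hb' _) (hchi1 _)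

private theorem EPk_gsq {h : ℝ} (hh0 : 0 < h) (y : P) :
    gau h y ^ 2 = 1 / (Real.pi * h) * Real.exp (-(1 / h * sq y)) := by
  unfold gau
  rw [mul_pow, div_pow, one_pow, Real.sq_sqrt (by positivity), ← Real.exp_nat_mul]
  congr 2
  push_cast
  field_simp

/-- the pointwise bound -/
private theorem EPk_pt {t c χ h d K g S : ℝ} (ht : |t| ≤ 1) (hc : c ^ 2 ≤ S) (hχ : 0 ≤ χ)
    (hχ1 : χ ≤ 1) (hd : |d| ≤ K) :
    ‖((1 - Complex.I * (t : ℂ)) * ((c * χ : ℝ) : ℂ) +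
      Complex.I * ((t * h * d : ℝ) : ℂ)) * (g : ℂ)‖ ^ 2 ≤
      (3 * S + 2 * h ^ 2 * K ^ 2) * g ^ 2 := by
  have e1 : (1 - Complex.I * (t : ℂ)) * ((c * χ : ℝ) : ℂ) + Complex.I * ((t * h * d : ℝ) : ℂ) =
      ((c * χ : ℝ) : ℂ) + ((t * h * d - t * (c * χ) : ℝ) : ℂ) * Complex.I := by
    push_cast
    ring
  rw [norm_mul, mul_pow, e1, ← Complex.normSq_eq_norm_sq, Complex.normSq_add_mul_I,
    Complex.norm_real, Real.norm_eq_abs, sq_abs]
  refine mul_le_mul_of_nonneg_right ?_ (sq_nonneg g)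
  have ht2 : t ^ 2 ≤ 1 := by
    rw [← sq_abs]
    exact pow_le_one₀ (abs_nonneg t) ht
  have hd2 : d ^ 2 ≤ K ^ 2 := by
    rw [← sq_abs]
    exact pow_le_pow_left₀ (abs_nonneg d) hd 2
  have ha : (c * χ) ^ 2 ≤ S := by
    rw [mul_pow]
    calc c ^ 2 * χ ^ 2 ≤ c ^ 2 * 1 :=
          mul_le_mul_of_nonneg_left (pow_le_one₀ hχ hχ1) (sq_nonneg c)
      _ ≤ S := by rw [mul_one]; exact hc
  have hta : (t * (c * χ)) ^ 2 ≤ S := by
    rw [mul_pow]
    calc t ^ 2 * (c * χ) ^ 2 ≤ 1 * (c * χ) ^ 2 := mul_le_mul_of_nonneg_right ht2 (sq_nonneg _)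
      _ ≤ S := by rw [one_mul]; exact ha
  have hb : (t * h * d) ^ 2 ≤ h ^ 2 * K ^ 2 := by
    calc (t * h * d) ^ 2 = t ^ 2 * (h ^ 2 * d ^ 2) := by ring
      _ ≤ 1 * (h ^ 2 * d ^ 2) := mul_le_mul_of_nonneg_right ht2 (by positivity)
      _ ≤ h ^ 2 * K ^ 2 := by
        rw [one_mul]
        exact mul_le_mul_of_nonneg_left hd2 (sq_nonneg h)
  nlinarith [sq_nonneg (t * h * d + t * (c * χ))]

private theorem EPk_int {δ K : ℝ} (hδ : 0 < δ) (hδ1 : δ ≤ 1) {E : P → ℂ}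
    (hE : ∀ y, ‖E y‖ ^ 2 ≤
      (3 * sq y + 2 * hh δ ^ 2 * (K / rad δ) ^ 2) * gau (hh δ) y ^ 2) :
    ∫ y, ‖E y‖ ^ 2 ≤ (12 + 8192 * K ^ 2) * hh δ := by
  have hh0 := C.hh_pos hδ
  have hr := C.rad_pos hδ
  have ha : 0 < 1 / hh δ := by positivity
  obtain ⟨i1, v1⟩ := C.gauss_real ha
  obtain ⟨i2, v2⟩ := C.gauss_mom ha
  have hg : Integrable fun y : P => 3 / (Real.pi * hh δ) *
      (sq y * Real.exp (-(1 / hh δ * sq y))) +
      2 * hh δ ^ 2 * (K / rad δ) ^ 2 * (1 / (Real.pi * hh δ)) *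
      Real.exp (-(1 / hh δ * sq y)) := (i2.const_mul _).add (i1.const_mul _)
  have h1 : ∫ y, ‖E y‖ ^ 2 ≤ ∫ y : P, (3 / (Real.pi * hh δ) *
      (sq y * Real.exp (-(1 / hh δ * sq y))) +
      2 * hh δ ^ 2 * (K / rad δ) ^ 2 * (1 / (Real.pi * hh δ)) *
      Real.exp (-(1 / hh δ * sq y))) := by
    refine integral_mono_of_nonneg (Eventually.of_forall fun y => sq_nonneg _) hg
      (Eventually.of_forall fun y => ?_)
    refine (hE y).trans (le_of_eq ?_)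
    rw [EPk_gsq hh0]
    ring
  refine h1.trans ?_
  rw [integral_add (i2.const_mul _) (i1.const_mul _), integral_const_mul, integral_const_mul, v1]
  have h2 : 3 / (Real.pi * hh δ) * ∫ y : P, sq y * Real.exp (-(1 / hh δ * sq y)) ≤ 12 * hh δ := by
    calc 3 / (Real.pi * hh δ) * ∫ y : P, sq y * Real.exp (-(1 / hh δ * sq y))
        ≤ 3 / (Real.pi * hh δ) * (4 * Real.pi / (1 / hh δ) ^ 2) :=
          mul_le_mul_of_nonneg_left v2 (by positivity)
      _ = 12 * hh δ := by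
          field_simp
          ring
  have h3 : 2 * hh δ ^ 2 * (K / rad δ) ^ 2 * (1 / (Real.pi * hh δ)) *
      (Real.pi / (1 / hh δ)) = 2 * K ^ 2 * hh δ * (hh δ / rad δ ^ 2) := by
    field_simp
  have h4 : hh δ / rad δ ^ 2 = 4096 * δ ^ 4 := by
    have h5 := C.rad_sq hδ
    have h6 : hh δ / rad δ ^ 2 = (rad δ ^ 2 / hh δ)⁻¹ := by rw [inv_div]
    rw [h6, h5, one_div, inv_inv]
  have h5 : δ ^ 4 ≤ 1 := pow_le_one₀ hδ.le hδ1
  rw [h3, h4]
  have h6 : 2 * K ^ 2 * hh δ * (4096 * δ ^ 4) ≤ 2 * K ^ 2 * hh δ * (4096 * 1) := by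
    gcongr
  linarith

theorem envX_norm : ∃ C : ℝ, 0 ≤ C ∧ ∀ᶠ δ in 𝓝[>] (0 : ℝ), ∀ t : ℝ, |t| ≤ 1 →
    ∫ y, ‖envX1 δ t y‖ ^ 2 ≤ C * hh δ ∧ ∫ y, ‖envX2 δ t y‖ ^ 2 ≤ C * hh δ := by
  obtain ⟨K, hK, hd⟩ := EPk_dchi
  refine ⟨12 + 8192 * K ^ 2, by positivity, ?_⟩
  filter_upwards [C.ev_lt one_pos] with δ ⟨hδ, hδ1⟩ t ht
  have hr := C.rad_pos hδ
  constructor
  · refine EPk_int hδ hδ1.le fun y => ?_
    refine EPk_pt ht ?_ (C.chir_nonneg _ _) (C.chir_le_one _ _) (hd _ y hr).1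
    unfold sq
    linarith [sq_nonneg y.2]
  · refine EPk_int hδ hδ1.le fun y => ?_
    refine EPk_pt ht ?_ (C.chir_nonneg _ _) (C.chir_le_one _ _) (hd _ y hr).2
    unfold sq
    linarith [sq_nonneg y.1]

end

end Pool.Agent.MP4eed4eR.E
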