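import Pool.Agent.Lib.MP_4eed4e_an_R.C08
import Pool.Agent.Lib.MP_4eed4e_an_R.C11
import Pool.Agent.Lib.MP_4eed4e_an_RE.EFold
import Pool.Agent.Lib.MP_4eed4e_an_RE.EPk

/-!
MP_4eed4e_an, project R, block E, module EPos: phase space localisation in position (E4).

PROOFS. `h = hh δ`, `r = rad δ`, `th δ / 4 = 16 r`, `2 * (2 r) ≤ th δ / 4`; `w = cls D u`.
* `walls_near`: for `dist x V ≤ 2 ρ₀` and `(W.w1 x).2 ≠ 0` the number `(W.w1 x).1 ∈ G.A` has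
  distance less than `2 ρ₀ + th δ / 4 < 16 ρ₀` from `V.1 ∈ G.A` (`Walls.near1`, `Geo.Vgrid`), so
  it is `V.1` (`Geo.gapA`).
* `pos1`: for `z = (x, ξ)`, `x ∈ G.X δ`, `dist x V ≤ 2 ρ₀`: `key1` with `F = psic δ x ξ 0`, `a = t
  h` and `pk1` (`foldF` is linear) give `⟨fam 1 (-1) (envc δ 0), cls (X₁ u + i t h u₁)⟩ = (x₁ - V₁
  - t ξ₁) ⟨v_z, w⟩ + ⟨fam (-1) (-1) (envX1 δ t), w⟩` (inner products in `HD D` are integrals over
  `D`; `W.fam 1 (-1) (envc δ 0) (hh δ) x ξ` is `W.fold 1 (-1) x (psic δ x ξ 0)`; compare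
  `pkt_eq_fam`).
* `pos_int`: if `2 ρ₀ < dist x V` then `⟨v_z, w⟩ = 0`, because `v_z = 0` a.e. off the square of
  radius `th δ / 32` about `x` (`mass_v`; `G.X δ ⊆ G.Y δ`) and `u = 0` for `ρ₀ ≤ dist q V`. For
  the other `z` square `pos1` and `pos2`, use `‖a - b‖² ≤ 2 ‖a‖² + 2 ‖b‖²`, integrate and apply
  `bessel_fam` to `envc δ 0` (`env_envc`, `envc_norm_le`, signs `1, -1` and `-1, 1`) and to
  `envX1`, `envX2` (`envX_env`, `envX_norm`).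
-/

namespace Pool.Agent.MP4eed4eR.E

open MeasureTheory Set Filter Topology Metric
open scoped ComplexConjugate ContDiff

noncomputable section

variable {D : Set P}

theorem walls_near (G : Geo D) : ∀ᶠ δ in 𝓝[>] (0 : ℝ), ∀ W : Walls G (th δ / 4), ∀ V ∈ G.V,
    ∀ x : P, dist x V ≤ 2 * G.rho0 → ((W.w1 x).2 ≠ 0 → (W.w1 x).1 = V.1) ∧
      ((W.w2 x).2 ≠ 0 → (W.w2 x).1 = V.2) := by
  have h0 : Tendsto th (𝓝[>] (0 : ℝ)) (𝓝 0) := by
    have h : Continuous th := by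
      unfold th
      fun_prop
    have h1 := h.tendsto 0
    have h2 : th 0 = 0 := by
      unfold th
      norm_num
    rw [h2] at h1
    exact h1.mono_left nhdsWithin_le_nhds
  filter_upwards [h0.eventually (gt_mem_nhds G.pos)] with δ hδ W V hV x hx
  have hp := G.pos
  have hx1 : |x.1 - V.1| ≤ dist x V := by
    rw [Prod.dist_eq]
    exact le_max_left _ _
  have hx2 : |x.2 - V.2| ≤ dist x V := by
    rw [Prod.dist_eq]
    exact le_max_right _ _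
  constructor
  · intro hw
    obtain ⟨h1, h2⟩ := W.near1 x hw
    by_contra hne
    have h3 := G.gapA _ h1 _ (G.Vgrid V hV).1 hne
    have h4 : |(W.w1 x).1 - V.1| ≤ |(W.w1 x).1 - x.1| + |x.1 - V.1| := abs_sub_le _ _ _
    linarith
  · intro hw
    obtain ⟨h1, h2⟩ := W.near2 x hw
    by_contra hne
    have h3 := G.gapB _ h1 _ (G.Vgrid V hV).2 hne
    have h4 : |(W.w2 x).1 - V.2| ≤ |(W.w2 x).1 - x.2| + |x.2 - V.2| := abs_sub_le _ _ _
    linarith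

private theorem EPos_pos : ∀ᶠ δ in 𝓝[>] (0 : ℝ), 0 < δ :=
  eventually_mem_nhdsWithin

private theorem EPos_cls {f : P → ℂ} (hf : MemLp f 2 (volume.restrict D)) :
    cls D f = hf.toLp f :=
  dif_pos hf

private theorem EPos_coe {f : P → ℂ} (hf : MemLp f 2 (volume.restrict D)) :
    (cls D f : P → ℂ) =ᵐ[volume.restrict D] f := by
  rw [EPos_cls hf]
  exact hf.coeFn_toLp

private theorem EPos_inner {f g : P → ℂ} (hf : MemLp f 2 (volume.restrict D))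
    (hg : MemLp g 2 (volume.restrict D)) :
    (inner ℂ (cls D f) (cls D g) : ℂ) = ∫ q in D, conj (f q) * g q := by
  rw [L2.inner_def]
  refine integral_congr_ae ?_
  filter_upwards [EPos_coe hf, EPos_coe hg] with q h1 h2
  rw [h1, h2, RCLike.inner_apply']

private theorem EPos_norm {f : P → ℂ} (hf : MemLp f 2 (volume.restrict D)) :
    ‖cls D f‖ ^ 2 = ∫ q in D, ‖f q‖ ^ 2 := by
  have h1 : ((‖cls D f‖ ^ 2 : ℝ) : ℂ) = ∫ q in D, conj (f q) * f q := by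
    rw [← EPos_inner hf hf, inner_self_eq_norm_sq_to_K]
    norm_cast
  have h2 : (∫ q in D, conj (f q) * f q) = ((∫ q in D, ‖f q‖ ^ 2 : ℝ) : ℂ) := by
    rw [← integral_complex_ofReal]
    refine integral_congr_ae (Eventually.of_forall fun q => ?_)
    simp only
    rw [← Complex.normSq_eq_conj_mul_self, Complex.normSq_eq_norm_sq]
  rw [h2] at h1
  exact_mod_cast h1

/-- the folded function in the domain -/
private theorem EPos_fold (hD : MeasurableSet D) (Ψ g : P → ℂ) :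
    ∫ q in D, conj (D.indicator Ψ q) * g q = ∫ q in D, conj (Ψ q) * g q :=
  setIntegral_congr_fun hD fun q hq => by simp only [indicator_of_mem hq]

private theorem EPos_psic (δ : ℝ) (x ξ y : P) :
    envc δ 0 (y - x) * Complex.exp ((dot ξ (y - x) / hh δ : ℝ) * Complex.I) =
      psic δ x ξ 0 y := by
  unfold envc psic psi
  rw [Complex.exp_add]
  push_cast
  ring

private theorem EPos_mulX (hb : Bornology.IsBounded D) {u : P → ℂ} (hu : MemLp u 2 volume)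
    {X : P → ℝ} (hX : Continuous X) :
    MemLp (fun q => (X q : ℂ) * u q) 2 (volume.restrict D) := by
  obtain ⟨C, hC⟩ := (hb.isCompact_closure.image hX).isBounded.exists_norm_le
  have hm : AEStronglyMeasurable (fun q => (X q : ℂ) * u q) (volume.restrict D) :=
    ((Complex.continuous_ofReal.comp hX).aestronglyMeasurable.mul hu.1).restrict
  refine MemLp.of_le_mul (c := C) (hu.restrict D) hm ?_
  have h1 : ∀ᵐ q ∂(volume.restrict (closure D)), ‖(X q : ℂ) * u q‖ ≤ C * ‖u q‖ := by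
    refine (ae_restrict_iff' isClosed_closure.measurableSet).2 (Eventually.of_forall fun q hq => ?_)
    rw [norm_mul]
    refine mul_le_mul_of_nonneg_right ?_ (norm_nonneg _)
    have h2 := hC (X q) ⟨q, hq, rfl⟩
    rw [Complex.norm_real]
    exact h2
  exact ae_mono (Measure.restrict_mono subset_closure le_rfl) h1

/-- The common part of `pos1` and `pos2`. -/
private theorem EPos_main (hD : MeasurableSet D) {w₁ w₂ : ℝ × ℝ} {e₁ e₂ : ℝ}
    {F F' B : P → ℂ} {c : ℝ} {A g u : P → ℂ}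
    (hA : MemLp (D.indicator A) 2 (volume.restrict D))
    (hF : MemLp (D.indicator (foldF e₁ e₂ w₁ w₂ F)) 2 (volume.restrict D))
    (hB : MemLp (D.indicator (foldF e₁ e₂ w₁ w₂ B)) 2 (volume.restrict D))
    (hg : MemLp g 2 (volume.restrict D)) (hu : MemLp u 2 (volume.restrict D))
    (hF' : ∀ y, F' y = (c : ℂ) * F y + B y)
    (hk : ∫ q in D, conj (A q) * g q = ∫ q in D, conj (foldF e₁ e₂ w₁ w₂ F' q) * u q) :
    (inner ℂ (cls D (D.indicator A)) (cls D g) : ℂ) =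
      (c : ℂ) * inner ℂ (cls D (D.indicator (foldF e₁ e₂ w₁ w₂ F))) (cls D u) +
        inner ℂ (cls D (D.indicator (foldF e₁ e₂ w₁ w₂ B))) (cls D u) := by
  rw [EPos_inner hA hg, EPos_inner hF hu, EPos_inner hB hu, EPos_fold hD, hk]
  have hi : ∀ {Ψ : P → ℂ}, MemLp Ψ 2 (volume.restrict D) →
      Integrable (fun q => conj (Ψ q) * u q) (volume.restrict D) := fun h =>
    (h.star).integrable_mul hu
  have h1 := hi hF
  have h2 := hi hB
  rw [← integral_const_mul, ← integral_add (h1.const_mul _) h2]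
  refine setIntegral_congr_fun hD fun q hq => ?_
  simp only [indicator_of_mem hq]
  unfold foldF
  simp only [hF', map_add, map_mul, Complex.conj_ofReal]
  ring

theorem pos1 (G : Geo D) : ∀ᶠ δ in 𝓝[>] (0 : ℝ), ∀ W : Walls G (th δ / 4), ∀ V ∈ G.V,
    ∀ z : P × P, dist z.1 V ≤ 2 * G.rho0 → ∀ (t : ℝ) (u u₁ u₂ : P → ℂ), CH D u u₁ u₂ →
      (inner ℂ (cls D (W.fam 1 (-1) (envc δ 0) (hh δ) z.1 z.2))
        (cls D (fun q => ((q.1 - V.1 : ℝ) : ℂ) * u q +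
          Complex.I * ((t * hh δ : ℝ) : ℂ) * u₁ q)) : ℂ) =
      ((z.1.1 - V.1 - t * z.2.1 : ℝ) : ℂ) * inner ℂ (W.v δ z 0) (cls D u) +
        inner ℂ (cls D (W.fam (-1) (-1) (envX1 δ t) (hh δ) z.1 z.2)) (cls D u) := by
  filter_upwards [walls_near G, EPos_pos] with δ hn hδ W V hV z hz t u u₁ u₂ hu
  obtain ⟨m0, m1, m2⟩ := hu.memLp
  have hm := hn W V hV z.1 hz
  have hk := key1 G.isOpen G.isBounded (v := V) hm.1 (psic_smooth hδ z.1 z.2 0).1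
    (psic_smooth hδ z.1 z.2 0).2 hu (t * hh δ) (w₂ := W.w2 z.1)
  have hE0 := env_envc hδ 0
  have hE1 := (envX_env hδ t).1
  have a1 := (norm_fam_le W hE0 (h := hh δ) (e₁ := 1) (e₂ := -1) (Or.inl rfl) (Or.inr rfl)
    z.1 z.2).1
  have a2 := (norm_fam_le W hE1 (h := hh δ) (e₁ := -1) (e₂ := -1) (Or.inr rfl) (Or.inr rfl)
    z.1 z.2).1
  have a3 := (norm_fam_le W hE0 (h := hh δ) (e₁ := -1) (e₂ := -1) (Or.inr rfl) (Or.inr rfl)
    z.1 z.2).1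
  unfold Walls.fam Walls.fold at a1 a2 a3
  simp only [EPos_psic] at a1 a3
  unfold Walls.v Walls.pkt Walls.fam Walls.fold
  simp only [EPos_psic]
  have hg : MemLp (fun q => ((q.1 - V.1 : ℝ) : ℂ) * u q +
      Complex.I * ((t * hh δ : ℝ) : ℂ) * u₁ q) 2 (volume.restrict D) :=
    (EPos_mulX G.isBounded m0 (by fun_prop)).add ((m1.restrict D).const_mul _)
  exact EPos_main G.isOpen.measurableSet a1 a3 a2 hg (m0.restrict D)
    (fun y => pk1 hδ z.1 z.2 t V.1 y) hk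

theorem pos2 (G : Geo D) : ∀ᶠ δ in 𝓝[>] (0 : ℝ), ∀ W : Walls G (th δ / 4), ∀ V ∈ G.V,
    ∀ z : P × P, dist z.1 V ≤ 2 * G.rho0 → ∀ (t : ℝ) (u u₁ u₂ : P → ℂ), CH D u u₁ u₂ →
      (inner ℂ (cls D (W.fam (-1) 1 (envc δ 0) (hh δ) z.1 z.2))
        (cls D (fun q => ((q.2 - V.2 : ℝ) : ℂ) * u q +
          Complex.I * ((t * hh δ : ℝ) : ℂ) * u₂ q)) : ℂ) =
      ((z.1.2 - V.2 - t * z.2.2 : ℝ) : ℂ) * inner ℂ (W.v δ z 0) (cls D u) +
        inner ℂ (cls D (W.fam (-1) (-1) (envX2 δ t) (hh δ) z.1 z.2)) (cls D u) := by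
  filter_upwards [walls_near G, EPos_pos] with δ hn hδ W V hV z hz t u u₁ u₂ hu
  obtain ⟨m0, m1, m2⟩ := hu.memLp
  have hm := hn W V hV z.1 hz
  have hk := key2 G.isOpen G.isBounded (v := V) hm.2 (psic_smooth hδ z.1 z.2 0).1
    (psic_smooth hδ z.1 z.2 0).2 hu (t * hh δ) (w₁ := W.w1 z.1)
  have hE0 := env_envc hδ 0
  have hE1 := (envX_env hδ t).2
  have a1 := (norm_fam_le W hE0 (h := hh δ) (e₁ := -1) (e₂ := 1) (Or.inr rfl) (Or.inl rfl)
    z.1 z.2).1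
  have a2 := (norm_fam_le W hE1 (h := hh δ) (e₁ := -1) (e₂ := -1) (Or.inr rfl) (Or.inr rfl)
    z.1 z.2).1
  have a3 := (norm_fam_le W hE0 (h := hh δ) (e₁ := -1) (e₂ := -1) (Or.inr rfl) (Or.inr rfl)
    z.1 z.2).1
  unfold Walls.fam Walls.fold at a1 a2 a3
  simp only [EPos_psic] at a1 a3
  unfold Walls.v Walls.pkt Walls.fam Walls.fold
  simp only [EPos_psic]
  have hg : MemLp (fun q => ((q.2 - V.2 : ℝ) : ℂ) * u q +
      Complex.I * ((t * hh δ : ℝ) : ℂ) * u₂ q) 2 (volume.restrict D) :=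
    (EPos_mulX G.isBounded m0 (by fun_prop)).add ((m2.restrict D).const_mul _)
  exact EPos_main G.isOpen.measurableSet a1 a3 a2 hg (m0.restrict D)
    (fun y => pk2 hδ z.1 z.2 t V.2 y) hk

private theorem EPos_X (G : Geo D) (δ : ℝ) : MeasurableSet (G.X δ) := by
  have h1 : G.X δ = D ∩ ⋂ v ∈ G.V, {x : P | th δ ≤ dist x v} := by
    ext x
    simp only [Geo.X, Geo.Far, mem_inter_iff, mem_iInter, mem_ofPred_eq]
  rw [h1]
  refine G.isOpen.measurableSet.inter (Finset.measurableSet_biInter _ fun v _ => ?_)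
  exact (isClosed_le continuous_const (continuous_id.dist continuous_const)).measurableSet

private theorem EPos_XY {G : Geo D} {δ : ℝ} (hδ : 0 < δ) : G.X δ ⊆ G.Y δ := fun x hx =>
  ⟨subset_closure hx.1, fun v hv => by
    have h1 := hx.2 v hv
    have h2 : 0 < th δ := by
      unfold th
      positivity
    linarith⟩

private theorem EPos_th (G : Geo D) : ∀ᶠ δ in 𝓝[>] (0 : ℝ), th δ / 32 < G.rho0 := by
  have h0 : Tendsto (fun δ => th δ / 32) (𝓝[>] (0 : ℝ)) (𝓝 0) := by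
    have h : Continuous (fun δ => th δ / 32) := by
      unfold th
      fun_prop
    have h1 := h.tendsto 0
    have h2 : th 0 / 32 = 0 := by
      unfold th
      norm_num
    rw [h2] at h1
    exact h1.mono_left nhdsWithin_le_nhds
  exact h0.eventually (gt_mem_nhds G.pos)

private theorem EPos_far {G : Geo D} {δ : ℝ} (hδ : th δ / 32 < G.rho0)
    {W : Walls G (th δ / 4)} {z : P × P} {V : P}
    (hm : ∀ᵐ q ∂(volume.restrict D), th δ / 32 < dist q z.1 → (W.v δ z 0 : P → ℂ) q = 0)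
    (hz : 2 * G.rho0 < dist z.1 V) {u : P → ℂ} (hu : MemLp u 2 (volume.restrict D))
    (h0 : ∀ q, G.rho0 ≤ dist q V → u q = 0) :
    (inner ℂ (W.v δ z 0) (cls D u) : ℂ) = 0 := by
  rw [L2.inner_def]
  have h : ∀ᵐ q ∂(volume.restrict D),
      (inner ℂ ((W.v δ z 0 : P → ℂ) q) ((cls D u : P → ℂ) q) : ℂ) = 0 := by
    filter_upwards [hm, EPos_coe hu] with q h1 h2
    by_cases h3 : th δ / 32 < dist q z.1
    · rw [h1 h3, inner_zero_left]
    · have h4 : G.rho0 ≤ dist q V := by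
        have h5 := dist_triangle z.1 q V
        rw [dist_comm z.1 q] at h5
        linarith [not_lt.1 h3]
      rw [h2, h0 q h4, inner_zero_right]
  rw [integral_congr_ae h, integral_zero]

private theorem EPos_two (a b p : ℂ) (h : a = p + b) : ‖p‖ ^ 2 ≤ 2 * (‖a‖ ^ 2 + ‖b‖ ^ 2) := by
  have h1 : p = a - b := by
    rw [h]
    ring
  have h2 : ‖p‖ ≤ ‖a‖ + ‖b‖ := by
    rw [h1]
    exact norm_sub_le _ _
  nlinarith [norm_nonneg p, norm_nonneg a, norm_nonneg b, sq_nonneg (‖a‖ - ‖b‖)]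

private theorem EPos_lint {μ : Measure (P × P)} {f₁ f₂ f₃ f₄ : P × P → ℝ}
    (_ : Measurable f₁) (h2 : Measurable f₂) (h3 : Measurable f₃)
    (h4 : Measurable f₄) (A₁ A₂ A₃ A₄ : ℝ) (p1 : 0 ≤ A₁) (p2 : 0 ≤ A₂) (p3 : 0 ≤ A₃) (p4 : 0 ≤ A₄)
    (i1 : ∫⁻ z, ENNReal.ofReal (f₁ z) ∂μ ≤ ENNReal.ofReal A₁)
    (i2 : ∫⁻ z, ENNReal.ofReal (f₂ z) ∂μ ≤ ENNReal.ofReal A₂)
    (i3 : ∫⁻ z, ENNReal.ofReal (f₃ z) ∂μ ≤ ENNReal.ofReal A₃)
    (i4 : ∫⁻ z, ENNReal.ofReal (f₄ z) ∂μ ≤ ENNReal.ofReal A₄) :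
    ∫⁻ z, (ENNReal.ofReal 2 * (ENNReal.ofReal (f₁ z) + ENNReal.ofReal (f₂ z) +
      ENNReal.ofReal (f₃ z) + ENNReal.ofReal (f₄ z))) ∂μ ≤
      ENNReal.ofReal (2 * (A₁ + A₂ + A₃ + A₄)) := by
  rw [lintegral_const_mul' _ _ ENNReal.ofReal_ne_top,
    lintegral_add_right _ h4.ennreal_ofReal, lintegral_add_right _ h3.ennreal_ofReal,
    lintegral_add_right _ h2.ennreal_ofReal, ENNReal.ofReal_mul (by norm_num),
    ENNReal.ofReal_add (by positivity) p4, ENNReal.ofReal_add (by positivity) p3,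
    ENNReal.ofReal_add p1 p2]
  gcongr

private theorem EPos_set {f : P → ℂ} (hf : ∀ᵐ q ∂volume, q ∉ D → f q = 0) :
    ∫ q, ‖f q‖ ^ 2 = ∫ q in D, ‖f q‖ ^ 2 := by
  symm
  refine setIntegral_eq_integral_of_ae_compl_eq_zero ?_
  filter_upwards [hf] with q h hq
  rw [h hq, norm_zero]
  norm_num

private theorem EPos_set2 {f g : P → ℂ} (hf : ∀ᵐ q ∂volume, q ∉ D → f q = 0)
    (hg : ∀ᵐ q ∂volume, q ∉ D → g q = 0) (mf : MemLp f 2 (volume.restrict D))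
    (mg : MemLp g 2 (volume.restrict D)) :
    ∫ q, (‖f q‖ ^ 2 + ‖g q‖ ^ 2) = (∫ q in D, ‖f q‖ ^ 2) + ∫ q in D, ‖g q‖ ^ 2 := by
  rw [← integral_add mf.norm.integrable_sq mg.norm.integrable_sq]
  symm
  refine setIntegral_eq_integral_of_ae_compl_eq_zero ?_
  filter_upwards [hf, hg] with q h h' hq
  rw [h hq, h' hq, norm_zero]
  norm_num

theorem pos_int (G : Geo D) : ∃ C : ℝ, 0 ≤ C ∧ ∀ᶠ δ in 𝓝[>] (0 : ℝ),
    ∀ W : Walls G (th δ / 4), ∀ V ∈ G.V, ∀ t : ℝ, 0 ≤ t → t ≤ 1 → ∀ u u₁ u₂ : P → ℂ,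
      CH D u u₁ u₂ → (∀ q, G.rho0 ≤ dist q V → u q = 0) → ∀ Q N : ℝ,
      ∫ q, (‖((q.1 - V.1 : ℝ) : ℂ) * u q + Complex.I * ((t * hh δ : ℝ) : ℂ) * u₁ q‖ ^ 2 +
        ‖((q.2 - V.2 : ℝ) : ℂ) * u q + Complex.I * ((t * hh δ : ℝ) : ℂ) * u₂ q‖ ^ 2) ≤ Q →
      ∫ q, ‖u q‖ ^ 2 ≤ N →
      ∫⁻ z in G.X δ ×ˢ (univ : Set P), ENNReal.ofReal
        (sq (z.1 - (V + t • z.2)) * ‖(inner ℂ (W.v δ z 0) (cls D u) : ℂ)‖ ^ 2) ≤
        ENNReal.ofReal (C * (hh δ ^ 2 * (Q + hh δ * N))) := by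
  obtain ⟨C', hC', hE⟩ := envX_norm
  refine ⟨8 * (2 * Real.pi) ^ 2 * (1 + 2 * C'), by positivity, ?_⟩
  filter_upwards [hE, pos1 G, pos2 G, bessel_fam G, mass_v G, EPos_pos, EPos_th G] with
    δ hE p1 p2 hB hM hδ hth W V hV t ht0 ht1 u u₁ u₂ hu h0 Q N hQ hN
  obtain ⟨m0, m1, m2⟩ := hu.memLp
  obtain ⟨z0, z1, z2⟩ := hu.zero G.isOpen
  have hX := EPos_X G δ
  have hXY : G.X δ ⊆ G.Y δ := EPos_XY hδ
  have hh0 : 0 < hh δ := by
    unfold hh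
    positivity
  have mw1 : MemLp (fun q => ((q.1 - V.1 : ℝ) : ℂ) * u q +
      Complex.I * ((t * hh δ : ℝ) : ℂ) * u₁ q) 2 (volume.restrict D) :=
    (EPos_mulX G.isBounded m0 (by fun_prop)).add ((m1.restrict D).const_mul _)
  have mw2 : MemLp (fun q => ((q.2 - V.2 : ℝ) : ℂ) * u q +
      Complex.I * ((t * hh δ : ℝ) : ℂ) * u₂ q) 2 (volume.restrict D) :=
    (EPos_mulX G.isBounded m0 (by fun_prop)).add ((m2.restrict D).const_mul _)
  have zw1 : ∀ᵐ q ∂volume, q ∉ D → ((q.1 - V.1 : ℝ) : ℂ) * u q +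
      Complex.I * ((t * hh δ : ℝ) : ℂ) * u₁ q = 0 := by
    filter_upwards [z0, z1] with q a b hq
    rw [a hq, b hq, mul_zero, mul_zero, add_zero]
  have zw2 : ∀ᵐ q ∂volume, q ∉ D → ((q.2 - V.2 : ℝ) : ℂ) * u q +
      Complex.I * ((t * hh δ : ℝ) : ℂ) * u₂ q = 0 := by
    filter_upwards [z0, z2] with q a b hq
    rw [a hq, b hq, mul_zero, mul_zero, add_zero]
  rw [EPos_set2 zw1 zw2 mw1 mw2, ← EPos_norm mw1, ← EPos_norm mw2] at hQ
  rw [EPos_set z0, ← EPos_norm (m0.restrict D)] at hN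
  obtain ⟨f1, hf1⟩ : ∃ f, f = cls D (fun q => ((q.1 - V.1 : ℝ) : ℂ) * u q +
      Complex.I * ((t * hh δ : ℝ) : ℂ) * u₁ q) := ⟨_, rfl⟩
  obtain ⟨f2, hf2⟩ : ∃ f, f = cls D (fun q => ((q.2 - V.2 : ℝ) : ℂ) * u q +
      Complex.I * ((t * hh δ : ℝ) : ℂ) * u₂ q) := ⟨_, rfl⟩
  obtain ⟨fu, hfu⟩ : ∃ f, f = cls D u := ⟨_, rfl⟩
  have hfar := fun (z : P × P) (hz : z.1 ∈ G.Y δ) (hz2 : 2 * G.rho0 < dist z.1 V) =>
    EPos_far hth (hM W z hz 0) hz2 (m0.restrict D) h0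
  rw [← hf1, ← hf2] at hQ
  rw [← hfu] at hN hfar ⊢
  have key : ∀ E : P → ℂ, Env E (2 * rad δ) → ∀ e₁ e₂ : ℝ, (e₁ = 1 ∨ e₁ = -1) →
      (e₂ = 1 ∨ e₂ = -1) → ∀ (f : HD D) (M : ℝ), ∫ y, ‖E y‖ ^ 2 ≤ M →
      ∫⁻ z in G.X δ ×ˢ (univ : Set P), ENNReal.ofReal
        (‖(inner ℂ (cls D (W.fam e₁ e₂ E (hh δ) z.1 z.2)) f : ℂ)‖ ^ 2) ≤
        ENNReal.ofReal (4 * (2 * Real.pi * hh δ) ^ 2 * M * ‖f‖ ^ 2) := by
    intro E hE e₁ e₂ he₁ he₂ f M hM'
    refine (lintegral_mono_set (prod_mono hXY subset_rfl)).trans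
      ((hB W E hE e₁ e₂ he₁ he₂ f).trans (ENNReal.ofReal_le_ofReal ?_))
    gcongr
  have hE0 := env_envc hδ 0
  have hE1 := envX_env hδ t
  have ht : |t| ≤ 1 := abs_le.2 ⟨by linarith, ht1⟩
  have hn := hE t ht
  have hpt : ∀ z ∈ G.X δ ×ˢ (univ : Set P), ENNReal.ofReal
      (sq (z.1 - (V + t • z.2)) * ‖(inner ℂ (W.v δ z 0) fu : ℂ)‖ ^ 2) ≤
      ENNReal.ofReal 2 * (ENNReal.ofReal
        (‖(inner ℂ (cls D (W.fam 1 (-1) (envc δ 0) (hh δ) z.1 z.2)) f1 : ℂ)‖ ^ 2) +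
      ENNReal.ofReal
        (‖(inner ℂ (cls D (W.fam (-1) (-1) (envX1 δ t) (hh δ) z.1 z.2)) fu : ℂ)‖ ^ 2) +
      ENNReal.ofReal
        (‖(inner ℂ (cls D (W.fam (-1) 1 (envc δ 0) (hh δ) z.1 z.2)) f2 : ℂ)‖ ^ 2) +
      ENNReal.ofReal
        (‖(inner ℂ (cls D (W.fam (-1) (-1) (envX2 δ t) (hh δ) z.1 z.2)) fu : ℂ)‖ ^ 2)) := by
    rintro z ⟨hz, -⟩
    rw [← ENNReal.ofReal_add (by positivity) (by positivity),
      ← ENNReal.ofReal_add (by positivity) (by positivity),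
      ← ENNReal.ofReal_add (by positivity) (by positivity), ← ENNReal.ofReal_mul (by norm_num)]
    refine ENNReal.ofReal_le_ofReal ?_
    rcases le_or_gt (dist z.1 V) (2 * G.rho0) with h2 | h2
    · have e1 := p1 W V hV z h2 t u u₁ u₂ hu
      have e2 := p2 W V hV z h2 t u u₁ u₂ hu
      rw [← hf1, ← hfu] at e1
      rw [← hf2, ← hfu] at e2
      have e3 := EPos_two _ _ _ e1
      have e4 := EPos_two _ _ _ e2
      rw [norm_mul, mul_pow, Complex.norm_real, Real.norm_eq_abs, sq_abs] at e3 e4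
      have e5 : sq (z.1 - (V + t • z.2)) =
          (z.1.1 - V.1 - t * z.2.1) ^ 2 + (z.1.2 - V.2 - t * z.2.2) ^ 2 := by
        unfold sq
        simp only [Prod.fst_sub, Prod.snd_sub, Prod.fst_add, Prod.snd_add, Prod.smul_fst,
          Prod.smul_snd, smul_eq_mul]
        ring
      rw [e5, add_mul]
      linarith
    · rw [hfar z (hXY hz) h2, norm_zero]
      have : (0 : ℝ) ^ 2 = 0 := by norm_num
      rw [this, mul_zero]
      positivity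
  refine (setLIntegral_mono' (hX.prod MeasurableSet.univ) hpt).trans ?_
  have hmi : ∀ (E : P → ℂ), Env E (2 * rad δ) → ∀ (e₁ e₂ : ℝ) (f : HD D), Measurable
      (fun z : P × P => ‖(inner ℂ (cls D (W.fam e₁ e₂ E (hh δ) z.1 z.2)) f : ℂ)‖ ^ 2) :=
    fun E hE e₁ e₂ f => (measurable_inner_fam W hE e₁ e₂ f).norm.pow_const 2
  refine (EPos_lint (hmi _ hE0 _ _ _) (hmi _ hE1.1 _ _ _) (hmi _ hE0 _ _ _) (hmi _ hE1.2 _ _ _)
    _ _ _ _ ?_ ?_ ?_ ?_ (key _ hE0 1 (-1) (Or.inl rfl) (Or.inr rfl) f1 1 (envc_norm_le hδ 0))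
    (key _ hE1.1 (-1) (-1) (Or.inr rfl) (Or.inr rfl) fu _ hn.1)
    (key _ hE0 (-1) 1 (Or.inr rfl) (Or.inl rfl) f2 1 (envc_norm_le hδ 0))
    (key _ hE1.2 (-1) (-1) (Or.inr rfl) (Or.inr rfl) fu _ hn.2)).trans ?_
  · positivity
  · positivity
  · positivity
  · positivity
  refine ENNReal.ofReal_le_ofReal ?_
  have q1 : 0 ≤ hh δ * N := mul_nonneg hh0.le ((sq_nonneg _).trans hN)
  have q2 : 0 ≤ Q := (add_nonneg (sq_nonneg _) (sq_nonneg _)).trans hQ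
  have q3 : hh δ * ‖fu‖ ^ 2 ≤ hh δ * N := mul_le_mul_of_nonneg_left hN hh0.le
  have q4 : C' * (hh δ * ‖fu‖ ^ 2) ≤ C' * (hh δ * N) := mul_le_mul_of_nonneg_left q3 hC'
  have q5 : ‖f1‖ ^ 2 + ‖f2‖ ^ 2 + 2 * (C' * (hh δ * ‖fu‖ ^ 2)) ≤
      (1 + 2 * C') * (Q + hh δ * N) := by
    nlinarith [mul_nonneg hC' q2, mul_nonneg hC' q1]
  have q6 : 0 ≤ 8 * (2 * Real.pi) ^ 2 * hh δ ^ 2 := by positivity
  have q7 := mul_le_mul_of_nonneg_left q5 q6
  refine le_trans (le_of_eq ?_) (q7.trans (le_of_eq ?_))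
  · ring
  · ring

end

end Pool.Agent.MP4eed4eR.E
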