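import Pool.Agent.Lib.MP_4eed4e_an_RE.EEn
import Pool.Agent.Lib.MP_4eed4e_an_RE.ELoc
import Pool.Agent.Lib.MP_4eed4e_an_RE.ENear
import Pool.Agent.Lib.MP_4eed4e_an_RE.EPos

/-!
MP_4eed4e_an, project R, block E, module EFprof: the profile for finite sums of eigenfunctions.

PROOF. `r = G.rho0 / 2`, `h = hh δ ≤ θ²`, `θ = th δ`, `c₁ = cev S h t₁ c`, `F = fs S s c₁`, `w = W0`
`= η F`, all functions are in `L²` (`cdom_W`, `cdom_fs`) and vanish a.e. off `D` (`CH.zero`), so the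
integrals over `D` and over the plane agree.
* Norm: `F - w = (1 - η) F` vanishes for `dist q V ≤ r`; `out_est` (`ρ₀ / 4 ≤ ρ₀ / 2`).
* Masses: for `V' = V` `near_mass` and `‖w‖ ≤ ‖F‖`; for `V' ≠ V` one coordinate of `V' - V` is at
  least `16 ρ₀` in absolute value (`Geo.Vgrid`, `gapA`, `gapB`) and `w = 0` for `ρ₀ ≤ dist q V`.
* Phase space: the set is contained in the union of `{a1 < dist z.1 (V + t₁ • z.2)}` and `{a1 <
  |sq z.2 - 1|}` (`lintegral_union_le`). On the first `a1² ≤ sq (z.1 - (V + t₁ • z.2))`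
  (`C.dist_sq_le`), and `pos_int` with `u = W0`, `Q = C θ²` (`virial` at `t₁`; `Qd` is the
  integrand), `N = 16`. On the second `en_int` with `a = a1 δ`, `g = cls D (h² WL - W0)`
  (`co_cdom` for `cdom_W`), `‖g‖² ≤ C θ²` (last part of `shell_W`), `‖w‖² ≤ 16`.
-/

namespace Pool.Agent.MP4eed4eR.E

open MeasureTheory Set Filter Topology Metric
open scoped ComplexConjugate ContDiff

noncomputable section

variable {D : Set P}

private theorem EFprof_smul (a : ℂ) {f : P → ℂ} (hf : MemLp f 2 (volume.restrict D)) :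
    cls D (fun q => a * f q) = a • cls D f := by
  have h1 : MemLp (fun q => a * f q) 2 (volume.restrict D) := hf.const_mul a
  unfold cls
  rw [dif_pos h1, dif_pos hf]
  rfl

private theorem EFprof_sq {f : P → ℂ} (hf : MemLp f 2 volume) :
    Integrable (fun q => ‖f q‖ ^ 2) :=
  (memLp_two_iff_integrable_sq_norm hf.aestronglyMeasurable).1 hf

private theorem EFprof_clsn {f : P → ℂ} (hf : MemLp f 2 volume) :
    ‖cls D f‖ ^ 2 ≤ ∫ q, ‖f q‖ ^ 2 := by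
  rw [norm_cls_sq (hf.restrict D)]
  exact setIntegral_le_integral (EFprof_sq hf) (Eventually.of_forall fun q => sq_nonneg _)

private theorem EFprof_le (S : Spec D) (V : P) (r : ℝ) (s : Finset ℕ) (c : ℕ → ℂ) (q : P) :
    ‖W0 S V r s c q‖ ≤ ‖fs S s c q‖ := by
  have h := cutV_mem V r q
  rw [W0, norm_mul, Complex.norm_real, Real.norm_of_nonneg h.1]
  exact mul_le_of_le_one_left (norm_nonneg _) h.2

private theorem EFprof_far (S : Spec D) {V : P} {ρ : ℝ} (hρ : 0 < ρ) (s : Finset ℕ)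
    (c : ℕ → ℂ) {q : P} (hq : ρ ≤ dist q V) : W0 S V (ρ / 2) s c q = 0 := by
  rw [W0, cutV_zero (half_pos hρ) (by linarith), Complex.ofReal_zero, zero_mul]

private theorem EFprof_diff (S : Spec D) (V : P) {ρ : ℝ} (hρ : 0 < ρ) (s : Finset ℕ)
    (c : ℕ → ℂ) (q : P) : ‖fs S s c q - W0 S V (ρ / 2) s c q‖ ^ 2 ≤
      {q : P | ρ / 4 ≤ dist q V}.indicator (fun q => ‖fs S s c q‖ ^ 2) q := by
  by_cases hq : ρ / 4 ≤ dist q V
  · have hm : q ∈ {q : P | ρ / 4 ≤ dist q V} := hq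
    rw [indicator_of_mem hm]
    refine pow_le_pow_left₀ (norm_nonneg _) ?_ 2
    have h := cutV_mem V (ρ / 2) q
    have e : fs S s c q - W0 S V (ρ / 2) s c q =
        ((1 - cutV V (ρ / 2) q : ℝ) : ℂ) * fs S s c q := by
      rw [W0]
      push_cast
      ring
    rw [e, norm_mul, Complex.norm_real, Real.norm_of_nonneg (by linarith [h.2])]
    exact mul_le_of_le_one_left (norm_nonneg _) (by linarith [h.1])
  · have hm : q ∉ {q : P | ρ / 4 ≤ dist q V} := hq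
    rw [indicator_of_notMem hm]
    have h1 : cutV V (ρ / 2) q = 1 := cutV_one (half_pos hρ) (by linarith)
    rw [W0, h1, Complex.ofReal_one, one_mul, sub_self, norm_zero]
    norm_num

private theorem EFprof_norm (S : Spec D) (V : P) {ρ : ℝ} (hρ : 0 < ρ) (s : Finset ℕ)
    (c : ℕ → ℂ) : ‖cls D (fs S s c) - cls D (W0 S V (ρ / 2) s c)‖ ^ 2 ≤
      ∫ q in {q : P | ρ / 4 ≤ dist q V}, ‖fs S s c q‖ ^ 2 := by
  have hF : MemLp (fs S s c) 2 volume := (cdom_fs S s c).ch.memLp.1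
  have hW : MemLp (W0 S V (ρ / 2) s c) 2 volume :=
    (cdom_W S V (half_pos hρ) s c).ch.memLp.1
  have hms : MeasurableSet {q : P | ρ / 4 ≤ dist q V} :=
    (isClosed_le continuous_const (continuous_id.dist continuous_const)).measurableSet
  have hi : Integrable ({q : P | ρ / 4 ≤ dist q V}.indicator (fun q => ‖fs S s c q‖ ^ 2)) :=
    (EFprof_sq hF).indicator hms
  rw [← cls_sub (hF.restrict D) (hW.restrict D)]
  refine (EFprof_clsn (hF.sub hW)).trans ?_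
  rw [← integral_indicator hms]
  exact integral_mono (EFprof_sq (hF.sub hW)) hi (EFprof_diff S V hρ s c)

private theorem EFprof_mass {A : Set P} {f : P → ℂ} (hf : MemLp f 2 (volume.restrict D)) :
    mass A (cls D f) = ∫ q in A ∩ D, ‖f q‖ ^ 2 := by
  unfold mass
  refine integral_congr_ae ?_
  have h1 := ae_mono (Measure.restrict_mono (inter_subset_right : A ∩ D ⊆ D) le_rfl)
    (cls_coe hf)
  filter_upwards [h1] with q hq
  rw [hq]

private theorem EFprof_mass1 (S : Spec D) (V : P) {ρ : ℝ} (hρ : 0 < ρ) (s : Finset ℕ)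
    (c : ℕ → ℂ) (θ : ℝ) : mass (ball V θ) (cls D (W0 S V (ρ / 2) s c)) ≤
      ∫ q in {q : P | dist q V ≤ θ}, ‖fs S s c q‖ ^ 2 := by
  have hF : MemLp (fs S s c) 2 volume := (cdom_fs S s c).ch.memLp.1
  have hW : MemLp (W0 S V (ρ / 2) s c) 2 volume :=
    (cdom_W S V (half_pos hρ) s c).ch.memLp.1
  rw [EFprof_mass (hW.restrict D)]
  have h1 : ∫ q in ball V θ ∩ D, ‖W0 S V (ρ / 2) s c q‖ ^ 2 ≤
      ∫ q in ball V θ ∩ D, ‖fs S s c q‖ ^ 2 :=
    integral_mono (EFprof_sq hW).integrableOn (EFprof_sq hF).integrableOn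
      fun q => pow_le_pow_left₀ (norm_nonneg _) (EFprof_le S V _ s c q) 2
  refine h1.trans (setIntegral_mono_set (EFprof_sq hF).integrableOn
    (Eventually.of_forall fun q => sq_nonneg _) (LE.le.eventuallyLE ?_))
  intro q hq
  exact (mem_ball.1 hq.1).le

private theorem EFprof_mass2 (S : Spec D) {V V' : P} {ρ : ℝ} (hρ : 0 < ρ) (s : Finset ℕ)
    (c : ℕ → ℂ) {θ : ℝ} (h : ρ + θ ≤ dist V V') :
    mass (ball V' θ) (cls D (W0 S V (ρ / 2) s c)) = 0 := by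
  have hW : MemLp (W0 S V (ρ / 2) s c) 2 volume :=
    (cdom_W S V (half_pos hρ) s c).ch.memLp.1
  rw [EFprof_mass (hW.restrict D)]
  refine setIntegral_eq_zero_of_forall_eq_zero fun q hq => ?_
  have h1 : dist q V' < θ := mem_ball.1 hq.1
  have h2 := dist_triangle V q V'
  rw [dist_comm V q] at h2
  rw [EFprof_far S hρ s c (by linarith), norm_zero]
  norm_num

private theorem EFprof_gap (G : Geo D) {V V' : P} (hV : V ∈ G.V) (hV' : V' ∈ G.V)
    (h : V' ≠ V) : 16 * G.rho0 ≤ dist V V' := by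
  rw [Prod.dist_eq, Real.dist_eq, Real.dist_eq]
  by_cases h1 : V.1 = V'.1
  · have h2 : V.2 ≠ V'.2 := fun h2 => h (Prod.ext h1.symm h2.symm)
    exact (G.gapB _ (G.Vgrid V hV).2 _ (G.Vgrid V' hV').2 h2).trans (le_max_right _ _)
  · exact (G.gapA _ (G.Vgrid V hV).1 _ (G.Vgrid V' hV').1 h1).trans (le_max_left _ _)

private theorem EFprof_measX (G : Geo D) (δ : ℝ) : MeasurableSet (G.X δ) := by
  have h1 : G.X δ = D ∩ ⋂ v ∈ G.V, {x : P | th δ ≤ dist x v} := by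
    ext x
    simp only [Geo.X, Geo.Far, mem_iInter, mem_inter_iff, mem_ofPred_eq]
  rw [h1]
  refine G.isOpen.measurableSet.inter (Finset.measurableSet_biInter _ fun v _ => ?_)
  exact (isClosed_le continuous_const (continuous_id.dist continuous_const)).measurableSet

private theorem EFprof_cheb {X : Set P} (hX : MeasurableSet X) {a : ℝ} (ha : 0 < a)
    {g : P × P → ℝ} (hg : ∀ z, 0 ≤ g z) (V : P) (t : ℝ) {B : ℝ}
    (h : ∫⁻ z in X ×ˢ (univ : Set P), ENNReal.ofReal (sq (z.1 - (V + t • z.2)) * g z) ≤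
      ENNReal.ofReal B) :
    ∫⁻ z in {z : P × P | z.1 ∈ X ∧ a < dist z.1 (V + t • z.2)}, ENNReal.ofReal (g z) ≤
      ENNReal.ofReal (B / a ^ 2) := by
  have ha2 : 0 < a ^ 2 := by positivity
  have hm : MeasurableSet {z : P × P | z.1 ∈ X ∧ a < dist z.1 (V + t • z.2)} := by
    refine (measurable_fst hX).inter ?_
    have hc : Continuous fun z : P × P => dist z.1 (V + t • z.2) := by fun_prop
    exact (isOpen_lt continuous_const hc).measurableSet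
  calc ∫⁻ z in {z : P × P | z.1 ∈ X ∧ a < dist z.1 (V + t • z.2)}, ENNReal.ofReal (g z)
      ≤ ∫⁻ z in {z : P × P | z.1 ∈ X ∧ a < dist z.1 (V + t • z.2)},
          ENNReal.ofReal (a ^ 2)⁻¹ * ENNReal.ofReal (sq (z.1 - (V + t • z.2)) * g z) := by
        refine setLIntegral_mono' hm fun z hz => ?_
        rw [← ENNReal.ofReal_mul (inv_nonneg.2 ha2.le)]
        refine ENNReal.ofReal_le_ofReal ?_
        have h1 := C.dist_sq_le z.1 (V + t • z.2)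
        have h2 : a ^ 2 ≤ dist z.1 (V + t • z.2) ^ 2 := pow_le_pow_left₀ ha.le hz.2.le 2
        have h3 : a ^ 2 * g z ≤ sq (z.1 - (V + t • z.2)) * g z :=
          mul_le_mul_of_nonneg_right (h2.trans h1) (hg z)
        have h4 := mul_le_mul_of_nonneg_left h3 (inv_nonneg.2 ha2.le)
        rwa [← mul_assoc, inv_mul_cancel₀ ha2.ne', one_mul] at h4
    _ ≤ ∫⁻ z in X ×ˢ (univ : Set P),
          ENNReal.ofReal (a ^ 2)⁻¹ * ENNReal.ofReal (sq (z.1 - (V + t • z.2)) * g z) :=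
        lintegral_mono_set fun z hz => ⟨hz.1, mem_univ _⟩
    _ = ENNReal.ofReal (a ^ 2)⁻¹ * ∫⁻ z in X ×ˢ (univ : Set P),
          ENNReal.ofReal (sq (z.1 - (V + t • z.2)) * g z) :=
        lintegral_const_mul' _ _ ENNReal.ofReal_ne_top
    _ ≤ ENNReal.ofReal (a ^ 2)⁻¹ * ENNReal.ofReal B := mul_le_mul_right h _
    _ = ENNReal.ofReal (B / a ^ 2) := by
        rw [← ENNReal.ofReal_mul (inv_nonneg.2 ha2.le)]
        congr 1
        ring

theorem fprofile (S : Spec D) (G : Geo D) {t₁ : ℝ} (ht₁ : 0 < t₁) (ht₁' : t₁ ≤ G.rho0 / 32)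
    (C₀ : ℝ) : ∃ C : ℝ, 0 ≤ C ∧ ∀ᶠ δ in 𝓝[>] (0 : ℝ), ∀ W : Walls G (th δ / 4), ∀ V ∈ G.V,
    ∀ (s : Finset ℕ) (c : ℕ → ℂ), Dat S V C₀ δ s c →
      ‖cls D (fs S s (cev S (hh δ) t₁ c)) -
        cls D (W0 S V (G.rho0 / 2) s (cev S (hh δ) t₁ c))‖ ^ 2 ≤ C * th δ ^ 2 ∧
      (∀ V' ∈ G.V, mass (ball V' (3 * th δ))
        (cls D (W0 S V (G.rho0 / 2) s (cev S (hh δ) t₁ c))) ≤ C * th δ) ∧
      ∫⁻ z in {z : P × P | z.1 ∈ G.X δ ∧ (a1 δ < dist z.1 (V + t₁ • z.2) ∨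
          a1 δ < |sq z.2 - 1|)}, ENNReal.ofReal (‖(inner ℂ (W.v δ z 0)
            (cls D (W0 S V (G.rho0 / 2) s (cev S (hh δ) t₁ c))) : ℂ)‖ ^ 2) ≤
        ENNReal.ofReal (C * (hh δ ^ 2 * th δ ^ 2 / a1 δ ^ 2)) := by
  obtain ⟨K1, hK1, e1⟩ := out_est S G C₀
  obtain ⟨K2, hK2, e2⟩ := near_mass S G C₀ ht₁ ht₁'
  obtain ⟨K3, hK3, e3⟩ := virial S G C₀
  obtain ⟨K4, hK4, e4⟩ := pos_int G
  obtain ⟨K5, hK5, e5⟩ := en_int S G
  obtain ⟨K6, hK6, e6⟩ := shell_W S G C₀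
  refine ⟨K1 + K2 + (K4 * (K3 + 16) + K5 * (K6 + 16)), by positivity, ?_⟩
  filter_upwards [e1, e2, e3, e4, e5, e6, C.ev_geo G] with δ e1 e2 e3 e4 e5 e6 hg
  intro W V hV s c hdat
  obtain ⟨hδ, hδ', -, hθρ⟩ := hg
  have hρ := G.pos
  have hρ1 := G.le_one
  have hθ : 0 < th δ := C.th_pos hδ
  have hh0 : 0 < hh δ := C.hh_pos hδ
  have hδ1 : δ ≤ 1 := by linarith
  have ha : 0 < a1 δ := pow_pos hδ _
  have ha1 : a1 δ ≤ 1 := pow_le_one₀ hδ.le hδ1
  have hhθ : hh δ ≤ th δ ^ 2 := by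
    unfold hh th
    rw [← pow_mul]
    exact pow_le_pow_of_le_one hδ.le hδ1 (by norm_num)
  obtain ⟨c₁, hc₁⟩ : ∃ c₁, c₁ = cev S (hh δ) t₁ c := ⟨_, rfl⟩
  have hB : 0 ≤ K4 * (K3 + 16) := by positivity
  have hB' : 0 ≤ K5 * (K6 + 16) := by positivity
  have hF : MemLp (fs S s c₁) 2 volume := (cdom_fs S s c₁).ch.memLp.1
  have hWd := cdom_W S V (half_pos hρ) s c₁
  have hW : MemLp (W0 S V (G.rho0 / 2) s c₁) 2 volume := hWd.ch.memLp.1
  have hN : ∫ q, ‖W0 S V (G.rho0 / 2) s c₁ q‖ ^ 2 ≤ 16 := by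
    have h1 : ∫ q, ‖W0 S V (G.rho0 / 2) s c₁ q‖ ^ 2 ≤ ∫ q, ‖fs S s c₁ q‖ ^ 2 :=
      integral_mono (EFprof_sq hW) (EFprof_sq hF)
        fun q => pow_le_pow_left₀ (norm_nonneg _) (EFprof_le S V _ s c₁ q) 2
    rw [(int_fs S s c₁).2, hc₁, nsq_cev] at h1
    rw [hc₁]
    exact h1.trans hdat.n0
  have hX := EFprof_measX G δ
  refine ⟨?_, ?_, ?_⟩
  · refine (EFprof_norm S V hρ s _).trans (((e1 V s c hdat t₁ ht₁.le ht₁').1).trans ?_)
    refine mul_le_mul_of_nonneg_right ?_ (by positivity)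
    linarith
  · intro V' hV'
    by_cases hVV : V' = V
    · rw [hVV]
      refine (EFprof_mass1 S V hρ s _ _).trans ((e2 V hV s c hdat).trans ?_)
      refine mul_le_mul_of_nonneg_right ?_ hθ.le
      linarith
    · have h1 := EFprof_gap G hV hV' hVV
      rw [EFprof_mass2 S hρ s _ (by linarith)]
      positivity
  · rw [← hc₁]
    have hsub : {z : P × P | z.1 ∈ G.X δ ∧ (a1 δ < dist z.1 (V + t₁ • z.2) ∨
        a1 δ < |sq z.2 - 1|)} ⊆ {z : P × P | z.1 ∈ G.X δ ∧ a1 δ < dist z.1 (V + t₁ • z.2)} ∪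
        {z : P × P | z.1 ∈ G.X δ ∧ a1 δ < |sq z.2 - 1|} := by
      rintro z ⟨h1, h2 | h2⟩
      · exact Or.inl ⟨h1, h2⟩
      · exact Or.inr ⟨h1, h2⟩
    have hp := e4 W V hV t₁ ht₁.le (by linarith) _ _ _ hWd.ch
      (fun q hq => EFprof_far S hρ s c₁ hq) (K3 * th δ ^ 2) 16
      (by
        have h1 := e3 V hV s c hdat t₁ ht₁.le ht₁'
        rw [← hc₁] at h1
        exact h1) hN
    have hp' := EFprof_cheb hX ha (fun z => sq_nonneg _) V t₁ hp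
    obtain ⟨g, hgd⟩ : ∃ g : HD D, g = cls D (fun q => ((hh δ ^ 2 : ℝ) : ℂ) *
      WL S V (G.rho0 / 2) s c₁ q - W0 S V (G.rho0 / 2) s c₁ q) := ⟨_, rfl⟩
    have hWL : MemLp (WL S V (G.rho0 / 2) s c₁) 2 volume := hWd.memLp_f
    have hgco : ∀ k, S.co k g = ((hh δ ^ 2 * S.lam k - 1 : ℝ) : ℂ) *
        S.co k (cls D (W0 S V (G.rho0 / 2) s c₁)) := by
      intro k
      rw [hgd, cls_sub ((hWL.restrict D).const_mul _) (hW.restrict D),
        EFprof_smul _ (hWL.restrict D), sub_eq_add_neg, ← neg_one_smul ℂ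
          (cls D (W0 S V (G.rho0 / 2) s c₁)), co_add, co_smul, co_smul, co_cdom S hWd]
      push_cast
      ring
    have hgn : ‖g‖ ^ 2 ≤ K6 * th δ ^ 2 := by
      rw [hgd]
      refine (EFprof_clsn ((hWL.const_mul _).sub hW)).trans ?_
      have h1 := (e6 V s c hdat t₁ ht₁.le ht₁').2.2.2.2
      rw [← hc₁] at h1
      exact h1
    have hwn : ‖cls D (W0 S V (G.rho0 / 2) s c₁)‖ ^ 2 ≤ 16 := (EFprof_clsn hW).trans hN
    have hq := e5 W (a1 δ) ha ha1 (cls D (W0 S V (G.rho0 / 2) s c₁)) g hgco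
    have ha2 : 0 < a1 δ ^ 2 := by positivity
    refine (lintegral_mono_set hsub).trans ((lintegral_union_le _ _ _).trans
      ((add_le_add hp' hq).trans ?_))
    have p1 : 0 ≤ K4 * (hh δ ^ 2 * (K3 * th δ ^ 2 + hh δ * 16)) / a1 δ ^ 2 := by positivity
    have p2 : 0 ≤ K5 * (hh δ ^ 2 * (‖g‖ ^ 2 + hh δ *
        ‖cls D (W0 S V (G.rho0 / 2) s c₁)‖ ^ 2) / a1 δ ^ 2) :=
      mul_nonneg hK5 (div_nonneg (mul_nonneg (sq_nonneg _) (add_nonneg (sq_nonneg _)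
        (mul_nonneg hh0.le (sq_nonneg _)))) ha2.le)
    rw [← ENNReal.ofReal_add p1 p2]
    refine ENNReal.ofReal_le_ofReal ?_
    have h16 : hh δ * 16 ≤ th δ ^ 2 * 16 := by linarith
    have b1 : K4 * (hh δ ^ 2 * (K3 * th δ ^ 2 + hh δ * 16)) / a1 δ ^ 2 ≤
        K4 * (K3 + 16) * (hh δ ^ 2 * th δ ^ 2 / a1 δ ^ 2) := by
      have h1 : K3 * th δ ^ 2 + hh δ * 16 ≤ (K3 + 16) * th δ ^ 2 := by linarith
      have h2 : K4 * (hh δ ^ 2 * (K3 * th δ ^ 2 + hh δ * 16)) ≤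
          K4 * (hh δ ^ 2 * ((K3 + 16) * th δ ^ 2)) := by gcongr
      refine (div_le_div_of_nonneg_right h2 ha2.le).trans (le_of_eq ?_)
      ring
    have b2 : K5 * (hh δ ^ 2 * (‖g‖ ^ 2 + hh δ *
        ‖cls D (W0 S V (G.rho0 / 2) s c₁)‖ ^ 2) / a1 δ ^ 2) ≤
        K5 * (K6 + 16) * (hh δ ^ 2 * th δ ^ 2 / a1 δ ^ 2) := by
      have h0 : hh δ * ‖cls D (W0 S V (G.rho0 / 2) s c₁)‖ ^ 2 ≤ hh δ * 16 :=
        mul_le_mul_of_nonneg_left hwn hh0.le
      have h1 : ‖g‖ ^ 2 + hh δ * ‖cls D (W0 S V (G.rho0 / 2) s c₁)‖ ^ 2 ≤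
          (K6 + 16) * th δ ^ 2 := by linarith
      have h2 : K5 * (hh δ ^ 2 * (‖g‖ ^ 2 + hh δ *
          ‖cls D (W0 S V (G.rho0 / 2) s c₁)‖ ^ 2) / a1 δ ^ 2) ≤
          K5 * (hh δ ^ 2 * ((K6 + 16) * th δ ^ 2) / a1 δ ^ 2) := by gcongr
      refine h2.trans (le_of_eq ?_)
      ring
    have b3 : 0 ≤ (K1 + K2) * (hh δ ^ 2 * th δ ^ 2 / a1 δ ^ 2) := by positivity
    have e : (K1 + K2 + (K4 * (K3 + 16) + K5 * (K6 + 16))) *
        (hh δ ^ 2 * th δ ^ 2 / a1 δ ^ 2) =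
        (K1 + K2) * (hh δ ^ 2 * th δ ^ 2 / a1 δ ^ 2) +
          (K4 * (K3 + 16) * (hh δ ^ 2 * th δ ^ 2 / a1 δ ^ 2) +
            K5 * (K6 + 16) * (hh δ ^ 2 * th δ ^ 2 / a1 δ ^ 2)) := by ring
    rw [e]
    linarith

end

end Pool.Agent.MP4eed4eR.E
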