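import Pool.Agent.Lib.MP_4eed4e_an_R.C20
import Pool.Agent.Lib.MP_4eed4e_an_R.OutA3
import Pool.Agent.Lib.MP_4eed4e_an_RE.EBad

/-!
MP_4eed4e_an, project R, block E, module EHit: packets which come near a vertex (E9, first part).

PROOFS.
* `hit`: `z = (x, ξ)`, `|ξ_i| ≤ 2`. Let `k` be the least natural number with `k τ ≤ l + 1 / 2` and
  `dist x_k V' < θ` for some `V' ∈ G.V` (`x_k` the orbit points, `τ = tau δ`, `θ = th δ`). `k ≥ 1`
  because `x ∈ G.X δ`. For `j < k` the points `x_j` are at distance at least `θ` from `G.V`; they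
  are in `closure D` and `dist x_k x_(k-1) ≤ 2 τ` (`stp_mem`, `stp_sq`), so `dist x_k V'' ≥ θ - 2
  τ ≥ θ / 2` for all `V''` and `x_k ∈ G.Y δ`. `tracking` (`T = l + 1`) gives `γ`, `iter_nat` the
  factor `om`; `sq (lin γ ξ) = sq ξ` (`gam_lin`).
* `quad_le`: `S.W h l` commutes with `S.U h σ` (same coefficients, `ext_co`), so
  `⟨v, W v⟩ = ⟨U v, W U v⟩` (`inner_U`, `norm_U`). With `r = U v - om v'`, `‖r‖ ≤ δ ^ 1900`:
  `|⟨U v, W U v⟩ - ⟨v', W v'⟩| ≤ ‖r‖ (‖U v‖ + ‖v'‖) ≤ 8 δ ^ 1900` (`norm_W_le`, `W` is linear,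
  `|om| = 1`). `v'` vanishes a.e. off `ball V' (2 θ)` (`mass_v`, `dist y.1 V' < θ`), so
  `|⟨v', W v'⟩| ≤ 4 √m`, `m = mass (ball V' (2 θ)) (W v')`, and `4 √m ≤ 2 (m / δ ^ 6 + δ ^ 6)`.
* `map_mp`: composition of the shear `(x, ξ) ↦ (x + σ ξ, ξ)` (`MeasurePreserving.skew_product` or
  `measurePreserving_add_prod`-like) and of reflections and translations in the coordinates.
* `lint_map`: `MeasurePreserving.setLIntegral_comp_preimage`.
-/

namespace Pool.Agent.MP4eed4eR.E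

open MeasureTheory Set Filter Topology Metric
open scoped ComplexConjugate ContDiff

noncomputable section

variable {D : Set P}

/-- The transport of phase space points. -/
def tmap (γ : P × P) (σ : ℝ) (z : P × P) : P × P := (app γ (z.1 + σ • z.2), lin γ z.2)

private theorem EHit_comp {G : Geo D} {ρ : ℝ} (W : Walls G ρ) (t : ℝ) (z : P × P) (k : ℕ) :
    |((stp W t)^[k] z).2.1| = |z.2.1| ∧ |((stp W t)^[k] z).2.2| = |z.2.2| := by
  induction k with
  | zero => exact ⟨rfl, rfl⟩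
  | succ k ih =>
    rw [Function.iterate_succ_apply']
    have h := stp_sq W t ((stp W t)^[k] z)
    exact ⟨h.1.trans ih.1, h.2.trans ih.2⟩

private theorem EHit_two {a b : ℝ} (h : a ^ 2 + b ^ 2 ≤ 2) : |a| ≤ 2 ∧ |b| ≤ 2 := by
  constructor
  · rw [abs_le]
    constructor <;> nlinarith [sq_nonneg b]
  · rw [abs_le]
    constructor <;> nlinarith [sq_nonneg a]

private theorem EHit_far {G : Geo D} {a b : ℝ} (hab : b ≤ a) {x : P} (h : G.Far a x) :
    G.Far b x := fun v hv => hab.trans (h v hv)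

theorem hit (S : Spec D) (G : Geo D) {l : ℝ} (hl : 0 < l) : ∀ᶠ δ in 𝓝[>] (0 : ℝ),
    ∀ W : Walls G (th δ / 4), ∀ z : P × P, z.1 ∈ G.X δ → z.2 ∈ Win δ →
      ¬GoodUpTo W (tau δ) (th δ) (l + 1 / 2) z →
      ∃ k : ℕ, (k : ℝ) * tau δ ≤ l + 1 / 2 ∧ ∃ γ ∈ G.Gam (l + 1), ∃ V' ∈ G.V,
        tmap γ (k * tau δ) z ∈ G.N δ V' ∧ ∃ om : ℂ, ‖om‖ = 1 ∧
        ‖S.U (hh δ) (k * tau δ) (W.v δ z 0) - om • W.v δ (tmap γ (k * tau δ) z) (k * tau δ)‖ ≤
          δ ^ 1900 := by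
  filter_upwards [tracking G (l + 1), iter_nat S G (l + 1),
    Ioo_mem_nhdsGT (one_pos (α := ℝ))] with δ hT hI hδ W z hzX hzW hgood
  obtain ⟨x, ξ⟩ := z
  have hx : x ∈ D := hzX.1
  have hxF : G.Far (th δ) x := hzX.2
  have hθ0 : 0 < th δ := pow_pos hδ.1 _
  have hθ1 : th δ ≤ 1 := pow_le_one₀ hδ.1.le hδ.2.le
  have hτ : tau δ = th δ / 1024 := rfl
  have hτ0 : 0 < tau δ := by
    rw [hτ]
    positivity
  have hξ : |ξ.1| ≤ 2 ∧ |ξ.2| ≤ 2 := by
    have h1 : |sq ξ - 1| ≤ th δ := hzW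
    have h2 := (abs_le.1 h1).2
    unfold sq at h2
    exact EHit_two (by linarith)
  -- the least time
  have hex : ∃ k : ℕ, (k : ℝ) * tau δ ≤ l + 1 / 2 ∧
      ¬ G.Far (th δ) ((stp W (tau δ))^[k] (x, ξ)).1 := by
    by_contra hcon
    refine hgood fun k hk => ?_
    by_contra h
    exact hcon ⟨k, hk, h⟩
  classical
  obtain ⟨hk1, hk2⟩ := Nat.find_spec hex
  have hmin : ∀ j, j < Nat.find hex → ¬ ((j : ℝ) * tau δ ≤ l + 1 / 2 ∧
      ¬ G.Far (th δ) ((stp W (tau δ))^[j] (x, ξ)).1) := fun j hj => Nat.find_min hex hj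
  generalize Nat.find hex = k at hk1 hk2 hmin
  have hfar : ∀ j < k, G.Far (th δ) ((stp W (tau δ))^[j] (x, ξ)).1 := by
    intro j hj
    by_contra h
    refine hmin j hj ⟨le_trans ?_ hk1, h⟩
    have : (j : ℝ) ≤ k := by exact_mod_cast hj.le
    exact mul_le_mul_of_nonneg_right this hτ0.le
  obtain ⟨V', hV', hd⟩ : ∃ V' ∈ G.V, dist ((stp W (tau δ))^[k] (x, ξ)).1 V' < th δ := by
    by_contra hcon
    refine hk2 fun v hv => ?_
    by_contra h
    exact hcon ⟨v, hv, not_le.1 h⟩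
  -- one step
  have hstep : ∀ j < k, ((stp W (tau δ))^[j] (x, ξ)).1 ∈ closure D →
      ((stp W (tau δ))^[j + 1] (x, ξ)).1 ∈ closure D ∧
      dist ((stp W (tau δ))^[j + 1] (x, ξ)).1 ((stp W (tau δ))^[j] (x, ξ)).1 ≤
        2 * tau δ := by
    intro j hj hc
    rw [Function.iterate_succ_apply']
    have h1 := EHit_comp W (tau δ) (x, ξ) j
    have h2 : max |((stp W (tau δ))^[j] (x, ξ)).2.1| |((stp W (tau δ))^[j] (x, ξ)).2.2| ≤ 2 := by
      rw [h1.1, h1.2]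
      exact max_le hξ.1 hξ.2
    have h3 : |tau δ| * max |((stp W (tau δ))^[j] (x, ξ)).2.1|
        |((stp W (tau δ))^[j] (x, ξ)).2.2| ≤ 2 * tau δ := by
      rw [abs_of_pos hτ0, mul_comm 2]
      exact mul_le_mul_of_nonneg_left h2 hτ0.le
    have h4 := stp_mem G W (x := ((stp W (tau δ))^[j] (x, ξ)).1)
      (ξ := ((stp W (tau δ))^[j] (x, ξ)).2) hc (EHit_far (by linarith) (hfar j hj))
      (t := tau δ) (by linarith)
    exact ⟨h4.1, h4.2.trans h3⟩
  have hcl : ∀ j ≤ k, ((stp W (tau δ))^[j] (x, ξ)).1 ∈ closure D := by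
    intro j
    induction j with
    | zero => exact fun _ => subset_closure hx
    | succ j ih => exact fun hj => (hstep j (by omega) (ih (by omega))).1
  have hk0 : k ≠ 0 := by
    rintro rfl
    exact hk2 hxF
  have hlast : G.Far (th δ / 2) ((stp W (tau δ))^[k] (x, ξ)).1 := by
    obtain ⟨j, rfl⟩ := Nat.exists_eq_succ_of_ne_zero hk0
    intro v hv
    have h1 := (hstep j (Nat.lt_succ_self j) (hcl j (Nat.le_succ j))).2
    have h2 := hfar j (Nat.lt_succ_self j) v hv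
    have h3 := dist_triangle_left ((stp W (tau δ))^[j] (x, ξ)).1 v
      ((stp W (tau δ))^[j + 1] (x, ξ)).1
    show th δ / 2 ≤ dist ((stp W (tau δ))^[j + 1] (x, ξ)).1 v
    linarith
  have hfar2 : ∀ j < k, G.Far (th δ / 2) ((stp W (tau δ))^[j] (x, ξ)).1 := fun j hj =>
    EHit_far (by linarith) (hfar j hj)
  obtain ⟨⟨γ, hγ, hγe⟩, -⟩ := hT W x (subset_closure hx) ξ hξ.1 hξ.2 k (by linarith) hfar2
  have hxY : x ∈ G.Y δ := ⟨subset_closure hx, EHit_far (by linarith) hxF⟩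
  obtain ⟨w₀, hw, -, hb⟩ := hI W x hxY ξ hξ k (by linarith) (by
    intro j hj
    rcases hj.lt_or_eq with h | rfl
    · exact hfar2 j h
    · exact hlast)
  have hte : (stp W (tau δ))^[k] (x, ξ) = tmap γ (k * tau δ) (x, ξ) := hγe
  rw [hte] at hd hlast hb
  have hclk := hcl k le_rfl
  rw [hte] at hclk
  refine ⟨k, hk1, γ, hγ, V', hV', ⟨⟨hclk, hlast⟩, hd, ?_⟩, w₀, hw, hb⟩
  have h1 : sq (tmap γ (k * tau δ) (x, ξ)).2 = sq ξ := by
    have h2 := gam_lin G hγ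
    show (γ.1.1 * ξ.1) ^ 2 + (γ.1.2 * ξ.2) ^ 2 = ξ.1 ^ 2 + ξ.2 ^ 2
    rcases h2.1 with h3 | h3 <;> rcases h2.2 with h4 | h4 <;> rw [h3, h4] <;> ring
  rw [h1]
  exact hzW

private theorem EHit_norm (f : HD D) : ‖f‖ ^ 2 = ∫ q in D, ‖f q‖ ^ 2 := by
  have h1 : (inner ℂ f f : ℂ) = ∫ q in D, (inner ℂ (f q) (f q) : ℂ) := L2.inner_def f f
  rw [inner_self_eq_norm_sq_to_K] at h1
  have h2 : ∀ q, (inner ℂ (f q) (f q) : ℂ) = ((‖f q‖ ^ 2 : ℝ) : ℂ) := by
    intro q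
    rw [inner_self_eq_norm_sq_to_K]
    push_cast
    rfl
  simp only [h2] at h1
  rw [integral_complex_ofReal] at h1
  have h3 : (Complex.ofReal ‖f‖) ^ 2 = Complex.ofReal (∫ q in D, ‖f q‖ ^ 2) := h1
  rw [← Complex.ofReal_pow] at h3
  exact Complex.ofReal_injective h3

private theorem EHit_cs {B : Set P} (hB : MeasurableSet B) (f g : HD D)
    (hf : ∀ᵐ q ∂(volume.restrict D), q ∉ B → (f : P → ℂ) q = 0) :
    ‖(inner ℂ f g : ℂ)‖ ≤ ‖f‖ * Real.sqrt (mass B g) := by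
  have hm : MemLp (B.indicator (g : P → ℂ)) 2 (volume.restrict D) := (Lp.memLp g).indicator hB
  have h1 : (inner ℂ f g : ℂ) = inner ℂ f (hm.toLp _) := by
    rw [L2.inner_def, L2.inner_def]
    refine integral_congr_ae ?_
    filter_upwards [hf, hm.coeFn_toLp] with q q1 q2
    rw [q2]
    by_cases hq : q ∈ B
    · rw [indicator_of_mem hq]
    · rw [q1 hq, inner_zero_left, inner_zero_left]
  have h2 : ‖(hm.toLp _ : HD D)‖ ^ 2 = mass B g := by
    rw [EHit_norm]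
    have h3 : ∫ q in D, ‖(hm.toLp _ : HD D) q‖ ^ 2 =
        ∫ q in D, B.indicator (fun q => ‖(g : P → ℂ) q‖ ^ 2) q := by
      refine integral_congr_ae ?_
      filter_upwards [hm.coeFn_toLp] with q q2
      rw [q2]
      by_cases hq : q ∈ B
      · rw [indicator_of_mem hq, indicator_of_mem hq]
      · rw [indicator_of_notMem hq, indicator_of_notMem hq, norm_zero]
        norm_num
    rw [h3, setIntegral_indicator hB, inter_comm]
    rfl
  rw [h1, ← h2, Real.sqrt_sq (norm_nonneg _)]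
  exact norm_inner_le_norm _ _

private theorem EHit_Wadd (S : Spec D) {h : ℝ} (hh0 : 0 < h) (l : ℝ) (f g : HD D) :
    S.W h l (f + g) = S.W h l f + S.W h l g := by
  refine ext_co S fun k => ?_
  rw [co_W S hh0, co_add, co_add, co_W S hh0, co_W S hh0, mul_add]

private theorem EHit_Wsmul (S : Spec D) {h : ℝ} (hh0 : 0 < h) (l : ℝ) (c : ℂ) (f : HD D) :
    S.W h l (c • f) = c • S.W h l f := by
  refine ext_co S fun k => ?_
  rw [co_W S hh0, co_smul, co_smul, co_W S hh0]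
  ring

private theorem EHit_comm (S : Spec D) {h : ℝ} (hh0 : 0 < h) (l σ : ℝ) (f : HD D) :
    S.U h (-σ) (S.W h l (S.U h σ f)) = S.W h l f := by
  refine ext_co S fun k => ?_
  rw [co_U, co_W S hh0, co_U, co_W S hh0]
  have h1 : Complex.exp (-((-σ * h * S.lam k / 2 : ℝ) : ℂ) * Complex.I) *
      Complex.exp (-((σ * h * S.lam k / 2 : ℝ) : ℂ) * Complex.I) = 1 := by
    rw [← Complex.exp_add, ← Complex.exp_zero]
    congr 1
    push_cast
    ring
  calc Complex.exp (-((-σ * h * S.lam k / 2 : ℝ) : ℂ) * Complex.I) * (om S.lam h l k *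
        (Complex.exp (-((σ * h * S.lam k / 2 : ℝ) : ℂ) * Complex.I) * S.co k f))
      = (Complex.exp (-((-σ * h * S.lam k / 2 : ℝ) : ℂ) * Complex.I) *
        Complex.exp (-((σ * h * S.lam k / 2 : ℝ) : ℂ) * Complex.I)) *
          (om S.lam h l k * S.co k f) := by ring
    _ = om S.lam h l k * S.co k f := by rw [h1, one_mul]

private theorem EHit_quad (S : Spec D) {h : ℝ} (hh0 : 0 < h) (l σ : ℝ) {v v' : HD D} {w₀ : ℂ}
    (hw : ‖w₀‖ = 1) (hv : ‖v‖ ≤ 4) (hv' : ‖v'‖ ≤ 4) {ε : ℝ}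
    (hr : ‖S.U h σ v - w₀ • v'‖ ≤ ε) :
    ‖(inner ℂ v (S.W h l v) : ℂ)‖ ≤ 8 * ε + ‖(inner ℂ v' (S.W h l v') : ℂ)‖ := by
  obtain ⟨r, hrd⟩ : ∃ r : HD D, r = S.U h σ v - w₀ • v' := ⟨_, rfl⟩
  rw [← hrd] at hr
  have hu : S.U h σ v = r + w₀ • v' := by
    rw [hrd, sub_add_cancel]
  have h1 : (inner ℂ v (S.W h l v) : ℂ) = inner ℂ (S.U h σ v) (S.W h l (S.U h σ v)) := by
    rw [inner_U, EHit_comm S hh0]
  have h2 : (inner ℂ (S.U h σ v) (S.W h l (S.U h σ v)) : ℂ) =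
      inner ℂ r (S.W h l (S.U h σ v)) + inner ℂ (w₀ • v') (S.W h l r) +
        (starRingEnd ℂ w₀ * w₀) * inner ℂ v' (S.W h l v') := by
    have h3 : (inner ℂ (S.U h σ v) (S.W h l (S.U h σ v)) : ℂ) =
        inner ℂ r (S.W h l (S.U h σ v)) + inner ℂ (w₀ • v') (S.W h l (S.U h σ v)) := by
      rw [← inner_add_left, ← hu]
    have h4 : (inner ℂ (w₀ • v') (S.W h l (S.U h σ v)) : ℂ) =
        inner ℂ (w₀ • v') (S.W h l r) + (starRingEnd ℂ w₀ * w₀) * inner ℂ v' (S.W h l v') := by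
      rw [hu, EHit_Wadd S hh0, EHit_Wsmul S hh0, inner_add_right, inner_smul_right,
        inner_smul_left, inner_smul_left]
      ring
    rw [h3, h4, add_assoc]
  have hu4 : ‖S.U h σ v‖ ≤ 4 := by
    rw [norm_U]
    exact hv
  have hε : 0 ≤ ε := (norm_nonneg r).trans hr
  have h5 : ‖(inner ℂ r (S.W h l (S.U h σ v)) : ℂ)‖ ≤ ε * 4 :=
    (norm_inner_le_norm _ _).trans (mul_le_mul hr ((norm_W_le S hh0 l _).trans hu4)
      (norm_nonneg _) hε)
  have h6 : ‖(inner ℂ (w₀ • v') (S.W h l r) : ℂ)‖ ≤ 4 * ε := by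
    refine (norm_inner_le_norm _ _).trans (mul_le_mul ?_ ((norm_W_le S hh0 l _).trans hr)
      (norm_nonneg _) (by norm_num))
    rw [norm_smul, hw, one_mul]
    exact hv'
  have h7 : ‖(starRingEnd ℂ w₀ * w₀) * (inner ℂ v' (S.W h l v') : ℂ)‖ =
      ‖(inner ℂ v' (S.W h l v') : ℂ)‖ := by
    rw [norm_mul, norm_mul, RCLike.norm_conj, hw, one_mul, one_mul]
  rw [h1, h2]
  refine (norm_add_le _ _).trans ?_
  rw [h7]
  have h8 := norm_add_le (inner ℂ r (S.W h l (S.U h σ v)) : ℂ) (inner ℂ (w₀ • v') (S.W h l r))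
  linarith

private theorem EHit_amgm {m δ : ℝ} (hm : 0 ≤ m) (hδ : 0 < δ) :
    4 * Real.sqrt m ≤ 2 * (m / δ ^ 6 + δ ^ 6) := by
  have h1 : 0 < δ ^ 6 := by positivity
  have h2 := Real.sq_sqrt hm
  have h3 : m / δ ^ 6 + δ ^ 6 - 2 * Real.sqrt m = (Real.sqrt m - δ ^ 6) ^ 2 / δ ^ 6 := by
    field_simp
    nlinarith [h2]
  have h4 : 0 ≤ (Real.sqrt m - δ ^ 6) ^ 2 / δ ^ 6 := by positivity
  linarith

theorem quad_le (S : Spec D) (G : Geo D) (l : ℝ) : ∀ᶠ δ in 𝓝[>] (0 : ℝ),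
    ∀ W : Walls G (th δ / 4), ∀ z y : P × P, ∀ V' ∈ G.V, y ∈ G.N δ V' → ∀ (σ : ℝ) (om : ℂ),
      ‖om‖ = 1 → ‖S.U (hh δ) σ (W.v δ z 0) - om • W.v δ y σ‖ ≤ δ ^ 1900 →
      ‖(inner ℂ (W.v δ z 0) (S.W (hh δ) l (W.v δ z 0)) : ℂ)‖ ≤
        2 * (mass (ball V' (2 * th δ)) (S.W (hh δ) l (W.v δ y σ)) / δ ^ 6 + δ ^ 6) +
          δ ^ 1000 := by
  filter_upwards [mass_v G, Ioo_mem_nhdsGT (show (0 : ℝ) < 1 / 8 by norm_num)] with
    δ hM hδ W z y V' _ hy σ w₀ hw hr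
  have hδ0 : 0 < δ := hδ.1
  have hδ1 : δ ≤ 1 := hδ.2.le.trans (by norm_num)
  have hh0 : 0 < hh δ := pow_pos hδ0 _
  have hθ0 : 0 < th δ := pow_pos hδ0 _
  have hv : ‖W.v δ z 0‖ ≤ 4 := norm_v_le W hδ0 z 0
  have hv' : ‖W.v δ y σ‖ ≤ 4 := norm_v_le W hδ0 y σ
  have h1 := EHit_quad S hh0 l σ hw hv hv' hr
  have h2 : ∀ᵐ q ∂(volume.restrict D), q ∉ ball V' (2 * th δ) →
      (W.v δ y σ : P → ℂ) q = 0 := by
    filter_upwards [hM W y hy.1 σ] with q hq hqB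
    refine hq ?_
    have h3 : 2 * th δ ≤ dist q V' := by
      rw [mem_ball, not_lt] at hqB
      exact hqB
    have h4 := dist_triangle q y.1 V'
    have h5 : dist y.1 V' < th δ := hy.2.1
    linarith
  have h3 := EHit_cs measurableSet_ball (W.v δ y σ) (S.W (hh δ) l (W.v δ y σ)) h2
  have hm0 : 0 ≤ mass (ball V' (2 * th δ)) (S.W (hh δ) l (W.v δ y σ)) :=
    integral_nonneg fun _ => sq_nonneg _
  have h4 : ‖W.v δ y σ‖ * Real.sqrt (mass (ball V' (2 * th δ)) (S.W (hh δ) l (W.v δ y σ))) ≤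
      4 * Real.sqrt (mass (ball V' (2 * th δ)) (S.W (hh δ) l (W.v δ y σ))) :=
    mul_le_mul_of_nonneg_right hv' (Real.sqrt_nonneg _)
  have h5 := EHit_amgm hm0 hδ0
  have h6 : 8 * δ ^ 1900 ≤ δ ^ 1000 := by
    have e1 : δ ^ 1900 = δ ^ 1000 * δ ^ 900 := by rw [← pow_add]
    have e2 : δ ^ 900 ≤ δ := by
      calc δ ^ 900 ≤ δ ^ 1 := pow_le_pow_of_le_one hδ0.le hδ1 (by norm_num)
        _ = δ := pow_one δ
    have e3 : 0 < δ ^ 1000 := by positivity
    rw [e1]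
    nlinarith [hδ.2]
  linarith

theorem map_mp {γ : P × P} (h : (γ.1.1 = 1 ∨ γ.1.1 = -1) ∧ (γ.1.2 = 1 ∨ γ.1.2 = -1)) (σ : ℝ) :
    MeasurePreserving (tmap γ σ) volume volume := by
  have h1 : ∀ {g : ℝ} (c : ℝ), (g = 1 ∨ g = -1) →
      MeasurePreserving (fun y : ℝ => g * y + c) volume volume := by
    intro g c hg
    rcases hg with rfl | rfl
    · have h2 := measurePreserving_add_right (volume : Measure ℝ) c
      simpa only [one_mul] using h2
    · have h2 := (measurePreserving_add_right (volume : Measure ℝ) c).comp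
        (Measure.measurePreserving_neg (volume : Measure ℝ))
      have h3 : (fun y : ℝ => -1 * y + c) = (fun y => y + c) ∘ Neg.neg := by
        funext y
        show -1 * y + c = -y + c
        ring
      rw [h3]
      exact h2
  have h2 : MeasurePreserving (app γ) volume volume := (h1 γ.2.1 h.1).prod (h1 γ.2.2 h.2)
  have h3 : MeasurePreserving (lin γ) volume volume := by
    have h4 := (h1 0 h.1).prod (h1 0 h.2)
    simp only [add_zero] at h4
    exact h4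
  have h4 : MeasurePreserving (fun p : P × P => (p.1, p.2 + σ • p.1)) volume volume := by
    refine MeasurePreserving.skew_product (MeasurePreserving.id (volume : Measure P))
      (g := fun ξ x => x + σ • ξ) ?_ (Eventually.of_forall fun ξ => ?_)
    · exact measurable_snd.add (measurable_fst.const_smul σ)
    · exact (measurePreserving_add_right (volume : Measure P) (σ • ξ)).map_eq
  have h5 : MeasurePreserving (Prod.swap : P × P → P × P) volume volume :=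
    Measure.measurePreserving_swap
  exact (h2.prod h3).comp (h5.comp (h4.comp h5))

theorem lint_map {γ : P × P} (h : (γ.1.1 = 1 ∨ γ.1.1 = -1) ∧ (γ.1.2 = 1 ∨ γ.1.2 = -1)) (σ : ℝ)
    {N : Set (P × P)} (hN : MeasurableSet N) {f : P × P → ENNReal} (hf : Measurable f) :
    ∫⁻ z in {z | tmap γ σ z ∈ N}, f (tmap γ σ z) = ∫⁻ y in N, f y :=
  (map_mp h σ).setLIntegral_comp_preimage hN hf

end

end Pool.Agent.MP4eed4eR.E
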