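import Pool.Agent.Lib.MP_4eed4e_an_RE.EEsc2

/-!
MP_4eed4e_an, project R, block E, module EOut: the wave is concentrated near `V` (E1).

PROOF of `out_est`. `ρ = G.rho0 ≤ 1`, `θ = th δ`, `h = hh δ ≤ θ²`, `F t = fs S s (cev S h t c)`,
`F¹ t = fs S s (cev S h t (ch1 S h c))`, `t ≤ ρ / 32`, `2 θ ≤ ρ / 64` for small `δ`. Norms (`int_fs`,
`nsq_cev`): `∫ ‖F t‖² ≤ 16`, `∫ ‖F¹ t‖² ≤ C₀² θ²`, `∫ ‖F² t‖² ≤ C₀² θ⁴` (`F²` for the coefficients
`ch1 (ch1 c)`).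
* First step (`escape` with `a = d = ρ / 64`): `K = 4 |C₀| θ` and the initial mass is `≤ θ⁴`
  (`Dat.i0`), so the mass of `F t` in `{ρ / 64 + 2 t + ρ / 64 ≤ dist q V} ⊇ {6 ρ / 64 ≤ dist q V}` is at
  most `C' θ`. The same for the coefficients `ch1 S h c` with `K = C₀² θ³` and `Dat.i1`: the mass of
  `F¹ t` in `{6 ρ / 64 ≤ dist q V}` is at most `C' θ³`.
* Second step (`escape` with `a = 6 ρ / 64`, `d = ρ / 64`, `K = C' θ²`): the mass of `F t` in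
  `{6 ρ / 64 + 2 t + ρ / 64 ≤ dist q V} ⊇ {11 ρ / 64 ≤ dist q V} ⊇ {ρ / 4 ≤ dist q V}` is at most
  `4 θ⁴ + C (C' θ² + 16 h²) ≤ C'' θ²`.
-/

namespace Pool.Agent.MP4eed4eR.E

open MeasureTheory Set Filter Topology Metric
open scoped ComplexConjugate ContDiff

noncomputable section

variable {D : Set P}

/-! ### auxiliary lemmas -/

private theorem EOut_meas (V : P) (a : ℝ) : MeasurableSet {q : P | a ≤ dist q V} :=
  (isClosed_le continuous_const (continuous_id.dist continuous_const)).measurableSet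

private theorem EOut_mass (S : Spec D) (h t : ℝ) (s : Finset ℕ) (c : ℕ → ℂ) (A : Set P) :
    ∫ q in A, ‖fs S s (cev S h t c) q‖ ^ 2 ≤ nsq s c := by
  rw [← nsq_cev S h t s c, ← (int_fs S s (cev S h t c)).2]
  exact setIntegral_le_integral (int_fs S s (cev S h t c)).1
    (Eventually.of_forall fun q => sq_nonneg _)

private theorem EOut_nonneg (S : Spec D) (s : Finset ℕ) (c : ℕ → ℂ) (A : Set P) :
    0 ≤ ∫ q in A, ‖fs S s c q‖ ^ 2 := integral_nonneg fun q => sq_nonneg _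

private theorem EOut_mono (S : Spec D) (s : Finset ℕ) (c : ℕ → ℂ) (V : P) {a b : ℝ}
    (hab : a ≤ b) : ∫ q in {q : P | b ≤ dist q V}, ‖fs S s c q‖ ^ 2 ≤
      ∫ q in {q : P | a ≤ dist q V}, ‖fs S s c q‖ ^ 2 :=
  setIntegral_mono_set (int_fs S s c).1.integrableOn
    (Eventually.of_forall fun q => sq_nonneg _)
    (LE.le.eventuallyLE fun q (hq : b ≤ dist q V) => hab.trans hq)

theorem out_est (S : Spec D) (G : Geo D) (C₀ : ℝ) : ∃ C : ℝ, 0 ≤ C ∧ ∀ᶠ δ in 𝓝[>] (0 : ℝ),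
    ∀ (V : P) (s : Finset ℕ) (c : ℕ → ℂ), Dat S V C₀ δ s c → ∀ t, 0 ≤ t → t ≤ G.rho0 / 32 →
      ∫ q in {q : P | G.rho0 / 4 ≤ dist q V}, ‖fs S s (cev S (hh δ) t c) q‖ ^ 2 ≤
        C * th δ ^ 2 ∧
      ∫ q in {q : P | G.rho0 / 4 ≤ dist q V},
        ‖fs S s (cev S (hh δ) t (ch1 S (hh δ) c)) q‖ ^ 2 ≤ C * th δ ^ 3 := by
  have hρ := G.pos
  have hρ1 := G.le_one
  have hd : 0 < G.rho0 / 64 := by positivity
  obtain ⟨C₁, hC0, hC⟩ := escape S G.isBounded hd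
  obtain ⟨A, hA⟩ : ∃ A, A = |C₀| := ⟨_, rfl⟩
  have hA0 : 0 ≤ A := by rw [hA]; exact abs_nonneg _
  have hA2 : A ^ 2 = C₀ ^ 2 := by rw [hA]; exact sq_abs _
  obtain ⟨C', hC'⟩ : ∃ C', C' = 4 + C₁ * (4 * A + 16) + 2 * C₁ * A ^ 2 := ⟨_, rfl⟩
  have hC'0 : 0 ≤ C' := by rw [hC']; positivity
  refine ⟨C' + (4 + C₁ * (C' + 16)), by positivity, ?_⟩
  have hev : ∀ᶠ δ in 𝓝[>] (0 : ℝ), 0 < δ ∧ δ ≤ 1 ∧ δ ≤ G.rho0 / 128 := by
    filter_upwards [self_mem_nhdsWithin, mem_nhdsWithin_of_mem_nhds (Iic_mem_nhds one_pos),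
      mem_nhdsWithin_of_mem_nhds (Iic_mem_nhds (by positivity : (0 : ℝ) < G.rho0 / 128))]
      with δ h1 h2 h3
    exact ⟨h1, h2, h3⟩
  filter_upwards [hev] with δ ⟨hδ, hδ1, hδ2⟩ V s c hdat t ht ht1
  have hh0 : 0 < hh δ := pow_pos hδ _
  have hθ0 : 0 < th δ := pow_pos hδ _
  have hθ1 : th δ ≤ 1 := pow_le_one₀ hδ.le hδ1
  have hθδ : th δ ≤ δ := by
    calc th δ ≤ δ ^ 1 := pow_le_pow_of_le_one hδ.le hδ1 (by norm_num)
      _ = δ := pow_one δ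
  have hhθ : hh δ ^ 2 ≤ th δ ^ 4 := by
    show (δ ^ 80) ^ 2 ≤ (δ ^ 38) ^ 4
    rw [← pow_mul, ← pow_mul]
    exact pow_le_pow_of_le_one hδ.le hδ1 (by norm_num)
  obtain ⟨θ, hθ⟩ : ∃ θ, θ = th δ := ⟨_, rfl⟩
  have n0 := hdat.n0
  have n1 := hdat.n1
  have n2 := hdat.n2
  have i0 := hdat.i0
  have i1 := hdat.i1
  rw [← hθ] at hθ0 hθ1 hθδ hhθ n1 n2 i0 i1
  rw [← hθ]
  obtain ⟨h, hh'⟩ : ∃ h, h = hh δ := ⟨_, rfl⟩
  rw [← hh'] at hh0 hhθ n1 n2 i1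
  rw [← hh']
  have p21 : θ ^ 2 ≤ θ := by nlinarith
  have p32 : θ ^ 3 ≤ θ ^ 2 := by nlinarith [sq_nonneg θ]
  have p43 : θ ^ 4 ≤ θ ^ 3 := by nlinarith [pow_pos hθ0 3]
  have p3 : 0 < θ ^ 3 := pow_pos hθ0 3
  have p2 : 0 < θ ^ 2 := pow_pos hθ0 2
  have h2θ : 2 * θ ≤ G.rho0 / 64 := by linarith
  have ht1' : G.rho0 / 32 ≤ 1 := by linarith
  have hs0 : 0 ≤ nsq s c := Finset.sum_nonneg fun _ _ => sq_nonneg _
  have hs1 : 0 ≤ nsq s (ch1 S h c) := Finset.sum_nonneg fun _ _ => sq_nonneg _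
  -- first step for `c`
  have s1 : ∀ x, 0 ≤ x → x ≤ G.rho0 / 32 →
      ∫ q in {q : P | 6 * G.rho0 / 64 ≤ dist q V}, ‖fs S s (cev S h x c) q‖ ^ 2 ≤ C' * θ := by
    intro x hx hx1
    have e := hC h hh0 V (G.rho0 / 64) (G.rho0 / 32) (4 * A * θ) s c (by positivity) (by
      intro y _ _
      have k1 := (EOut_mass S h y s c {q : P | G.rho0 / 64 ≤ dist q V}).trans n0
      have k2 := (EOut_mass S h y s (ch1 S h c) {q : P | G.rho0 / 64 ≤ dist q V}).trans n1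
      calc _ ≤ 16 * (C₀ * θ) ^ 2 := mul_le_mul k1 k2 (EOut_nonneg S s _ _) (by norm_num)
        _ = 16 * (C₀ ^ 2 * θ ^ 2) := by ring
        _ = 16 * (A ^ 2 * θ ^ 2) := by rw [hA2]
        _ = (4 * A * θ) ^ 2 := by ring) x hx hx1
    refine (EOut_mono S s _ V (by linarith)).trans (e.trans ?_)
    have k3 := (EOut_mono S s c V h2θ).trans i0
    have k4 : C₁ * (G.rho0 / 32) * (4 * A * θ + h ^ 2 * nsq s c) ≤
        C₁ * 1 * (4 * A * θ + θ * 16) := by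
      refine mul_le_mul (mul_le_mul_of_nonneg_left ht1' hC0) ?_ (by positivity) (by positivity)
      have k5 : h ^ 2 * nsq s c ≤ θ * 16 :=
        mul_le_mul (by linarith) n0 hs0 hθ0.le
      linarith
    have k6 : 0 ≤ C₁ * A ^ 2 * θ := by positivity
    calc _ ≤ 4 * θ ^ 4 + C₁ * 1 * (4 * A * θ + θ * 16) := by linarith
      _ ≤ 4 * θ + C₁ * 1 * (4 * A * θ + θ * 16) := by linarith
      _ ≤ C' * θ := by
        rw [hC']
        nlinarith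
  -- first step for `ch1 c`
  have s2 : ∀ x, 0 ≤ x → x ≤ G.rho0 / 32 →
      ∫ q in {q : P | 6 * G.rho0 / 64 ≤ dist q V},
        ‖fs S s (cev S h x (ch1 S h c)) q‖ ^ 2 ≤ C' * θ ^ 3 := by
    intro x hx hx1
    have e := hC h hh0 V (G.rho0 / 64) (G.rho0 / 32) (A ^ 2 * θ ^ 3) s (ch1 S h c)
      (by positivity) (by
      intro y _ _
      have k1 := (EOut_mass S h y s (ch1 S h c) {q : P | G.rho0 / 64 ≤ dist q V}).trans n1
      have k2 := (EOut_mass S h y s (ch1 S h (ch1 S h c))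
        {q : P | G.rho0 / 64 ≤ dist q V}).trans n2
      calc _ ≤ (C₀ * θ) ^ 2 * (C₀ * θ ^ 2) ^ 2 :=
            mul_le_mul k1 k2 (EOut_nonneg S s _ _) (sq_nonneg _)
        _ = (C₀ ^ 2 * θ ^ 3) ^ 2 := by ring
        _ = (A ^ 2 * θ ^ 3) ^ 2 := by rw [hA2]) x hx hx1
    refine (EOut_mono S s _ V (by linarith)).trans (e.trans ?_)
    have k3 := (EOut_mono S s (ch1 S h c) V h2θ).trans i1
    have k4 : C₁ * (G.rho0 / 32) * (A ^ 2 * θ ^ 3 + h ^ 2 * nsq s (ch1 S h c)) ≤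
        C₁ * 1 * (A ^ 2 * θ ^ 3 + θ ^ 3 * A ^ 2) := by
      refine mul_le_mul (mul_le_mul_of_nonneg_left ht1' hC0) ?_ (by positivity) (by positivity)
      have k5 : nsq s (ch1 S h c) ≤ A ^ 2 := by
        calc nsq s (ch1 S h c) ≤ (C₀ * θ) ^ 2 := n1
          _ = A ^ 2 * θ ^ 2 := by rw [hA2]; ring
          _ ≤ A ^ 2 * 1 := mul_le_mul_of_nonneg_left (by linarith) (sq_nonneg _)
          _ = A ^ 2 := mul_one _
      have k6 : h ^ 2 * nsq s (ch1 S h c) ≤ θ ^ 3 * A ^ 2 :=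
        mul_le_mul (by linarith) k5 hs1 p3.le
      linarith
    have k7 : 0 ≤ C₁ * (4 * A + 16) * θ ^ 3 := by positivity
    calc _ ≤ 4 * θ ^ 4 + C₁ * 1 * (A ^ 2 * θ ^ 3 + θ ^ 3 * A ^ 2) := by linarith
      _ ≤ 4 * θ ^ 3 + C₁ * 1 * (A ^ 2 * θ ^ 3 + θ ^ 3 * A ^ 2) := by linarith
      _ ≤ C' * θ ^ 3 := by
        rw [hC']
        nlinarith
  constructor
  · -- second step
    have e := hC h hh0 V (6 * G.rho0 / 64) (G.rho0 / 32) (C' * θ ^ 2) s c (by positivity) (by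
      intro y hy hy1
      calc _ ≤ C' * θ * (C' * θ ^ 3) :=
            mul_le_mul (s1 y hy hy1) (s2 y hy hy1) (EOut_nonneg S s _ _) (by positivity)
        _ = (C' * θ ^ 2) ^ 2 := by ring) t ht ht1
    refine (EOut_mono S s _ V (by linarith)).trans (e.trans ?_)
    have k3 := (EOut_mono S s c V (show 2 * θ ≤ 6 * G.rho0 / 64 by linarith)).trans i0
    have k4 : C₁ * (G.rho0 / 32) * (C' * θ ^ 2 + h ^ 2 * nsq s c) ≤
        C₁ * 1 * (C' * θ ^ 2 + θ ^ 2 * 16) := by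
      refine mul_le_mul (mul_le_mul_of_nonneg_left ht1' hC0) ?_ (by positivity) (by positivity)
      have k5 : h ^ 2 * nsq s c ≤ θ ^ 2 * 16 :=
        mul_le_mul (by linarith) n0 hs0 p2.le
      linarith
    have k6 : 0 ≤ C' * θ ^ 2 := by positivity
    calc _ ≤ 4 * θ ^ 4 + C₁ * 1 * (C' * θ ^ 2 + θ ^ 2 * 16) := by linarith
      _ ≤ 4 * θ ^ 2 + C₁ * 1 * (C' * θ ^ 2 + θ ^ 2 * 16) := by linarith
      _ ≤ (C' + (4 + C₁ * (C' + 16))) * θ ^ 2 := by nlinarith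
  · refine (EOut_mono S s _ V (by linarith)).trans ((s2 t ht ht1).trans ?_)
    exact mul_le_mul_of_nonneg_right (le_add_of_nonneg_right (by positivity)) p3.le

end

end Pool.Agent.MP4eed4eR.E
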