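import Pool.Agent.Lib.MP_4eed4e_an_RE.EStat

/-!
MP_4eed4e_an, project R, block E, module EProd: integration by parts for the product of two
functions of `H¹₀(D)`.

PROOFS.
* `cut_test`: the product of a `Cut` function and a test function (`Test D φ`) is `Cut`: it is
  smooth with compact support, and `d1`, `d2`, `lap` of it are continuous with compact support,
  hence bounded.
* `h10_prod`: for `v = φ` a test function apply `h10_parts` to `ζ φ`, `d1 (ζ φ) = d1 ζ φ + ζ d1 φ`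
  (`fderiv_mul`). For `v` in `H¹₀(D)` take the limit along the sequence `φ n` of `H10.approx`:
  every term is a product of a bounded continuous function, an `L²` function and `φ n - v` (or
  `d1 (φ n) - v₁`), which tends to `0` in `L²` (Cauchy-Schwarz,
  `|∫ g (φ n - v)| ≤ (∫ g²)^(1/2) (∫ (φ n - v)²)^(1/2)`).
* `CH.prod`: real and imaginary parts of `u` and `v`, four real identities.
-/

namespace Pool.Agent.MP4eed4eR.E

open MeasureTheory Set Filter Topology Metric
open scoped ComplexConjugate ContDiff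

noncomputable section

variable {D : Set P}

private theorem EProd_dsm {f : P → ℝ} (hf : ContDiff ℝ ∞ f) (v : P) :
    ContDiff ℝ ∞ (fun q => fderiv ℝ f q v) :=
  (hf.fderiv_right (m := ∞) (by simp)).clm_apply contDiff_const

private theorem EProd_dcs {f : P → ℝ} (hf : HasCompactSupport f) (v : P) :
    HasCompactSupport (fun q => fderiv ℝ f q v) :=
  (hf.fderiv (𝕜 := ℝ)).comp_left (g := fun L : P →L[ℝ] ℝ => L v) rfl

private theorem EProd_bd {f : P → ℝ} (hf : ContDiff ℝ ∞ f) (hc : HasCompactSupport f) :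
    ∃ C, ∀ q, |f q| ≤ C := by
  obtain ⟨C, hC⟩ := hf.continuous.bounded_above_of_compact_support hc
  exact ⟨C, fun q => by simpa [Real.norm_eq_abs] using hC q⟩

private theorem EProd_cut {f : P → ℝ} (hf : ContDiff ℝ ∞ f) (hc : HasCompactSupport f) :
    Cut f := by
  have s1 : ContDiff ℝ ∞ (d1 f) := EProd_dsm hf (1, 0)
  have s2 : ContDiff ℝ ∞ (d2 f) := EProd_dsm hf (0, 1)
  have t1 : HasCompactSupport (d1 f) := EProd_dcs hc (1, 0)
  have t2 : HasCompactSupport (d2 f) := EProd_dcs hc (0, 1)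
  obtain ⟨C0, h0⟩ := EProd_bd hf hc
  obtain ⟨C1, h1⟩ := EProd_bd s1 t1
  obtain ⟨C2, h2⟩ := EProd_bd s2 t2
  obtain ⟨C3, h3⟩ := EProd_bd (f := d1 (d1 f)) (EProd_dsm s1 (1, 0)) (EProd_dcs t1 (1, 0))
  obtain ⟨C4, h4⟩ := EProd_bd (f := d2 (d2 f)) (EProd_dsm s2 (0, 1)) (EProd_dcs t2 (0, 1))
  refine ⟨hf, max (max C0 C1) (max C2 (C3 + C4)), fun q => ⟨?_, ?_, ?_, ?_⟩⟩
  · exact (h0 q).trans ((le_max_left _ _).trans (le_max_left _ _))
  · exact (h1 q).trans ((le_max_right _ _).trans (le_max_left _ _))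
  · exact (h2 q).trans ((le_max_left _ _).trans (le_max_right _ _))
  · refine le_trans ?_ ((le_max_right _ _).trans (le_max_right _ _))
    exact (abs_add_le _ _).trans (add_le_add (h3 q) (h4 q))

theorem cut_test {ζ φ : P → ℝ} (hζ : Cut ζ) (hφ : Test D φ) : Cut (fun q => ζ q * φ q) :=
  EProd_cut (hζ.smooth.mul hφ.smooth) hφ.compact.mul_left

private theorem EProd_bmul {w : P → ℝ} (hw : Continuous w) (hb : ∃ C, ∀ q, |w q| ≤ C)
    {a : P → ℝ} (ha : MemLp a 2 volume) : MemLp (fun q => w q * a q) 2 volume := by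
  obtain ⟨C, hC⟩ := hb
  refine MemLp.of_le_mul (g := a) (c := C) ha
    (hw.aestronglyMeasurable.mul ha.aestronglyMeasurable)
    (Filter.Eventually.of_forall (fun q => ?_))
  rw [norm_mul, Real.norm_eq_abs]
  exact mul_le_mul_of_nonneg_right (hC q) (norm_nonneg _)

private theorem EProd_lim {w g : P → ℝ} {gn : ℕ → P → ℝ} (hw : MemLp w 2 volume)
    (hg : MemLp g 2 volume) (hgn : ∀ n, MemLp (gn n) 2 volume)
    (h : Tendsto (fun n => ∫ q, (gn n q - g q) ^ 2) atTop (𝓝 0)) :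
    Tendsto (fun n => ∫ q, w q * gn n q) atTop (𝓝 (∫ q, w q * g q)) := by
  rw [tendsto_iff_norm_sub_tendsto_zero]
  have hb : ∀ n, ‖(∫ q, w q * gn n q) - ∫ q, w q * g q‖ ≤
      (∫ q, ‖w q‖ ^ (2 : ℝ)) ^ (1 / (2 : ℝ)) *
        (∫ q, (gn n q - g q) ^ 2) ^ (1 / (2 : ℝ)) := by
    intro n
    have i1 : Integrable (fun q => w q * gn n q) := hw.integrable_mul (hgn n)
    have i2 : Integrable (fun q => w q * g q) := hw.integrable_mul hg
    have hd : MemLp (fun q => gn n q - g q) 2 volume := (hgn n).sub hg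
    rw [← integral_sub i1 i2]
    have e1 : ∀ q, w q * gn n q - w q * g q = w q * (gn n q - g q) := fun q => by ring
    simp only [e1]
    have h22 : ENNReal.ofReal (2 : ℝ) = 2 := by norm_num
    have h1 := integral_mul_norm_le_Lp_mul_Lq (μ := (volume : Measure P)) (f := w)
      (g := fun q => gn n q - g q) Real.HolderConjugate.two_two (by rw [h22]; exact hw)
      (by rw [h22]; exact hd)
    have h2 : ∫ q, ‖gn n q - g q‖ ^ (2 : ℝ) = ∫ q, (gn n q - g q) ^ 2 := by
      congr 1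
      funext q
      rw [Real.rpow_two, Real.norm_eq_abs, sq_abs]
    rw [h2] at h1
    refine (norm_integral_le_integral_norm _).trans ?_
    simp only [norm_mul]
    exact h1
  refine squeeze_zero (fun n => norm_nonneg _) hb ?_
  have h3 : Tendsto (fun n => (∫ q, (gn n q - g q) ^ 2) ^ (1 / (2 : ℝ))) atTop
      (𝓝 (0 ^ (1 / (2 : ℝ)))) := h.rpow_const (Or.inr (by norm_num))
  rw [Real.zero_rpow (by norm_num)] at h3
  simpa using h3.const_mul _

private theorem EProd_tmem {φ : P → ℝ} (hφ : Test D φ) :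
    MemLp φ 2 volume ∧ MemLp (d1 φ) 2 volume ∧ MemLp (d2 φ) 2 volume := by
  have s1 : ContDiff ℝ ∞ (d1 φ) := EProd_dsm hφ.smooth (1, 0)
  have s2 : ContDiff ℝ ∞ (d2 φ) := EProd_dsm hφ.smooth (0, 1)
  exact ⟨hφ.smooth.continuous.memLp_of_hasCompactSupport hφ.compact,
    s1.continuous.memLp_of_hasCompactSupport (EProd_dcs hφ.compact (1, 0)),
    s2.continuous.memLp_of_hasCompactSupport (EProd_dcs hφ.compact (0, 1))⟩

private theorem EProd_cont {η : P → ℝ} (hη : Cut η) :
    Continuous η ∧ Continuous (d1 η) ∧ Continuous (d2 η) :=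
  ⟨hη.smooth.continuous, (EProd_dsm hη.smooth (1, 0)).continuous,
    (EProd_dsm hη.smooth (0, 1)).continuous⟩

private theorem EProd_dmul {ζ φ : P → ℝ} (hζ : ContDiff ℝ ∞ ζ) (hφ : ContDiff ℝ ∞ φ) (v q : P) :
    fderiv ℝ (fun q => ζ q * φ q) q v = ζ q * fderiv ℝ φ q v + φ q * fderiv ℝ ζ q v := by
  have h1 : DifferentiableAt ℝ ζ q := (hζ.differentiable (by simp)).differentiableAt
  have h2 : DifferentiableAt ℝ φ q := (hφ.differentiable (by simp)).differentiableAt
  rw [fderiv_fun_mul h1 h2]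
  rfl

/-- One of the two identities, by approximation. -/
private theorem EProd_one {ζ dζ u u' v v' : P → ℝ} (cζ : Continuous ζ) (cd : Continuous dζ)
    (bζ : ∃ C, ∀ q, |ζ q| ≤ C) (bd : ∃ C, ∀ q, |dζ q| ≤ C)
    (hu : MemLp u 2 volume) (hu' : MemLp u' 2 volume) (hv : MemLp v 2 volume)
    (hv' : MemLp v' 2 volume) {φ φ' : ℕ → P → ℝ} (hφ : ∀ n, MemLp (φ n) 2 volume)
    (hφ' : ∀ n, MemLp (φ' n) 2 volume)
    (l1 : Tendsto (fun n => ∫ q, (φ n q - v q) ^ 2) atTop (𝓝 0))
    (l2 : Tendsto (fun n => ∫ q, (φ' n q - v' q) ^ 2) atTop (𝓝 0))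
    (hid : ∀ n, ∫ q, ζ q * φ n q * u' q =
      -∫ q, (ζ q * φ' n q + φ n q * dζ q) * u q) :
    ∫ q, ζ q * (u' q * v q + u q * v' q) = -∫ q, dζ q * (u q * v q) := by
  have m1 := EProd_bmul cζ bζ hu'
  have m2 := EProd_bmul cζ bζ hu
  have m3 := EProd_bmul cd bd hu
  have t1 := EProd_lim m1 hv hφ l1
  have t2 := EProd_lim m2 hv' hφ' l2
  have t3 := EProd_lim m3 hv hφ l1
  have key : ∀ n, (∫ q, ζ q * u' q * φ n q) + (∫ q, ζ q * u q * φ' n q) =
      -∫ q, dζ q * u q * φ n q := by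
    intro n
    have i2 : Integrable (fun q => ζ q * u q * φ' n q) := m2.integrable_mul (hφ' n)
    have i3 : Integrable (fun q => dζ q * u q * φ n q) := m3.integrable_mul (hφ n)
    have h1 := hid n
    have e1 : ∫ q, (ζ q * φ' n q + φ n q * dζ q) * u q =
        (∫ q, ζ q * u q * φ' n q) + ∫ q, dζ q * u q * φ n q := by
      rw [← integral_add i2 i3]
      congr 1
      funext q
      ring
    have e2 : ∫ q, ζ q * φ n q * u' q = ∫ q, ζ q * u' q * φ n q := by
      congr 1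
      funext q
      ring
    rw [e1, e2] at h1
    linarith
  have hl := tendsto_nhds_unique ((t1.add t2).congr key) t3.neg
  have i1 : Integrable (fun q => ζ q * u' q * v q) := m1.integrable_mul hv
  have i2 : Integrable (fun q => ζ q * u q * v' q) := m2.integrable_mul hv'
  have e3 : ∫ q, ζ q * (u' q * v q + u q * v' q) =
      (∫ q, ζ q * u' q * v q) + ∫ q, ζ q * u q * v' q := by
    rw [← integral_add i1 i2]
    congr 1
    funext q
    ring
  have e4 : ∫ q, dζ q * (u q * v q) = ∫ q, dζ q * u q * v q := by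
    congr 1
    funext q
    ring
  rw [e3, e4]
  exact hl

theorem h10_prod {ζ : P → ℝ} (hζ : Cut ζ) (hb : Bornology.IsBounded D)
    {u u₁ u₂ v v₁ v₂ : P → ℝ} (hu : H10 D u u₁ u₂) (hv : H10 D v v₁ v₂) :
    ∫ q, ζ q * (u₁ q * v q + u q * v₁ q) = -∫ q, d1 ζ q * (u q * v q) ∧
      ∫ q, ζ q * (u₂ q * v q + u q * v₂ q) = -∫ q, d2 ζ q * (u q * v q) := by
  obtain ⟨c0, c1, c2⟩ := EProd_cont hζ
  obtain ⟨C, hC⟩ := hζ.bdd
  obtain ⟨φ, hφ, l0, l1, l2⟩ := hv.approx
  constructor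
  · refine EProd_one (φ := φ) (φ' := fun n => d1 (φ n)) c0 c1 ⟨C, fun q => (hC q).1⟩
      ⟨C, fun q => (hC q).2.1⟩ hu.mem hu.mem₁ hv.mem hv.mem₁ (fun n => (EProd_tmem (hφ n)).1)
      (fun n => (EProd_tmem (hφ n)).2.1) l0 l1 (fun n => ?_)
    have h1 := (h10_parts (cut_test hζ (hφ n)) hu hb).1
    rw [h1]
    congr 2
    funext q
    congr 1
    exact EProd_dmul hζ.smooth (hφ n).smooth (1, 0) q
  · refine EProd_one (φ := φ) (φ' := fun n => d2 (φ n)) c0 c2 ⟨C, fun q => (hC q).1⟩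
      ⟨C, fun q => (hC q).2.2.1⟩ hu.mem hu.mem₂ hv.mem hv.mem₂ (fun n => (EProd_tmem (hφ n)).1)
      (fun n => (EProd_tmem (hφ n)).2.2) l0 l2 (fun n => ?_)
    have h1 := (h10_parts (cut_test hζ (hφ n)) hu hb).2
    rw [h1]
    congr 2
    funext q
    congr 1
    exact EProd_dmul hζ.smooth (hφ n).smooth (0, 1) q

/-- The complex identity from four real ones. -/
private theorem EProd_cpx {ζ dζ : P → ℝ} (cζ : Continuous ζ) (cd : Continuous dζ)
    (bζ : ∃ C, ∀ q, |ζ q| ≤ C) (bd : ∃ C, ∀ q, |dζ q| ≤ C) {u u' v v' : P → ℂ}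
    (hu : MemLp u 2 volume) (hu' : MemLp u' 2 volume) (hv : MemLp v 2 volume)
    (hv' : MemLp v' 2 volume)
    (h11 : ∫ q, ζ q * ((u' q).re * (v q).re + (u q).re * (v' q).re) =
      -∫ q, dζ q * ((u q).re * (v q).re))
    (h22 : ∫ q, ζ q * ((u' q).im * (v q).im + (u q).im * (v' q).im) =
      -∫ q, dζ q * ((u q).im * (v q).im))
    (h12 : ∫ q, ζ q * ((u' q).re * (v q).im + (u q).re * (v' q).im) =
      -∫ q, dζ q * ((u q).re * (v q).im))
    (h21 : ∫ q, ζ q * ((u' q).im * (v q).re + (u q).im * (v' q).re) =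
      -∫ q, dζ q * ((u q).im * (v q).re)) :
    ∫ q, (ζ q : ℂ) * (conj (u' q) * v q + conj (u q) * v' q) =
      -∫ q, (dζ q : ℂ) * (conj (u q) * v q) := by
  have hr : ∀ {g : P → ℂ}, MemLp g 2 volume → MemLp (fun q => (g q).re) 2 volume :=
    fun hg => (memLp_re_im_iff.2 hg).1
  have hi : ∀ {g : P → ℂ}, MemLp g 2 volume → MemLp (fun q => (g q).im) 2 volume :=
    fun hg => (memLp_re_im_iff.2 hg).2
  have hc : ∀ {g : P → ℂ}, MemLp g 2 volume → MemLp (fun q => conj (g q)) 2 volume :=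
    fun hg => hg.star
  have kr : ∀ {w a b : P → ℝ}, Continuous w → (∃ C, ∀ q, |w q| ≤ C) → MemLp a 2 volume →
      MemLp b 2 volume → Integrable (fun q => w q * (a q * b q)) := by
    intro w a b hw hb ha hb'
    have h1 : Integrable (fun q => w q * a q * b q) := (EProd_bmul hw hb ha).integrable_mul hb'
    refine h1.congr (Filter.Eventually.of_forall (fun q => ?_))
    simp only
    ring
  have kc : ∀ {w : P → ℝ} {a : P → ℂ}, Continuous w → (∃ C, ∀ q, |w q| ≤ C) →
      Integrable a → Integrable (fun q => (w q : ℂ) * a q) := by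
    intro w a hw hb ha
    obtain ⟨C, hC⟩ := hb
    refine ha.bdd_mul (c := C) (Complex.continuous_ofReal.comp hw).aestronglyMeasurable
      (Filter.Eventually.of_forall (fun q => ?_))
    rw [Complex.norm_real]
    exact hC q
  have j1 : Integrable (fun q => conj (u' q) * v q) := (hc hu').integrable_mul hv
  have j2 : Integrable (fun q => conj (u q) * v' q) := (hc hu).integrable_mul hv'
  have j3 : Integrable (fun q => conj (u q) * v q) := (hc hu).integrable_mul hv
  have i1 : Integrable (fun q => (ζ q : ℂ) * (conj (u' q) * v q + conj (u q) * v' q)) :=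
    kc cζ bζ (j1.add j2)
  have i2 : Integrable (fun q => (dζ q : ℂ) * (conj (u q) * v q)) := kc cd bd j3
  have k2 : ∀ {w a b c d : P → ℝ}, Continuous w → (∃ C, ∀ q, |w q| ≤ C) → MemLp a 2 volume →
      MemLp b 2 volume → MemLp c 2 volume → MemLp d 2 volume →
      Integrable (fun q => w q * (a q * b q + c q * d q)) := by
    intro w a b c d hw hb ha hb' hc' hd
    refine ((kr hw hb ha hb').add (kr hw hb hc' hd)).congr
      (Filter.Eventually.of_forall (fun q => ?_))
    simp only [Pi.add_apply]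
    ring
  apply Complex.ext
  · have a1 : (∫ q, (ζ q : ℂ) * (conj (u' q) * v q + conj (u q) * v' q)).re =
        ∫ q, ((ζ q : ℂ) * (conj (u' q) * v q + conj (u q) * v' q)).re :=
      (integral_re (𝕜 := ℂ) i1).symm
    have a2 : (∫ q, (dζ q : ℂ) * (conj (u q) * v q)).re =
        ∫ q, ((dζ q : ℂ) * (conj (u q) * v q)).re := (integral_re (𝕜 := ℂ) i2).symm
    rw [Complex.neg_re, a1, a2]
    have l1 : ∀ q, ((ζ q : ℂ) * (conj (u' q) * v q + conj (u q) * v' q)).re =
        ζ q * ((u' q).re * (v q).re + (u q).re * (v' q).re) +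
          ζ q * ((u' q).im * (v q).im + (u q).im * (v' q).im) := by
      intro q
      rw [Complex.re_ofReal_mul]
      simp only [Complex.mul_re, Complex.conj_re, Complex.conj_im, Complex.add_re]
      ring
    have l2 : ∀ q, ((dζ q : ℂ) * (conj (u q) * v q)).re =
        dζ q * ((u q).re * (v q).re) + dζ q * ((u q).im * (v q).im) := by
      intro q
      rw [Complex.re_ofReal_mul]
      simp only [Complex.mul_re, Complex.conj_re, Complex.conj_im]
      ring
    simp only [l1, l2]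
    rw [integral_add (k2 cζ bζ (hr hu') (hr hv) (hr hu) (hr hv'))
      (k2 cζ bζ (hi hu') (hi hv) (hi hu) (hi hv')), h11, h22,
      integral_add (kr cd bd (hr hu) (hr hv)) (kr cd bd (hi hu) (hi hv))]
    ring
  · have a1 : (∫ q, (ζ q : ℂ) * (conj (u' q) * v q + conj (u q) * v' q)).im =
        ∫ q, ((ζ q : ℂ) * (conj (u' q) * v q + conj (u q) * v' q)).im :=
      (integral_im (𝕜 := ℂ) i1).symm
    have a2 : (∫ q, (dζ q : ℂ) * (conj (u q) * v q)).im =
        ∫ q, ((dζ q : ℂ) * (conj (u q) * v q)).im := (integral_im (𝕜 := ℂ) i2).symm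
    rw [Complex.neg_im, a1, a2]
    have l1 : ∀ q, ((ζ q : ℂ) * (conj (u' q) * v q + conj (u q) * v' q)).im =
        ζ q * ((u' q).re * (v q).im + (u q).re * (v' q).im) -
          ζ q * ((u' q).im * (v q).re + (u q).im * (v' q).re) := by
      intro q
      rw [Complex.im_ofReal_mul]
      simp only [Complex.mul_im, Complex.conj_re, Complex.conj_im, Complex.add_im]
      ring
    have l2 : ∀ q, ((dζ q : ℂ) * (conj (u q) * v q)).im =
        dζ q * ((u q).re * (v q).im) - dζ q * ((u q).im * (v q).re) := by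
      intro q
      rw [Complex.im_ofReal_mul]
      simp only [Complex.mul_im, Complex.conj_re, Complex.conj_im]
      ring
    simp only [l1, l2]
    rw [integral_sub (k2 cζ bζ (hr hu') (hi hv) (hr hu) (hi hv'))
      (k2 cζ bζ (hi hu') (hr hv) (hi hu) (hr hv')), h12, h21,
      integral_sub (kr cd bd (hr hu) (hi hv)) (kr cd bd (hi hu) (hr hv))]
    ring

theorem CH.prod {ζ : P → ℝ} (hζ : Cut ζ) (hb : Bornology.IsBounded D)
    {u u₁ u₂ v v₁ v₂ : P → ℂ} (hu : CH D u u₁ u₂) (hv : CH D v v₁ v₂) :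
    ∫ q, (ζ q : ℂ) * (conj (u₁ q) * v q + conj (u q) * v₁ q) =
        -∫ q, (d1 ζ q : ℂ) * (conj (u q) * v q) ∧
      ∫ q, (ζ q : ℂ) * (conj (u₂ q) * v q + conj (u q) * v₂ q) =
        -∫ q, (d2 ζ q : ℂ) * (conj (u q) * v q) := by
  obtain ⟨c0, c1, c2⟩ := EProd_cont hζ
  obtain ⟨C, hC⟩ := hζ.bdd
  obtain ⟨m0, m1, m2⟩ := hu.memLp
  obtain ⟨n0, n1, n2⟩ := hv.memLp
  have e11 := h10_prod hζ hb hu.re hv.re
  have e22 := h10_prod hζ hb hu.im hv.im
  have e12 := h10_prod hζ hb hu.re hv.im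
  have e21 := h10_prod hζ hb hu.im hv.re
  exact ⟨EProd_cpx c0 c1 ⟨C, fun q => (hC q).1⟩ ⟨C, fun q => (hC q).2.1⟩ m0 m1 n0 n1
      e11.1 e22.1 e12.1 e21.1,
    EProd_cpx c0 c2 ⟨C, fun q => (hC q).1⟩ ⟨C, fun q => (hC q).2.2.1⟩ m0 m2 n0 n2
      e11.2 e22.2 e12.2 e21.2⟩

end

end Pool.Agent.MP4eed4eR.E
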