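import Pool.Agent.Lib.MP_4eed4e_an_RE.EFprof

/-!
MP_4eed4e_an, project R, block E, module EProf: the profile (statement of OutE).

PROOF of `profile`. `c k = S.co k u`, `s = Finset.range n`, `u_n = cls D (fs S s c)`, `η = cutV V
(ρ₀ / 2)`, `w = cls D (η U(t₁) u)`, `w_n = cls D (W0 S V (ρ₀ / 2) s (cev S h t₁ c))`. Fix `δ`
(small) and `ε = θ⁴ / 8` (`θ = th δ ≤ 1`); for large `n`, `‖u - u_n‖ ≤ ε` and `‖w₁ - w_{1,n}‖ ≤
ε`, where `w_{1,n} = cls D (fs S s (ch1 S h c))` (`partial_sum` for `u` and for `w₁`, whose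
coefficients are `ch1 S h c`). Then `Dat S V C₀ δ s c`: the sums of the squares of the
coefficients are at most the squares of the norms (`parseval`); for `i0`: `u = 0` a.e. where `2 θ
≤ dist q V`, so the mass of the finite sum there is at most `‖u - u_n‖²` (all finite sums vanish
a.e. off `D`); for `i1` the same with `w₁`, which vanishes a.e. on the open set `{2 θ < dist q V}`
(`loc_zero`; the set `{dist q V = 2 θ}` is a null set). `‖w - w_n‖ ≤ ‖U(t₁) (u - u_n)‖ = ‖u - u_n‖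
≤ ε` (`U_fs`, `U_sub`, `norm_U`, `cutV_mem`). `fprofile` for `u_n` gives, with `‖a + b‖² ≤ 2 ‖a‖²
+ 2 ‖b‖²`, the statements for `w`: the norm; the masses; the support (`cutV_zero`); and the phase
space integral, where `∫⁻ ‖⟨v_z, w - w_n⟩‖² ≤ 4 (2 π h)² ε²` by `bessel_v` (`G.X δ ⊆ G.Y δ`) and
`ε ≤ θ ≤ θ / a1 δ`.
-/

namespace Pool.Agent.MP4eed4eR

open MeasureTheory Set Filter Topology Metric
open scoped ComplexConjugate ContDiff

noncomputable section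

variable {D : Set P}

private theorem EProf_cls (f : HD D) : cls D (f : P → ℂ) = f := by
  unfold cls
  rw [dif_pos (Lp.memLp f)]
  exact Lp.toLp_coeFn f _

private theorem EProf_int (f : HD D) :
    Integrable (fun q => ‖(f : P → ℂ) q‖ ^ 2) (volume.restrict D) :=
  (Lp.memLp f).norm.integrable_sq

private theorem EProf_norm (f : HD D) : ‖f‖ ^ 2 = ∫ q in D, ‖(f : P → ℂ) q‖ ^ 2 := by
  have h1 := E.norm_cls_sq (Lp.memLp f)
  rwa [EProf_cls] at h1

private theorem EProf_nsq (S : Spec D) (s : Finset ℕ) {c : ℕ → ℂ} {f : HD D}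
    (h : ∀ k, c k = S.co k f) : E.nsq s c ≤ ‖f‖ ^ 2 := by
  unfold E.nsq
  have h2 := sum_le_hasSum s (fun k _ => sq_nonneg ‖S.co k f‖) (parseval S f)
  simpa only [h] using h2

private theorem EProf_two {a b x : ℂ} (h : x = a - b) : ‖a‖ ^ 2 ≤ 2 * ‖b‖ ^ 2 + 2 * ‖x‖ ^ 2 := by
  have h1 : a = b + x := by
    rw [h]
    ring
  have h2 : ‖a‖ ≤ ‖b‖ + ‖x‖ := by
    rw [h1]
    exact norm_add_le _ _
  have h3 : ‖a‖ ^ 2 ≤ (‖b‖ + ‖x‖) ^ 2 := pow_le_pow_left₀ (norm_nonneg _) h2 2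
  nlinarith [sq_nonneg (‖b‖ - ‖x‖)]

private theorem EProf_mass (A : Set P) (f g : HD D) :
    mass A f ≤ 2 * mass A g + 2 * ‖f - g‖ ^ 2 := by
  have hle : volume.restrict (A ∩ D) ≤ volume.restrict D :=
    Measure.restrict_mono inter_subset_right le_rfl
  have hi : ∀ f : HD D, Integrable (fun q => ‖(f : P → ℂ) q‖ ^ 2) (volume.restrict (A ∩ D)) :=
    fun f => (EProf_int f).mono_measure hle
  have h1 : mass A f ≤ ∫ q in A ∩ D, (2 * ‖(g : P → ℂ) q‖ ^ 2 +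
      2 * ‖((f - g : HD D) : P → ℂ) q‖ ^ 2) := by
    refine integral_mono_ae (hi f) (((hi g).const_mul 2).add ((hi (f - g)).const_mul 2)) ?_
    filter_upwards [ae_mono hle (Lp.coeFn_sub f g)] with q hq
    exact EProf_two hq
  rw [integral_add ((hi g).const_mul 2) ((hi (f - g)).const_mul 2), integral_const_mul,
    integral_const_mul] at h1
  have h2 : ∫ q in A ∩ D, ‖((f - g : HD D) : P → ℂ) q‖ ^ 2 ≤
      ∫ q in D, ‖((f - g : HD D) : P → ℂ) q‖ ^ 2 :=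
    setIntegral_mono_set (EProf_int _) (Filter.Eventually.of_forall fun q => sq_nonneg _)
      (LE.le.eventuallyLE inter_subset_right)
  rw [← EProf_norm] at h2
  have h3 : mass A g = ∫ q in A ∩ D, ‖(g : P → ℂ) q‖ ^ 2 := rfl
  linarith

private theorem EProf_out (S : Spec D) (s : Finset ℕ) (c : ℕ → ℂ) {A : Set P}
    (hA : MeasurableSet A) (u : HD D)
    (hu : ∀ᵐ q ∂(volume.restrict D), q ∈ A → (u : P → ℂ) q = 0) :
    ∫ q in A, ‖E.fs S s c q‖ ^ 2 ≤ 2 * ‖cls D (E.fs S s c) - u‖ ^ 2 := by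
  have hle : volume.restrict (A ∩ D) ≤ volume.restrict D :=
    Measure.restrict_mono inter_subset_right le_rfl
  have hcd := E.cdom_fs S s c
  have hm : MemLp (E.fs S s c) 2 volume := hcd.ch.memLp.1
  have hmD : MemLp (E.fs S s c) 2 (volume.restrict D) := hm.restrict D
  have h1 : ∫ q in A, ‖E.fs S s c q‖ ^ 2 = ∫ q in A ∩ D, ‖E.fs S s c q‖ ^ 2 := by
    refine setIntegral_eq_of_subset_of_ae_sdiff_eq_zero hA.nullMeasurableSet inter_subset_left ?_
    filter_upwards [(hcd.ch.zero S.isOpen).1] with q hq hq2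
    have h2 : q ∉ D := fun h => hq2.2 ⟨hq2.1, h⟩
    rw [hq h2, norm_zero]
    norm_num
  have h2 : ∫ q in A ∩ D, ‖E.fs S s c q‖ ^ 2 = mass A (cls D (E.fs S s c)) := by
    refine integral_congr_ae ?_
    filter_upwards [ae_mono hle (E.cls_coe hmD)] with q hq
    rw [hq]
  have h3 : mass A u = 0 := by
    refine integral_eq_zero_of_ae ?_
    have h4 : ∀ᵐ q ∂(volume.restrict (A ∩ D)), q ∈ A ∩ D :=
      ae_restrict_mem (hA.inter S.isOpen.measurableSet)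
    filter_upwards [ae_mono hle hu, h4] with q hq hq2
    rw [hq hq2.1, norm_zero]
    norm_num
  have h4 := EProf_mass A (cls D (E.fs S s c)) u
  rw [h1, h2]
  linarith

private theorem EProf_cut (V : P) {r : ℝ} (hr : 0 < r) {f g : P → ℂ}
    (hf : MemLp f 2 (volume.restrict D)) (hg : MemLp g 2 (volume.restrict D)) :
    MemLp (fun q => (E.cutV V r q : ℂ) * f q) 2 (volume.restrict D) ∧
      ‖cls D (fun q => (E.cutV V r q : ℂ) * f q) - cls D (fun q => (E.cutV V r q : ℂ) * g q)‖ ≤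
        ‖cls D f - cls D g‖ := by
  have hc : Continuous fun q => (E.cutV V r q : ℂ) :=
    Complex.continuous_ofReal.comp (E.cutV_cut V hr).smooth.continuous
  have hn : ∀ q, ‖(E.cutV V r q : ℂ)‖ ≤ 1 := fun q => by
    rw [Complex.norm_real, Real.norm_eq_abs, abs_of_nonneg (E.cutV_mem V r q).1]
    exact (E.cutV_mem V r q).2
  have hmem : ∀ {f : P → ℂ}, MemLp f 2 (volume.restrict D) →
      MemLp (fun q => (E.cutV V r q : ℂ) * f q) 2 (volume.restrict D) := by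
    intro f hf
    refine MemLp.of_le hf (hc.aestronglyMeasurable.mul hf.1)
      (Filter.Eventually.of_forall fun q => ?_)
    rw [norm_mul]
    exact mul_le_of_le_one_left (norm_nonneg _) (hn q)
  refine ⟨hmem hf, ?_⟩
  have h1 : ‖cls D (fun q => (E.cutV V r q : ℂ) * f q) -
      cls D (fun q => (E.cutV V r q : ℂ) * g q)‖ ^ 2 ≤ ‖cls D f - cls D g‖ ^ 2 := by
    rw [← E.cls_sub (hmem hf) (hmem hg), ← E.cls_sub hf hg,
      E.norm_cls_sq (f := fun q => (E.cutV V r q : ℂ) * f q - (E.cutV V r q : ℂ) * g q)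
        ((hmem hf).sub (hmem hg)), E.norm_cls_sq (f := fun q => f q - g q) (hf.sub hg)]
    refine integral_mono ((hmem hf).sub (hmem hg)).norm.integrable_sq
      (hf.sub hg).norm.integrable_sq fun q => ?_
    show ‖(E.cutV V r q : ℂ) * f q - (E.cutV V r q : ℂ) * g q‖ ^ 2 ≤ ‖f q - g q‖ ^ 2
    rw [← mul_sub, norm_mul]
    exact pow_le_pow_left₀ (by positivity) (mul_le_of_le_one_left (norm_nonneg _) (hn q)) 2
  exact (sq_le_sq₀ (norm_nonneg _) (norm_nonneg _)).1 h1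

private theorem EProf_meas {G : Geo D} {ρ : ℝ} (W : Walls G ρ) {δ : ℝ} (hδ : 0 < δ) (f : HD D) :
    Measurable (fun z : P × P => (inner ℂ (W.v δ z 0) f : ℂ)) := by
  have h1 := measurable_inner_fam (h := hh δ) W (env_envc hδ 0) (-1) (-1) f
  unfold Walls.v
  simp only [pkt_eq_fam]
  exact h1

private theorem EProf_ofReal (x : ℝ) :
    (2 : ENNReal) * ENNReal.ofReal x = ENNReal.ofReal (2 * x) := by
  rw [ENNReal.ofReal_mul (by norm_num), ENNReal.ofReal_ofNat]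

private theorem EProf_lint {G : Geo D} {ρ : ℝ} (W : Walls G ρ) {δ : ℝ} (hδ : 0 < δ)
    (A : Set (P × P)) (f g : HD D) :
    ∫⁻ z in A, ENNReal.ofReal (‖(inner ℂ (W.v δ z 0) f : ℂ)‖ ^ 2) ≤
      2 * (∫⁻ z in A, ENNReal.ofReal (‖(inner ℂ (W.v δ z 0) g : ℂ)‖ ^ 2)) +
        2 * ∫⁻ z in A, ENNReal.ofReal (‖(inner ℂ (W.v δ z 0) (f - g) : ℂ)‖ ^ 2) := by
  have hm : ∀ f : HD D, Measurable fun z : P × P =>
      ENNReal.ofReal (‖(inner ℂ (W.v δ z 0) f : ℂ)‖ ^ 2) := fun f =>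
    ((EProf_meas W hδ f).norm.pow_const 2).ennreal_ofReal
  rw [← lintegral_const_mul _ (hm g), ← lintegral_const_mul _ (hm (f - g)),
    ← lintegral_add_left ((hm g).const_mul 2)]
  refine lintegral_mono fun z => ?_
  show ENNReal.ofReal _ ≤ 2 * ENNReal.ofReal _ + 2 * ENNReal.ofReal _
  rw [EProf_ofReal, EProf_ofReal, ← ENNReal.ofReal_add (by positivity) (by positivity)]
  exact ENNReal.ofReal_le_ofReal (EProf_two (inner_sub_right _ _ _))

/-- E1-E5: the profile of the diffracted wave at the time `t₁`. -/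
theorem profile (S : Spec D) (G : Geo D) {t₁ : ℝ} (ht₁ : 0 < t₁) (ht₁' : t₁ ≤ G.rho0 / 32)
    (C₀ : ℝ) : ∃ C : ℝ, ∀ᶠ δ in 𝓝[>] (0 : ℝ), ∀ W : Walls G (th δ / 4), ∀ V ∈ G.V,
    ∀ u w₁ w₂ : HD D, ‖u‖ ≤ 4 → ‖w₁‖ ≤ C₀ * th δ → ‖w₂‖ ≤ C₀ * th δ ^ 2 →
    (∀ k, S.co k w₁ = ((hh δ ^ 2 * S.lam k - 1 : ℝ) : ℂ) * S.co k u) →
    (∀ k, S.co k w₂ = (((hh δ ^ 2 * S.lam k - 1) ^ 2 : ℝ) : ℂ) * S.co k u) →
    (∀ᵐ q ∂(volume.restrict D), 2 * th δ ≤ dist q V → (u : P → ℂ) q = 0) →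
    ∃ w : HD D, ‖S.U (hh δ) t₁ u - w‖ ^ 2 ≤ C * th δ ^ 2 ∧
      (∀ V' ∈ G.V, mass (ball V' (3 * th δ)) w ≤ C * th δ) ∧
      (∀ᵐ q ∂(volume.restrict D), G.rho0 ≤ dist q V → (w : P → ℂ) q = 0) ∧
      ∫⁻ z in {z : P × P | z.1 ∈ G.X δ ∧ (a1 δ < dist z.1 (V + t₁ • z.2) ∨
          a1 δ < |sq z.2 - 1|)}, ENNReal.ofReal (‖(inner ℂ (W.v δ z 0) w : ℂ)‖ ^ 2) ≤
        ENNReal.ofReal (C * (hh δ ^ 2 * th δ ^ 2 / a1 δ ^ 2)) := by
  obtain ⟨C1, hC1, hprof⟩ := E.fprofile S G ht₁ ht₁' C₀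
  refine ⟨2 * C1 + 10, ?_⟩
  filter_upwards [hprof, bessel_v G, Ioo_mem_nhdsGT one_pos] with δ hprof hbes hδ
  intro W V hV u w₁ w₂ hu hw₁ hw₂ hco₁ hco₂ hzero
  have hθ0 : 0 < th δ := pow_pos hδ.1 _
  have hθ1 : th δ ≤ 1 := pow_le_one₀ hδ.1.le hδ.2.le
  have hh0 : 0 < hh δ := pow_pos hδ.1 _
  have ha0 : 0 < a1 δ := pow_pos hδ.1 _
  have ha1 : a1 δ ≤ 1 := pow_le_one₀ hδ.1.le hδ.2.le
  have hρ := G.pos
  obtain ⟨ε, hε⟩ : ∃ ε, ε = th δ ^ 4 / 8 := ⟨_, rfl⟩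
  have hε0 : 0 < ε := by
    rw [hε]
    positivity
  have hε2 : ε ^ 2 ≤ th δ ^ 4 / 64 := by
    have h1 : th δ ^ 4 * th δ ^ 4 ≤ th δ ^ 4 * 1 :=
      mul_le_mul_of_nonneg_left (pow_le_one₀ hθ0.le hθ1) (by positivity)
    rw [hε]
    linarith [h1, show (th δ ^ 4 / 8) ^ 2 = th δ ^ 4 * th δ ^ 4 / 64 by ring]
  have hθ42 : th δ ^ 4 ≤ th δ ^ 2 := pow_le_pow_of_le_one hθ0.le hθ1 (by norm_num)
  have hθ21 : th δ ^ 2 ≤ th δ := by
    have := pow_le_pow_of_le_one hθ0.le hθ1 (show 1 ≤ 2 by norm_num)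
    rwa [pow_one] at this
  set c : ℕ → ℂ := fun k => S.co k u with hc
  have e0 : ∀ᶠ n in atTop, ‖cls D (E.fs S (Finset.range n) c) - u‖ < ε := by
    have h1 := E.partial_sum S u
    rw [tendsto_iff_norm_sub_tendsto_zero] at h1
    exact h1.eventually (gt_mem_nhds hε0)
  have e1 : ∀ᶠ n in atTop,
      ‖cls D (E.fs S (Finset.range n) (fun k => S.co k w₁)) - w₁‖ < ε := by
    have h1 := E.partial_sum S w₁
    rw [tendsto_iff_norm_sub_tendsto_zero] at h1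
    exact h1.eventually (gt_mem_nhds hε0)
  obtain ⟨n, hn0, hn1⟩ := (e0.and e1).exists
  set s := Finset.range n with hs
  have hch1 : E.ch1 S (hh δ) c = fun k => S.co k w₁ := funext fun k => (hco₁ k).symm
  have hch2 : E.ch1 S (hh δ) (E.ch1 S (hh δ) c) = fun k => S.co k w₂ := by
    funext k
    rw [hco₂ k]
    simp only [E.ch1, hc]
    push_cast
    ring
  have hAm : MeasurableSet {q : P | 2 * th δ ≤ dist q V} :=
    measurableSet_le measurable_const (measurable_id.dist measurable_const)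
  have hsp : ∀ᵐ q : P ∂(volume.restrict D), dist q V ≠ 2 * th δ := by
    have h1 : volume (sphere V (2 * th δ)) = 0 := Measure.addHaar_sphere volume V (2 * th δ)
    have h2 : ∀ᵐ q : P, dist q V ≠ 2 * th δ := by
      rw [ae_iff]
      simpa [sphere] using h1
    exact ae_restrict_of_ae h2
  have hz1 : ∀ᵐ q ∂(volume.restrict D), q ∈ {q : P | 2 * th δ ≤ dist q V} →
      (w₁ : P → ℂ) q = 0 := by
    have hO : IsOpen {q : P | 2 * th δ < dist q V} :=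
      isOpen_lt continuous_const (continuous_id.dist continuous_const)
    have h1 := E.loc_zero S G.isBounded hO hco₁ (by
      filter_upwards [hzero] with q hq hq2
      exact hq (le_of_lt hq2))
    filter_upwards [h1, hsp] with q hq hq2 hq3
    exact hq (lt_of_le_of_ne hq3 (Ne.symm hq2))
  have hDat : E.Dat S V C₀ δ s c := by
    refine ⟨?_, ?_, ?_, ?_, ?_⟩
    · refine (EProf_nsq S s (fun k => rfl)).trans ?_
      calc ‖u‖ ^ 2 ≤ 4 ^ 2 := pow_le_pow_left₀ (norm_nonneg _) hu 2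
        _ = 16 := by norm_num
    · rw [hch1]
      exact (EProf_nsq S s (fun k => rfl)).trans (pow_le_pow_left₀ (norm_nonneg _) hw₁ 2)
    · rw [hch2]
      exact (EProf_nsq S s (fun k => rfl)).trans (pow_le_pow_left₀ (norm_nonneg _) hw₂ 2)
    · refine (EProf_out S s c hAm u hzero).trans ?_
      have h1 := pow_le_pow_left₀ (norm_nonneg _) hn0.le 2
      have h2 : 0 ≤ th δ ^ 4 := by positivity
      linarith
    · rw [hch1]
      refine (EProf_out S s _ hAm w₁ hz1).trans ?_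
      have h1 := pow_le_pow_left₀ (norm_nonneg _) hn1.le 2
      have h2 : 0 ≤ th δ ^ 4 := by positivity
      linarith
  obtain ⟨p1, p2, p3⟩ := hprof W V hV s c hDat
  set wn : HD D := cls D (E.W0 S V (G.rho0 / 2) s (E.cev S (hh δ) t₁ c)) with hwn
  set Un : HD D := cls D (E.fs S s (E.cev S (hh δ) t₁ c)) with hUn
  have hU : S.U (hh δ) t₁ (cls D (E.fs S s c)) = Un := E.U_fs S (hh δ) t₁ s c
  have hUd : ‖S.U (hh δ) t₁ u - Un‖ ≤ ε := by
    rw [← hU, ← U_sub, norm_U, norm_sub_rev]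
    exact hn0.le
  have hmn : MemLp (E.fs S s (E.cev S (hh δ) t₁ c)) 2 (volume.restrict D) :=
    (E.cdom_fs S s _).ch.memLp.1.restrict D
  have hr : 0 < G.rho0 / 2 := by positivity
  obtain ⟨hwm, hww⟩ := EProf_cut V hr (Lp.memLp (S.U (hh δ) t₁ u)) hmn
  set w : HD D := cls D (fun q => (E.cutV V (G.rho0 / 2) q : ℂ) *
    (S.U (hh δ) t₁ u : P → ℂ) q) with hw
  have hwn2 : cls D (fun q => (E.cutV V (G.rho0 / 2) q : ℂ) *
      E.fs S s (E.cev S (hh δ) t₁ c) q) = wn := rfl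
  rw [hwn2, EProf_cls] at hww
  have hwwε : ‖w - wn‖ ≤ ε := hww.trans hUd
  have hwwε2 : ‖w - wn‖ ^ 2 ≤ ε ^ 2 := pow_le_pow_left₀ (norm_nonneg _) hwwε 2
  refine ⟨w, ?_, ?_, ?_, ?_⟩
  · have h1 : ‖S.U (hh δ) t₁ u - w‖ ≤ ‖Un - wn‖ + 2 * ε := by
      have e2 : S.U (hh δ) t₁ u - w = (S.U (hh δ) t₁ u - Un) + (Un - wn) + (wn - w) := by abel
      rw [e2]
      refine (norm_add_le _ _).trans ?_
      have h3 := norm_add_le (S.U (hh δ) t₁ u - Un) (Un - wn)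
      rw [norm_sub_rev wn w]
      linarith
    have h2 := pow_le_pow_left₀ (norm_nonneg _) h1 2
    have h3 : (‖Un - wn‖ + 2 * ε) ^ 2 ≤ 2 * ‖Un - wn‖ ^ 2 + 8 * ε ^ 2 := by
      nlinarith [sq_nonneg (‖Un - wn‖ - 2 * ε)]
    have h4 : 0 ≤ th δ ^ 2 := by positivity
    linarith
  · intro V' hV'
    have h1 := EProf_mass (ball V' (3 * th δ)) w wn
    have h2 := p2 V' hV'
    have h4 : 0 ≤ th δ ^ 2 := by positivity
    linarith
  · filter_upwards [E.cls_coe hwm] with q hq hq2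
    rw [hq, E.cutV_zero hr (by linarith)]
    simp
  · set A : Set (P × P) := {z : P × P | z.1 ∈ G.X δ ∧ (a1 δ < dist z.1 (V + t₁ • z.2) ∨
      a1 δ < |sq z.2 - 1|)} with hA
    have hAY : A ⊆ G.Y δ ×ˢ (univ : Set P) := by
      rintro z ⟨⟨hz1, hz2⟩, -⟩
      refine ⟨⟨subset_closure hz1, fun v hv => ?_⟩, mem_univ _⟩
      exact le_trans (by linarith) (hz2 v hv)
    have h1 : ∫⁻ z in A, ENNReal.ofReal (‖(inner ℂ (W.v δ z 0) (w - wn) : ℂ)‖ ^ 2) ≤
        ENNReal.ofReal (4 * (2 * Real.pi * hh δ) ^ 2 * ‖w - wn‖ ^ 2) :=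
      (lintegral_mono_set hAY).trans (hbes W 0 (w - wn))
    refine (EProf_lint W hδ.1 A w wn).trans ?_
    refine (add_le_add (mul_le_mul_right p3 2) (mul_le_mul_right h1 2)).trans ?_
    have hX : 0 ≤ hh δ ^ 2 * th δ ^ 2 / a1 δ ^ 2 := by positivity
    rw [EProf_ofReal, EProf_ofReal, ← ENNReal.ofReal_add (by positivity) (by positivity)]
    refine ENNReal.ofReal_le_ofReal ?_
    have h3 : 2 * (4 * (2 * Real.pi * hh δ) ^ 2 * ‖w - wn‖ ^ 2) ≤
        10 * (hh δ ^ 2 * th δ ^ 2 / a1 δ ^ 2) := by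
      have hpi : Real.pi ^ 2 ≤ 16 := by
        have := Real.pi_le_four
        have h5 := Real.pi_pos
        nlinarith
      have h6 : ‖w - wn‖ ^ 2 ≤ th δ ^ 2 / 64 := by linarith
      have h7 : hh δ ^ 2 * th δ ^ 2 ≤ hh δ ^ 2 * th δ ^ 2 / a1 δ ^ 2 := by
        rw [le_div_iff₀ (by positivity)]
        have h8 : a1 δ ^ 2 ≤ 1 := pow_le_one₀ ha0.le ha1
        exact mul_le_of_le_one_right (by positivity) h8
      have h9 : 2 * (4 * (2 * Real.pi * hh δ) ^ 2 * ‖w - wn‖ ^ 2) =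
          32 * hh δ ^ 2 * (Real.pi ^ 2 * ‖w - wn‖ ^ 2) := by ring
      have h10 : Real.pi ^ 2 * ‖w - wn‖ ^ 2 ≤ 16 * (th δ ^ 2 / 64) :=
        mul_le_mul hpi h6 (by positivity) (by norm_num)
      have h11 := mul_le_mul_of_nonneg_left h10 (show 0 ≤ 32 * hh δ ^ 2 by positivity)
      rw [h9]
      linarith
    linarith

end

end Pool.Agent.MP4eed4eR
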