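import Pool.Agent.Lib.MP_4eed4e_an_RE.EOut

/-!
MP_4eed4e_an, project R, block E, module EShell: estimates in the region where the cutoff
`η = cutV V (ρ / 2)` is not constant.

PROOFS. `ρ = G.rho0`, `h = hh δ`, `θ = th δ`, `F, F1, F2, L` the finite sum with the coefficients
`c_t = cev S h t c`, its gradient and `fsL`. `η`, its gradient and `lap η` are bounded by a constant
(`cutV_bdd`); the derivatives vanish for `dist q V < ρ / 2` (`cutV_der_zero`).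
* `shell_grad`: `CDom.energy` for `ζ = 1 - cutV V (ρ / 4)` (`Cut`; `0 ≤ ζ ≤ 1`, `ζ = 1` for
  `ρ / 2 ≤ dist q V`, `ζ = 0` for `dist q V ≤ ρ / 4`), times `h²`, with `h² L = F + F¹` (`fsL_eq`,
  `cev_ch1`), is at most the integral of `‖F‖² + ‖F‖ ‖F¹‖` over `{ρ / 4 ≤ dist q V}` plus
  `(h² / 2) C ∫ ‖F‖²`; `out_est` and the Cauchy-Schwarz inequality.
* `Cm_bd`: `h² ∫ ‖Cm‖² ≤ C θ²`, because `‖Cm‖² ≤ C (‖F1‖² + ‖F2‖² + ‖F‖²)`, `Cm = 0` for
  `dist q V < ρ / 2`, and `h² ∫ ‖F‖² ≤ 16 h² ≤ θ²`.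
* `RR = - (i h / 2) Cm`; `W0 = η F`, `W1 = η F1 + d1 η F`, `h² WL = η (F + F¹) - h² Cm`,
  `h² WL - W0 = η F¹ - h² Cm`.
-/

namespace Pool.Agent.MP4eed4eR.E

open MeasureTheory Set Filter Topology Metric
open scoped ComplexConjugate ContDiff

noncomputable section

variable {D : Set P}

private theorem EShell_sq_int {f : P → ℂ} (hf : MemLp f 2 volume) :
    Integrable (fun q => ‖f q‖ ^ 2) :=
  (memLp_two_iff_integrable_sq_norm hf.1).1 hf

private theorem EShell_meas (a : ℝ) (V : P) : MeasurableSet {q : P | a ≤ dist q V} :=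
  measurableSet_le measurable_const (measurable_id.dist measurable_const)

private theorem EShell_lap {η : P → ℝ} (q : P) :
    lap (fun q => 1 - η q) q = -lap η q := by
  have e1 : d1 (fun q => 1 - η q) = fun q => -d1 η q := by
    funext q
    unfold d1
    rw [fderiv_const_sub]
    rfl
  have e2 : d2 (fun q => 1 - η q) = fun q => -d2 η q := by
    funext q
    unfold d2
    rw [fderiv_const_sub]
    rfl
  unfold lap
  rw [e1, e2]
  have e3 : ∀ g : P → ℝ, d1 (fun q => -g q) q = -d1 g q := fun g => by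
    unfold d1
    rw [fderiv_fun_neg]
    rfl
  have e4 : ∀ g : P → ℝ, d2 (fun q => -g q) q = -d2 g q := fun g => by
    unfold d2
    rw [fderiv_fun_neg]
    rfl
  rw [e3, e4]
  ring

private theorem EShell_h {δ : ℝ} (hδ : δ ∈ Ioo (0 : ℝ) 1) :
    0 < hh δ ∧ hh δ ≤ 1 ∧ 0 < th δ ∧ th δ ≤ 1 ∧ hh δ ≤ th δ := by
  obtain ⟨h0, h1⟩ := hδ
  unfold hh th
  exact ⟨pow_pos h0 _, pow_le_one₀ h0.le h1.le, pow_pos h0 _, pow_le_one₀ h0.le h1.le,
    pow_le_pow_of_le_one h0.le h1.le (by norm_num)⟩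

private theorem EShell_sq {δ : ℝ} (hδ : δ ∈ Ioo (0 : ℝ) 1) :
    hh δ ^ 2 ≤ th δ ^ 2 ∧ th δ ^ 3 ≤ th δ ^ 2 ∧ hh δ ^ 2 ≤ 1 := by
  obtain ⟨a1, a2, a3, a4, a5⟩ := EShell_h hδ
  refine ⟨pow_le_pow_left₀ a1.le a5 2, pow_le_pow_of_le_one a3.le a4 (by norm_num), ?_⟩
  exact pow_le_one₀ a1.le a2

theorem shell_grad (S : Spec D) (G : Geo D) (C₀ : ℝ) : ∃ C : ℝ, 0 ≤ C ∧
    ∀ᶠ δ in 𝓝[>] (0 : ℝ), ∀ (V : P) (s : Finset ℕ) (c : ℕ → ℂ), Dat S V C₀ δ s c →
      ∀ t, 0 ≤ t → t ≤ G.rho0 / 32 →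
      hh δ ^ 2 * ∫ q in {q : P | G.rho0 / 2 ≤ dist q V},
        (‖fs1 S s (cev S (hh δ) t c) q‖ ^ 2 + ‖fs2 S s (cev S (hh δ) t c) q‖ ^ 2) ≤
        C * th δ ^ 2 := by
  obtain ⟨C, hC, h⟩ := out_est S G C₀
  obtain ⟨K, hK, hb⟩ := cutV_bdd
  have hρ := G.pos
  have hr : 0 < G.rho0 / 4 := by positivity
  refine ⟨2 * C + 8 * (K / (G.rho0 / 4) ^ 2), by positivity, ?_⟩
  filter_upwards [h, Ioo_mem_nhdsGT zero_lt_one] with δ h1 hδ V s c hd t ht0 ht1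
  obtain ⟨o1, o2⟩ := h1 V s c hd t ht0 ht1
  obtain ⟨p1, p2, p3⟩ := EShell_sq hδ
  obtain ⟨a1, a2, a3, a4, a5⟩ := EShell_h hδ
  rw [← cev_ch1] at o2
  have hn : ∫ q, ‖fs S s (cev S (hh δ) t c) q‖ ^ 2 ≤ 16 := by
    rw [(int_fs S s _).2, nsq_cev]
    exact hd.n0
  have hcut : Cut (fun q => 1 - cutV V (G.rho0 / 4) q) := cut_sub (cut_const 1) (cutV_cut V hr)
  have hcd := cdom_fs S s (cev S (hh δ) t c)
  have en := hcd.energy hcut G.isBounded
  have fl := fsL_eq S (hh δ) s (cev S (hh δ) t c)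
  have iF1 := (int_fs S s (ch1 S (hh δ) (cev S (hh δ) t c))).1
  generalize cev S (hh δ) t c = c' at *
  have ml := hcd.ch.memLp
  have iF := EShell_sq_int ml.1
  have ig : Integrable (fun q => ‖fs1 S s c' q‖ ^ 2 + ‖fs2 S s c' q‖ ^ 2) :=
    (EShell_sq_int ml.2.1).add (EShell_sq_int ml.2.2)
  have ζm : ∀ q, 0 ≤ 1 - cutV V (G.rho0 / 4) q ∧ 1 - cutV V (G.rho0 / 4) q ≤ 1 := fun q => by
    obtain ⟨e1, e2⟩ := cutV_mem V (G.rho0 / 4) q
    exact ⟨by linarith, by linarith⟩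
  have ζ0 : ∀ q, ¬ G.rho0 / 4 ≤ dist q V → 1 - cutV V (G.rho0 / 4) q = 0 := fun q hq => by
    rw [cutV_one hr (not_le.1 hq).le, sub_self]
  have ζ1 : ∀ q, G.rho0 / 2 ≤ dist q V → 1 - cutV V (G.rho0 / 4) q = 1 := fun q hq => by
    rw [cutV_zero hr (by linarith), sub_zero]
  -- the left hand side
  have L1 : ∫ q in {q : P | G.rho0 / 2 ≤ dist q V},
      (‖fs1 S s c' q‖ ^ 2 + ‖fs2 S s c' q‖ ^ 2) ≤
      ∫ q, (1 - cutV V (G.rho0 / 4) q) * (‖fs1 S s c' q‖ ^ 2 + ‖fs2 S s c' q‖ ^ 2) := by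
    rw [← integral_indicator (EShell_meas _ V)]
    refine integral_mono (ig.indicator (EShell_meas _ V)) ?_ fun q => ?_
    · refine Integrable.mono' ig
        (hcut.smooth.continuous.aestronglyMeasurable.mul ig.1) (ae_of_all _ fun q => ?_)
      rw [norm_mul, Real.norm_eq_abs, Real.norm_eq_abs, abs_of_nonneg (ζm q).1,
        abs_of_nonneg (by positivity)]
      exact mul_le_of_le_one_left (by positivity) (ζm q).2
    · by_cases hq : G.rho0 / 2 ≤ dist q V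
      · rw [indicator_of_mem (show q ∈ {q : P | G.rho0 / 2 ≤ dist q V} from hq)]
        simp only [ζ1 q hq, one_mul, le_refl]
      · rw [indicator_of_notMem (show q ∉ {q : P | G.rho0 / 2 ≤ dist q V} from hq)]
        exact mul_nonneg (ζm q).1 (by positivity)
  -- the first term
  have iA : Integrable (fun q => 3 / 2 * ‖fs S s c' q‖ ^ 2 +
      1 / 2 * ‖fs S s (ch1 S (hh δ) c') q‖ ^ 2) := (iF.const_mul _).add (iF1.const_mul _)
  have L2 : hh δ ^ 2 * ∫ q, (1 - cutV V (G.rho0 / 4) q) *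
      (conj (fs S s c' q) * fsL S s c' q).re ≤
      3 / 2 * (C * th δ ^ 2) + 1 / 2 * (C * th δ ^ 3) := by
    have e1 : hh δ ^ 2 * ∫ q, (1 - cutV V (G.rho0 / 4) q) *
        (conj (fs S s c' q) * fsL S s c' q).re =
        ∫ q, (1 - cutV V (G.rho0 / 4) q) * (conj (fs S s c' q) *
          (fs S s c' q + fs S s (ch1 S (hh δ) c') q)).re := by
      rw [← integral_const_mul]
      refine integral_congr_ae (ae_of_all _ fun q => ?_)
      simp only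
      rw [← fl q, mul_left_comm (conj (fs S s c' q)), Complex.re_ofReal_mul]
      ring
    have e2 := norm_integral_le_of_norm_le (iA.indicator (EShell_meas (G.rho0 / 4) V))
      (f := fun q => (1 - cutV V (G.rho0 / 4) q) * (conj (fs S s c' q) *
          (fs S s c' q + fs S s (ch1 S (hh δ) c') q)).re) (ae_of_all _ fun q => by
        by_cases hq : G.rho0 / 4 ≤ dist q V
        · rw [indicator_of_mem (show q ∈ {q : P | G.rho0 / 4 ≤ dist q V} from hq), norm_mul,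
            Real.norm_eq_abs, abs_of_nonneg (ζm q).1]
          have e3 : ‖(conj (fs S s c' q) * (fs S s c' q +
              fs S s (ch1 S (hh δ) c') q)).re‖ ≤ 3 / 2 * ‖fs S s c' q‖ ^ 2 +
              1 / 2 * ‖fs S s (ch1 S (hh δ) c') q‖ ^ 2 := by
            refine (Complex.abs_re_le_norm _).trans ?_
            rw [norm_mul, RCLike.norm_conj]
            have e4 := norm_add_le (fs S s c' q) (fs S s (ch1 S (hh δ) c') q)
            have e5 := norm_nonneg (fs S s c' q)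
            have e6 := mul_le_mul_of_nonneg_left e4 e5
            nlinarith [sq_nonneg (‖fs S s c' q‖ - ‖fs S s (ch1 S (hh δ) c') q‖)]
          exact (mul_le_of_le_one_left (norm_nonneg _) (ζm q).2).trans e3
        · rw [indicator_of_notMem (show q ∉ {q : P | G.rho0 / 4 ≤ dist q V} from hq),
            ζ0 q hq, zero_mul, norm_zero])
    rw [integral_indicator (EShell_meas _ V), integral_add
      (iF.const_mul _).integrableOn (iF1.const_mul _).integrableOn, integral_const_mul,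
      integral_const_mul] at e2
    rw [e1]
    refine (le_abs_self _).trans (e2.trans ?_)
    linarith
  -- the second term
  have L3 : ∫ q, lap (fun q => 1 - cutV V (G.rho0 / 4) q) q * ‖fs S s c' q‖ ^ 2 ≤
      K / (G.rho0 / 4) ^ 2 * 16 := by
    have e2 := norm_integral_le_of_norm_le (iF.const_mul (K / (G.rho0 / 4) ^ 2))
      (f := fun q => lap (fun q => 1 - cutV V (G.rho0 / 4) q) q * ‖fs S s c' q‖ ^ 2)
      (ae_of_all _ fun q => by
        rw [norm_mul, EShell_lap, norm_neg, Real.norm_eq_abs, Real.norm_eq_abs,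
          abs_of_nonneg (by positivity : 0 ≤ ‖fs S s c' q‖ ^ 2)]
        exact mul_le_mul_of_nonneg_right (hb V _ hr q).2.2 (by positivity))
    rw [integral_const_mul] at e2
    refine (le_abs_self _).trans (e2.trans ?_)
    exact mul_le_mul_of_nonneg_left hn (by positivity)
  rw [en] at L1
  have hp : 0 ≤ hh δ ^ 2 := by positivity
  have L4 := mul_le_mul_of_nonneg_left L1 hp
  have L5 := mul_le_mul_of_nonneg_left L3 hp
  have hKK : 0 ≤ K / (G.rho0 / 4) ^ 2 := by positivity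
  have L6 := mul_le_mul_of_nonneg_right p1 hKK
  have L7 := mul_le_mul_of_nonneg_left p2 hC
  nlinarith

private theorem EShell_le {A : Set P} {f g : P → ℝ} (hg : Integrable g)
    (h : ∀ q, ‖f q‖ ≤ g q) : ∫ q in A, f q ≤ ∫ q in A, g q :=
  (le_abs_self _).trans (norm_integral_le_of_norm_le hg.integrableOn (ae_of_all _ h))

private theorem EShell_sub {A B : Set P} {g : P → ℝ} (hg : Integrable g) (h0 : ∀ q, 0 ≤ g q)
    (hAB : A ⊆ B) : ∫ q in A, g q ≤ ∫ q in B, g q :=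
  setIntegral_mono_set hg.integrableOn (ae_of_all _ h0) hAB.eventuallyLE

private theorem EShell_all {A : Set P} {g : P → ℝ} (hg : Integrable g) (h0 : ∀ q, 0 ≤ g q) :
    ∫ q in A, g q ≤ ∫ q, g q :=
  setIntegral_le_integral hg (ae_of_all _ h0)

private theorem EShell_a3 (x y z : ℝ) :
    (2 * (x + y) + z) ^ 2 ≤ 12 * (x ^ 2 + y ^ 2) + 3 * z ^ 2 := by
  nlinarith [sq_nonneg (x - y), sq_nonneg (2 * x - z), sq_nonneg (2 * y - z)]

private theorem EShell_a2 (x y : ℝ) : (x + y) ^ 2 ≤ 2 * x ^ 2 + 2 * y ^ 2 := by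
  nlinarith [sq_nonneg (x - y)]

private theorem EShell_Cm (S : Spec D) {V : P} {r K : ℝ}
    (hb : ∀ q : P, |d1 (cutV V r) q| ≤ K / r ∧ |d2 (cutV V r) q| ≤ K / r ∧
      |lap (cutV V r) q| ≤ K / r ^ 2) (s : Finset ℕ) (c : ℕ → ℂ) (q : P) :
    ‖Cm S V r s c q‖ ^ 2 ≤ 12 * (K / r) ^ 2 * (‖fs1 S s c q‖ ^ 2 + ‖fs2 S s c q‖ ^ 2) +
      3 * (K / r ^ 2) ^ 2 * ‖fs S s c q‖ ^ 2 := by
  obtain ⟨h1, h2, h3⟩ := hb q
  have e0 : ‖Cm S V r s c q‖ ≤ 2 * (K / r * ‖fs1 S s c q‖ + K / r * ‖fs2 S s c q‖) +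
      K / r ^ 2 * ‖fs S s c q‖ := by
    unfold Cm
    refine (norm_add_le _ _).trans (add_le_add ?_ ?_)
    · rw [norm_mul, Complex.norm_ofNat]
      refine mul_le_mul_of_nonneg_left ((norm_add_le _ _).trans (add_le_add ?_ ?_)) zero_le_two
      · rw [norm_mul, Complex.norm_real]
        exact mul_le_mul_of_nonneg_right h1 (norm_nonneg _)
      · rw [norm_mul, Complex.norm_real]
        exact mul_le_mul_of_nonneg_right h2 (norm_nonneg _)
    · rw [norm_mul, Complex.norm_real]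
      exact mul_le_mul_of_nonneg_right h3 (norm_nonneg _)
  refine (pow_le_pow_left₀ (norm_nonneg _) e0 2).trans ((EShell_a3 _ _ _).trans (le_of_eq ?_))
  ring

private theorem EShell_Cm_zero (S : Spec D) {V : P} {r : ℝ} (hr : 0 < r) (s : Finset ℕ)
    (c : ℕ → ℂ) {q : P} (hq : dist q V < r) : Cm S V r s c q = 0 := by
  obtain ⟨h1, h2, h3⟩ := cutV_der_zero hr (Or.inl hq)
  unfold Cm
  rw [h1, h2, h3]
  simp

private theorem EShell_Cm_meas (S : Spec D) (V : P) {r : ℝ} (hr : 0 < r) (s : Finset ℕ)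
    (c : ℕ → ℂ) : AEStronglyMeasurable (Cm S V r s c) volume := by
  have ml := (cdom_fs S s c).ch.memLp
  have hs := (cutV_cut V hr).smooth
  have c1 : Continuous (fun q => (d1 (cutV V r) q : ℂ)) :=
    Complex.continuous_ofReal.comp (ECut_d_smooth hs).1.continuous
  have c2 : Continuous (fun q => (d2 (cutV V r) q : ℂ)) :=
    Complex.continuous_ofReal.comp (ECut_d_smooth hs).2.continuous
  have c3 : Continuous (fun q => (lap (cutV V r) q : ℂ)) :=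
    Complex.continuous_ofReal.comp ((ECut_d_smooth (ECut_d_smooth hs).1).1.continuous.add
      (ECut_d_smooth (ECut_d_smooth hs).2).2.continuous)
  exact ((((c1.aestronglyMeasurable.mul ml.2.1.1).add
    (c2.aestronglyMeasurable.mul ml.2.2.1)).const_mul 2).add
    (c3.aestronglyMeasurable.mul ml.1.1))

theorem Cm_bd (S : Spec D) (G : Geo D) (C₀ : ℝ) : ∃ C : ℝ, 0 ≤ C ∧
    ∀ᶠ δ in 𝓝[>] (0 : ℝ), ∀ (V : P) (s : Finset ℕ) (c : ℕ → ℂ), Dat S V C₀ δ s c →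
      ∀ t, 0 ≤ t → t ≤ G.rho0 / 32 →
      Integrable (fun q => ‖Cm S V (G.rho0 / 2) s (cev S (hh δ) t c) q‖ ^ 2) ∧
      hh δ ^ 2 * ∫ q, ‖Cm S V (G.rho0 / 2) s (cev S (hh δ) t c) q‖ ^ 2 ≤ C * th δ ^ 2 := by
  obtain ⟨C, hC, h⟩ := shell_grad S G C₀
  obtain ⟨K, hK, hb⟩ := cutV_bdd
  have hρ := G.pos
  have hr : 0 < G.rho0 / 2 := by positivity
  obtain ⟨K1, hK1⟩ : ∃ K1, K1 = 12 * (K / (G.rho0 / 2)) ^ 2 := ⟨_, rfl⟩
  obtain ⟨K2, hK2⟩ : ∃ K2, K2 = 3 * (K / (G.rho0 / 2) ^ 2) ^ 2 := ⟨_, rfl⟩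
  have k1 : 0 ≤ K1 := by rw [hK1]; positivity
  have k2 : 0 ≤ K2 := by rw [hK2]; positivity
  refine ⟨K1 * C + K2 * 16, by positivity, ?_⟩
  filter_upwards [h, Ioo_mem_nhdsGT zero_lt_one] with δ h1 hδ V s c hd t ht0 ht1
  have o1 := h1 V s c hd t ht0 ht1
  obtain ⟨p1, p2, p3⟩ := EShell_sq hδ
  have hn : ∫ q, ‖fs S s (cev S (hh δ) t c) q‖ ^ 2 ≤ 16 := by
    rw [(int_fs S s _).2, nsq_cev]
    exact hd.n0
  generalize cev S (hh δ) t c = c' at *
  have ml := (cdom_fs S s c').ch.memLp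
  have iF := EShell_sq_int ml.1
  have ig : Integrable (fun q => ‖fs1 S s c' q‖ ^ 2 + ‖fs2 S s c' q‖ ^ 2) :=
    (EShell_sq_int ml.2.1).add (EShell_sq_int ml.2.2)
  have iM : Integrable (fun q => K1 * (‖fs1 S s c' q‖ ^ 2 + ‖fs2 S s c' q‖ ^ 2) +
      K2 * ‖fs S s c' q‖ ^ 2) := (ig.const_mul _).add (iF.const_mul _)
  have hpt : ∀ q, ‖‖Cm S V (G.rho0 / 2) s c' q‖ ^ 2‖ ≤
      {q : P | G.rho0 / 2 ≤ dist q V}.indicator (fun q => K1 *
        (‖fs1 S s c' q‖ ^ 2 + ‖fs2 S s c' q‖ ^ 2) + K2 * ‖fs S s c' q‖ ^ 2) q := by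
    intro q
    rw [Real.norm_eq_abs, abs_of_nonneg (by positivity)]
    by_cases hq : G.rho0 / 2 ≤ dist q V
    · rw [indicator_of_mem (show q ∈ {q : P | G.rho0 / 2 ≤ dist q V} from hq), hK1, hK2]
      exact EShell_Cm S (hb V _ hr) s c' q
    · rw [indicator_of_notMem (show q ∉ {q : P | G.rho0 / 2 ≤ dist q V} from hq),
        EShell_Cm_zero S hr s c' (not_le.1 hq), norm_zero]
      norm_num
  have iC : Integrable (fun q => ‖Cm S V (G.rho0 / 2) s c' q‖ ^ 2) :=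
    Integrable.mono' (iM.indicator (EShell_meas _ V))
      ((EShell_Cm_meas S V hr s c').norm.pow 2) (ae_of_all _ hpt)
  refine ⟨iC, ?_⟩
  have e1 := norm_integral_le_of_norm_le (iM.indicator (EShell_meas (G.rho0 / 2) V))
    (ae_of_all _ hpt)
  rw [integral_indicator (EShell_meas _ V), integral_add
    (ig.const_mul _).integrableOn (iF.const_mul _).integrableOn, integral_const_mul,
    integral_const_mul] at e1
  have e2 := (le_abs_self _).trans e1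
  have e3 : ∫ q in {q : P | G.rho0 / 2 ≤ dist q V}, ‖fs S s c' q‖ ^ 2 ≤ 16 :=
    (EShell_all iF fun q => by positivity).trans hn
  have hp : 0 ≤ hh δ ^ 2 := by positivity
  have e4 := mul_le_mul_of_nonneg_left e2 hp
  have e5 := mul_le_mul_of_nonneg_left o1 k1
  have e6 := mul_le_mul_of_nonneg_left (mul_le_mul p1 e3
    (integral_nonneg fun q => by positivity) (by positivity)) k2
  nlinarith

private theorem EShell_b3 (x y z : ℝ) : (x + y + z) ^ 2 ≤ 3 * x ^ 2 + 3 * y ^ 2 + 3 * z ^ 2 := by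
  nlinarith [sq_nonneg (x - y), sq_nonneg (x - z), sq_nonneg (y - z)]

private theorem EShell_W0 (S : Spec D) (V : P) (r : ℝ) (s : Finset ℕ) (c : ℕ → ℂ) (q : P) :
    ‖W0 S V r s c q‖ ≤ ‖fs S s c q‖ := by
  obtain ⟨h1, h2⟩ := cutV_mem V r q
  unfold W0
  rw [norm_mul, Complex.norm_real, Real.norm_eq_abs, abs_of_nonneg h1]
  exact mul_le_of_le_one_left (norm_nonneg _) h2

private theorem EShell_W1 (S : Spec D) {V : P} {r K : ℝ}
    (hb : ∀ q : P, |d1 (cutV V r) q| ≤ K / r ∧ |d2 (cutV V r) q| ≤ K / r ∧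
      |lap (cutV V r) q| ≤ K / r ^ 2) (s : Finset ℕ) (c : ℕ → ℂ) (q : P) :
    ‖W1 S V r s c q‖ ^ 2 + ‖W2 S V r s c q‖ ^ 2 ≤
      2 * (‖fs1 S s c q‖ ^ 2 + ‖fs2 S s c q‖ ^ 2) + 4 * (K / r) ^ 2 * ‖fs S s c q‖ ^ 2 := by
  obtain ⟨h1, h2, -⟩ := hb q
  obtain ⟨h3, h4⟩ := cutV_mem V r q
  have e : ∀ (x : ℝ) (y z : ℂ), |x| ≤ K / r →
      ‖(cutV V r q : ℂ) * y + (x : ℂ) * z‖ ^ 2 ≤ 2 * ‖y‖ ^ 2 + 2 * (K / r * ‖z‖) ^ 2 := by
    intro x y z hx
    have e1 : ‖(cutV V r q : ℂ) * y + (x : ℂ) * z‖ ≤ ‖y‖ + K / r * ‖z‖ := by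
      refine (norm_add_le _ _).trans (add_le_add ?_ ?_)
      · rw [norm_mul, Complex.norm_real, Real.norm_eq_abs, abs_of_nonneg h3]
        exact mul_le_of_le_one_left (norm_nonneg _) h4
      · rw [norm_mul, Complex.norm_real]
        exact mul_le_mul_of_nonneg_right hx (norm_nonneg _)
    exact (pow_le_pow_left₀ (norm_nonneg _) e1 2).trans (EShell_a2 _ _)
  have e1 := e _ (fs1 S s c q) (fs S s c q) h1
  have e2 := e _ (fs2 S s c q) (fs S s c q) h2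
  unfold W1 W2
  refine (add_le_add e1 e2).trans (le_of_eq ?_)
  ring

private theorem EShell_WL (S : Spec D) (V : P) (r h : ℝ) (s : Finset ℕ) (c : ℕ → ℂ) (q : P) :
    ‖((h ^ 2 : ℝ) : ℂ) * WL S V r s c q‖ ^ 2 ≤ 3 * ‖fs S s c q‖ ^ 2 +
        3 * ‖fs S s (ch1 S h c) q‖ ^ 2 + 3 * h ^ 4 * ‖Cm S V r s c q‖ ^ 2 ∧
      ‖((h ^ 2 : ℝ) : ℂ) * WL S V r s c q - W0 S V r s c q‖ ^ 2 ≤
        2 * ‖fs S s (ch1 S h c) q‖ ^ 2 + 2 * h ^ 4 * ‖Cm S V r s c q‖ ^ 2 := by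
  obtain ⟨h3, h4⟩ := cutV_mem V r q
  have e0 : ((h ^ 2 : ℝ) : ℂ) * WL S V r s c q = (cutV V r q : ℂ) * fs S s c q +
      (cutV V r q : ℂ) * fs S s (ch1 S h c) q - ((h ^ 2 : ℝ) : ℂ) * Cm S V r s c q := by
    unfold WL
    rw [mul_sub, mul_left_comm, fsL_eq, mul_add]
  have e1 : ∀ z : ℂ, ‖(cutV V r q : ℂ) * z‖ ≤ ‖z‖ := by
    intro z
    rw [norm_mul, Complex.norm_real, Real.norm_eq_abs, abs_of_nonneg h3]
    exact mul_le_of_le_one_left (norm_nonneg _) h4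
  have e2 : ‖((h ^ 2 : ℝ) : ℂ) * Cm S V r s c q‖ = h ^ 2 * ‖Cm S V r s c q‖ := by
    rw [norm_mul, Complex.norm_real, Real.norm_eq_abs, abs_of_nonneg (by positivity)]
  constructor
  · rw [e0]
    have e3 : ‖(cutV V r q : ℂ) * fs S s c q + (cutV V r q : ℂ) * fs S s (ch1 S h c) q -
        ((h ^ 2 : ℝ) : ℂ) * Cm S V r s c q‖ ≤
        ‖fs S s c q‖ + ‖fs S s (ch1 S h c) q‖ + h ^ 2 * ‖Cm S V r s c q‖ := by
      rw [← e2]
      exact (norm_sub_le _ _).trans (add_le_add ((norm_add_le _ _).trans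
        (add_le_add (e1 _) (e1 _))) le_rfl)
    refine (pow_le_pow_left₀ (norm_nonneg _) e3 2).trans ((EShell_b3 _ _ _).trans (le_of_eq ?_))
    ring
  · have e4 : ((h ^ 2 : ℝ) : ℂ) * WL S V r s c q - W0 S V r s c q =
        (cutV V r q : ℂ) * fs S s (ch1 S h c) q - ((h ^ 2 : ℝ) : ℂ) * Cm S V r s c q := by
      rw [e0]
      unfold W0
      ring
    rw [e4]
    have e3 : ‖(cutV V r q : ℂ) * fs S s (ch1 S h c) q -
        ((h ^ 2 : ℝ) : ℂ) * Cm S V r s c q‖ ≤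
        ‖fs S s (ch1 S h c) q‖ + h ^ 2 * ‖Cm S V r s c q‖ := by
      rw [← e2]
      exact (norm_sub_le _ _).trans (add_le_add (e1 _) le_rfl)
    refine (pow_le_pow_left₀ (norm_nonneg _) e3 2).trans ((EShell_a2 _ _).trans (le_of_eq ?_))
    ring

theorem shell_W (S : Spec D) (G : Geo D) (C₀ : ℝ) : ∃ C : ℝ, 0 ≤ C ∧
    ∀ᶠ δ in 𝓝[>] (0 : ℝ), ∀ (V : P) (s : Finset ℕ) (c : ℕ → ℂ), Dat S V C₀ δ s c →
      ∀ t, 0 ≤ t → t ≤ G.rho0 / 32 →
      ∫ q, ‖RR S V (G.rho0 / 2) s (hh δ) (cev S (hh δ) t c) q‖ ^ 2 ≤ C * th δ ^ 2 ∧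
      ∫ q in {q : P | G.rho0 / 2 ≤ dist q V},
        ‖W0 S V (G.rho0 / 2) s (cev S (hh δ) t c) q‖ ^ 2 ≤ C * th δ ^ 2 ∧
      hh δ ^ 2 * ∫ q in {q : P | G.rho0 / 2 ≤ dist q V},
        (‖W1 S V (G.rho0 / 2) s (cev S (hh δ) t c) q‖ ^ 2 +
          ‖W2 S V (G.rho0 / 2) s (cev S (hh δ) t c) q‖ ^ 2) ≤ C * th δ ^ 2 ∧
      hh δ ^ 4 * ∫ q in {q : P | G.rho0 / 2 ≤ dist q V},
        ‖WL S V (G.rho0 / 2) s (cev S (hh δ) t c) q‖ ^ 2 ≤ C * th δ ^ 2 ∧
      ∫ q, ‖((hh δ ^ 2 : ℝ) : ℂ) * WL S V (G.rho0 / 2) s (cev S (hh δ) t c) q -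
        W0 S V (G.rho0 / 2) s (cev S (hh δ) t c) q‖ ^ 2 ≤ C * th δ ^ 2 := by
  obtain ⟨Co, hCo, ho⟩ := out_est S G C₀
  obtain ⟨Cg, hCg, hg⟩ := shell_grad S G C₀
  obtain ⟨Cc, hCc, hc⟩ := Cm_bd S G C₀
  obtain ⟨K, hK, hb⟩ := cutV_bdd
  have hρ := G.pos
  have hr : 0 < G.rho0 / 2 := by positivity
  obtain ⟨K1, hK1⟩ : ∃ K1, K1 = 4 * (K / (G.rho0 / 2)) ^ 2 := ⟨_, rfl⟩
  have k1 : 0 ≤ K1 := by rw [hK1]; positivity
  refine ⟨Cc + Co + (2 * Cg + K1 * Co) + (6 * Co + 3 * Cc) + (2 * C₀ ^ 2 + 2 * Cc),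
    by positivity, ?_⟩
  filter_upwards [ho, hg, hc, Ioo_mem_nhdsGT zero_lt_one] with δ h1 h2 h3 hδ V s c hd t ht0 ht1
  obtain ⟨o1, o2⟩ := h1 V s c hd t ht0 ht1
  have o3 := h2 V s c hd t ht0 ht1
  obtain ⟨iC, o4⟩ := h3 V s c hd t ht0 ht1
  obtain ⟨p1, p2, p3⟩ := EShell_sq hδ
  obtain ⟨a1, a2, a3, a4, a5⟩ := EShell_h hδ
  have o5 : ∫ q, ‖fs S s (cev S (hh δ) t (ch1 S (hh δ) c)) q‖ ^ 2 ≤ (C₀ * th δ) ^ 2 := by
    rw [(int_fs S s _).2, nsq_cev]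
    exact hd.n1
  rw [← cev_ch1] at o2 o5
  generalize cev S (hh δ) t c = c' at *
  have ml := (cdom_fs S s c').ch.memLp
  have iF := EShell_sq_int ml.1
  have iF1 := (int_fs S s (ch1 S (hh δ) c')).1
  have ig : Integrable (fun q => ‖fs1 S s c' q‖ ^ 2 + ‖fs2 S s c' q‖ ^ 2) :=
    (EShell_sq_int ml.2.1).add (EShell_sq_int ml.2.2)
  have hsub : {q : P | G.rho0 / 2 ≤ dist q V} ⊆ {q : P | G.rho0 / 4 ≤ dist q V} := by
    intro q hq
    have hq' : G.rho0 / 2 ≤ dist q V := hq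
    show G.rho0 / 4 ≤ dist q V
    linarith
  have b1 : ∫ q in {q : P | G.rho0 / 2 ≤ dist q V}, ‖fs S s c' q‖ ^ 2 ≤ Co * th δ ^ 2 :=
    (EShell_sub iF (fun q => by positivity) hsub).trans o1
  have b2 : ∫ q in {q : P | G.rho0 / 2 ≤ dist q V}, ‖fs S s (ch1 S (hh δ) c') q‖ ^ 2 ≤
      Co * th δ ^ 2 :=
    ((EShell_sub iF1 (fun q => by positivity) hsub).trans o2).trans
      (mul_le_mul_of_nonneg_left p2 hCo)
  have hp : 0 ≤ hh δ ^ 2 := by positivity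
  have ht2 : 0 ≤ th δ ^ 2 := by positivity
  have q1 : 0 ≤ Cc * th δ ^ 2 := by positivity
  have q2 : 0 ≤ Co * th δ ^ 2 := by positivity
  have q3 : 0 ≤ Cg * th δ ^ 2 := by positivity
  have q4 : 0 ≤ K1 * (Co * th δ ^ 2) := by positivity
  have q5 : 0 ≤ C₀ ^ 2 * th δ ^ 2 := by positivity
  have hC4 : hh δ ^ 4 * ∫ q, ‖Cm S V (G.rho0 / 2) s c' q‖ ^ 2 ≤ Cc * th δ ^ 2 := by
    have e1 : hh δ ^ 4 * ∫ q, ‖Cm S V (G.rho0 / 2) s c' q‖ ^ 2 =
        hh δ ^ 2 * (hh δ ^ 2 * ∫ q, ‖Cm S V (G.rho0 / 2) s c' q‖ ^ 2) := by ring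
    rw [e1]
    have e2 := mul_le_mul_of_nonneg_left o4 hp
    have e3 := mul_le_mul_of_nonneg_right p3 q1
    linarith
  refine ⟨?_, ?_, ?_, ?_, ?_⟩
  · have e1 : ∀ q, ‖RR S V (G.rho0 / 2) s (hh δ) c' q‖ ^ 2 =
        1 / 4 * hh δ ^ 2 * ‖Cm S V (G.rho0 / 2) s c' q‖ ^ 2 := by
      intro q
      unfold RR
      rw [norm_mul, norm_neg, norm_mul, Complex.norm_I, Complex.norm_real, Real.norm_eq_abs,
        abs_of_nonneg (by positivity)]
      ring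
    simp only [e1]
    rw [integral_const_mul]
    have e2 : 1 / 4 * hh δ ^ 2 * ∫ q, ‖Cm S V (G.rho0 / 2) s c' q‖ ^ 2 =
      1 / 4 * (hh δ ^ 2 * ∫ q, ‖Cm S V (G.rho0 / 2) s c' q‖ ^ 2) := by ring
    rw [e2]
    nlinarith
  · have e1 := EShell_le (A := {q : P | G.rho0 / 2 ≤ dist q V}) iF
      (f := fun q => ‖W0 S V (G.rho0 / 2) s c' q‖ ^ 2) (fun q => by
        rw [Real.norm_eq_abs, abs_of_nonneg (by positivity)]
        exact pow_le_pow_left₀ (norm_nonneg _) (EShell_W0 S V _ s c' q) 2)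
    have e2 := e1.trans b1
    nlinarith
  · have e1 := EShell_le (A := {q : P | G.rho0 / 2 ≤ dist q V})
      (g := fun q => 2 * (‖fs1 S s c' q‖ ^ 2 + ‖fs2 S s c' q‖ ^ 2) + K1 * ‖fs S s c' q‖ ^ 2)
      ((ig.const_mul _).add (iF.const_mul _))
      (f := fun q => ‖W1 S V (G.rho0 / 2) s c' q‖ ^ 2 + ‖W2 S V (G.rho0 / 2) s c' q‖ ^ 2)
      (fun q => by
        rw [Real.norm_eq_abs, abs_of_nonneg (by positivity), hK1]
        exact EShell_W1 S (hb V _ hr) s c' q)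
    rw [integral_add (ig.const_mul _).integrableOn (iF.const_mul _).integrableOn,
      integral_const_mul, integral_const_mul] at e1
    have e2 := mul_le_mul_of_nonneg_left e1 hp
    have e3 : hh δ ^ 2 * ∫ q in {q : P | G.rho0 / 2 ≤ dist q V}, ‖fs S s c' q‖ ^ 2 ≤
        Co * th δ ^ 2 := by
      have e4 := mul_le_mul_of_nonneg_left b1 hp
      have e5 := mul_le_mul_of_nonneg_right p3 q2
      linarith
    have e4 := mul_le_mul_of_nonneg_left e3 k1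
    nlinarith
  · have e1 := EShell_le (A := {q : P | G.rho0 / 2 ≤ dist q V})
      (g := fun q => 3 * ‖fs S s c' q‖ ^ 2 + 3 * ‖fs S s (ch1 S (hh δ) c') q‖ ^ 2 +
        3 * hh δ ^ 4 * ‖Cm S V (G.rho0 / 2) s c' q‖ ^ 2)
      (((iF.const_mul _).add (iF1.const_mul _)).add (iC.const_mul _))
      (f := fun q => hh δ ^ 4 * ‖WL S V (G.rho0 / 2) s c' q‖ ^ 2)
      (fun q => by
        have e2 := (EShell_WL S V (G.rho0 / 2) (hh δ) s c' q).1
        rw [norm_mul, Complex.norm_real, Real.norm_eq_abs, abs_of_nonneg hp] at e2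
        rw [Real.norm_eq_abs, abs_of_nonneg (by positivity)]
        refine (le_of_eq ?_).trans e2
        ring)
    have i1 : Integrable (fun q => 3 * ‖fs S s c' q‖ ^ 2 +
        3 * ‖fs S s (ch1 S (hh δ) c') q‖ ^ 2) := (iF.const_mul _).add (iF1.const_mul _)
    rw [integral_const_mul, integral_add i1.integrableOn (iC.const_mul _).integrableOn,
      integral_add (iF.const_mul _).integrableOn (iF1.const_mul _).integrableOn,
      integral_const_mul, integral_const_mul, integral_const_mul] at e1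
    have e2 : 3 * hh δ ^ 4 * ∫ q in {q : P | G.rho0 / 2 ≤ dist q V},
        ‖Cm S V (G.rho0 / 2) s c' q‖ ^ 2 ≤ 3 * (Cc * th δ ^ 2) := by
      have e3 := EShell_all (A := {q : P | G.rho0 / 2 ≤ dist q V}) iC fun q => by positivity
      have e4 : 0 ≤ hh δ ^ 4 := by positivity
      have e5 := mul_le_mul_of_nonneg_left e3 e4
      linarith
    nlinarith
  · have e1 := EShell_le (A := univ)
      (g := fun q => 2 * ‖fs S s (ch1 S (hh δ) c') q‖ ^ 2 +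
        2 * hh δ ^ 4 * ‖Cm S V (G.rho0 / 2) s c' q‖ ^ 2)
      ((iF1.const_mul _).add (iC.const_mul _))
      (f := fun q => ‖((hh δ ^ 2 : ℝ) : ℂ) * WL S V (G.rho0 / 2) s c' q -
        W0 S V (G.rho0 / 2) s c' q‖ ^ 2)
      (fun q => by
        rw [Real.norm_eq_abs, abs_of_nonneg (by positivity)]
        exact (EShell_WL S V (G.rho0 / 2) (hh δ) s c' q).2)
    rw [setIntegral_univ, setIntegral_univ, integral_add (iF1.const_mul _) (iC.const_mul _),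
      integral_const_mul, integral_const_mul] at e1
    have e2 : (C₀ * th δ) ^ 2 = C₀ ^ 2 * th δ ^ 2 := by ring
    rw [e2] at o5
    nlinarith

end

end Pool.Agent.MP4eed4eR.E
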