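import Pool.Agent.Lib.MP_4eed4e_an_RE.ECut
import Pool.Agent.Lib.MP_4eed4e_an_RE.EForm
import Pool.Agent.Lib.MP_4eed4e_an_RE.EStat

/-!
MP_4eed4e_an, project R, block E, module EVirA: static identities for the localised wave.

PROOFS.
* `cdom_W`: `CDom.mul` for `cdom_fs` and `η = cutV V r` (`cutV_cut`).
* `W_zero`: `cutV_zero`, and for the derivatives of the cutoff `cutV_der_zero` (at `dist q V > 2 r`).
* `W0_cdt`: `η * fs (cdt c) = η * (- (i h / 2) fsL c)` (`fs_cdt`) and `η fsL = WL + Cm`.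
* `W_lin`: the functions `W0`, `W1`, `W2`, `XW` of `c` are finite sums `∑ c k * a k q`.
* `cutX`: `ζ q = cutV V (2 r) q * (q.1 - V.1)` etc. are `Cut` (products of smooth functions, with
  compact support), and for `dist q V < 2 r` the cutoff is `1` near `q`.
-/

namespace Pool.Agent.MP4eed4eR.E

open MeasureTheory Set Filter Topology Metric
open scoped ComplexConjugate ContDiff

noncomputable section

variable {D : Set P}

theorem cdom_W (S : Spec D) (V : P) {r : ℝ} (hr : 0 < r) (s : Finset ℕ) (c : ℕ → ℂ) :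
    CDom D (W0 S V r s c) (W1 S V r s c) (W2 S V r s c) (WL S V r s c) := by
  exact CDom.mul (cutV_cut V hr) (cdom_fs S s c)

theorem W_zero (S : Spec D) {V : P} {r : ℝ} (hr : 0 < r) (s : Finset ℕ) (c : ℕ → ℂ) {q : P}
    (h : 2 * r < dist q V) : W0 S V r s c q = 0 ∧ W1 S V r s c q = 0 ∧ W2 S V r s c q = 0 ∧
      Cm S V r s c q = 0 ∧ WL S V r s c q = 0 := by
  have h0 := cutV_zero hr h.le
  obtain ⟨h1, h2, h3⟩ := cutV_der_zero hr (Or.inr h)
  have hC : Cm S V r s c q = 0 := by simp [Cm, h1, h2, h3]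
  refine ⟨?_, ?_, ?_, hC, ?_⟩
  · simp [W0, h0]
  · simp [W1, h0, h1]
  · simp [W2, h0, h2]
  · simp [WL, h0, hC]

theorem Cm_zero (S : Spec D) {V : P} {r : ℝ} (hr : 0 < r) (s : Finset ℕ) (c : ℕ → ℂ) {q : P}
    (h : dist q V < r) : Cm S V r s c q = 0 ∧ W1 S V r s c q = fs1 S s c q ∧
      W2 S V r s c q = fs2 S s c q ∧ W0 S V r s c q = fs S s c q := by
  have h0 := cutV_one hr h.le
  obtain ⟨h1, h2, h3⟩ := cutV_der_zero hr (Or.inl h)
  refine ⟨?_, ?_, ?_, ?_⟩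
  · simp [Cm, h1, h2, h3]
  · simp [W1, h0, h1]
  · simp [W2, h0, h2]
  · simp [W0, h0]

theorem memLp_Cm (S : Spec D) (V : P) {r : ℝ} (hr : 0 < r) (s : Finset ℕ) (c : ℕ → ℂ) (h : ℝ) :
    MemLp (Cm S V r s c) 2 volume ∧ MemLp (RR S V r s h c) 2 volume := by
  have h1 : MemLp (WL S V r s c) 2 volume := (cdom_W S V hr s c).memLp_f
  have h2 : MemLp (fsL S s c) 2 volume := (cdom_fs S s c).memLp_f
  have h3 : MemLp (fun q => (cutV V r q : ℂ) * fsL S s c q) 2 volume := by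
    have hcont : Continuous (fun q => (cutV V r q : ℂ)) :=
      Complex.continuous_ofReal.comp (cutV_cut V hr).smooth.continuous
    refine h2.of_le (hcont.aestronglyMeasurable.mul h2.aestronglyMeasurable)
      (Eventually.of_forall fun q => ?_)
    rw [norm_mul, Complex.norm_real, Real.norm_of_nonneg (cutV_mem V r q).1]
    exact mul_le_of_le_one_left (norm_nonneg _) (cutV_mem V r q).2
  have h4 : MemLp (Cm S V r s c) 2 volume := by
    refine (h3.sub h1).ae_eq (Eventually.of_forall fun q => ?_)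
    simp only [Pi.sub_apply, WL]
    ring
  exact ⟨h4, h4.const_mul _⟩

theorem W0_cdt (S : Spec D) (V : P) (r h : ℝ) (s : Finset ℕ) (c : ℕ → ℂ) (q : P) :
    W0 S V r s (cdt S h c) q =
      -(Complex.I * (h / 2 : ℝ)) * WL S V r s c q + RR S V r s h c q := by
  simp only [W0, WL, RR, fs_cdt]
  ring

private lemma EVirA_cd {η : P → ℝ} (h : ContDiff ℝ ∞ η) :
    ContDiff ℝ ∞ (d1 η) ∧ ContDiff ℝ ∞ (d2 η) := ECut_d_smooth h

private lemma EVirA_cs {η : P → ℝ} (h : HasCompactSupport η) :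
    HasCompactSupport (d1 η) ∧ HasCompactSupport (d2 η) := by
  unfold d1 d2
  exact ⟨(h.fderiv ℝ).comp_left (g := fun L : P →L[ℝ] ℝ => L (1, 0)) rfl,
    (h.fderiv ℝ).comp_left (g := fun L : P →L[ℝ] ℝ => L (0, 1)) rfl⟩

private lemma EVirA_cut {η : P → ℝ} (h : ContDiff ℝ ∞ η) (hc : HasCompactSupport η) : Cut η := by
  have hl : Continuous (lap η) := by
    unfold lap
    exact (EVirA_cd (EVirA_cd h).1).1.continuous.add (EVirA_cd (EVirA_cd h).2).2.continuous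
  have hlc : HasCompactSupport (lap η) := by
    unfold lap
    exact (EVirA_cs (EVirA_cs hc).1).1.add (EVirA_cs (EVirA_cs hc).2).2
  obtain ⟨C₀, h₀⟩ := h.continuous.bounded_above_of_compact_support hc
  obtain ⟨C₁, h₁⟩ := (EVirA_cd h).1.continuous.bounded_above_of_compact_support (EVirA_cs hc).1
  obtain ⟨C₂, h₂⟩ := (EVirA_cd h).2.continuous.bounded_above_of_compact_support (EVirA_cs hc).2
  obtain ⟨C₃, h₃⟩ := hl.bounded_above_of_compact_support hlc
  refine ⟨h, max (max C₀ C₁) (max C₂ C₃), fun q => ⟨?_, ?_, ?_, ?_⟩⟩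
  · exact (h₀ q).trans ((le_max_left _ _).trans (le_max_left _ _))
  · exact (h₁ q).trans ((le_max_right _ _).trans (le_max_left _ _))
  · exact (h₂ q).trans ((le_max_left _ _).trans (le_max_right _ _))
  · exact (h₃ q).trans ((le_max_right _ _).trans (le_max_right _ _))

private lemma EVirA_loc (V : P) {r : ℝ} (hr : 0 < r) {f : P → ℝ} (hf : ContDiff ℝ ∞ f) :
    Cut (fun q => cutV V (2 * r) q * f q) ∧ ∀ q : P, dist q V < 2 * r →
      cutV V (2 * r) q * f q = f q ∧ d1 (fun q => cutV V (2 * r) q * f q) q = d1 f q ∧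
        d2 (fun q => cutV V (2 * r) q * f q) q = d2 f q := by
  have h2r : 0 < 2 * r := by linarith
  refine ⟨EVirA_cut ((cutV_cut V h2r).smooth.mul hf) ?_, ?_⟩
  · refine HasCompactSupport.intro (isCompact_closedBall V (2 * (2 * r))) ?_
    intro q hq
    rw [mem_closedBall, not_le] at hq
    rw [cutV_zero h2r hq.le, zero_mul]
  · intro q hq
    have hev : (fun q => cutV V (2 * r) q * f q) =ᶠ[𝓝 q] f := by
      have : ∀ᶠ q' in 𝓝 q, dist q' V < 2 * r :=
        (continuous_id.dist continuous_const).continuousAt.eventually (gt_mem_nhds hq)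
      filter_upwards [this] with q' hq'
      rw [cutV_one h2r hq'.le, one_mul]
    refine ⟨by rw [cutV_one h2r hq.le, one_mul], ?_, ?_⟩
    · unfold d1
      rw [hev.fderiv_eq]
    · unfold d2
      rw [hev.fderiv_eq]

/-- The functions which are cut off near `V`. -/
theorem cutX (V : P) {r : ℝ} (hr : 0 < r) : ∃ ζ₁ ζ₂ ζ₃ : P → ℝ, Cut ζ₁ ∧ Cut ζ₂ ∧ Cut ζ₃ ∧
    ∀ q : P, dist q V < 2 * r → ζ₁ q = q.1 - V.1 ∧ ζ₂ q = q.2 - V.2 ∧ ζ₃ q = sq (q - V) ∧
      d1 ζ₁ q = 1 ∧ d2 ζ₂ q = 1 ∧ d1 ζ₃ q = 2 * (q.1 - V.1) ∧ d2 ζ₃ q = 2 * (q.2 - V.2) := by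
  have s1 : ContDiff ℝ ∞ (fun q : P => q.1 - V.1) := by fun_prop
  have s2 : ContDiff ℝ ∞ (fun q : P => q.2 - V.2) := by fun_prop
  have s3 : ContDiff ℝ ∞ (fun q : P => sq (q - V)) := by
    unfold sq
    simp only [Prod.fst_sub, Prod.snd_sub]
    fun_prop
  obtain ⟨c1, l1⟩ := EVirA_loc V hr s1
  obtain ⟨c2, l2⟩ := EVirA_loc V hr s2
  obtain ⟨c3, l3⟩ := EVirA_loc V hr s3
  have f1 : ∀ q : P, HasFDerivAt (fun q : P => q.1 - V.1) (ContinuousLinearMap.fst ℝ ℝ ℝ) q :=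
    fun q => hasFDerivAt_fst.sub_const _
  have f2 : ∀ q : P, HasFDerivAt (fun q : P => q.2 - V.2) (ContinuousLinearMap.snd ℝ ℝ ℝ) q :=
    fun q => hasFDerivAt_snd.sub_const _
  have f3 : ∀ q : P, HasFDerivAt (fun q : P => sq (q - V))
      ((2 * (q.1 - V.1)) • ContinuousLinearMap.fst ℝ ℝ ℝ +
        (2 * (q.2 - V.2)) • ContinuousLinearMap.snd ℝ ℝ ℝ) q := by
    intro q
    have g1 := (f1 q).pow 2
    have g2 := (f2 q).pow 2
    have g3 := g1.add g2
    simp only [Nat.add_one_sub_one, pow_one, nsmul_eq_mul, Nat.cast_ofNat] at g3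
    exact g3
  refine ⟨_, _, _, c1, c2, c3, fun q hq => ?_⟩
  obtain ⟨a1, a2, -⟩ := l1 q hq
  obtain ⟨b1, -, b3⟩ := l2 q hq
  obtain ⟨e1, e2, e3⟩ := l3 q hq
  refine ⟨a1, b1, e1, a2.trans ?_, b3.trans ?_, e2.trans ?_, e3.trans ?_⟩
  · show fderiv ℝ _ q (1, 0) = 1
    rw [(f1 q).fderiv]; rfl
  · show fderiv ℝ _ q (0, 1) = 1
    rw [(f2 q).fderiv]; rfl
  · show fderiv ℝ _ q (1, 0) = _
    rw [(f3 q).fderiv]
    simp
  · show fderiv ℝ _ q (0, 1) = _
    rw [(f3 q).fderiv]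
    simp

end

end Pool.Agent.MP4eed4eR.E
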