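import Pool.Agent.Lib.MP_4eed4e_an_RE.EProd
import Pool.Agent.Lib.MP_4eed4e_an_RE.EVirA

/-!
MP_4eed4e_an, project R, block E, module EVirC: the derivative of `B t = ∫ Im (conj w (X · ∇ w))`.

PROOF. `c_t = cev S h t c`, `W0 = W0 S V r s c_t`, `W0' = W0 S V r s (cdt S h c_t)`,
`XW' = XW S V r s (cdt S h c_t)`. By `hasDerivAt_form` (`a k = η u_k`,
`b k = X₁ (η u₁ k + d1 η u_k) + X₂ (η u₂ k + d2 η u_k)`, everything vanishes off a square) the
derivative is the imaginary part of `∫ (conj W0' XW + conj W0 XW')`.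
* `CH.prod` with `u = W0`, `v = W0'` and the functions `ζ₁`, `ζ₂` of `cutX`: `∫ conj W0 XW' = - ∫
  conj XW W0' - 2 ∫ conj W0 W0'`. (At `dist q V = 2 r` the functions `W0` vanish; the sphere
  `{dist q V = 2 r}` is a null set for `W1`, `W2`.)
* So the derivative is `2 Im ∫ conj W0' XW - 2 Im ∫ conj W0 W0'`.
* `W0' = - (i h / 2) WL + RR` (`W0_cdt`): `Im ∫ conj W0' XW = (h / 2) Re ∫ conj WL XW + Im ∫ conj
  RR XW`, and `Re ∫ conj WL XW = 0` by `CDom.dil` for `cdom_W` (`2 r < 4 ρ₀`, `W_zero`); `Im ∫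
  conj W0 W0' = - (h / 2) Re ∫ conj W0 WL + Im ∫ conj W0 RR` and `Re ∫ conj W0 WL = ∫ (‖W1‖² +
  ‖W2‖²)` by `CDom.weak` with `v = w`.
-/

namespace Pool.Agent.MP4eed4eR.E

open MeasureTheory Set Filter Topology Metric
open scoped ComplexConjugate ContDiff

noncomputable section

variable {D : Set P}

private theorem w0_lin (S : Spec D) (V : P) (r : ℝ) (s : Finset ℕ) (c : ℕ → ℂ) (q : P) :
    W0 S V r s c q = ∑ k ∈ s, c k * W0 S V r {k} (fun _ => 1) q := by
  simp only [W0, fs, Finset.sum_singleton, Finset.mul_sum, one_mul]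
  exact Finset.sum_congr rfl fun k _ => by ring

private theorem w1_lin (S : Spec D) (V : P) (r : ℝ) (s : Finset ℕ) (c : ℕ → ℂ) (q : P) :
    W1 S V r s c q = ∑ k ∈ s, c k * W1 S V r {k} (fun _ => 1) q := by
  simp only [W1, fs, fs1, Finset.sum_singleton, Finset.mul_sum, one_mul]
  rw [← Finset.sum_add_distrib]
  exact Finset.sum_congr rfl fun k _ => by ring

private theorem w2_lin (S : Spec D) (V : P) (r : ℝ) (s : Finset ℕ) (c : ℕ → ℂ) (q : P) :
    W2 S V r s c q = ∑ k ∈ s, c k * W2 S V r {k} (fun _ => 1) q := by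
  simp only [W2, fs, fs2, Finset.sum_singleton, Finset.mul_sum, one_mul]
  rw [← Finset.sum_add_distrib]
  exact Finset.sum_congr rfl fun k _ => by ring

private theorem xw_lin (S : Spec D) (V : P) (r : ℝ) (s : Finset ℕ) (c : ℕ → ℂ) (q : P) :
    XW S V r s c q = ∑ k ∈ s, c k * XW S V r {k} (fun _ => 1) q := by
  have h1 := w1_lin S V r s c q
  have h2 := w2_lin S V r s c q
  simp only [XW]
  rw [h1, h2, Finset.mul_sum, Finset.mul_sum, ← Finset.sum_add_distrib]
  exact Finset.sum_congr rfl fun k _ => by ring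

private theorem memLp_W (S : Spec D) (V : P) {r : ℝ} (hr : 0 < r) (s : Finset ℕ) (c : ℕ → ℂ) :
    MemLp (W0 S V r s c) 2 volume ∧ MemLp (W1 S V r s c) 2 volume ∧
      MemLp (W2 S V r s c) 2 volume ∧ MemLp (WL S V r s c) 2 volume := by
  have h := cdom_W S V hr s c
  exact ⟨h.ch.memLp.1, h.ch.memLp.2.1, h.ch.memLp.2.2, h.memLp_f⟩

private theorem memLp_XW (S : Spec D) (V : P) {r : ℝ} (hr : 0 < r) (s : Finset ℕ) (c : ℕ → ℂ) :
    MemLp (XW S V r s c) 2 volume := by
  obtain ⟨h0, h1, h2, h3⟩ := memLp_W S V hr s c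
  have hm1 : AEStronglyMeasurable (fun q : P => ((q.1 - V.1 : ℝ) : ℂ) * W1 S V r s c q)
      volume := by
    refine AEStronglyMeasurable.mul ?_ h1.1
    exact (Complex.continuous_ofReal.comp
      (continuous_fst.sub continuous_const)).aestronglyMeasurable
  have hm2 : AEStronglyMeasurable (fun q : P => ((q.2 - V.2 : ℝ) : ℂ) * W2 S V r s c q)
      volume := by
    refine AEStronglyMeasurable.mul ?_ h2.1
    exact (Complex.continuous_ofReal.comp
      (continuous_snd.sub continuous_const)).aestronglyMeasurable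
  have k1 : MemLp (fun q : P => ((q.1 - V.1 : ℝ) : ℂ) * W1 S V r s c q) 2 volume := by
    refine MemLp.of_le_mul (c := 2 * r) h1 hm1 (Eventually.of_forall fun q => ?_)
    rw [norm_mul, Complex.norm_real]
    rcases lt_or_ge (2 * r) (dist q V) with hq | hq
    · rw [(W_zero S hr s c hq).2.1]
      simp
    · refine mul_le_mul_of_nonneg_right ?_ (norm_nonneg _)
      rw [Prod.dist_eq] at hq
      have := (le_max_left _ _).trans hq
      rwa [Real.dist_eq] at this
  have k2 : MemLp (fun q : P => ((q.2 - V.2 : ℝ) : ℂ) * W2 S V r s c q) 2 volume := by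
    refine MemLp.of_le_mul (c := 2 * r) h2 hm2 (Eventually.of_forall fun q => ?_)
    rw [norm_mul, Complex.norm_real]
    rcases lt_or_ge (2 * r) (dist q V) with hq | hq
    · rw [(W_zero S hr s c hq).2.2.1]
      simp
    · refine mul_le_mul_of_nonneg_right ?_ (norm_nonneg _)
      rw [Prod.dist_eq] at hq
      have := (le_max_right _ _).trans hq
      rwa [Real.dist_eq] at this
  exact k1.add k2

/-- products of square integrable functions -/
private theorem int_cmul {f g : P → ℂ} (hf : MemLp f 2 volume) (hg : MemLp g 2 volume) :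
    Integrable (fun q => conj (f q) * g q) := by
  have h1 : MemLp (fun q => conj (f q)) 2 volume := hf.star
  exact h1.integrable_mul hg

/-- the sphere is a null set -/
private theorem ae_off (V : P) {r : ℝ} (hr : 0 < r) :
    ∀ᵐ q : P, dist q V < 2 * r ∨ 2 * r < dist q V := by
  have h1 : (volume : Measure P) (Metric.sphere V (2 * r)) = 0 :=
    Measure.addHaar_sphere_of_ne_zero volume V (by positivity)
  have h2 : ∀ᵐ q : P, q ∉ Metric.sphere V (2 * r) := by
    rw [ae_iff]
    have h3 : {q : P | ¬q ∉ Metric.sphere V (2 * r)} = Metric.sphere V (2 * r) := by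
      ext q
      exact not_not
    rw [h3]
    exact h1
  filter_upwards [h2] with q hq
  exact lt_or_gt_of_ne hq

/-- integration by parts -/
private theorem parts (S : Spec D) (G : Geo D) (V : P) {r : ℝ} (hr : 0 < r) (s : Finset ℕ)
    (c c' : ℕ → ℂ) :
    ∫ q, conj (W0 S V r s c q) * XW S V r s c' q =
      -(∫ q, conj (XW S V r s c q) * W0 S V r s c' q) -
        2 * ∫ q, conj (W0 S V r s c q) * W0 S V r s c' q := by
  obtain ⟨ζ₁, ζ₂, ζ₃, hζ₁, hζ₂, hζ₃, hζ⟩ := cutX V hr
  have hu := (cdom_W S V hr s c).ch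
  have hv := (cdom_W S V hr s c').ch
  have e1 := (CH.prod hζ₁ G.isBounded hu hv).1
  have e2 := (CH.prod hζ₂ G.isBounded hu hv).2
  obtain ⟨m0, m1, m2, mL⟩ := memLp_W S V hr s c
  obtain ⟨n0, n1, n2, nL⟩ := memLp_W S V hr s c'
  have mX := memLp_XW S V hr s c
  have nX := memLp_XW S V hr s c'
  have i0 : Integrable (fun q => conj (W0 S V r s c q) * W0 S V r s c' q) := int_cmul m0 n0
  -- the two integrands added
  have hae : ∀ᵐ q : P, (ζ₁ q : ℂ) * (conj (W1 S V r s c q) * W0 S V r s c' q +
      conj (W0 S V r s c q) * W1 S V r s c' q) + (ζ₂ q : ℂ) *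
      (conj (W2 S V r s c q) * W0 S V r s c' q + conj (W0 S V r s c q) * W2 S V r s c' q) =
      conj (XW S V r s c q) * W0 S V r s c' q + conj (W0 S V r s c q) * XW S V r s c' q := by
    filter_upwards [ae_off V hr] with q hq
    rcases hq with hq | hq
    · obtain ⟨z1, z2, -⟩ := hζ q hq
      rw [z1, z2]
      simp only [XW, map_add, map_mul, Complex.conj_ofReal]
      ring
    · obtain ⟨z0, z1, z2, -, -⟩ := W_zero S hr s c hq
      obtain ⟨y0, y1, y2, -, -⟩ := W_zero S hr s c' hq
      simp only [XW, z0, z1, z2, y0, y1, y2]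
      simp
  have hd1 : ∫ q, (d1 ζ₁ q : ℂ) * (conj (W0 S V r s c q) * W0 S V r s c' q) =
      ∫ q, conj (W0 S V r s c q) * W0 S V r s c' q := by
    refine integral_congr_ae ?_
    filter_upwards [ae_off V hr] with q hq
    rcases hq with hq | hq
    · rw [(hζ q hq).2.2.2.1]
      simp
    · rw [(W_zero S hr s c hq).1]
      simp
  have hd2 : ∫ q, (d2 ζ₂ q : ℂ) * (conj (W0 S V r s c q) * W0 S V r s c' q) =
      ∫ q, conj (W0 S V r s c q) * W0 S V r s c' q := by
    refine integral_congr_ae ?_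
    filter_upwards [ae_off V hr] with q hq
    rcases hq with hq | hq
    · rw [(hζ q hq).2.2.2.2.1]
      simp
    · rw [(W_zero S hr s c hq).1]
      simp
  have hbd : ∀ {ζ : P → ℝ}, Cut ζ → ∀ {f : P → ℂ}, Integrable f →
      Integrable (fun q => (ζ q : ℂ) * f q) := by
    intro ζ hζ f hf
    obtain ⟨C, hC⟩ := hζ.bdd
    refine hf.bdd_mul (c := C)
      (Complex.continuous_ofReal.comp hζ.smooth.continuous).aestronglyMeasurable
      (Eventually.of_forall fun q => ?_)
    rw [Complex.norm_real]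
    exact (hC q).1
  have j1 : Integrable (fun q => (ζ₁ q : ℂ) * (conj (W1 S V r s c q) * W0 S V r s c' q +
      conj (W0 S V r s c q) * W1 S V r s c' q)) :=
    hbd hζ₁ ((int_cmul m1 n0).add (int_cmul m0 n1))
  have j2 : Integrable (fun q => (ζ₂ q : ℂ) * (conj (W2 S V r s c q) * W0 S V r s c' q +
      conj (W0 S V r s c q) * W2 S V r s c' q)) :=
    hbd hζ₂ ((int_cmul m2 n0).add (int_cmul m0 n2))
  have e3 := integral_add j1 j2
  rw [integral_congr_ae hae, integral_add (int_cmul mX n0) (int_cmul m0 nX), e1, e2, hd1, hd2]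
    at e3
  linear_combination e3

theorem derB (S : Spec D) (G : Geo D) {V : P} (hV : V ∈ G.V) {r h : ℝ} (hr : 0 < r)
    (hr' : r ≤ G.rho0) (s : Finset ℕ) (c : ℕ → ℂ) (t : ℝ) :
    HasDerivAt
      (fun t => ∫ q, (conj (W0 S V r s (cev S h t c) q) * XW S V r s (cev S h t c) q).im)
      (2 * (∫ q, (conj (RR S V r s h (cev S h t c) q) * XW S V r s (cev S h t c) q).im) +
        h * (∫ q, (‖W1 S V r s (cev S h t c) q‖ ^ 2 + ‖W2 S V r s (cev S h t c) q‖ ^ 2)) -
        2 * ∫ q, (conj (W0 S V r s (cev S h t c) q) * RR S V r s h (cev S h t c) q).im) t := by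
  have key := hasDerivAt_form s (a := fun k => W0 S V r {k} (fun _ => 1))
    (b := fun k => XW S V r {k} (fun _ => 1))
    (fun j _ k _ => int_cmul (memLp_W S V hr {j} _).1 (memLp_XW S V hr {k} _))
    (c := fun t => cev S h t c) (c' := cdt S h (cev S h t c)) (t := t)
    (fun k _ => hasDerivAt_cev S h c k t)
  simp only [← w0_lin S V r s, ← xw_lin S V r s] at key
  have key2 := (Complex.imCLM.hasFDerivAt (x := ∫ q, conj (W0 S V r s (cev S h t c) q) *
    XW S V r s (cev S h t c) q)).comp_hasDerivAt t key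
  have hfun : (Complex.imCLM ∘ fun t => ∫ q, conj (W0 S V r s (cev S h t c) q) *
      XW S V r s (cev S h t c) q) = fun t => ∫ q,
      (conj (W0 S V r s (cev S h t c) q) * XW S V r s (cev S h t c) q).im := by
    funext u
    have h1 := integral_im (int_cmul (memLp_W S V hr s (cev S h u c)).1
      (memLp_XW S V hr s (cev S h u c)))
    exact h1.symm
  rw [hfun] at key2
  refine key2.congr_deriv ?_
  -- the static identities
  obtain ⟨c₁, hc₁⟩ : ∃ c₁, c₁ = cev S h t c := ⟨_, rfl⟩
  rw [← hc₁]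
  obtain ⟨m0, m1, m2, mL⟩ := memLp_W S V hr s c₁
  obtain ⟨n0, n1, n2, nL⟩ := memLp_W S V hr s (cdt S h c₁)
  have mX := memLp_XW S V hr s c₁
  have nX := memLp_XW S V hr s (cdt S h c₁)
  have mR := (memLp_Cm S V hr s c₁ h).2
  have e1 := parts S G V hr s c₁ (cdt S h c₁)
  have e2 : ∫ q, conj (XW S V r s c₁ q) * W0 S V r s (cdt S h c₁) q =
      conj (∫ q, conj (W0 S V r s (cdt S h c₁) q) * XW S V r s c₁ q) := by
    rw [← integral_conj]
    refine integral_congr_ae (Eventually.of_forall fun q => ?_)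
    simp only [map_mul, Complex.conj_conj]
    ring
  -- the first term
  have e3 : (∫ q, conj (W0 S V r s (cdt S h c₁) q) * XW S V r s c₁ q).im =
      ∫ q, (conj (RR S V r s h c₁ q) * XW S V r s c₁ q).im := by
    have h1 := integral_im (int_cmul n0 mX)
    have h2 : ∀ q, (conj (W0 S V r s (cdt S h c₁) q) * XW S V r s c₁ q).im =
        h / 2 * (conj (WL S V r s c₁ q) * XW S V r s c₁ q).re +
          (conj (RR S V r s h c₁ q) * XW S V r s c₁ q).im := by
      intro q
      rw [W0_cdt]
      simp only [map_add, map_mul, map_neg, Complex.conj_I, Complex.conj_ofReal]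
      simp only [Complex.mul_im, Complex.mul_re, Complex.add_im, Complex.add_re, Complex.neg_im,
        Complex.neg_re, Complex.I_re, Complex.I_im, Complex.ofReal_re, Complex.ofReal_im,
        Complex.conj_re, Complex.conj_im]
      ring
    have h3 := CDom.dil G hV (cdom_W S V hr s c₁)
      (fun q hq => by
        have h4 : 2 * r < dist q V := by
          have := G.pos
          linarith
        obtain ⟨z0, z1, z2, -, -⟩ := W_zero S hr s c₁ h4
        exact ⟨z0, z1, z2⟩)
      (fun q hq => by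
        have h4 : 2 * r < dist q V := by
          have := G.pos
          linarith
        exact (W_zero S hr s c₁ h4).2.2.2.2)
    have h5 : ∫ q, (conj (WL S V r s c₁ q) * XW S V r s c₁ q).re = 0 := h3
    have h6 : Integrable (fun q => h / 2 * (conj (WL S V r s c₁ q) * XW S V r s c₁ q).re) :=
      (int_cmul mL mX).re.const_mul _
    have h7 : Integrable (fun q => (conj (RR S V r s h c₁ q) * XW S V r s c₁ q).im) :=
      (int_cmul mR mX).im
    refine h1.symm.trans ?_
    refine (integral_congr_ae (Eventually.of_forall h2)).trans ?_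
    rw [integral_add h6 h7, integral_const_mul, h5, mul_zero, zero_add]
  -- the second term
  have e4 : (∫ q, conj (W0 S V r s c₁ q) * W0 S V r s (cdt S h c₁) q).im =
      -(h / 2) * (∫ q, (‖W1 S V r s c₁ q‖ ^ 2 + ‖W2 S V r s c₁ q‖ ^ 2)) +
        ∫ q, (conj (W0 S V r s c₁ q) * RR S V r s h c₁ q).im := by
    have h1 := integral_im (int_cmul m0 n0)
    have h2 : ∀ q, (conj (W0 S V r s c₁ q) * W0 S V r s (cdt S h c₁) q).im =
        -(h / 2) * (conj (WL S V r s c₁ q) * W0 S V r s c₁ q).re +
          (conj (W0 S V r s c₁ q) * RR S V r s h c₁ q).im := by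
      intro q
      rw [W0_cdt]
      simp only [Complex.mul_im, Complex.mul_re, Complex.add_im, Complex.add_re, Complex.neg_im,
        Complex.neg_re, Complex.I_re, Complex.I_im, Complex.ofReal_re, Complex.ofReal_im,
        Complex.conj_re, Complex.conj_im]
      ring
    have h3 := CDom.weak (cdom_W S V hr s c₁) (cdom_W S V hr s c₁).ch
    have h4 : ∫ q, (conj (WL S V r s c₁ q) * W0 S V r s c₁ q).re =
        ∫ q, (‖W1 S V r s c₁ q‖ ^ 2 + ‖W2 S V r s c₁ q‖ ^ 2) := by
      have h5 := integral_re (int_cmul mL m0)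
      have h6 := integral_re ((int_cmul m1 m1).add (int_cmul m2 m2))
      refine h5.trans ?_
      rw [← h3]
      refine h6.symm.trans ?_
      refine integral_congr_ae (Eventually.of_forall fun q => ?_)
      show (conj (W1 S V r s c₁ q) * W1 S V r s c₁ q +
        conj (W2 S V r s c₁ q) * W2 S V r s c₁ q).re = _
      rw [← Complex.normSq_eq_conj_mul_self, ← Complex.normSq_eq_conj_mul_self,
        Complex.normSq_eq_norm_sq, Complex.normSq_eq_norm_sq]
      norm_cast
    have h6 : Integrable (fun q => -(h / 2) * (conj (WL S V r s c₁ q) * W0 S V r s c₁ q).re) :=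
      (int_cmul mL m0).re.const_mul _
    have h7 : Integrable (fun q => (conj (W0 S V r s c₁ q) * RR S V r s h c₁ q).im) :=
      (int_cmul m0 mR).im
    refine h1.symm.trans ?_
    refine (integral_congr_ae (Eventually.of_forall h2)).trans ?_
    rw [integral_add h6 h7, integral_const_mul, h4]
  have e5 : ∫ q, (conj (W0 S V r s (cdt S h c₁) q) * XW S V r s c₁ q +
      conj (W0 S V r s c₁ q) * XW S V r s (cdt S h c₁) q) =
      (∫ q, conj (W0 S V r s (cdt S h c₁) q) * XW S V r s c₁ q) +
        ∫ q, conj (W0 S V r s c₁ q) * XW S V r s (cdt S h c₁) q :=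
    integral_add (int_cmul n0 mX) (int_cmul m0 nX)
  show (∫ q, (conj (W0 S V r s (cdt S h c₁) q) * XW S V r s c₁ q +
      conj (W0 S V r s c₁ q) * XW S V r s (cdt S h c₁) q)).im = _
  have e6 : ∀ x y : ℂ, (x + (-conj x - 2 * y)).im = 2 * x.im - 2 * y.im := by
    intro x y
    simp only [Complex.add_im, Complex.sub_im, Complex.neg_im, Complex.conj_im, Complex.mul_im,
      Complex.re_ofNat, Complex.im_ofNat, zero_mul, add_zero]
    ring
  rw [e5, e1, e2, e6, e3, e4]
  ring

end

end Pool.Agent.MP4eed4eR.E
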