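import Pool.Agent.Lib.MP_4eed4e_an_RE.EVirA

/-!
MP_4eed4e_an, project R, block E, module EVirD: the derivative of `∫ ‖∇ w‖²`.

PROOF. By `hasDerivAt_form` (twice, `a k = b k = η u₁ k + d1 η u_k`, and the same for the second
derivative) the derivative is `2 Re ∫ (conj W1 W1' + conj W2 W2')` with `W1' = W1 S V r s (cdt ..)`,
and by `CDom.weak` (`cdom_W`; the test function is `W0' = W0 S V r s (cdt ..)`) this is
`2 Re ∫ conj WL W0' = 2 Re ∫ conj WL (- (i h / 2) WL + RR) = 2 Re ∫ conj WL RR` (`W0_cdt`).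
`qd_eq`: expand the squares; `Re (conj (X₁ W0) * (i t h W1)) = - t h Im (conj W0 * (X₁ W1))`; all
functions are in `L²` and vanish off a square.
-/

namespace Pool.Agent.MP4eed4eR.E

open MeasureTheory Set Filter Topology Metric
open scoped ComplexConjugate ContDiff

noncomputable section

variable {D : Set P}

private def EVirD_A (S : Spec D) (V : P) (r : ℝ) (k : ℕ) (q : P) : ℂ :=
  (cutV V r q : ℂ) * (S.u₁ k q : ℂ) + (d1 (cutV V r) q : ℂ) * (S.u k q : ℂ)

private def EVirD_B (S : Spec D) (V : P) (r : ℝ) (k : ℕ) (q : P) : ℂ :=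
  (cutV V r q : ℂ) * (S.u₂ k q : ℂ) + (d2 (cutV V r) q : ℂ) * (S.u k q : ℂ)

private theorem EVirD_sumA (S : Spec D) (V : P) (r : ℝ) (s : Finset ℕ) (c : ℕ → ℂ) (q : P) :
    W1 S V r s c q = ∑ k ∈ s, c k * EVirD_A S V r k q := by
  unfold W1 fs1 fs EVirD_A
  rw [Finset.mul_sum, Finset.mul_sum, ← Finset.sum_add_distrib]
  refine Finset.sum_congr rfl fun k _ => ?_
  ring

private theorem EVirD_sumB (S : Spec D) (V : P) (r : ℝ) (s : Finset ℕ) (c : ℕ → ℂ) (q : P) :
    W2 S V r s c q = ∑ k ∈ s, c k * EVirD_B S V r k q := by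
  unfold W2 fs2 fs EVirD_B
  rw [Finset.mul_sum, Finset.mul_sum, ← Finset.sum_add_distrib]
  refine Finset.sum_congr rfl fun k _ => ?_
  ring

private theorem EVirD_memA (S : Spec D) (V : P) {r : ℝ} (hr : 0 < r) (k : ℕ) :
    MemLp (EVirD_A S V r k) 2 volume := by
  have h := (cdom_W S V hr {k} (fun _ => 1)).ch.memLp.2.1
  have e : W1 S V r {k} (fun _ => 1) = EVirD_A S V r k := by
    funext q
    rw [EVirD_sumA, Finset.sum_singleton, one_mul]
  rwa [e] at h

private theorem EVirD_memB (S : Spec D) (V : P) {r : ℝ} (hr : 0 < r) (k : ℕ) :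
    MemLp (EVirD_B S V r k) 2 volume := by
  have h := (cdom_W S V hr {k} (fun _ => 1)).ch.memLp.2.2
  have e : W2 S V r {k} (fun _ => 1) = EVirD_B S V r k := by
    funext q
    rw [EVirD_sumB, Finset.sum_singleton, one_mul]
  rwa [e] at h

private theorem EVirD_int {f g : P → ℂ} (hf : MemLp f 2 volume) (hg : MemLp g 2 volume) :
    Integrable (fun q => conj (f q) * g q) :=
  MemLp.integrable_mul (f := fun q => conj (f q)) hf.star hg

private theorem EVirD_nsq (z : ℂ) : ‖z‖ ^ 2 = (conj z * z).re := by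
  rw [← Complex.normSq_eq_norm_sq, Complex.normSq_apply, Complex.mul_re, Complex.conj_re,
    Complex.conj_im]
  ring

private theorem EVirD_re {g : P → ℂ} (hg : Integrable g) : (∫ q, g q).re = ∫ q, (g q).re :=
  (integral_re (𝕜 := ℂ) hg).symm

private theorem EVirD_im {g : P → ℂ} (hg : Integrable g) : (∫ q, g q).im = ∫ q, (g q).im :=
  (integral_im (𝕜 := ℂ) hg).symm

theorem derC (S : Spec D) {V : P} {r h : ℝ} (hr : 0 < r) (s : Finset ℕ) (c : ℕ → ℂ) (t : ℝ) :
    HasDerivAt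
      (fun t => ∫ q, (‖W1 S V r s (cev S h t c) q‖ ^ 2 + ‖W2 S V r s (cev S h t c) q‖ ^ 2))
      (2 * ∫ q, (conj (WL S V r s (cev S h t c) q) * RR S V r s h (cev S h t c) q).re) t := by
  have hA : ∀ j ∈ s, ∀ k ∈ s, Integrable (fun q => conj (EVirD_A S V r j q) *
      EVirD_A S V r k q) := fun j _ k _ => EVirD_int (EVirD_memA S V hr j) (EVirD_memA S V hr k)
  have hB : ∀ j ∈ s, ∀ k ∈ s, Integrable (fun q => conj (EVirD_B S V r j q) *
      EVirD_B S V r k q) := fun j _ k _ => EVirD_int (EVirD_memB S V hr j) (EVirD_memB S V hr k)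
  have hc : ∀ k ∈ s, HasDerivAt (fun t => cev S h t c k) (cdt S h (cev S h t c) k) t :=
    fun k _ => hasDerivAt_cev S h c k t
  have d1' := hasDerivAt_form s hA (c := fun t => cev S h t c) hc
  have d2' := hasDerivAt_form s hB (c := fun t => cev S h t c) hc
  simp only [← EVirD_sumA, ← EVirD_sumB] at d1' d2'
  have d3 := Complex.reCLM.hasFDerivAt.comp_hasDerivAt t (d1'.add d2')
  have hm : ∀ c' : ℕ → ℂ, MemLp (W1 S V r s c') 2 volume ∧ MemLp (W2 S V r s c') 2 volume :=
    fun c' => ⟨(cdom_W S V hr s c').ch.memLp.2.1, (cdom_W S V hr s c').ch.memLp.2.2⟩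
  set c₁ := cev S h t c with hc₁
  set c₂ := cdt S h c₁ with hc₂
  have hw := (cdom_W S V hr s c₁).weak (cdom_W S V hr s c₂).ch
  have i1 : Integrable (fun q => conj (W1 S V r s c₁ q) * W1 S V r s c₂ q +
      conj (W2 S V r s c₁ q) * W2 S V r s c₂ q) :=
    (EVirD_int (hm c₁).1 (hm c₂).1).add (EVirD_int (hm c₁).2 (hm c₂).2)
  have i2 : Integrable (fun q => conj (WL S V r s c₁ q) * W0 S V r s c₂ q) :=
    EVirD_int (cdom_W S V hr s c₁).memLp_f (cdom_W S V hr s c₂).ch.memLp.1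
  have k1 : Integrable (fun q => conj (W1 S V r s c₂ q) * W1 S V r s c₁ q +
      conj (W1 S V r s c₁ q) * W1 S V r s c₂ q) :=
    (EVirD_int (hm c₂).1 (hm c₁).1).add (EVirD_int (hm c₁).1 (hm c₂).1)
  have k2 : Integrable (fun q => conj (W2 S V r s c₂ q) * W2 S V r s c₁ q +
      conj (W2 S V r s c₁ q) * W2 S V r s c₂ q) :=
    (EVirD_int (hm c₂).2 (hm c₁).2).add (EVirD_int (hm c₁).2 (hm c₂).2)
  have hval : ((∫ q, (conj (W1 S V r s c₂ q) * W1 S V r s c₁ q +
        conj (W1 S V r s c₁ q) * W1 S V r s c₂ q)) +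
      ∫ q, (conj (W2 S V r s c₂ q) * W2 S V r s c₁ q +
        conj (W2 S V r s c₁ q) * W2 S V r s c₂ q)).re =
      2 * ∫ q, (conj (WL S V r s c₁ q) * RR S V r s h c₁ q).re := by
    have k12 : Integrable (fun q => conj (W1 S V r s c₂ q) * W1 S V r s c₁ q +
        conj (W1 S V r s c₁ q) * W1 S V r s c₂ q +
        (conj (W2 S V r s c₂ q) * W2 S V r s c₁ q +
        conj (W2 S V r s c₁ q) * W2 S V r s c₂ q)) := k1.add k2
    rw [← integral_add k1 k2, EVirD_re k12]
    have e1 : ∀ q, (conj (W1 S V r s c₂ q) * W1 S V r s c₁ q +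
        conj (W1 S V r s c₁ q) * W1 S V r s c₂ q +
        (conj (W2 S V r s c₂ q) * W2 S V r s c₁ q +
        conj (W2 S V r s c₁ q) * W2 S V r s c₂ q)).re =
        2 * (conj (W1 S V r s c₁ q) * W1 S V r s c₂ q +
          conj (W2 S V r s c₁ q) * W2 S V r s c₂ q).re := by
      intro q
      simp only [Complex.mul_re, Complex.conj_re, Complex.conj_im, Complex.add_re]
      ring
    simp only [e1]
    rw [integral_const_mul, ← EVirD_re i1, hw, EVirD_re i2]
    have e2 : ∀ q, (conj (WL S V r s c₁ q) * W0 S V r s c₂ q).re =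
        (conj (WL S V r s c₁ q) * RR S V r s h c₁ q).re := by
      intro q
      rw [hc₂, W0_cdt]
      simp only [Complex.mul_re, Complex.mul_im, Complex.conj_re, Complex.conj_im, Complex.add_re,
        Complex.add_im, Complex.neg_re, Complex.neg_im, Complex.I_re, Complex.I_im,
        Complex.ofReal_re, Complex.ofReal_im]
      ring
    simp only [e2]
  have hfun : (fun t => ∫ q, (‖W1 S V r s (cev S h t c) q‖ ^ 2 +
      ‖W2 S V r s (cev S h t c) q‖ ^ 2)) = ⇑Complex.reCLM ∘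
      ((fun t => ∫ q, conj (W1 S V r s (cev S h t c) q) * W1 S V r s (cev S h t c) q) +
      fun t => ∫ q, conj (W2 S V r s (cev S h t c) q) * W2 S V r s (cev S h t c) q) := by
    funext t'
    have j1 := EVirD_int (hm (cev S h t' c)).1 (hm (cev S h t' c)).1
    have j2 := EVirD_int (hm (cev S h t' c)).2 (hm (cev S h t' c)).2
    show _ = ((∫ q, conj (W1 S V r s (cev S h t' c) q) * W1 S V r s (cev S h t' c) q) +
      ∫ q, conj (W2 S V r s (cev S h t' c) q) * W2 S V r s (cev S h t' c) q).re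
    have j12 : Integrable (fun q => conj (W1 S V r s (cev S h t' c) q) *
        W1 S V r s (cev S h t' c) q + conj (W2 S V r s (cev S h t' c) q) *
        W2 S V r s (cev S h t' c) q) := j1.add j2
    rw [← integral_add j1 j2, EVirD_re j12]
    refine integral_congr_ae (Eventually.of_forall fun q => ?_)
    show _ = (conj (W1 S V r s (cev S h t' c) q) * W1 S V r s (cev S h t' c) q +
      conj (W2 S V r s (cev S h t' c) q) * W2 S V r s (cev S h t' c) q).re
    rw [Complex.add_re, ← EVirD_nsq, ← EVirD_nsq]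
  rw [hfun, ← hval]
  exact d3

private theorem EVirD_X {X : P → ℝ} {V : P} (hX : Continuous X) (hXb : ∀ q, |X q| ≤ dist q V)
    {r : ℝ} {F : P → ℂ} (hF : MemLp F 2 volume) (h0 : ∀ q, 2 * r < dist q V → F q = 0) :
    MemLp (fun q => (X q : ℂ) * F q) 2 volume := by
  refine MemLp.of_le_mul (g := F) (c := 2 * r) hF
    ((Complex.continuous_ofReal.comp hX).aestronglyMeasurable.mul hF.aestronglyMeasurable)
    (Eventually.of_forall fun q => ?_)
  rw [norm_mul, Complex.norm_real, Real.norm_eq_abs]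
  by_cases hq : 2 * r < dist q V
  · rw [h0 q hq]
    simp
  · exact mul_le_mul_of_nonneg_right ((hXb q).trans (not_lt.1 hq)) (norm_nonneg _)

theorem qd_eq (S : Spec D) (V : P) {r : ℝ} (hr : 0 < r) (h t : ℝ) (s : Finset ℕ) (c : ℕ → ℂ) :
    Integrable (Qd S V r s h t c) ∧ ∫ q, Qd S V r s h t c q =
      (∫ q, sq (q - V) * ‖W0 S V r s c q‖ ^ 2) -
        2 * t * h * (∫ q, (conj (W0 S V r s c q) * XW S V r s c q).im) +
        t ^ 2 * h ^ 2 * ∫ q, (‖W1 S V r s c q‖ ^ 2 + ‖W2 S V r s c q‖ ^ 2) := by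
  obtain ⟨m0, m1, m2⟩ := (cdom_W S V hr s c).ch.memLp
  have c1 : Continuous fun q : P => q.1 - V.1 := continuous_fst.sub continuous_const
  have c2 : Continuous fun q : P => q.2 - V.2 := continuous_snd.sub continuous_const
  have x1 : ∀ q : P, |q.1 - V.1| ≤ dist q V := fun q => by
    rw [Prod.dist_eq, ← Real.dist_eq]
    exact le_max_left _ _
  have x2 : ∀ q : P, |q.2 - V.2| ≤ dist q V := fun q => by
    rw [Prod.dist_eq, ← Real.dist_eq]
    exact le_max_right _ _
  have a1 := EVirD_X c1 x1 m0 (fun q hq => (W_zero S hr s c hq).1)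
  have a2 := EVirD_X c2 x2 m0 (fun q hq => (W_zero S hr s c hq).1)
  have b1 := EVirD_X c1 x1 m1 (fun q hq => (W_zero S hr s c hq).2.1)
  have b2 := EVirD_X c2 x2 m2 (fun q hq => (W_zero S hr s c hq).2.2.1)
  have i1 : Integrable (fun q => sq (q - V) * ‖W0 S V r s c q‖ ^ 2) := by
    have := (a1.norm.integrable_sq).add (a2.norm.integrable_sq)
    refine this.congr (Eventually.of_forall fun q => ?_)
    show ‖((q.1 - V.1 : ℝ) : ℂ) * W0 S V r s c q‖ ^ 2 +
      ‖((q.2 - V.2 : ℝ) : ℂ) * W0 S V r s c q‖ ^ 2 = _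
    rw [norm_mul, norm_mul, Complex.norm_real, Complex.norm_real, mul_pow, mul_pow,
      Real.norm_eq_abs, Real.norm_eq_abs, sq_abs, sq_abs]
    show _ = ((q.1 - V.1) ^ 2 + (q.2 - V.2) ^ 2) * ‖W0 S V r s c q‖ ^ 2
    ring
  have i2 : Integrable (fun q => (conj (W0 S V r s c q) * XW S V r s c q).im) :=
    (EVirD_int m0 (b1.add b2)).im
  have i3 : Integrable (fun q => ‖W1 S V r s c q‖ ^ 2 + ‖W2 S V r s c q‖ ^ 2) :=
    (m1.norm.integrable_sq).add (m2.norm.integrable_sq)
  have key : ∀ q, Qd S V r s h t c q = sq (q - V) * ‖W0 S V r s c q‖ ^ 2 -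
      2 * t * h * (conj (W0 S V r s c q) * XW S V r s c q).im +
      t ^ 2 * h ^ 2 * (‖W1 S V r s c q‖ ^ 2 + ‖W2 S V r s c q‖ ^ 2) := by
    intro q
    unfold Qd XW sq
    simp only [← Complex.normSq_eq_norm_sq, Complex.normSq_apply, Complex.mul_re, Complex.mul_im,
      Complex.conj_re, Complex.conj_im, Complex.add_re, Complex.add_im, Complex.I_re,
      Complex.I_im, Complex.ofReal_re, Complex.ofReal_im, Prod.fst_sub, Prod.snd_sub]
    ring
  have hQ : Qd S V r s h t c = fun q => sq (q - V) * ‖W0 S V r s c q‖ ^ 2 -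
      2 * t * h * (conj (W0 S V r s c q) * XW S V r s c q).im +
      t ^ 2 * h ^ 2 * (‖W1 S V r s c q‖ ^ 2 + ‖W2 S V r s c q‖ ^ 2) := funext key
  have j12 : Integrable (fun q => sq (q - V) * ‖W0 S V r s c q‖ ^ 2 -
      2 * t * h * (conj (W0 S V r s c q) * XW S V r s c q).im) := i1.sub (i2.const_mul _)
  rw [hQ]
  refine ⟨j12.add (i3.const_mul _), ?_⟩
  rw [integral_add j12 (i3.const_mul _), integral_sub i1 (i2.const_mul _), integral_const_mul,
    integral_const_mul]

end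

end Pool.Agent.MP4eed4eR.E
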