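import Pool.Agent.Lib.MP_4eed4e_an_RE.EVirB
import Pool.Agent.Lib.MP_4eed4e_an_RE.EVirC
import Pool.Agent.Lib.MP_4eed4e_an_RE.EVirD
import Pool.Agent.Lib.MP_4eed4e_an_RE.EShell

/-!
MP_4eed4e_an, project R, block E, module EVir: the virial estimate (E2).

PROOFS. `r = G.rho0 / 2`, `h = hh δ`, `θ = th δ`, `c_t = cev S h t c`.
* `derQ`: `qd_eq`, `derA`, `derB`, `derC` and the product rule; the terms `2 h B` and
  `2 t h² ∫ ‖∇ w‖²` cancel.
* `virial`: bound the derivative on `[0, ρ₀ / 32]` by `C θ²`. `RR = 0` for `dist q V < r`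
  (`Cm_zero`), and `|X| ≤ 2` where `RR ≠ 0` (`W_zero`, `ρ₀ ≤ 1`). Cauchy-Schwarz on `{r ≤ dist q
  V}` with `shell_W`: `∫ |X|² ‖W0‖ ‖RR‖ ≤ C θ²`, `h ∫ ‖RR‖ ‖XW‖ ≤ C θ²`, `h ∫ ‖W0‖ ‖RR‖ ≤ C θ²`,
  `h² ∫ ‖WL‖ ‖RR‖ ≤ C θ²` (`t ≤ 1`, `h ≤ 1`). At `t = 0`: `∫ Qd = ∫ |X|² ‖W0‖²`, which is at most
  `8 θ² * 16` (from `dist q V < 2 θ`) plus `2 θ⁴` (from `2 θ ≤ dist q V`, `|X|² η² ≤ 2`,
  `Dat.i0`).
-/

namespace Pool.Agent.MP4eed4eR.E

open MeasureTheory Set Filter Topology Metric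
open scoped ComplexConjugate ContDiff

noncomputable section

variable {D : Set P}

theorem derQ (S : Spec D) (G : Geo D) {V : P} (hV : V ∈ G.V) {r h : ℝ} (hr : 0 < r)
    (hr' : r ≤ G.rho0) (s : Finset ℕ) (c : ℕ → ℂ) (t : ℝ) :
    HasDerivAt (fun t => ∫ q, Qd S V r s h t (cev S h t c) q)
      (2 * (∫ q, sq (q - V) *
          (conj (W0 S V r s (cev S h t c) q) * RR S V r s h (cev S h t c) q).re) -
        4 * t * h * (∫ q, (conj (RR S V r s h (cev S h t c) q) *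
          XW S V r s (cev S h t c) q).im) +
        4 * t * h * (∫ q, (conj (W0 S V r s (cev S h t c) q) *
          RR S V r s h (cev S h t c) q).im) +
        2 * t ^ 2 * h ^ 2 * ∫ q, (conj (WL S V r s (cev S h t c) q) *
          RR S V r s h (cev S h t c) q).re) t := by
  have e : (fun t => ∫ q, Qd S V r s h t (cev S h t c) q) = fun t =>
      (∫ q, sq (q - V) * ‖W0 S V r s (cev S h t c) q‖ ^ 2) -
        2 * t * h * (∫ q, (conj (W0 S V r s (cev S h t c) q) * XW S V r s (cev S h t c) q).im) +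
        t ^ 2 * h ^ 2 * ∫ q, (‖W1 S V r s (cev S h t c) q‖ ^ 2 +
          ‖W2 S V r s (cev S h t c) q‖ ^ 2) :=
    funext fun t => (qd_eq S V hr h t s (cev S h t c)).2
  rw [e]
  have hA := derA S (V := V) (h := h) hr s c t
  have hB := derB S G hV (h := h) hr hr' s c t
  have hC := derC S (V := V) (h := h) hr s c t
  have h1 : HasDerivAt (fun t : ℝ => 2 * t * h) (2 * h) t := by
    simpa using ((hasDerivAt_id t).const_mul 2).mul_const h
  have h2 : HasDerivAt (fun t : ℝ => t ^ 2 * h ^ 2) (2 * t * h ^ 2) t := by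
    simpa using (hasDerivAt_pow 2 t).mul_const (h ^ 2)
  refine ((hA.sub (h1.mul hB)).add (h2.mul hC)).congr_deriv ?_
  ring

private theorem abs_int_le {f g : P → ℝ} (hg : Integrable g) (h : ∀ q, |f q| ≤ g q) :
    |∫ q, f q| ≤ ∫ q, g q := by
  rw [← Real.norm_eq_abs]
  exact norm_integral_le_of_norm_le hg
    (Eventually.of_forall fun q => (Real.norm_eq_abs _).le.trans (h q))

private theorem abs_re (a b : ℂ) : |(conj a * b).re| ≤ ‖a‖ * ‖b‖ := by
  refine (Complex.abs_re_le_norm _).trans (le_of_eq ?_)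
  rw [norm_mul, Complex.norm_conj]

private theorem abs_im (a b : ℂ) : |(conj a * b).im| ≤ ‖a‖ * ‖b‖ := by
  refine (Complex.abs_im_le_norm _).trans (le_of_eq ?_)
  rw [norm_mul, Complex.norm_conj]

/-- The bound of the derivative. -/
private theorem der_bd (S : Spec D) (G : Geo D) {V : P} {δ C : ℝ} (s : Finset ℕ) (c : ℕ → ℂ)
    (hh0 : 0 < hh δ) (hh1 : hh δ ≤ 1)
    (b1 : ∫ q, ‖RR S V (G.rho0 / 2) s (hh δ) c q‖ ^ 2 ≤ C)
    (b2 : ∫ q in {q : P | G.rho0 / 2 ≤ dist q V}, ‖W0 S V (G.rho0 / 2) s c q‖ ^ 2 ≤ C)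
    (b3 : hh δ ^ 2 * ∫ q in {q : P | G.rho0 / 2 ≤ dist q V},
        (‖W1 S V (G.rho0 / 2) s c q‖ ^ 2 + ‖W2 S V (G.rho0 / 2) s c q‖ ^ 2) ≤ C)
    (b4 : hh δ ^ 4 * ∫ q in {q : P | G.rho0 / 2 ≤ dist q V},
        ‖WL S V (G.rho0 / 2) s c q‖ ^ 2 ≤ C) :
    |∫ q, sq (q - V) *
        (conj (W0 S V (G.rho0 / 2) s c q) * RR S V (G.rho0 / 2) s (hh δ) c q).re| ≤ 2 * C ∧
      |hh δ * ∫ q, (conj (RR S V (G.rho0 / 2) s (hh δ) c q) *
        XW S V (G.rho0 / 2) s c q).im| ≤ 2 * C ∧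
      |hh δ * ∫ q, (conj (W0 S V (G.rho0 / 2) s c q) *
        RR S V (G.rho0 / 2) s (hh δ) c q).im| ≤ 2 * C ∧
      |hh δ ^ 2 * ∫ q, (conj (WL S V (G.rho0 / 2) s c q) *
        RR S V (G.rho0 / 2) s (hh δ) c q).re| ≤ 2 * C := by
  have hr : 0 < G.rho0 / 2 := half_pos G.pos
  have hr2 : 2 * (G.rho0 / 2) ≤ 1 := by
    have := G.le_one
    linarith
  set r := G.rho0 / 2 with hrd
  set h := hh δ with hhd
  obtain ⟨m0, m1, m2⟩ := (cdom_W S V hr s c).ch.memLp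
  have mL := (cdom_W S V hr s c).memLp_f
  have mR := (memLp_Cm S V hr s c h).2
  set w0 := W0 S V r s c with h0d
  set w1 := W1 S V r s c with h1d
  set w2 := W2 S V r s c with h2d
  set wl := WL S V r s c with hld
  set rr := RR S V r s h c with hrrd
  set E : Set P := {q : P | r ≤ dist q V} with hE
  have hEm : MeasurableSet E := measurableSet_le measurable_const (by fun_prop)
  have hrr : ∀ q, q ∉ E → rr q = 0 := by
    intro q hq
    have hq' : dist q V < r := not_le.mp hq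
    have h1 := (Cm_zero S hr s c hq').1
    change -(Complex.I * (h / 2 : ℝ)) * Cm S V r s c q = 0
    rw [h1, mul_zero]
  have hw : ∀ q, w0 q ≠ 0 ∨ w1 q ≠ 0 ∨ w2 q ≠ 0 → |q.1 - V.1| ≤ 1 ∧ |q.2 - V.2| ≤ 1 := by
    intro q hq
    have h1 : dist q V ≤ 1 := by
      by_contra h2
      have h3 := W_zero S hr s c (q := q) (V := V) (by linarith [not_le.mp h2])
      rcases hq with h4 | h4 | h4
      · exact h4 h3.1
      · exact h4 h3.2.1
      · exact h4 h3.2.2.1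
    rw [dist_eq_norm, Prod.norm_def, max_le_iff] at h1
    exact h1
  have i0 : Integrable (fun q => ‖w0 q‖ ^ 2) := m0.norm.integrable_sq
  have i1 : Integrable (fun q => ‖w1 q‖ ^ 2) := m1.norm.integrable_sq
  have i2 : Integrable (fun q => ‖w2 q‖ ^ 2) := m2.norm.integrable_sq
  have iL : Integrable (fun q => ‖wl q‖ ^ 2) := mL.norm.integrable_sq
  have iR : Integrable (fun q => ‖rr q‖ ^ 2) := mR.norm.integrable_sq
  have j0 : Integrable (E.indicator fun q => ‖w0 q‖ ^ 2) := i0.indicator hEm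
  have j12 : Integrable (E.indicator fun q => ‖w1 q‖ ^ 2 + ‖w2 q‖ ^ 2) :=
    (i1.add i2).indicator hEm
  have jL : Integrable (E.indicator fun q => ‖wl q‖ ^ 2) := iL.indicator hEm
  have e0 : ∫ q, E.indicator (fun q => ‖w0 q‖ ^ 2) q ≤ C := by
    rw [integral_indicator hEm]
    exact b2
  have e12 : h ^ 2 * ∫ q, E.indicator (fun q => ‖w1 q‖ ^ 2 + ‖w2 q‖ ^ 2) q ≤ C := by
    rw [integral_indicator hEm]
    exact b3
  have eL : h ^ 4 * ∫ q, E.indicator (fun q => ‖wl q‖ ^ 2) q ≤ C := by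
    rw [integral_indicator hEm]
    exact b4
  refine ⟨?_, ?_, ?_, ?_⟩
  · refine (abs_int_le (j0.add iR) fun q => ?_).trans ?_
    · change |sq (q - V) * (conj (w0 q) * rr q).re| ≤
        E.indicator (fun q => ‖w0 q‖ ^ 2) q + ‖rr q‖ ^ 2
      by_cases hq : q ∈ E
      · rw [indicator_of_mem hq]
        by_cases h3 : w0 q = 0
        · rw [h3, map_zero, zero_mul, Complex.zero_re, mul_zero, abs_zero]
          positivity
        · obtain ⟨h4, h5⟩ := hw q (Or.inl h3)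
          have h6 : |sq (q - V)| ≤ 2 := by
            change |(q.1 - V.1) ^ 2 + (q.2 - V.2) ^ 2| ≤ 2
            rw [abs_of_nonneg (by positivity), ← sq_abs (q.1 - V.1), ← sq_abs (q.2 - V.2)]
            nlinarith [abs_nonneg (q.1 - V.1), abs_nonneg (q.2 - V.2)]
          rw [abs_mul]
          have h7 := abs_re (w0 q) (rr q)
          calc |sq (q - V)| * |(conj (w0 q) * rr q).re| ≤ 2 * (‖w0 q‖ * ‖rr q‖) :=
                mul_le_mul h6 h7 (abs_nonneg _) (by norm_num)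
            _ ≤ ‖w0 q‖ ^ 2 + ‖rr q‖ ^ 2 := by nlinarith [sq_nonneg (‖w0 q‖ - ‖rr q‖)]
      · rw [hrr q hq, mul_zero, Complex.zero_re, mul_zero, abs_zero]
        exact add_nonneg (indicator_nonneg (fun _ _ => by positivity) _) (by positivity)
    · change ∫ q, (E.indicator (fun q => ‖w0 q‖ ^ 2) q + ‖rr q‖ ^ 2) ≤ 2 * C
      rw [integral_add j0 iR]
      linarith
  · rw [← integral_const_mul]
    refine (abs_int_le (iR.add (j12.const_mul (h ^ 2))) fun q => ?_).trans ?_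
    · change |h * (conj (rr q) * XW S V r s c q).im| ≤
        ‖rr q‖ ^ 2 + h ^ 2 * E.indicator (fun q => ‖w1 q‖ ^ 2 + ‖w2 q‖ ^ 2) q
      by_cases hq : q ∈ E
      · rw [indicator_of_mem hq]
        have h6 : ‖XW S V r s c q‖ ≤ ‖w1 q‖ + ‖w2 q‖ := by
          change ‖((q.1 - V.1 : ℝ) : ℂ) * w1 q + ((q.2 - V.2 : ℝ) : ℂ) * w2 q‖ ≤ _
          by_cases h3 : w1 q = 0 ∧ w2 q = 0
          · rw [h3.1, h3.2]
            simp
          · have h3' : w0 q ≠ 0 ∨ w1 q ≠ 0 ∨ w2 q ≠ 0 := by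
              by_cases h3a : w1 q = 0
              · exact Or.inr (Or.inr fun h3b => h3 ⟨h3a, h3b⟩)
              · exact Or.inr (Or.inl h3a)
            obtain ⟨h4, h5⟩ := hw q h3'
            refine (norm_add_le _ _).trans ?_
            rw [norm_mul, norm_mul, Complex.norm_real, Complex.norm_real, Real.norm_eq_abs,
              Real.norm_eq_abs]
            exact add_le_add (mul_le_of_le_one_left (norm_nonneg _) h4)
              (mul_le_of_le_one_left (norm_nonneg _) h5)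
        have h7 := abs_im (rr q) (XW S V r s c q)
        rw [abs_mul, abs_of_pos hh0]
        calc h * |(conj (rr q) * XW S V r s c q).im| ≤ h * (‖rr q‖ * (‖w1 q‖ + ‖w2 q‖)) :=
              mul_le_mul_of_nonneg_left
                (h7.trans (mul_le_mul_of_nonneg_left h6 (norm_nonneg _))) hh0.le
          _ ≤ ‖rr q‖ ^ 2 + h ^ 2 * (‖w1 q‖ ^ 2 + ‖w2 q‖ ^ 2) := by
            nlinarith [sq_nonneg (‖rr q‖ - 2 * (h * ‖w1 q‖)),
              sq_nonneg (‖rr q‖ - 2 * (h * ‖w2 q‖)), sq_nonneg (‖rr q‖ - (h * ‖w1 q‖)),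
              sq_nonneg (‖rr q‖ - (h * ‖w2 q‖)), sq_nonneg (h * ‖w1 q‖),
              sq_nonneg (h * ‖w2 q‖)]
      · rw [hrr q hq, map_zero, zero_mul, Complex.zero_im, mul_zero, abs_zero]
        exact add_nonneg (by positivity)
          (mul_nonneg (by positivity) (indicator_nonneg (fun _ _ => by positivity) _))
    · change ∫ q, (‖rr q‖ ^ 2 + h ^ 2 * E.indicator (fun q => ‖w1 q‖ ^ 2 + ‖w2 q‖ ^ 2) q) ≤ 2 * C
      rw [integral_add iR (j12.const_mul (h ^ 2)), integral_const_mul]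
      linarith
  · rw [← integral_const_mul]
    refine (abs_int_le (j0.add iR) fun q => ?_).trans ?_
    · change |h * (conj (w0 q) * rr q).im| ≤ E.indicator (fun q => ‖w0 q‖ ^ 2) q + ‖rr q‖ ^ 2
      by_cases hq : q ∈ E
      · rw [indicator_of_mem hq, abs_mul, abs_of_pos hh0]
        have h7 := abs_im (w0 q) (rr q)
        calc h * |(conj (w0 q) * rr q).im| ≤ 1 * (‖w0 q‖ * ‖rr q‖) :=
              mul_le_mul hh1 h7 (abs_nonneg _) (by norm_num)
          _ ≤ ‖w0 q‖ ^ 2 + ‖rr q‖ ^ 2 := by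
            nlinarith [sq_nonneg (‖w0 q‖ - ‖rr q‖), sq_nonneg ‖w0 q‖, sq_nonneg ‖rr q‖]
      · rw [hrr q hq, mul_zero, Complex.zero_im, mul_zero, abs_zero]
        exact add_nonneg (indicator_nonneg (fun _ _ => by positivity) _) (by positivity)
    · change ∫ q, (E.indicator (fun q => ‖w0 q‖ ^ 2) q + ‖rr q‖ ^ 2) ≤ 2 * C
      rw [integral_add j0 iR]
      linarith
  · rw [← integral_const_mul]
    refine (abs_int_le (iR.add (jL.const_mul (h ^ 4))) fun q => ?_).trans ?_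
    · change |h ^ 2 * (conj (wl q) * rr q).re| ≤
        ‖rr q‖ ^ 2 + h ^ 4 * E.indicator (fun q => ‖wl q‖ ^ 2) q
      by_cases hq : q ∈ E
      · rw [indicator_of_mem hq, abs_mul, abs_of_pos (pow_pos hh0 2)]
        have h7 := abs_re (wl q) (rr q)
        calc h ^ 2 * |(conj (wl q) * rr q).re| ≤ h ^ 2 * (‖wl q‖ * ‖rr q‖) :=
              mul_le_mul_of_nonneg_left h7 (by positivity)
          _ ≤ ‖rr q‖ ^ 2 + h ^ 4 * ‖wl q‖ ^ 2 := by
            nlinarith [sq_nonneg (h ^ 2 * ‖wl q‖ - ‖rr q‖), sq_nonneg ‖rr q‖,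
              sq_nonneg (h ^ 2 * ‖wl q‖)]
      · rw [hrr q hq, mul_zero, Complex.zero_re, mul_zero, abs_zero]
        exact add_nonneg (by positivity)
          (mul_nonneg (by positivity) (indicator_nonneg (fun _ _ => by positivity) _))
    · change ∫ q, (‖rr q‖ ^ 2 + h ^ 4 * E.indicator (fun q => ‖wl q‖ ^ 2) q) ≤ 2 * C
      rw [integral_add iR (jL.const_mul (h ^ 4)), integral_const_mul]
      linarith

/-- The value at the time zero. -/
private theorem zero_bd (S : Spec D) (G : Geo D) {V : P} {δ : ℝ} (s : Finset ℕ) (c : ℕ → ℂ)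
    (h0 : 0 < th δ) (h1 : th δ ≤ 1) (n0 : nsq s c ≤ 16)
    (i0 : ∫ q in {q : P | 2 * th δ ≤ dist q V}, ‖fs S s c q‖ ^ 2 ≤ th δ ^ 4) :
    |∫ q, Qd S V (G.rho0 / 2) s (hh δ) 0 c q| ≤ 130 * th δ ^ 2 := by
  have hr : 0 < G.rho0 / 2 := half_pos G.pos
  have hr2 : 2 * (G.rho0 / 2) ≤ 1 := by
    have := G.le_one
    linarith
  set r := G.rho0 / 2 with hrd
  set θ := th δ with hθ
  set E : Set P := {q : P | 2 * θ ≤ dist q V} with hE
  have hEm : MeasurableSet E := measurableSet_le measurable_const (by fun_prop)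
  obtain ⟨hi, he⟩ := int_fs S s c
  have hj : Integrable (E.indicator fun q => ‖fs S s c q‖ ^ 2) := hi.indicator hEm
  refine (abs_int_le ((hi.const_mul (8 * θ ^ 2)).add (hj.const_mul 2)) fun q => ?_).trans ?_
  · change |Qd S V r s (hh δ) 0 c q| ≤
      8 * θ ^ 2 * ‖fs S s c q‖ ^ 2 + 2 * E.indicator (fun q => ‖fs S s c q‖ ^ 2) q
    have h3 : Qd S V r s (hh δ) 0 c q = sq (q - V) * ‖W0 S V r s c q‖ ^ 2 := by
      unfold Qd sq
      rw [zero_mul, Complex.ofReal_zero, mul_zero, zero_mul, add_zero, zero_mul, add_zero,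
        norm_mul, norm_mul, Complex.norm_real, Complex.norm_real, mul_pow, mul_pow,
        Real.norm_eq_abs, Real.norm_eq_abs, sq_abs, sq_abs]
      change (q.1 - V.1) ^ 2 * ‖W0 S V r s c q‖ ^ 2 + (q.2 - V.2) ^ 2 * ‖W0 S V r s c q‖ ^ 2 =
        ((q.1 - V.1) ^ 2 + (q.2 - V.2) ^ 2) * ‖W0 S V r s c q‖ ^ 2
      ring
    have hsq : 0 ≤ sq (q - V) := by
      unfold sq
      positivity
    rw [h3, abs_of_nonneg (mul_nonneg hsq (by positivity))]
    have hηn : ‖W0 S V r s c q‖ ^ 2 ≤ ‖fs S s c q‖ ^ 2 := by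
      unfold W0
      rw [norm_mul, mul_pow, Complex.norm_real, Real.norm_eq_abs]
      obtain ⟨h4, h5⟩ := cutV_mem V r q
      rw [abs_of_nonneg h4]
      have h6 : cutV V r q ^ 2 ≤ 1 := pow_le_one₀ h4 h5
      exact mul_le_of_le_one_left (by positivity) h6
    have hcomp : ∀ a : ℝ, 0 ≤ a → dist q V ≤ a → sq (q - V) ≤ 2 * a ^ 2 := by
      intro a ha hd
      rw [dist_eq_norm, Prod.norm_def, max_le_iff, Real.norm_eq_abs, Real.norm_eq_abs] at hd
      obtain ⟨h4, h5⟩ := hd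
      have h6 := sq_le_sq' (abs_le.mp h4).1 (abs_le.mp h4).2
      have h7 := sq_le_sq' (abs_le.mp h5).1 (abs_le.mp h5).2
      unfold sq
      linarith
    by_cases hq : q ∈ E
    · rw [indicator_of_mem hq]
      have h9 : 0 ≤ 8 * θ ^ 2 * ‖fs S s c q‖ ^ 2 := by positivity
      by_cases h4 : dist q V ≤ 1
      · have h5 := hcomp 1 zero_le_one h4
        have h6 : sq (q - V) * ‖W0 S V r s c q‖ ^ 2 ≤ 2 * ‖fs S s c q‖ ^ 2 :=
          mul_le_mul (by linarith) hηn (by positivity) (by norm_num)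
        linarith
      · have h5 := (W_zero S hr s c (q := q) (V := V) (by linarith [not_le.mp h4])).1
        rw [h5, norm_zero, zero_pow two_ne_zero, mul_zero]
        positivity
    · rw [indicator_of_notMem hq, mul_zero, add_zero]
      have h4 : dist q V ≤ 2 * θ := (not_le.mp hq).le
      have h5 := hcomp (2 * θ) (by positivity) h4
      exact mul_le_mul (by nlinarith) hηn (by positivity) (by positivity)
  · change ∫ q, (8 * θ ^ 2 * ‖fs S s c q‖ ^ 2 + 2 * E.indicator (fun q => ‖fs S s c q‖ ^ 2) q) ≤ _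
    rw [integral_add (hi.const_mul _) (hj.const_mul _), integral_const_mul, integral_const_mul,
      integral_indicator hEm, he]
    have h4 : θ ^ 4 ≤ θ ^ 2 := pow_le_pow_of_le_one h0.le h1 (by norm_num)
    have h5 : 8 * θ ^ 2 * nsq s c ≤ 8 * θ ^ 2 * 16 := mul_le_mul_of_nonneg_left n0 (by positivity)
    linarith

theorem virial (S : Spec D) (G : Geo D) (C₀ : ℝ) : ∃ C : ℝ, 0 ≤ C ∧ ∀ᶠ δ in 𝓝[>] (0 : ℝ),
    ∀ V ∈ G.V, ∀ (s : Finset ℕ) (c : ℕ → ℂ), Dat S V C₀ δ s c → ∀ t, 0 ≤ t → t ≤ G.rho0 / 32 →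
      ∫ q, Qd S V (G.rho0 / 2) s (hh δ) t (cev S (hh δ) t c) q ≤ C * th δ ^ 2 := by
  obtain ⟨C, hC, hs⟩ := shell_W S G C₀
  refine ⟨130 + 24 * C, by positivity, ?_⟩
  filter_upwards [hs, Ioo_mem_nhdsGT (one_pos : (0 : ℝ) < 1)] with δ hδ hδ1 V hV s c hd t ht ht'
  have hhp : 0 < hh δ := pow_pos hδ1.1 80
  have hh1 : hh δ ≤ 1 := pow_le_one₀ hδ1.1.le hδ1.2.le
  have hth : 0 < th δ := pow_pos hδ1.1 38
  have hth1 : th δ ≤ 1 := pow_le_one₀ hδ1.1.le hδ1.2.le
  have hr : 0 < G.rho0 / 2 := half_pos G.pos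
  have hr' : G.rho0 / 2 ≤ G.rho0 := by linarith [G.pos]
  have hrl : G.rho0 / 32 ≤ 1 := by linarith [G.le_one]
  have hder := fun x => derQ S G hV (h := hh δ) hr hr' s c x
  have hb : ∀ x ∈ Icc (0 : ℝ) t,
      ‖(∫ q, Qd S V (G.rho0 / 2) s (hh δ) x (cev S (hh δ) x c) q) -
        ∫ q, Qd S V (G.rho0 / 2) s (hh δ) 0 (cev S (hh δ) 0 c) q‖ ≤
      24 * (C * th δ ^ 2) * (x - 0) := by
    refine norm_image_sub_le_of_norm_deriv_le_segment'
      (f := fun x => ∫ q, Qd S V (G.rho0 / 2) s (hh δ) x (cev S (hh δ) x c) q)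
      (fun x _ => (hder x).hasDerivWithinAt) fun x hx => ?_
    have hx0 : 0 ≤ x := hx.1
    have hx1 : x ≤ G.rho0 / 32 := hx.2.le.trans ht'
    have hx2 : x ≤ 1 := hx1.trans hrl
    obtain ⟨b1, b2, b3, b4, -⟩ := hδ V s c hd x hx0 hx1
    obtain ⟨c1, c2, c3, c4⟩ := der_bd S G s (cev S (hh δ) x c) hhp hh1 b1 b2 b3 b4
    set A1 := ∫ q, sq (q - V) * (conj (W0 S V (G.rho0 / 2) s (cev S (hh δ) x c) q) *
      RR S V (G.rho0 / 2) s (hh δ) (cev S (hh δ) x c) q).re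
    set A2 := ∫ q, (conj (RR S V (G.rho0 / 2) s (hh δ) (cev S (hh δ) x c) q) *
      XW S V (G.rho0 / 2) s (cev S (hh δ) x c) q).im
    set A3 := ∫ q, (conj (W0 S V (G.rho0 / 2) s (cev S (hh δ) x c) q) *
      RR S V (G.rho0 / 2) s (hh δ) (cev S (hh δ) x c) q).im
    set A4 := ∫ q, (conj (WL S V (G.rho0 / 2) s (cev S (hh δ) x c) q) *
      RR S V (G.rho0 / 2) s (hh δ) (cev S (hh δ) x c) q).re
    have e1 : 2 * A1 - 4 * x * hh δ * A2 + 4 * x * hh δ * A3 + 2 * x ^ 2 * hh δ ^ 2 * A4 =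
        2 * A1 - 4 * x * (hh δ * A2) + 4 * x * (hh δ * A3) + 2 * x ^ 2 * (hh δ ^ 2 * A4) := by
      ring
    rw [e1, Real.norm_eq_abs]
    set B2 := hh δ * A2
    set B3 := hh δ * A3
    set B4 := hh δ ^ 2 * A4
    have hK : 0 ≤ C * th δ ^ 2 := by positivity
    have k2 : |x * B2| ≤ 2 * (C * th δ ^ 2) := by
      rw [abs_mul, abs_of_nonneg hx0]
      exact (mul_le_of_le_one_left (abs_nonneg _) hx2).trans c2
    have k3 : |x * B3| ≤ 2 * (C * th δ ^ 2) := by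
      rw [abs_mul, abs_of_nonneg hx0]
      exact (mul_le_of_le_one_left (abs_nonneg _) hx2).trans c3
    have k4 : |x ^ 2 * B4| ≤ 2 * (C * th δ ^ 2) := by
      rw [abs_mul, abs_of_nonneg (sq_nonneg x)]
      exact (mul_le_of_le_one_left (abs_nonneg _) (pow_le_one₀ hx0 hx2)).trans c4
    rw [abs_le] at c1 k2 k3 k4 ⊢
    constructor <;> nlinarith [c1.1, c1.2, k2.1, k2.2, k3.1, k3.2, k4.1, k4.2]
  have h1 := hb t ⟨ht, le_rfl⟩
  have h2 := zero_bd S G (V := V) s c hth hth1 hd.n0 hd.i0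
  rw [cev_zero, sub_zero, Real.norm_eq_abs] at h1
  have h3 := (abs_le.mp h1).2
  have h4 := (abs_le.mp h2).2
  have h5 : 24 * (C * th δ ^ 2) * t ≤ 24 * (C * th δ ^ 2) :=
    mul_le_of_le_one_right (by positivity) (ht'.trans hrl)
  linarith

end

end Pool.Agent.MP4eed4eR.E
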