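import Pool.Agent.Lib.MP_4eed4e_an_RE.EVirA

/-!
MP_4eed4e_an, project R, block E, module EVirB: the derivative of `A t = ∫ |X|² ‖w‖²`.

PROOF. `c_t = cev S h t c`, `W0 = W0 S V r s c_t`, `X = q - V`, `B = ∫ Im (conj W0 * XW)`. Apply
`hasDerivAt_form` with `a k q = sq (q - V) * η q * u_k q`, `b k q = η q * u_k q` (`η = cutV V r`
vanishes off the square of radius `2 r`, so `sq (q - V) * η` is bounded) and `hasDerivAt_cev`: the
derivative is `∫ |X|² 2 Re (conj W0 * W0')`, `W0' = W0 S V r s (cdt S h c_t)` `= - (i h / 2) WL +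
RR` (`W0_cdt`). Here `2 Re (conj W0 (- (i h / 2) WL)) = h Im (conj W0 WL)`, and `CDom.flux` for
the function `ζ₃` of `cutX` (equal to `|X|²` where `W0 ≠ 0`) gives `h ∫ |X|² Im (conj W0 WL) = h ∫
Im (conj W0 (2 X · ∇ W)) = 2 h B`. At the points with `dist q V = 2 r` one has `W0 = 0`
(`cutV_zero`).
-/

namespace Pool.Agent.MP4eed4eR.E

open MeasureTheory Set Filter Topology Metric
open scoped ComplexConjugate ContDiff

noncomputable section

variable {D : Set P}

private theorem evb_W0 (S : Spec D) (V : P) (r : ℝ) (s : Finset ℕ) (c : ℕ → ℂ) (q : P) :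
    ∑ k ∈ s, c k * ((cutV V r q : ℂ) * (S.u k q : ℂ)) = W0 S V r s c q := by
  unfold W0 fs
  rw [Finset.mul_sum]
  exact Finset.sum_congr rfl fun k _ => by ring

private theorem evb_mem (S : Spec D) (V : P) {r : ℝ} (hr : 0 < r) (k : ℕ) :
    MemLp (fun q => (cutV V r q : ℂ) * (S.u k q : ℂ)) 2 volume := by
  have h := (cdom_W S V hr {k} (fun _ => 1)).ch.memLp.1
  have e : W0 S V r {k} (fun _ => 1) = fun q => (cutV V r q : ℂ) * (S.u k q : ℂ) := by
    funext q
    simp [W0, fs]
  rwa [e] at h

private theorem evb_prod {f g : P → ℂ} (hf : MemLp f 2 volume) (hg : MemLp g 2 volume) :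
    Integrable (fun q => conj (f q) * g q) :=
  hf.star.integrable_mul hg

private theorem evb_wprod {ζ : P → ℝ} (hζ : Cut ζ) {f g : P → ℂ} (hf : MemLp f 2 volume)
    (hg : MemLp g 2 volume) : Integrable (fun q => (ζ q : ℂ) * (conj (f q) * g q)) := by
  obtain ⟨C, hC⟩ := hζ.bdd
  refine (evb_prod hf hg).bdd_mul (c := C) ?_ ?_
  · exact (Complex.continuous_ofReal.comp hζ.smooth.continuous).aestronglyMeasurable
  · exact Eventually.of_forall fun q => by
      rw [Complex.norm_real, Real.norm_eq_abs]
      exact (hC q).1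

theorem derA (S : Spec D) {V : P} {r h : ℝ} (hr : 0 < r) (s : Finset ℕ) (c : ℕ → ℂ) (t : ℝ) :
    HasDerivAt (fun t => ∫ q, sq (q - V) * ‖W0 S V r s (cev S h t c) q‖ ^ 2)
      (2 * h * (∫ q, (conj (W0 S V r s (cev S h t c) q) * XW S V r s (cev S h t c) q).im) +
        2 * ∫ q, sq (q - V) *
          (conj (W0 S V r s (cev S h t c) q) * RR S V r s h (cev S h t c) q).re) t := by
  obtain ⟨ζ₁, ζ₂, ζ, -, -, hζ, hζq⟩ := cutX V hr
  have hz : ∀ q, dist q V < 2 * r ∨ ∀ c, W0 S V r s c q = 0 := by
    intro q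
    rcases lt_or_ge (dist q V) (2 * r) with h1 | h1
    · exact Or.inl h1
    · refine Or.inr fun c => ?_
      unfold W0
      rw [cutV_zero hr h1]
      simp
  have key := hasDerivAt_form s
    (a := fun k q => (ζ q : ℂ) * ((cutV V r q : ℂ) * (S.u k q : ℂ)))
    (b := fun k q => (cutV V r q : ℂ) * (S.u k q : ℂ)) (fun j _ k _ => by
      refine (evb_wprod hζ (evb_mem S V hr j) (evb_mem S V hr k)).congr
        (Eventually.of_forall fun q => ?_)
      simp only [map_mul, Complex.conj_ofReal]
      ring) (c := fun t => cev S h t c) (c' := cdt S h (cev S h t c)) (t := t)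
    (fun k _ => hasDerivAt_cev S h c k t)
  have e1 : ∀ (c₁ : ℕ → ℂ) (q : P),
      ∑ k ∈ s, c₁ k * ((ζ q : ℂ) * ((cutV V r q : ℂ) * (S.u k q : ℂ))) =
        (ζ q : ℂ) * W0 S V r s c₁ q := by
    intro c₁ q
    rw [← evb_W0, Finset.mul_sum]
    exact Finset.sum_congr rfl fun k _ => by ring
  simp only [e1, evb_W0] at key
  have hf : ∀ t', ∫ q, conj ((ζ q : ℂ) * W0 S V r s (cev S h t' c) q) *
      W0 S V r s (cev S h t' c) q =
        ((∫ q, sq (q - V) * ‖W0 S V r s (cev S h t' c) q‖ ^ 2 : ℝ) : ℂ) := by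
    intro t'
    rw [← integral_complex_ofReal]
    refine integral_congr_ae (Eventually.of_forall fun q => ?_)
    show conj ((ζ q : ℂ) * W0 S V r s (cev S h t' c) q) * W0 S V r s (cev S h t' c) q =
      ((sq (q - V) * ‖W0 S V r s (cev S h t' c) q‖ ^ 2 : ℝ) : ℂ)
    rcases hz q with h1 | h1
    · rw [← (hζq q h1).2.2.1, map_mul, Complex.conj_ofReal, mul_assoc, Complex.conj_mul']
      push_cast
      ring
    · rw [h1]
      simp
  have mW := (cdom_W S V hr s (cev S h t c)).ch.memLp.1
  have mL := (cdom_W S V hr s (cev S h t c)).memLp_f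
  have mR := (memLp_Cm S V hr s (cev S h t c) h).2
  have i1 : Integrable (fun q => ζ q *
      (conj (W0 S V r s (cev S h t c) q) * WL S V r s (cev S h t c) q).im) := by
    refine (evb_wprod hζ mW mL).im.congr (Eventually.of_forall fun q => ?_)
    simp [Complex.mul_im]
  have i2 : Integrable (fun q => ζ q *
      (conj (W0 S V r s (cev S h t c) q) * RR S V r s h (cev S h t c) q).re) := by
    refine (evb_wprod hζ mW mR).re.congr (Eventually.of_forall fun q => ?_)
    simp [Complex.mul_re]
  have fl : ∫ q, ζ q * (conj (W0 S V r s (cev S h t c) q) * WL S V r s (cev S h t c) q).im =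
      2 * ∫ q, (conj (W0 S V r s (cev S h t c) q) * XW S V r s (cev S h t c) q).im := by
    rw [(cdom_W S V hr s (cev S h t c)).flux hζ, ← integral_const_mul]
    refine integral_congr_ae (Eventually.of_forall fun q => ?_)
    show (conj (W0 S V r s (cev S h t c) q) * ((d1 ζ q : ℂ) * W1 S V r s (cev S h t c) q +
      (d2 ζ q : ℂ) * W2 S V r s (cev S h t c) q)).im =
        2 * (conj (W0 S V r s (cev S h t c) q) * XW S V r s (cev S h t c) q).im
    rcases hz q with h1 | h1
    · obtain ⟨-, -, -, -, -, a1, a2⟩ := hζq q h1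
      rw [a1, a2]
      have : conj (W0 S V r s (cev S h t c) q) *
          (((2 * (q.1 - V.1) : ℝ) : ℂ) * W1 S V r s (cev S h t c) q +
            ((2 * (q.2 - V.2) : ℝ) : ℂ) * W2 S V r s (cev S h t c) q) =
          ((2 : ℝ) : ℂ) * (conj (W0 S V r s (cev S h t c) q) * XW S V r s (cev S h t c) q) := by
        unfold XW
        push_cast
        ring
      rw [this, Complex.im_ofReal_mul]
    · rw [h1]
      simp
  have hd : ∫ q, (conj ((ζ q : ℂ) * W0 S V r s (cdt S h (cev S h t c)) q) *
      W0 S V r s (cev S h t c) q + conj ((ζ q : ℂ) * W0 S V r s (cev S h t c) q) *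
        W0 S V r s (cdt S h (cev S h t c)) q) =
      ((2 * h * (∫ q, (conj (W0 S V r s (cev S h t c) q) * XW S V r s (cev S h t c) q).im) +
        2 * ∫ q, sq (q - V) *
          (conj (W0 S V r s (cev S h t c) q) * RR S V r s h (cev S h t c) q).re : ℝ) : ℂ) := by
    have g1 : ∀ q, conj ((ζ q : ℂ) * W0 S V r s (cdt S h (cev S h t c)) q) *
        W0 S V r s (cev S h t c) q + conj ((ζ q : ℂ) * W0 S V r s (cev S h t c) q) *
          W0 S V r s (cdt S h (cev S h t c)) q =
        ((h * (ζ q * (conj (W0 S V r s (cev S h t c) q) *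
          WL S V r s (cev S h t c) q).im) + 2 * (ζ q * (conj (W0 S V r s (cev S h t c) q) *
            RR S V r s h (cev S h t c) q).re) : ℝ) : ℂ) := by
      intro q
      rw [W0_cdt]
      generalize W0 S V r s (cev S h t c) q = w
      generalize WL S V r s (cev S h t c) q = l
      generalize RR S V r s h (cev S h t c) q = ρ
      generalize hk : h / 2 = k
      have hk' : h = 2 * k := by linarith
      rw [hk']
      apply Complex.ext
      · simp
        ring
      · simp
        ring
    simp only [g1]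
    rw [integral_complex_ofReal, integral_add (i1.const_mul h) (i2.const_mul 2),
      integral_const_mul, integral_const_mul, fl]
    congr 1
    have g2 : ∫ q, ζ q * (conj (W0 S V r s (cev S h t c) q) *
        RR S V r s h (cev S h t c) q).re = ∫ q, sq (q - V) *
          (conj (W0 S V r s (cev S h t c) q) * RR S V r s h (cev S h t c) q).re := by
      refine integral_congr_ae (Eventually.of_forall fun q => ?_)
      show ζ q * (conj (W0 S V r s (cev S h t c) q) *
        RR S V r s h (cev S h t c) q).re = sq (q - V) *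
          (conj (W0 S V r s (cev S h t c) q) * RR S V r s h (cev S h t c) q).re
      rcases hz q with h1 | h1
      · rw [(hζq q h1).2.2.1]
      · rw [h1]
        simp
    rw [g2]
    ring
  rw [hd] at key
  simp only [hf] at key
  have h3 := (Complex.reCLM.hasFDerivAt).comp_hasDerivAt t key
  simpa [Function.comp_def] using h3

end

end Pool.Agent.MP4eed4eR.E
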